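import Pool.Agent.Lib.MP_79499b_co.PCMain
import Pool.Agent.Lib.MP_79499b_co.EO.K5
import Pool.Agent.Lib.MP_79499b_co.EO.K7
import Pool.Agent.Lib.MP_79499b_co.EO.R1

/-!
# Planar difference sets, all `n`: definitions

`Phi 3 n = n^2 + n + 1`, `Exact`, `Rem`, `LL`, `YY`, `T`, `esum`, `msum`, `GG`, `UU`, `NR` are those of `Q38`.
-/

set_option autoImplicit false

namespace Pool.Agent.Lib.MP_79499b_co.PL

open Finset Q38
open scoped Classical NumberTheorySymbols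

/-- `2 hN p` is half of the order of the group of elements of norm one: `(p - 1)/2` or `(p + 1)/2` -/
def hN (p : ℕ) : ℕ := (p + 1) / 4

/-- the sign in the quartic condition; depends on `n % 8` only -/
def sg (n p : ℕ) : ℤ :=
  (if n % 2 = 0 then J(2 | p) else 1) * (if p % 4 = 3 ∧ (n ^ 2 + n + 1) % 8 = 5 then -1 else 1)

section forms
variable {R : Type*} [CommRing R]

/-- `a^2 + 4 a b + b^2` -/
def gP (a b : R) : R := a ^ 2 + 4 * a * b + b ^ 2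

/-- the polar form of `gP`: `a e + 2 (a f + b e) + b f` -/
def gB (a b e f : R) : R := a * e + 2 * (a * f + b * e) + b * f

/-- `a^2 + a b + b^2` -/
def cF (a b : R) : R := a ^ 2 + a * b + b ^ 2

/-- twice the polar form of `cF`: `2 a e + (a f + b e) + 2 b f` -/
def cN (a b e f : R) : R := 2 * (a * e) + (a * f + b * e) + 2 * (b * f)

end forms

/-- forbidden classes, Gauss case (`f = a⁻¹ (b e + σ)`) -/
def OmG (r : ℕ) (σ : ℤ) (p : ℕ) (a b e : ZMod p) : Prop :=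
  a ≠ 0 ∧
  ((p % 12 = 1 ∧ (gP a b + gP e (a⁻¹ * (b * e + σ)) - 2) ^ 2 +
      4 * (gP a b + gP e (a⁻¹ * (b * e + σ)) - 2) + 16 = 0) ∨
   (gP a b + gP e (a⁻¹ * (b * e + σ)) = 2 ∧ gP a b + 1 ≠ 0 ∧
      (IsSquare (gP a b + 1) ↔ ¬ sg r p = 1)))

/-- forbidden classes, critical case -/
def OmC (σ : ℤ) (p : ℕ) (a b e : ZMod p) : Prop :=
  a ≠ 0 ∧
  ((p % 3 = 1 ∧ (cF a b = 0 ∨ cF e (a⁻¹ * (b * e + σ)) = 0)) ∨
   (cN a b e (a⁻¹ * (b * e + σ)) = 1 ∧ ¬ IsSquare (-(cF a b))))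

/-- number of forbidden classes modulo `p` -/
noncomputable def omc (Om : ℕ → ℕ → ℕ → ℕ → Prop) (p : ℕ) : ℕ :=
  ((range p ×ˢ range p ×ˢ range p).filter (fun t : ℕ × ℕ × ℕ => Om p t.1 t.2.1 t.2.2)).card

/-- `Om p` depends on the classes modulo `p` only and excludes `a = 0` -/
def Per (Om : ℕ → ℕ → ℕ → ℕ → Prop) : Prop :=
  ∀ p : ℕ, p.Prime → (∀ a b e : ℕ, Om p (a % p) (b % p) (e % p) ↔ Om p a b e) ∧
    ∀ a b e : ℕ, Om p a b e → ¬ p ∣ a

/-- the error term of the Kloosterman count for the modulus `a` -/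
noncomputable def errA (a B E : ℕ) : ℝ :=
  (a.divisors.card : ℝ) ^ 2 * (a : ℝ) ^ (5 / 6 : ℝ) * (1 + Real.log a) ^ 2 * (1 + ((B : ℝ) + E) / a)

/-- the points of a block in which the conditions `Om p`, `p ∈ S`, hold -/
noncomputable def blk (Om : ℕ → ℕ → ℕ → ℕ → Prop) (S : Finset ℕ) (A B E : ℕ) (η : ℤ) :
    Finset (ℕ × ℕ × ℕ) :=
  (Ioc A (2 * A) ×ˢ range B ×ˢ range E).filter (fun t : ℕ × ℕ × ℕ =>
    (t.1 : ℤ) ∣ (t.2.1 : ℤ) * (t.2.2 : ℤ) + η ∧ ∀ p ∈ S, Om p t.1 t.2.1 t.2.2)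

/-- the points of a block in which no condition `Om p`, `p ∈ U`, holds -/
noncomputable def sft (Om : ℕ → ℕ → ℕ → ℕ → Prop) (U : Finset ℕ) (A B E : ℕ) (η : ℤ) :
    Finset (ℕ × ℕ × ℕ) :=
  (Ioc A (2 * A) ×ˢ range B ×ˢ range E).filter (fun t : ℕ × ℕ × ℕ =>
    (t.1 : ℤ) ∣ (t.2.1 : ℤ) * (t.2.2 : ℤ) + η ∧ ∀ p ∈ U, ¬ Om p t.1 t.2.1 t.2.2)

/-- the sieving limit of the sieve in `SL2` -/
noncomputable def zz (x : ℕ) : ℕ := ⌊Real.exp (Real.log x / (20000 * LL x))⌋₊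

/-- lower end of the sieving range -/
noncomputable def P0 (x : ℕ) : ℕ := ⌈Real.log x ^ 3⌉₊

/-- the sieving primes of the sieve in `SL2` -/
noncomputable def UZ (x : ℕ) : Finset ℕ := (range (zz x)).filter (fun p => p.Prime ∧ P0 x ≤ p)

/-- at most `x / (log x)^c` numbers `n < x` have the property `P x`, for large `x` -/
def Fw (c : ℝ) (P : ℕ → ℕ → Prop) : Prop :=
  ∃ x₀ : ℕ, ∀ x : ℕ, x₀ ≤ x → (((range x).filter (P x)).card : ℝ) ≤ x * Real.exp (-(c * LL x))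

/-- no prime below `z` divides `n^2 + n + 1` -/
def Rough (z n : ℕ) : Prop := ∀ w : ℕ, w.Prime → w ∣ Phi 3 n → z ≤ w

/-- no square of a prime `≥ z` divides `n` -/
def NoSq (z n : ℕ) : Prop := ∀ p : ℕ, p.Prime → z ≤ p → ¬ p ^ 2 ∣ n

/-- `∑_{u < Y prime} (u/w)/u` -/
noncomputable def SS (Y w : ℕ) : ℝ :=
  ∑ u ∈ (range Y).filter Nat.Prime, ((J((u : ℤ) | w) : ℤ) : ℝ) / u

lemma Fw.mono {c : ℝ} {P P' : ℕ → ℕ → Prop} (h : Fw c P') (hP : ∀ x n, P x n → P' x n) : Fw c P := by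
  obtain ⟨x₀, h⟩ := h
  refine ⟨x₀, fun x hx => le_trans ?_ (h x hx)⟩
  refine Nat.cast_le.mpr (card_le_card ?_)
  intro n hn
  rw [mem_filter] at *
  exact ⟨hn.1, hP x n hn.2⟩

/-- like `mono`, with the inclusion only for large `x` and all `n < x` -/
lemma Fw.mono' {c : ℝ} {P P' : ℕ → ℕ → Prop} (h : Fw c P')
    (hP : ∃ x₁ : ℕ, ∀ x n, x₁ ≤ x → n < x → P x n → P' x n) : Fw c P := by
  obtain ⟨x₀, h⟩ := h
  obtain ⟨x₁, hP⟩ := hP
  refine ⟨max x₀ x₁, fun x hx => le_trans ?_ (h x (le_trans (le_max_left _ _) hx))⟩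
  refine Nat.cast_le.mpr (card_le_card ?_)
  intro n hn
  rw [mem_filter, mem_range] at *
  exact ⟨hn.1, hP x n (le_trans (le_max_right _ _) hx) hn.1 hn.2⟩

lemma Fw.of_lt {c c' : ℝ} (hcc : c' ≤ c) {P : ℕ → ℕ → Prop} (h : Fw c P) : Fw c' P := by
  obtain ⟨x₀, h⟩ := h
  obtain ⟨x₁, h1⟩ := Filter.eventually_atTop.mp (tendsto_LL.eventually_ge_atTop 0)
  refine ⟨max x₀ x₁, fun x hx => (h x (le_trans (le_max_left _ _) hx)).trans ?_⟩
  have h2 := h1 x (le_trans (le_max_right _ _) hx)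
  refine mul_le_mul_of_nonneg_left (Real.exp_le_exp.mpr ?_) (Nat.cast_nonneg _)
  nlinarith

lemma card_or {α : Type*} (s : Finset α) (P P' Q : α → Prop) [DecidablePred Q]
    (h : ∀ n, Q n → P n ∨ P' n) : (s.filter Q).card ≤ (s.filter P).card + (s.filter P').card := by
  refine (card_le_card (t := s.filter P ∪ s.filter P') ?_).trans (card_union_le _ _)
  intro n hn
  rw [mem_filter] at hn
  rw [mem_union, mem_filter, mem_filter]
  rcases h n hn.2 with h4 | h4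
  · exact Or.inl ⟨hn.1, h4⟩
  · exact Or.inr ⟨hn.1, h4⟩

/-- a union of two rare sets is rare, with a smaller exponent -/
lemma Fw.or {c c' : ℝ} (hcc : c' < c) {P P' : ℕ → ℕ → Prop} (h : Fw c P) (h' : Fw c P') :
    Fw c' (fun x n => P x n ∨ P' x n) := by
  obtain ⟨x₀, h⟩ := h
  obtain ⟨x₁, h'⟩ := h'
  obtain ⟨x₂, h2⟩ := Filter.eventually_atTop.mp
    (tendsto_LL.eventually_ge_atTop (Real.log 2 / (c - c')))
  refine ⟨max x₀ (max x₁ x₂), fun x hx => ?_⟩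
  have k1 := h x (le_trans (le_max_left _ _) hx)
  have k2 := h' x (le_trans (le_trans (le_max_left _ _) (le_max_right _ _)) hx)
  have k3 := h2 x (le_trans (le_trans (le_max_right _ _) (le_max_right _ _)) hx)
  have hcc' : 0 < c - c' := by linarith
  rw [div_le_iff₀ hcc'] at k3
  have k4 : (2 : ℝ) * Real.exp (-(c * LL x)) ≤ Real.exp (-(c' * LL x)) := by
    have : (2 : ℝ) = Real.exp (Real.log 2) := (Real.exp_log (by norm_num)).symm
    rw [this, ← Real.exp_add]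
    apply Real.exp_le_exp.mpr
    nlinarith
  have hx0 : (0 : ℝ) ≤ x := Nat.cast_nonneg x
  have k7 := mul_le_mul_of_nonneg_left k4 hx0
  have k8 := fun (i : DecidablePred ((fun x n => P x n ∨ P' x n) x)) =>
    (Nat.cast_le (α := ℝ)).mpr (card_or (range x) (P x) (P' x) _ (fun n h => h))
  refine (k8 _).trans ?_
  push_cast
  linarith

end Pool.Agent.Lib.MP_79499b_co.PL
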