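import Pool.Agent.Lib.MP_79499b_co.PL.Defs

/-!
# K1: two-sided Kloosterman count

Claim. For `q` coprime to `a`: the number of `(b, e)`, `b < B`, `e < E`, with `a ∣ (b₀ + q b)(e₀ + q e) + η` is `B E φ(a)/a^2` up to `errA a B E`.

Proof: modify `lemmaK` in EO/K5.lean. There the count is `≤ R`, in fact it is equal to `R` (for each pair `(b, e)` the sum over the units `y` of the product of the
two indicators is 1 if `a` divides and 0 otherwise: `y` is determined by `b`, and for `y = b₀ + q b` unit the second indicator says `(b₀+qb)(e₀+qe) = -η`).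
`R = a^(-2) ∑_{(h,k)} fs(h) fs'(k) kl(-h, η k)`; the term `(0,0)` is exactly `B E φ(a)` (`fs_zero`; `kl a 0 0` is the number of units, `ZMod.card_units_eq_totient`),
the other terms are bounded as in `hrest` there by `τ (τ a^(5/6) (a L^2 (B + E + a)))` in absolute value; divided by `a^2` this is
`τ^2 a^(5/6) L^2 (1 + (B+E)/a) = errA a B E`.
-/

set_option autoImplicit false

namespace Pool.Agent.Lib.MP_79499b_co.PL

open Finset Q38 Pool.Agent.Lib.MP_79499b_co.EO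
open scoped Classical NumberTheorySymbols

theorem K1_main (a q b₀ e₀ B E : ℕ) (ha : 0 < a) (hq : Nat.Coprime q a) (η : ℤ)
    (hη : η = 1 ∨ η = -1) :
    |(((range B ×ˢ range E).filter (fun t : ℕ × ℕ =>
      (a : ℤ) ∣ ((b₀ + q * t.1 : ℕ) : ℤ) * ((e₀ + q * t.2 : ℕ) : ℤ) + η)).card : ℝ) -
        (B : ℝ) * E * a.totient / (a : ℝ) ^ 2| ≤ errA a B E := by
  haveI : NeZero a := ⟨ha.ne'⟩
  have ha' : (0 : ℝ) < a := by exact_mod_cast ha
  have ha1 : (1 : ℝ) ≤ a := by exact_mod_cast ha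
  obtain ⟨τ, hτ⟩ : ∃ τ : ℝ, τ = (a.divisors.card : ℝ) := ⟨_, rfl⟩
  obtain ⟨A, hA⟩ : ∃ A : ℝ, A = (a : ℝ) ^ (5 / 6 : ℝ) := ⟨_, rfl⟩
  obtain ⟨L, hL⟩ : ∃ L : ℝ, L = 1 + Real.log a := ⟨_, rfl⟩
  have hL1 : 1 ≤ L := by
    rw [hL]
    have := Real.log_nonneg ha1
    linarith
  have hτ0 : 0 ≤ τ := by rw [hτ]; exact Nat.cast_nonneg _
  have hA0 : 0 ≤ A := by rw [hA]; positivity
  -- the real double sum
  obtain ⟨R, hR⟩ : ∃ R : ℝ, R = ∑ y : (ZMod a)ˣ,
      (∑ b ∈ range B, (if ((b₀ + q * b : ℕ) : ZMod a) = y then (1 : ℝ) else 0)) *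
      (∑ e ∈ range E, (if ((e₀ + q * e : ℕ) : ZMod a) =
        -((η : ZMod a) * ((y⁻¹ : (ZMod a)ˣ) : ZMod a)) then (1 : ℝ) else 0)) := ⟨_, rfl⟩
  have hηη : (η : ZMod a) * (η : ZMod a) = 1 := by
    rcases hη with rfl | rfl <;> simp
  have hN : (((range B ×ˢ range E).filter (fun t : ℕ × ℕ =>
      (a : ℤ) ∣ ((b₀ + q * t.1 : ℕ) : ℤ) * ((e₀ + q * t.2 : ℕ) : ℤ) + η)).card : ℝ) = R := by
    rw [card_filter, Nat.cast_sum, hR]
    simp only [sum_mul_sum]
    rw [sum_comm]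
    rw [sum_product]
    refine sum_congr rfl fun b _ => ?_
    rw [sum_comm]
    refine sum_congr rfl fun e _ => ?_
    by_cases hd : (a : ℤ) ∣ ((b₀ + q * b : ℕ) : ℤ) * ((e₀ + q * e : ℕ) : ℤ) + η
    · rw [if_pos hd]
      have h1 : ((b₀ + q * b : ℕ) : ZMod a) * ((e₀ + q * e : ℕ) : ZMod a) + (η : ZMod a) = 0 := by
        rw [← ZMod.intCast_zmod_eq_zero_iff_dvd] at hd
        push_cast at hd ⊢
        exact hd
      obtain ⟨u, hu⟩ : ∃ u : ZMod a, u = ((b₀ + q * b : ℕ) : ZMod a) := ⟨_, rfl⟩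
      obtain ⟨v, hv⟩ : ∃ v : ZMod a, v = ((e₀ + q * e : ℕ) : ZMod a) := ⟨_, rfl⟩
      rw [← hu, ← hv] at h1 ⊢
      have h2 : u * (-((η : ZMod a) * v)) = 1 := by linear_combination (-(η : ZMod a)) * h1 + hηη
      obtain ⟨y0, hy0⟩ : ∃ y0 : (ZMod a)ˣ, y0 = Units.mkOfMulEqOne u _ h2 := ⟨_, rfl⟩
      have h3 : (y0 : ZMod a) = u := by rw [hy0]; rfl
      have h4 : ((y0⁻¹ : (ZMod a)ˣ) : ZMod a) = -((η : ZMod a) * v) := by rw [hy0]; rfl
      have h5 : v = -((η : ZMod a) * ((y0⁻¹ : (ZMod a)ˣ) : ZMod a)) := by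
        rw [h4]
        linear_combination (-v) * hηη
      push_cast
      rw [Finset.sum_eq_single_of_mem y0 (mem_univ y0), if_pos h3.symm, if_pos h5, one_mul]
      intro y _ hy
      have h6 : ¬ (u = (y : ZMod a)) := by
        intro h7
        exact hy (Units.ext (h7.symm.trans h3.symm))
      rw [if_neg h6, zero_mul]
    · rw [if_neg hd, Nat.cast_zero]
      symm
      refine sum_eq_zero fun y _ => ?_
      by_cases h1 : ((b₀ + q * b : ℕ) : ZMod a) = (y : ZMod a)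
      · by_cases h2 : ((e₀ + q * e : ℕ) : ZMod a) = -((η : ZMod a) * ((y⁻¹ : (ZMod a)ˣ) : ZMod a))
        · exfalso
          apply hd
          rw [← ZMod.intCast_zmod_eq_zero_iff_dvd]
          have h3 : (y : ZMod a) * ((y⁻¹ : (ZMod a)ˣ) : ZMod a) = 1 := Units.mul_inv y
          have h4 : (((((b₀ + q * b : ℕ) : ℤ) * ((e₀ + q * e : ℕ) : ℤ) + η : ℤ)) : ZMod a) =
              ((b₀ + q * b : ℕ) : ZMod a) * ((e₀ + q * e : ℕ) : ZMod a) + (η : ZMod a) := by
            push_cast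
            ring
          rw [h4, h1, h2]
          linear_combination (-(η : ZMod a)) * h3
        · rw [if_neg h2, mul_zero]
      · rw [if_neg h1, zero_mul]
  rw [hN]
  have hRc : (R : ℂ) = ((a : ℂ)⁻¹) ^ 2 * ∑ p : ZMod a × ZMod a,
      fs a q b₀ B p.1 * fs a q e₀ E p.2 * kl a (-p.1) ((η : ZMod a) * p.2) := by
    rw [← k5_sum, hR, Complex.ofReal_sum]
    refine sum_congr rfl fun y _ => ?_
    rw [Complex.ofReal_mul, Complex.ofReal_sum, Complex.ofReal_sum]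
    congr 1
    · refine sum_congr rfl fun b _ => ?_
      split_ifs <;> simp
    · refine sum_congr rfl fun b _ => ?_
      split_ifs <;> simp
  obtain ⟨F, hF⟩ : ∃ F : ZMod a → ℝ, F = fun h => ‖fs a q b₀ B h‖ := ⟨_, rfl⟩
  obtain ⟨F', hF'⟩ : ∃ F' : ZMod a → ℝ, F' = fun h => ‖fs a q e₀ E h‖ := ⟨_, rfl⟩
  obtain ⟨K, hK⟩ : ∃ K : ZMod a × ZMod a → ℝ,
    K = fun p => ‖kl a (-p.1) ((η : ZMod a) * p.2)‖ := ⟨_, rfl⟩
  have hF0 : ∀ h, 0 ≤ F h := fun h => by rw [hF]; exact norm_nonneg _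
  have hF'0 : ∀ h, 0 ≤ F' h := fun h => by rw [hF']; exact norm_nonneg _
  have hK0 : ∀ p, 0 ≤ K p := fun h => by rw [hK]; exact norm_nonneg _
  have hrest : ∑ p ∈ univ.filter (fun p : ZMod a × ZMod a => p ≠ 0), F p.1 * F' p.2 * K p ≤
      τ * (τ * A * (a * L ^ 2 * (B + E + a))) := by
    have h1 : ∀ p ∈ univ.filter (fun p : ZMod a × ZMod a => p ≠ 0), F p.1 * F' p.2 * K p ≤
        ∑ g ∈ a.divisors, (if g ∣ p.1.val ∧ g ∣ p.2.val then
          (g * τ * A) * (F p.1 * F' p.2) else 0) := by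
      intro p _
      obtain ⟨g, hg, hg1, hg2, hg3⟩ := k5_kl a p.1 p.2 η hη
      rw [← hτ, ← hA] at hg3
      have h2 : K p ≤ g * τ * A := by rw [hK]; exact hg3
      calc F p.1 * F' p.2 * K p ≤ F p.1 * F' p.2 * (g * τ * A) :=
            mul_le_mul_of_nonneg_left h2 (mul_nonneg (hF0 _) (hF'0 _))
        _ = (if g ∣ p.1.val ∧ g ∣ p.2.val then (g * τ * A) * (F p.1 * F' p.2) else 0) := by
            rw [if_pos ⟨hg1, hg2⟩]; ring
        _ ≤ _ := single_le_sum (f := fun g : ℕ => (if g ∣ p.1.val ∧ g ∣ p.2.val then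
            (g * τ * A) * (F p.1 * F' p.2) else 0)) (fun g _ => by
              split_ifs
              · exact mul_nonneg (by positivity) (mul_nonneg (hF0 _) (hF'0 _))
              · exact le_rfl) hg
    refine le_trans (sum_le_sum h1) ?_
    rw [sum_comm]
    have h2 : ∀ g ∈ a.divisors, ∑ p ∈ univ.filter (fun p : ZMod a × ZMod a => p ≠ 0),
        (if g ∣ p.1.val ∧ g ∣ p.2.val then (g * τ * A) * (F p.1 * F' p.2) else 0) ≤
        τ * A * (a * L ^ 2 * (B + E + a)) := by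
      intro g hg
      have hga := Nat.dvd_of_mem_divisors hg
      have hg0 : 0 < g := Nat.pos_of_dvd_of_pos hga ha
      have hg' : (0 : ℝ) < g := by exact_mod_cast hg0
      have hg1 : (1 : ℝ) ≤ g := by exact_mod_cast hg0
      rw [← sum_filter, filter_filter, ← mul_sum]
      have h3 := k5_class a g F F' hF0 hF'0 ((a : ℝ) / g * L) B E
        (by rw [hF]; simp only; rw [fs_zero, Complex.norm_natCast])
        (by rw [hF']; simp only; rw [fs_zero, Complex.norm_natCast])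
        (by rw [hF, hL]; exact fs_sum_le a q b₀ B g hq hga)
        (by rw [hF', hL]; exact fs_sum_le a q e₀ E g hq hga)
      have h4 : (g : ℝ) * (B * ((a : ℝ) / g * L) + (a : ℝ) / g * L * E +
          (a : ℝ) / g * L * ((a : ℝ) / g * L)) ≤ a * L ^ 2 * (B + E + a) := by
        have e1 : (g : ℝ) * (B * ((a : ℝ) / g * L) + (a : ℝ) / g * L * E +
          (a : ℝ) / g * L * ((a : ℝ) / g * L)) = a * L * (B + E) + a * (a / g) * L ^ 2 := by
          field_simp
        rw [e1]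
        have e2 : (a : ℝ) / g ≤ a := div_le_self ha'.le hg1
        have e3 : L ≤ L ^ 2 := le_self_pow₀ hL1 (by norm_num)
        have e4 : a * L * ((B : ℝ) + E) ≤ a * L ^ 2 * (B + E) :=
          mul_le_mul_of_nonneg_right (mul_le_mul_of_nonneg_left e3 ha'.le) (by positivity)
        have e5 : (a : ℝ) * (a / g) * L ^ 2 ≤ a * a * L ^ 2 :=
          mul_le_mul_of_nonneg_right (mul_le_mul_of_nonneg_left e2 ha'.le) (by positivity)
        linarith
      calc (g * τ * A) * ∑ p ∈ univ.filter (fun p : ZMod a × ZMod a =>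
            p ≠ 0 ∧ g ∣ p.1.val ∧ g ∣ p.2.val), F p.1 * F' p.2
          ≤ (g * τ * A) * (B * ((a : ℝ) / g * L) + (a : ℝ) / g * L * E +
          (a : ℝ) / g * L * ((a : ℝ) / g * L)) :=
            mul_le_mul_of_nonneg_left h3 (by positivity)
        _ = τ * A * ((g : ℝ) * (B * ((a : ℝ) / g * L) + (a : ℝ) / g * L * E +
          (a : ℝ) / g * L * ((a : ℝ) / g * L))) := by ring
        _ ≤ _ := mul_le_mul_of_nonneg_left h4 (by positivity)
    refine le_trans (sum_le_sum h2) ?_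
    rw [sum_const, nsmul_eq_mul, ← hτ]
  have hz : fs a q b₀ B 0 * fs a q e₀ E 0 * kl a (-(0 : ZMod a)) ((η : ZMod a) * 0) =
      (B : ℂ) * E * a.totient := by
    rw [fs_zero, fs_zero]
    congr 1
    unfold kl
    have h1 : ∀ y : (ZMod a)ˣ, (ZMod.stdAddChar (-(0 : ZMod a) * (y : ZMod a) +
        (η : ZMod a) * 0 * ((y⁻¹ : (ZMod a)ˣ) : ZMod a)) : ℂ) = 1 := by
      intro y
      have h2 : -(0 : ZMod a) * (y : ZMod a) + (η : ZMod a) * 0 * ((y⁻¹ : (ZMod a)ˣ) : ZMod a) = 0 := by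
        ring
      rw [h2, AddChar.map_zero_eq_one]
    rw [sum_congr rfl fun y _ => h1 y, sum_const, nsmul_eq_mul, mul_one, card_univ,
      ZMod.card_units_eq_totient]
  have hdiff : ((R - (B : ℝ) * E * a.totient / (a : ℝ) ^ 2 : ℝ) : ℂ) = ((a : ℂ)⁻¹) ^ 2 *
      ∑ p ∈ univ.filter (fun p : ZMod a × ZMod a => p ≠ 0),
        fs a q b₀ B p.1 * fs a q e₀ E p.2 * kl a (-p.1) ((η : ZMod a) * p.2) := by
    have h1 : ∑ p : ZMod a × ZMod a,
        fs a q b₀ B p.1 * fs a q e₀ E p.2 * kl a (-p.1) ((η : ZMod a) * p.2) =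
        (B : ℂ) * E * a.totient + ∑ p ∈ univ.filter (fun p : ZMod a × ZMod a => p ≠ 0),
        fs a q b₀ B p.1 * fs a q e₀ E p.2 * kl a (-p.1) ((η : ZMod a) * p.2) := by
      rw [filter_ne', ← hz]
      exact (add_sum_erase univ (fun p : ZMod a × ZMod a =>
        fs a q b₀ B p.1 * fs a q e₀ E p.2 * kl a (-p.1) ((η : ZMod a) * p.2)) (mem_univ 0)).symm
    rw [Complex.ofReal_sub, hRc, h1]
    push_cast
    ring
  have hle : |R - (B : ℝ) * E * a.totient / (a : ℝ) ^ 2| ≤ ((a : ℝ)⁻¹) ^ 2 *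
      ∑ p ∈ univ.filter (fun p : ZMod a × ZMod a => p ≠ 0), F p.1 * F' p.2 * K p := by
    rw [← Real.norm_eq_abs, ← Complex.norm_real, hdiff, norm_mul, norm_pow, norm_inv,
      Complex.norm_natCast]
    refine mul_le_mul_of_nonneg_left ?_ (by positivity)
    refine le_trans (norm_sum_le _ _) (sum_le_sum fun p _ => ?_)
    rw [hF, hF', hK, norm_mul, norm_mul]
  refine hle.trans ((mul_le_mul_of_nonneg_left hrest (by positivity)).trans ?_)
  unfold errA
  rw [← hτ, ← hA, ← hL]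
  apply le_of_eq
  field_simp
  ring

end Pool.Agent.Lib.MP_79499b_co.PL
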