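import Pool.Agent.Lib.MP_79499b_co.PL.Defs

/-!
# K10: the total density

`m p = ⌊h p p^2 - 40 p⌋₊` (natural floor, 0 if negative), `g p = m p/(p^3 - p)`.

Proof. `m p ≤ h p p^2 ≤ 5 p^2` and `m p ≥ h p p^2 - 40 p - 1`. So for `p ≥ 13`: `h p/p - 42/p^2 ≤ g p ≤ 6/p` (`p^3 - p ≥ p^3 · 168/169`; `h p^2/(p^3-p) ≥ h/p`).
Let `G = ∑_{p ∈ UZ x} g p`. Lower bound: `G ≥ ∑_{p < zz x} h p/p - ∑_{p < P0 x + 13} 5/p - ∑ 42/p^2 ≥ κ log log (zz x) - C - 5 (log log (P0 x + 13) + C') - 84`. `log log (zz x) ≥ (1 - δ) LL x` and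
`log log (P0 x + 13) ≤ δ LL x` for large `x` (`log (zz x) ≥ L/(40000 LL)`, as in `YY_facts` in Q38Master; `P0 x + 13 ≤ L^4`, `log log (L^4) = log 4 + log log L`, `eventually_log_le`). Upper bound: `G ≤ 6 ∑_{p < zz x} 1/p ≤ 6 (LL x + C) ≤ 7 LL x`
(`msum_one_le`). All primes of `UZ x` are `≥ P0 x ≥ 13` for large `x`.
-/

set_option autoImplicit false

namespace Pool.Agent.Lib.MP_79499b_co.PL

open Finset Q38
open scoped Classical NumberTheorySymbols

/-- bounds for `zz` -/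
private lemma k10_zz {δ : ℝ} (hδ : 0 < δ) : ∀ᶠ x : ℕ in Filter.atTop,
    3 ≤ zz x ∧ (1 - δ) * LL x ≤ Real.log (Real.log (zz x)) ∧
      Real.log (Real.log (zz x)) ≤ LL x := by
  have e1 : ∀ᶠ x : ℕ in Filter.atTop, Real.log (40000 * LL x + 0) + 0 ≤ δ * LL x :=
    tendsto_LL.eventually (eventually_log_le _ _ _ _ (by positivity) hδ)
  have e2 : ∀ᶠ x : ℕ in Filter.atTop,
      Real.log (1 * Real.log x + 0) + 0 ≤ (1 / 40000) * Real.log x :=
    tendsto_log_nat.eventually (eventually_log_le 1 0 0 (1 / 40000) one_pos (by norm_num))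
  filter_upwards [e1, e2, tendsto_LL.eventually_ge_atTop 1, Filter.eventually_ge_atTop 3]
    with x h1 h2 h3 h4
  set t := Real.log x with ht
  set L := LL x with hL
  have hLt : Real.log t = L := rfl
  have ht1 : 1 < t := one_lt_log h4
  have ht0 : 0 < t := by linarith
  rw [add_zero, add_zero] at h1
  rw [add_zero, add_zero, one_mul, hLt] at h2
  have hL0 : 0 < L := by linarith
  set A : ℝ := t / (20000 * L) with hA
  have hA2 : 2 ≤ A := by
    rw [hA, le_div_iff₀ (by positivity)]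
    linarith
  have hYup : (zz x : ℝ) ≤ Real.exp A := Nat.floor_le (Real.exp_pos _).le
  have hYlow : Real.exp (A - 1) ≤ zz x := by
    have h5 : Real.exp A < zz x + 1 := Nat.lt_floor_add_one _
    have h6 : Real.exp A = Real.exp (A - 1) * Real.exp 1 := by rw [← Real.exp_add]; ring_nf
    have h7 : 2 ≤ Real.exp 1 := by
      have := Real.add_one_le_exp (1 : ℝ); linarith
    have h8 : 1 ≤ Real.exp (A - 1) := Real.one_le_exp (by linarith)
    nlinarith
  have hY3 : 3 ≤ zz x := by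
    have h5 : Real.exp A < zz x + 1 := Nat.lt_floor_add_one _
    have h6 : Real.exp 2 ≤ Real.exp A := Real.exp_le_exp.mpr hA2
    have h7 : (4 : ℝ) ≤ Real.exp 2 := by
      have h8 : 2 ≤ Real.exp 1 := by
        have := Real.add_one_le_exp (1 : ℝ); linarith
      have h9 : Real.exp 2 = Real.exp 1 * Real.exp 1 := by rw [← Real.exp_add]; norm_num
      rw [h9]; nlinarith
    have h8 : (3 : ℝ) < zz x := by linarith
    have : 3 < zz x := by exact_mod_cast h8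
    omega
  have hYpos : (0 : ℝ) < zz x := by
    have : 0 < zz x := by omega
    exact_mod_cast this
  have hlogY_low : A / 2 ≤ Real.log (zz x) := by
    have := Real.log_le_log (Real.exp_pos _) hYlow
    rw [Real.log_exp] at this
    linarith
  have hlogY_up : Real.log (zz x) ≤ A := by
    have := Real.log_le_log hYpos hYup
    rwa [Real.log_exp] at this
  have hAt : A ≤ t := by
    rw [hA]
    apply div_le_self ht0.le
    linarith
  refine ⟨hY3, ?_, ?_⟩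
  · have h5 : Real.log (A / 2) ≤ Real.log (Real.log (zz x)) :=
      Real.log_le_log (by positivity) hlogY_low
    have h6 : A / 2 = t / (40000 * L) := by rw [hA]; field_simp; norm_num
    rw [h6, Real.log_div ht0.ne' (by positivity), hLt] at h5
    linarith
  · have h5 : 0 < Real.log (zz x) := by
      have := one_lt_log hY3
      linarith
    have := Real.log_le_log h5 (hlogY_up.trans hAt)
    rwa [hLt] at this

/-- bounds for `P0` -/
private lemma k10_P0 {δ : ℝ} (hδ : 0 < δ) : ∀ᶠ x : ℕ in Filter.atTop,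
    13 ≤ P0 x ∧ Real.log (Real.log (P0 x)) ≤ δ * LL x := by
  have e1 : ∀ᶠ x : ℕ in Filter.atTop, Real.log (4 * LL x + 0) + 0 ≤ δ * LL x :=
    tendsto_LL.eventually (eventually_log_le _ _ _ _ (by positivity) hδ)
  filter_upwards [e1, tendsto_log_nat.eventually_ge_atTop 3, tendsto_LL.eventually_ge_atTop 1]
    with x h1 h2 h3
  rw [add_zero, add_zero] at h1
  set t := Real.log x with ht
  have h27 : (27 : ℝ) ≤ t ^ 3 := by
    have := pow_le_pow_left₀ (by norm_num) h2 3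
    norm_num at this
    exact this
  have h4 : t ^ 3 ≤ P0 x := Nat.le_ceil _
  have h5 : (P0 x : ℝ) ≤ t ^ 3 + 1 := (Nat.ceil_lt_add_one (by positivity)).le
  have h13 : 13 ≤ P0 x := by
    have : (27 : ℝ) ≤ P0 x := h27.trans h4
    have : 27 ≤ P0 x := by exact_mod_cast this
    omega
  refine ⟨h13, ?_⟩
  have h6 : (P0 x : ℝ) ≤ t ^ 4 := by
    have : t ^ 4 = t * t ^ 3 := by ring
    rw [this]
    nlinarith
  have h7 : (0 : ℝ) < P0 x := by linarith
  have h8 : Real.log (P0 x) ≤ 4 * LL x := by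
    have := Real.log_le_log h7 h6
    rw [Real.log_pow] at this
    push_cast at this
    exact this
  have h9 : 0 < Real.log (P0 x) := by
    have := one_lt_log (x := P0 x) (by omega)
    linarith
  exact (Real.log_le_log h9 h8).trans h1

/-- bounds for one density -/
private lemma k10_g {y : ℝ} (hy0 : 0 ≤ y) (hy5 : y ≤ 5) {p : ℕ} (hp : 13 ≤ p) :
    y / p - 42 * ((p : ℝ) ^ 2)⁻¹ ≤ (⌊y * (p : ℝ) ^ 2 - 40 * p⌋₊ : ℝ) / ((p : ℝ) ^ 3 - p) ∧
    (⌊y * (p : ℝ) ^ 2 - 40 * p⌋₊ : ℝ) / ((p : ℝ) ^ 3 - p) ≤ 6 * ((p : ℝ))⁻¹ := by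
  have hp' : (13 : ℝ) ≤ p := by exact_mod_cast hp
  have hp0 : (0 : ℝ) < p := by linarith
  have hden : 0 < (p : ℝ) ^ 3 - p := by
    have : (p : ℝ) ^ 3 - p = p * (p ^ 2 - 1) := by ring
    rw [this]
    have : (0 : ℝ) < p ^ 2 - 1 := by nlinarith
    positivity
  have hlow := (Nat.lt_floor_add_one (y * (p : ℝ) ^ 2 - 40 * p)).le
  have hup : (⌊y * (p : ℝ) ^ 2 - 40 * p⌋₊ : ℝ) ≤ y * (p : ℝ) ^ 2 := by
    rcases le_or_gt 0 (y * (p : ℝ) ^ 2 - 40 * p) with h | h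
    · have := Nat.floor_le h
      linarith
    · rw [Nat.floor_of_nonpos h.le]
      push_cast
      positivity
  constructor
  · rw [le_div_iff₀ hden]
    have h1 : (y / p - 42 * ((p : ℝ) ^ 2)⁻¹) * ((p : ℝ) ^ 3 - p) =
        y * (p : ℝ) ^ 2 - y - 42 * p + 42 / p := by
      field_simp
      ring
    rw [h1]
    have h2 : 42 / (p : ℝ) ≤ 42 / 13 := div_le_div_of_nonneg_left (by norm_num) (by norm_num) hp'
    linarith
  · rw [div_le_iff₀ hden]
    have h1 : 6 * ((p : ℝ))⁻¹ * ((p : ℝ) ^ 3 - p) = 6 * (p : ℝ) ^ 2 - 6 := by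
      field_simp
    rw [h1]
    nlinarith

theorem K10_main (h : ℕ → ℝ) (hh : ∀ p, 0 ≤ h p ∧ h p ≤ 5) {κ C : ℝ} (hκ : 0 ≤ κ)
    (hsum : ∀ Y : ℕ, 3 ≤ Y → κ * Real.log (Real.log Y) - C ≤
      ∑ p ∈ (range Y).filter Nat.Prime, h p / (p : ℝ)) {ε : ℝ} (hε : 0 < ε) :
    ∃ x₀ : ℕ, ∀ x : ℕ, x₀ ≤ x →
      (κ - ε) * LL x ≤ ∑ p ∈ UZ x, (⌊h p * (p : ℝ) ^ 2 - 40 * p⌋₊ : ℝ) / ((p : ℝ) ^ 3 - p) ∧
      ∑ p ∈ UZ x, (⌊h p * (p : ℝ) ^ 2 - 40 * p⌋₊ : ℝ) / ((p : ℝ) ^ 3 - p) ≤ 7 * LL x ∧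
      ∀ p ∈ UZ x, 13 ≤ p := by
  obtain ⟨C1, hC1, hm⟩ := msum_one_le
  have hδ : 0 < ε / (2 * (κ + 5)) := by positivity
  obtain ⟨x₀, hx₀⟩ := Filter.eventually_atTop.mp ((k10_zz hδ).and ((k10_P0 hδ).and
    ((tendsto_LL.eventually_ge_atTop (2 * (|C| + 5 * C1 + 84) / ε)).and
      (tendsto_LL.eventually_ge_atTop (6 * C1)))))
  refine ⟨x₀, fun x hx => ?_⟩
  obtain ⟨⟨hz3, hz1, hz2⟩, ⟨hP13, hP1⟩, hL1, hL2⟩ := hx₀ x hx
  set δ := ε / (2 * (κ + 5)) with hδdef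
  have hU : ∀ p ∈ UZ x, 13 ≤ p := by
    intro p hp
    unfold UZ at hp
    rw [mem_filter] at hp
    exact hP13.trans hp.2.2
  have hmz := hm (zz x) hz3
  have hmP := hm (P0 x) (by omega)
  -- the prime sums
  have hms : ∀ Y : ℕ, ∑ p ∈ (range Y).filter Nat.Prime, ((p : ℝ))⁻¹ = msum 1 0 Y := by
    intro Y
    unfold msum
    apply Finset.sum_congr _ fun _ _ => rfl
    ext p
    simp only [Finset.mem_filter, Nat.mod_one, and_true]
  refine ⟨?_, ?_, hU⟩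
  · have h1 : ∑ p ∈ UZ x, (h p / (p : ℝ) - 42 * ((p : ℝ) ^ 2)⁻¹) ≤
        ∑ p ∈ UZ x, (⌊h p * (p : ℝ) ^ 2 - 40 * p⌋₊ : ℝ) / ((p : ℝ) ^ 3 - p) :=
      sum_le_sum fun p hp => (k10_g (hh p).1 (hh p).2 (hU p hp)).1
    refine le_trans ?_ h1
    rw [sum_sub_distrib, ← mul_sum]
    have h2 : ∑ p ∈ UZ x, ((p : ℝ) ^ 2)⁻¹ ≤ 2 := by
      have h3 : ∑ p ∈ UZ x, ((p : ℝ) ^ 2)⁻¹ ≤ ∑ p ∈ Ioo 0 (zz x), ((p : ℝ) ^ 2)⁻¹ := by
        refine sum_le_sum_of_subset_of_nonneg ?_ fun _ _ _ => by positivity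
        intro p hp
        have := hU p hp
        unfold UZ at hp
        rw [mem_filter, mem_range] at hp
        rw [mem_Ioo]
        exact ⟨by omega, hp.1⟩
      have h4 := sum_Ioo_inv_sq_le (α := ℝ) 0 (zz x)
      norm_num at h4
      exact h3.trans h4
    have h3 : ∑ p ∈ (range (zz x)).filter Nat.Prime, h p / (p : ℝ) ≤
        ∑ p ∈ UZ x, h p / (p : ℝ) + 5 * msum 1 0 (P0 x) := by
      rw [← hms, mul_sum]
      have h4 : (range (zz x)).filter Nat.Prime ⊆ UZ x ∪ (range (P0 x)).filter Nat.Prime := by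
        intro p hp
        rw [mem_filter, mem_range] at hp
        unfold UZ
        rw [mem_union, mem_filter, mem_filter, mem_range, mem_range]
        rcases le_or_gt (P0 x) p with h5 | h5
        · exact Or.inl ⟨hp.1, hp.2, h5⟩
        · exact Or.inr ⟨h5, hp.2⟩
      have h0 : ∀ p : ℕ, 0 ≤ h p / (p : ℝ) := fun p => div_nonneg (hh p).1 (Nat.cast_nonneg _)
      refine (sum_le_sum_of_subset_of_nonneg h4 fun p _ _ => h0 p).trans ?_
      have h5 : ∑ p ∈ UZ x ∪ (range (P0 x)).filter Nat.Prime, h p / (p : ℝ) ≤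
          ∑ p ∈ UZ x, h p / (p : ℝ) + ∑ p ∈ (range (P0 x)).filter Nat.Prime, h p / (p : ℝ) := by
        rw [← sum_union_inter]
        exact le_add_of_nonneg_right (sum_nonneg fun p _ => h0 p)
      refine h5.trans (add_le_add le_rfl (sum_le_sum fun p _ => ?_))
      rw [div_eq_mul_inv]
      exact mul_le_mul_of_nonneg_right (hh p).2 (by positivity)
    have h4 := hsum (zz x) hz3
    have h5 := mul_le_mul_of_nonneg_left hz1 hκ
    rw [div_le_iff₀ hε] at hL1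
    have h6 : C ≤ |C| := le_abs_self C
    have h7 : κ * δ * LL x + 5 * (δ * LL x) = (ε / 2) * LL x := by
      rw [hδdef]
      field_simp
    nlinarith
  · have h1 : ∑ p ∈ UZ x, (⌊h p * (p : ℝ) ^ 2 - 40 * p⌋₊ : ℝ) / ((p : ℝ) ^ 3 - p) ≤
        ∑ p ∈ UZ x, 6 * ((p : ℝ))⁻¹ :=
      sum_le_sum fun p hp => (k10_g (hh p).1 (hh p).2 (hU p hp)).2
    have h2 : ∑ p ∈ UZ x, 6 * ((p : ℝ))⁻¹ ≤ 6 * msum 1 0 (zz x) := by
      rw [← hms, mul_sum]
      refine sum_le_sum_of_subset_of_nonneg ?_ fun _ _ _ => by positivity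
      intro p hp
      unfold UZ at hp
      rw [mem_filter] at hp
      rw [mem_filter]
      exact ⟨hp.1, hp.2.1⟩
    linarith

end Pool.Agent.Lib.MP_79499b_co.PL
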