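import Pool.Agent.Lib.MP_79499b_co.PL.Defs

/-!
# K11: numerical facts for the sieve in `SL2`

`r = 2 ⌈20 LL⌉`, `z = zz x`, `L = log x`.

(1) `e^(8G)/8^(r+1) ≤ e^(-G)` for `G ≤ 7 LL`: `9 G ≤ 63 LL ≤ 80 LL ≤ 2 (r+1) ≤ (r+1) log 8` (`log 8 ≥ 2`).
(2) `(5 z^3)^r ≤ (z^4)^r = z^(4r) ≤ exp(4 (40 LL + 2) L/(20000 LL)) ≤ exp(L/110) = x^(1/110)` for large `x` (`z ≥ 5`, `LL ≥ 1`: `4 · 42/20000 = 168/20000 ≤ 1/110`).
(3) With `A ≥ x^(1/4)`, `A^2 ≤ 16 x`, `B ≤ 4A`, `A E ≤ 64 x`: `(1 + log A)^6 ≤ (2L)^6`, `(B+E)/A ≤ 4 + 64 x/A^2`, `A^(11/6) (1 + (B+E)/A) ≤ 5 A^(11/6) + 64 x A^(-1/6) ≤ 5 · 16 x^(11/12) + 64 x · x^(-1/24) ≤ 144 x^(23/24)`;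
`(1 + log A)(B E)/A ≤ 2L · 4 E ≤ 8 L · 64 x/A ≤ 512 L x^(3/4)`. So `R = C (..) + 2 C' (..) ≤ C'' L^6 x^(23/24)`, and `3 R x^(1/110) ≤ x^(99/100)` for large `x` (`23/24 + 1/110 < 0.968`).
-/

set_option autoImplicit false

namespace Pool.Agent.Lib.MP_79499b_co.PL

open Finset Q38
open scoped Classical NumberTheorySymbols

/-- bounds for `zz` -/
private lemma k11_zz : ∀ᶠ x : ℕ in Filter.atTop, 3 ≤ x ∧ 1 ≤ LL x ∧ 5 ≤ zz x ∧
    (zz x : ℝ) ≤ Real.exp (Real.log x / (20000 * LL x)) := by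
  have e2 : ∀ᶠ x : ℕ in Filter.atTop,
      Real.log (1 * Real.log x + 0) + 0 ≤ (1 / 80000) * Real.log x :=
    tendsto_log_nat.eventually (eventually_log_le 1 0 0 (1 / 80000) one_pos (by norm_num))
  filter_upwards [e2, tendsto_LL.eventually_ge_atTop 1, Filter.eventually_ge_atTop 3] with x h2 h3 h4
  rw [add_zero, add_zero, one_mul] at h2
  have hL0 : 0 < LL x := by linarith
  refine ⟨h4, h3, ?_, Nat.floor_le (Real.exp_pos _).le⟩
  have h5 : (4 : ℝ) ≤ Real.log x / (20000 * LL x) := by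
    rw [le_div_iff₀ (by positivity)]
    have : LL x ≤ 1 / 80000 * Real.log x := h2
    linarith
  have h6 : (5 : ℝ) ≤ Real.exp (Real.log x / (20000 * LL x)) := by
    have := Real.add_one_le_exp (Real.log x / (20000 * LL x))
    linarith
  unfold zz
  exact Nat.le_floor (by exact_mod_cast h6)

theorem K11_one : ∃ x₀ : ℕ, ∀ x : ℕ, x₀ ≤ x → 1 ≤ LL x ∧
    (∀ G : ℝ, 0 ≤ G → G ≤ 7 * LL x →
      Real.exp (8 * G) / 8 ^ (2 * ⌈20 * LL x⌉₊ + 1) ≤ Real.exp (-G)) ∧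
    (1 : ℝ) ≤ 5 * (zz x : ℝ) ^ 3 ∧
    (5 * (zz x : ℝ) ^ 3) ^ (2 * ⌈20 * LL x⌉₊) ≤ (x : ℝ) ^ (1 / 110 : ℝ) := by
  obtain ⟨x₀, hx₀⟩ := Filter.eventually_atTop.mp k11_zz
  refine ⟨x₀, fun x hx => ?_⟩
  obtain ⟨hx3, hL1, hz5, hz⟩ := hx₀ x hx
  have hL0 : 0 < LL x := by linarith
  have hx0 : (0 : ℝ) < x := by
    have : 0 < x := by omega
    exact_mod_cast this
  have hlog := one_lt_log hx3
  have hz5' : (5 : ℝ) ≤ zz x := by exact_mod_cast hz5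
  have hz0 : (0 : ℝ) < zz x := by linarith
  refine ⟨hL1, fun G hG0 hG7 => ?_, ?_, ?_⟩
  · have h8 : (8 : ℝ) = Real.exp (3 * Real.log 2) := by
      rw [mul_comm, Real.exp_mul, Real.exp_log (by norm_num)]
      norm_num
    have h9 : ((8 : ℝ)) ^ (2 * ⌈20 * LL x⌉₊ + 1) =
        Real.exp (((2 * ⌈20 * LL x⌉₊ + 1 : ℕ) : ℝ) * (3 * Real.log 2)) := by
      conv_lhs => rw [h8]
      rw [← Real.exp_nat_mul]
    rw [h9, ← Real.exp_sub]
    apply Real.exp_le_exp.mpr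
    have h10 := Nat.le_ceil (20 * LL x)
    have h11 := Real.log_two_gt_d9
    push_cast
    have h12 : (2 * (20 * LL x) + 1) * 2 ≤ (2 * (⌈20 * LL x⌉₊ : ℝ) + 1) * (3 * Real.log 2) := by
      refine mul_le_mul (by linarith) (by linarith) (by norm_num) (by positivity)
    linarith
  · have h1 : (1 : ℝ) ≤ (zz x : ℝ) ^ 3 := one_le_pow₀ (by linarith)
    linarith
  · have h1 : 5 * (zz x : ℝ) ^ 3 ≤ (zz x : ℝ) ^ 4 := by
      have h2 : (zz x : ℝ) ^ 4 = zz x * (zz x : ℝ) ^ 3 := by ring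
      rw [h2]
      exact mul_le_mul_of_nonneg_right hz5' (by positivity)
    have h2 : (zz x : ℝ) ^ 4 ≤ Real.exp (4 * (Real.log x / (20000 * LL x))) := by
      rw [show (4 : ℝ) * (Real.log x / (20000 * LL x)) = ((4 : ℕ) : ℝ) * (Real.log x / (20000 * LL x)) by
        norm_num, Real.exp_nat_mul]
      exact pow_le_pow_left₀ hz0.le hz 4
    refine (pow_le_pow_left₀ (by positivity) (h1.trans h2) _).trans ?_
    rw [← Real.exp_nat_mul, Real.rpow_def_of_pos hx0]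
    apply Real.exp_le_exp.mpr
    have h3 := (Nat.ceil_lt_add_one (show 0 ≤ 20 * LL x by positivity)).le
    have h4 : ((2 * ⌈20 * LL x⌉₊ : ℕ) : ℝ) ≤ 42 * LL x := by
      push_cast
      linarith
    have h5 : 0 ≤ 4 * (Real.log x / (20000 * LL x)) := by positivity
    refine (mul_le_mul_of_nonneg_right h4 h5).trans ?_
    have h6 : 42 * LL x * (4 * (Real.log x / (20000 * LL x))) = (168 / 20000) * Real.log x := by
      field_simp
      ring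
    rw [h6]
    nlinarith

theorem K11_two (C C' : ℝ) (hC : 0 ≤ C) (hC' : 0 ≤ C') : ∃ x₀ : ℕ, ∀ x : ℕ, x₀ ≤ x →
    ∀ A B E : ℕ, (x : ℝ) ^ (1 / 4 : ℝ) ≤ A → A ^ 2 ≤ 16 * x → B ≤ 4 * A → A * E ≤ 64 * x →
    3 * (C * (1 + Real.log A) * (B * E) / A +
      2 * (C' * (A : ℝ) ^ (11 / 6 : ℝ) * (1 + Real.log A) ^ 6 * (1 + ((B : ℝ) + E) / A))) *
      (x : ℝ) ^ (1 / 110 : ℝ) ≤ (x : ℝ) ^ (99 / 100 : ℝ) := by
  set K : ℝ := 3 * (512 * C + 2 * (64 * 144 * C')) with hK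
  have hK0 : 0 ≤ K := by positivity
  have e1 : ∀ᶠ t : ℝ in Filter.atTop, K * t ^ 6 ≤ Real.exp (1 / 50 * t) := by
    have h1 := (isLittleO_pow_exp_pos_mul_atTop (k := 6) (b := 1 / 50) (by norm_num)).bound
      (show 0 < 1 / (K + 1) by positivity)
    filter_upwards [h1, Filter.eventually_ge_atTop 0] with t ht ht0
    rw [Real.norm_eq_abs, Real.norm_eq_abs, abs_of_nonneg (by positivity),
      abs_of_nonneg (Real.exp_pos _).le] at ht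
    have h2 := mul_le_mul_of_nonneg_left ht (show 0 ≤ K + 1 by positivity)
    have h3 : (K + 1) * (1 / (K + 1) * Real.exp (1 / 50 * t)) = Real.exp (1 / 50 * t) := by
      field_simp
    rw [h3] at h2
    have h4 : 0 ≤ t ^ 6 := by positivity
    linarith
  obtain ⟨x₀, hx₀⟩ := Filter.eventually_atTop.mp (tendsto_log_nat.eventually e1)
  refine ⟨max x₀ 16, fun x hx A B E hA hA2 hB hE => ?_⟩
  have hxx := hx₀ x (le_trans (le_max_left _ _) hx)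
  have hx16 : 16 ≤ x := le_trans (le_max_right _ _) hx
  have hx1 : (1 : ℝ) ≤ x := by
    have : 1 ≤ x := by omega
    exact_mod_cast this
  have hx0 : (0 : ℝ) < x := by linarith
  have hL1 := one_lt_log (x := x) (by omega)
  set L := Real.log x with hL
  have hA0' : (0 : ℝ) < A := lt_of_lt_of_le (Real.rpow_pos_of_pos hx0 _) hA
  have hA1 : 1 ≤ A := by exact_mod_cast hA0'
  have hA1' : (1 : ℝ) ≤ A := by exact_mod_cast hA1
  have hAx : A ≤ x := by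
    by_contra h
    push Not at h
    have h1 : 16 * x < A ^ 2 := by nlinarith
    omega
  have hlogA : 1 + Real.log A ≤ 2 * L := by
    have h1 : Real.log A ≤ L := Real.log_le_log hA0' (by exact_mod_cast hAx)
    linarith
  have hlogA0 : 0 ≤ Real.log A := Real.log_nonneg hA1'
  have hB' : (B : ℝ) ≤ 4 * A := by exact_mod_cast hB
  have hE' : (A : ℝ) * E ≤ 64 * x := by exact_mod_cast hE
  have hA2' : (A : ℝ) ^ 2 ≤ 16 * x := by exact_mod_cast hA2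
  -- `E ≤ 64 x ^ (3/4)`
  have hE3 : (E : ℝ) ≤ 64 * (x : ℝ) ^ (3 / 4 : ℝ) := by
    have h1 : (x : ℝ) ^ (1 / 4 : ℝ) * E ≤ 64 * x :=
      (mul_le_mul_of_nonneg_right hA (Nat.cast_nonneg _)).trans hE'
    have h2 : (x : ℝ) = (x : ℝ) ^ (1 / 4 : ℝ) * (x : ℝ) ^ (3 / 4 : ℝ) := by
      rw [← Real.rpow_add hx0]
      norm_num
    have h3 : (0 : ℝ) < (x : ℝ) ^ (1 / 4 : ℝ) := Real.rpow_pos_of_pos hx0 _
    have h4 : (x : ℝ) ^ (1 / 4 : ℝ) * E ≤ (x : ℝ) ^ (1 / 4 : ℝ) * (64 * (x : ℝ) ^ (3 / 4 : ℝ)) := by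
      calc (x : ℝ) ^ (1 / 4 : ℝ) * E ≤ 64 * x := h1
        _ = 64 * ((x : ℝ) ^ (1 / 4 : ℝ) * (x : ℝ) ^ (3 / 4 : ℝ)) := by rw [← h2]
        _ = _ := by ring
    exact le_of_mul_le_mul_left h4 h3
  have hmono : ∀ a b : ℝ, a ≤ b → (x : ℝ) ^ a ≤ (x : ℝ) ^ b := fun a b hab =>
    Real.rpow_le_rpow_of_exponent_le hx1 hab
  -- first term
  have t1 : C * (1 + Real.log A) * (B * E) / A ≤ 512 * C * (L ^ 6 * (x : ℝ) ^ (23 / 24 : ℝ)) := by
    have h1 : (B : ℝ) * E / A ≤ 256 * (x : ℝ) ^ (23 / 24 : ℝ) := by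
      rw [div_le_iff₀ hA0']
      calc (B : ℝ) * E ≤ (4 * A) * (64 * (x : ℝ) ^ (3 / 4 : ℝ)) :=
            mul_le_mul hB' hE3 (Nat.cast_nonneg _) (by positivity)
        _ ≤ (4 * A) * (64 * (x : ℝ) ^ (23 / 24 : ℝ)) := by
            refine mul_le_mul_of_nonneg_left ?_ (by positivity)
            exact mul_le_mul_of_nonneg_left (hmono _ _ (by norm_num)) (by norm_num)
        _ = _ := by ring
    have h2 : L ≤ L ^ 6 := le_self_pow₀ hL1.le (by norm_num)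
    have h3 : 1 + Real.log A ≤ 2 * L ^ 6 := by linarith
    calc C * (1 + Real.log A) * (B * E) / A = C * ((1 + Real.log A) * ((B : ℝ) * E / A)) := by ring
      _ ≤ C * ((2 * L ^ 6) * (256 * (x : ℝ) ^ (23 / 24 : ℝ))) := by
          refine mul_le_mul_of_nonneg_left ?_ hC
          exact mul_le_mul h3 h1 (by positivity) (by positivity)
      _ = _ := by ring
  -- second term
  have t2 : (A : ℝ) ^ (11 / 6 : ℝ) * (1 + ((B : ℝ) + E) / A) ≤ 144 * (x : ℝ) ^ (23 / 24 : ℝ) := by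
    have h1 : (A : ℝ) ^ (11 / 6 : ℝ) * (1 + ((B : ℝ) + E) / A) =
        (A : ℝ) ^ (11 / 6 : ℝ) * (1 + (B : ℝ) / A) + (A : ℝ) ^ (11 / 6 : ℝ) * (E / A) := by
      rw [add_div]; ring
    have h2 : 1 + (B : ℝ) / A ≤ 5 := by
      have : (B : ℝ) / A ≤ 4 := by
        rw [div_le_iff₀ hA0']; exact hB'
      linarith
    have h3 : (A : ℝ) ^ (11 / 6 : ℝ) ≤ 16 * (x : ℝ) ^ (23 / 24 : ℝ) := by
      have h4 : (A : ℝ) ^ (11 / 6 : ℝ) = ((A : ℝ) ^ 2) ^ (11 / 12 : ℝ) := by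
        rw [← Real.rpow_natCast, ← Real.rpow_mul hA0'.le]
        norm_num
      rw [h4]
      calc ((A : ℝ) ^ 2) ^ (11 / 12 : ℝ) ≤ (16 * x) ^ (11 / 12 : ℝ) :=
            Real.rpow_le_rpow (by positivity) hA2' (by norm_num)
        _ = (16 : ℝ) ^ (11 / 12 : ℝ) * (x : ℝ) ^ (11 / 12 : ℝ) :=
            Real.mul_rpow (by norm_num) hx0.le
        _ ≤ (16 : ℝ) ^ (1 : ℝ) * (x : ℝ) ^ (23 / 24 : ℝ) := by
            refine mul_le_mul ?_ (hmono _ _ (by norm_num)) (by positivity) (by positivity)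
            exact Real.rpow_le_rpow_of_exponent_le (by norm_num) (by norm_num)
        _ = _ := by rw [Real.rpow_one]
    have h5 : (A : ℝ) ^ (11 / 6 : ℝ) * (E / A) ≤ 64 * (x : ℝ) ^ (23 / 24 : ℝ) := by
      have h6 : (A : ℝ) ^ (11 / 6 : ℝ) * (E / A) = (A : ℝ) ^ (-(1 / 6) : ℝ) * (A * E) := by
        have h7 : (A : ℝ) ^ (11 / 6 : ℝ) = (A : ℝ) ^ (-(1 / 6) : ℝ) * A ^ 2 := by
          rw [← Real.rpow_natCast, ← Real.rpow_add hA0']
          norm_num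
        rw [h7]
        field_simp
      rw [h6]
      have h8 : (A : ℝ) ^ (-(1 / 6) : ℝ) ≤ (x : ℝ) ^ (-(1 / 24) : ℝ) := by
        have h9 : (x : ℝ) ^ (-(1 / 24) : ℝ) = ((x : ℝ) ^ (1 / 4 : ℝ)) ^ (-(1 / 6) : ℝ) := by
          rw [← Real.rpow_mul hx0.le]
          norm_num
        rw [h9]
        exact Real.rpow_le_rpow_of_nonpos (Real.rpow_pos_of_pos hx0 _) hA (by norm_num)
      calc (A : ℝ) ^ (-(1 / 6) : ℝ) * (A * E) ≤ (x : ℝ) ^ (-(1 / 24) : ℝ) * (64 * x) :=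
            mul_le_mul h8 hE' (by positivity) (by positivity)
        _ = 64 * ((x : ℝ) ^ (-(1 / 24) : ℝ) * (x : ℝ) ^ (1 : ℝ)) := by rw [Real.rpow_one]; ring
        _ = 64 * (x : ℝ) ^ (23 / 24 : ℝ) := by
            rw [← Real.rpow_add hx0]
            norm_num
    rw [h1]
    have h10 : (A : ℝ) ^ (11 / 6 : ℝ) * (1 + (B : ℝ) / A) ≤
        (16 * (x : ℝ) ^ (23 / 24 : ℝ)) * 5 := mul_le_mul h3 h2 (by positivity) (by positivity)
    linarith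
  have t3 : C' * (A : ℝ) ^ (11 / 6 : ℝ) * (1 + Real.log A) ^ 6 * (1 + ((B : ℝ) + E) / A) ≤
      64 * 144 * C' * (L ^ 6 * (x : ℝ) ^ (23 / 24 : ℝ)) := by
    have h1 : (1 + Real.log A) ^ 6 ≤ 64 * L ^ 6 := by
      calc (1 + Real.log A) ^ 6 ≤ (2 * L) ^ 6 := pow_le_pow_left₀ (by linarith) hlogA 6
        _ = _ := by ring
    calc C' * (A : ℝ) ^ (11 / 6 : ℝ) * (1 + Real.log A) ^ 6 * (1 + ((B : ℝ) + E) / A)
        = C' * ((1 + Real.log A) ^ 6 * ((A : ℝ) ^ (11 / 6 : ℝ) * (1 + ((B : ℝ) + E) / A))) := by ring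
      _ ≤ C' * ((64 * L ^ 6) * (144 * (x : ℝ) ^ (23 / 24 : ℝ))) := by
          refine mul_le_mul_of_nonneg_left ?_ hC'
          exact mul_le_mul h1 t2 (by positivity) (by positivity)
      _ = _ := by ring
  have hx110 : 0 ≤ (x : ℝ) ^ (1 / 110 : ℝ) := by positivity
  have t4 : 3 * (C * (1 + Real.log A) * (B * E) / A +
      2 * (C' * (A : ℝ) ^ (11 / 6 : ℝ) * (1 + Real.log A) ^ 6 * (1 + ((B : ℝ) + E) / A))) ≤
      K * L ^ 6 * (x : ℝ) ^ (23 / 24 : ℝ) := by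
    have h1 : K * L ^ 6 * (x : ℝ) ^ (23 / 24 : ℝ) =
        3 * (512 * C * (L ^ 6 * (x : ℝ) ^ (23 / 24 : ℝ)) +
          2 * (64 * 144 * C' * (L ^ 6 * (x : ℝ) ^ (23 / 24 : ℝ)))) := by
      rw [hK]; ring
    rw [h1]
    linarith
  refine (mul_le_mul_of_nonneg_right t4 hx110).trans ?_
  have t5 : Real.exp (1 / 50 * L) = (x : ℝ) ^ (1 / 50 : ℝ) := by
    rw [Real.rpow_def_of_pos hx0, mul_comm]
  have t6 : K * L ^ 6 * ((x : ℝ) ^ (23 / 24 : ℝ) * (x : ℝ) ^ (1 / 110 : ℝ)) ≤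
      (x : ℝ) ^ (1 / 50 : ℝ) * ((x : ℝ) ^ (23 / 24 : ℝ) * (x : ℝ) ^ (1 / 110 : ℝ)) := by
    refine mul_le_mul_of_nonneg_right ?_ (by positivity)
    rw [← t5]
    exact hxx
  rw [mul_assoc]
  refine t6.trans ?_
  rw [← Real.rpow_add hx0, ← Real.rpow_add hx0]
  exact hmono _ _ (by norm_num)

end Pool.Agent.Lib.MP_79499b_co.PL
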