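import Pool.Agent.Lib.MP_79499b_co.PL.Defs

/-!
# K7: the sum of the error terms

Proof. For `A < a ≤ 2A`: `a^(5/6) ≤ (2A)^(5/6) ≤ 2 A^(5/6)`, `1 + log a ≤ 1 + log 2A ≤ 2 (1 + log A)`, `(B+E)/a ≤ (B+E)/A`, and `∑_{a ≤ 2A} τ(a)^2 ≤ 2A (1 + log 2A)^4 ≤ 32 A (1 + log A)^4`
(`sum_tau_sq`, EO/K7.lean; `1 + log 2A ≤ 2(1 + log A)`, `log 2 ≤ 1`). The product: `≤ 2 · 4 · 32 A^(11/6) (1 + log A)^6 (1 + (B+E)/A)`; `C = 256`.
-/

set_option autoImplicit false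

namespace Pool.Agent.Lib.MP_79499b_co.PL

open Finset Q38
open scoped Classical NumberTheorySymbols

theorem K7_main : ∃ C : ℝ, 0 ≤ C ∧ ∀ A B E : ℕ, 1 ≤ A →
    ∑ a ∈ Ioc A (2 * A), errA a B E ≤
      C * (A : ℝ) ^ (11 / 6 : ℝ) * (1 + Real.log A) ^ 6 * (1 + ((B : ℝ) + E) / A) := by
  refine ⟨256, by norm_num, fun A B E hA => ?_⟩
  have hA1 : (1 : ℝ) ≤ A := by exact_mod_cast hA
  have hA0 : (0 : ℝ) < A := by linarith
  have hl0 : 0 ≤ Real.log A := Real.log_nonneg hA1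
  have hl2 : 1 + Real.log (2 * A) ≤ 2 * (1 + Real.log A) := by
    rw [Real.log_mul (by norm_num) hA0.ne']
    have := Real.log_two_lt_d9
    linarith
  have hl20 : 0 ≤ 1 + Real.log (2 * A) := by
    have := Real.log_nonneg (show (1 : ℝ) ≤ 2 * A by linarith)
    linarith
  have hBE : 0 ≤ ((B : ℝ) + E) := by positivity
  have h1 : ∀ a ∈ Ioc A (2 * A), errA a B E ≤ (a.divisors.card : ℝ) ^ 2 *
      (8 * (A : ℝ) ^ (5 / 6 : ℝ) * (1 + Real.log A) ^ 2 * (1 + ((B : ℝ) + E) / A)) := by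
    intro a ha
    rw [mem_Ioc] at ha
    have ha1 : (A : ℝ) ≤ a := by exact_mod_cast ha.1.le
    have ha2 : (a : ℝ) ≤ 2 * A := by exact_mod_cast ha.2
    have ha0 : (0 : ℝ) < a := by linarith
    have k1 : (a : ℝ) ^ (5 / 6 : ℝ) ≤ 2 * (A : ℝ) ^ (5 / 6 : ℝ) := by
      calc (a : ℝ) ^ (5 / 6 : ℝ) ≤ (2 * A) ^ (5 / 6 : ℝ) :=
            Real.rpow_le_rpow ha0.le ha2 (by norm_num)
        _ = (2 : ℝ) ^ (5 / 6 : ℝ) * (A : ℝ) ^ (5 / 6 : ℝ) :=
            Real.mul_rpow (by norm_num) hA0.le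
        _ ≤ (2 : ℝ) ^ (1 : ℝ) * (A : ℝ) ^ (5 / 6 : ℝ) := by
            refine mul_le_mul_of_nonneg_right ?_ (by positivity)
            exact Real.rpow_le_rpow_of_exponent_le (by norm_num) (by norm_num)
        _ = _ := by rw [Real.rpow_one]
    have k2 : (1 + Real.log a) ^ 2 ≤ 4 * (1 + Real.log A) ^ 2 := by
      have h3 : Real.log a ≤ Real.log (2 * A) := Real.log_le_log ha0 ha2
      have h4 : 0 ≤ Real.log a := Real.log_nonneg (by linarith)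
      calc (1 + Real.log a) ^ 2 ≤ (2 * (1 + Real.log A)) ^ 2 :=
            pow_le_pow_left₀ (by linarith) (by linarith) 2
        _ = _ := by ring
    have k3 : 1 + ((B : ℝ) + E) / a ≤ 1 + ((B : ℝ) + E) / A := by
      have := div_le_div_of_nonneg_left hBE hA0 ha1
      linarith
    have k4 : 0 ≤ 1 + ((B : ℝ) + E) / a := by positivity
    have k5 : (a : ℝ) ^ (5 / 6 : ℝ) * (1 + Real.log a) ^ 2 * (1 + ((B : ℝ) + E) / a) ≤
        (2 * (A : ℝ) ^ (5 / 6 : ℝ)) * (4 * (1 + Real.log A) ^ 2) * (1 + ((B : ℝ) + E) / A) := by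
      refine mul_le_mul (mul_le_mul k1 k2 (by positivity) (by positivity)) k3 k4 (by positivity)
    have k6 : 0 ≤ (a.divisors.card : ℝ) ^ 2 := by positivity
    unfold errA
    calc (a.divisors.card : ℝ) ^ 2 * (a : ℝ) ^ (5 / 6 : ℝ) * (1 + Real.log a) ^ 2 *
          (1 + ((B : ℝ) + E) / a)
        = (a.divisors.card : ℝ) ^ 2 * ((a : ℝ) ^ (5 / 6 : ℝ) * (1 + Real.log a) ^ 2 *
          (1 + ((B : ℝ) + E) / a)) := by ring
      _ ≤ (a.divisors.card : ℝ) ^ 2 * ((2 * (A : ℝ) ^ (5 / 6 : ℝ)) * (4 * (1 + Real.log A) ^ 2) *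
          (1 + ((B : ℝ) + E) / A)) := mul_le_mul_of_nonneg_left k5 k6
      _ = _ := by ring
  refine (sum_le_sum h1).trans ?_
  rw [← sum_mul]
  have h2 : ∑ a ∈ Ioc A (2 * A), (a.divisors.card : ℝ) ^ 2 ≤ 32 * A * (1 + Real.log A) ^ 4 := by
    have h3 := EO.sum_tau_sq (2 * A) (by omega)
    have h4 : ∑ a ∈ Ioc A (2 * A), (a.divisors.card : ℝ) ^ 2 ≤
        ∑ a ∈ Icc 1 (2 * A), (a.divisors.card : ℝ) ^ 2 := by
      refine sum_le_sum_of_subset_of_nonneg ?_ fun _ _ _ => by positivity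
      intro a ha
      rw [mem_Ioc] at ha
      rw [mem_Icc]
      omega
    refine (h4.trans h3).trans ?_
    push_cast
    have h5 : (1 + Real.log (2 * A)) ^ 4 ≤ (2 * (1 + Real.log A)) ^ 4 :=
      pow_le_pow_left₀ hl20 hl2 4
    calc 2 * (A : ℝ) * (1 + Real.log (2 * A)) ^ 4 ≤ 2 * (A : ℝ) * (2 * (1 + Real.log A)) ^ 4 :=
          mul_le_mul_of_nonneg_left h5 (by positivity)
      _ = _ := by ring
  refine (mul_le_mul_of_nonneg_right h2 (by positivity)).trans (le_of_eq ?_)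
  have h6 : (A : ℝ) ^ (11 / 6 : ℝ) = A * (A : ℝ) ^ (5 / 6 : ℝ) := by
    rw [show (11 / 6 : ℝ) = 1 + 5 / 6 by norm_num, Real.rpow_add hA0, Real.rpow_one]
  rw [h6]
  ring

end Pool.Agent.Lib.MP_79499b_co.PL
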