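import Pool.Agent.Lib.MP_79499b_co.PL.Defs

/-!
# K8: the pure sieve of Brun for finite sets

Proof (as `Q38.brun`): for each `ω ∈ Ω` `bonferroni` (Q38Brun) gives `1_{no P u ω} ≤ ∑_{S ⊆ U, |S| ≤ r} (-1)^|S| 1_{P u ω for u ∈ S}`; sum over `ω`, insert the hypothesis:
`≤ ∑_S (-1)^|S| X ∏ g u + R ∑_S ∏ c u`; `main_le` and `err_le` (Q38Brun) give `X (e^(-G) + e^(8G)/8^(r+1))` and `3 D^r R`.
-/

set_option autoImplicit false

namespace Pool.Agent.Lib.MP_79499b_co.PL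

open Finset Q38
open scoped Classical NumberTheorySymbols

theorem K8_main {ι : Type*} (Ω : Finset ι) (U : Finset ℕ) (P : ℕ → ι → Prop) (g c : ℕ → ℝ)
    {X R G D : ℝ} (hX : 0 ≤ X) (hR : 0 ≤ R) (hg0 : ∀ u, 0 ≤ g u) (hg1 : ∀ u ∈ U, g u ≤ 1)
    (hc0 : ∀ u, 0 ≤ c u) (hG : ∑ u ∈ U, g u = G) (hD1 : 1 ≤ D) (hD : ∑ u ∈ U, c u ≤ D) {r : ℕ}
    (hr : Even r)
    (h : ∀ S ⊆ U, S.card ≤ r →
      |((Ω.filter (fun ω => ∀ u ∈ S, P u ω)).card : ℝ) - X * ∏ u ∈ S, g u| ≤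
        R * ∏ u ∈ S, c u) :
    ((Ω.filter (fun ω => ∀ u ∈ U, ¬ P u ω)).card : ℝ) ≤
      X * (Real.exp (-G) + Real.exp (8 * G) / 8 ^ (r + 1)) + 3 * R * D ^ r := by
  have hFsub : ∀ S ∈ U.powerset.filter (fun S => S.card ≤ r), S ⊆ U ∧ S.card ≤ r := by
    intro S hS
    rw [Finset.mem_filter, Finset.mem_powerset] at hS
    exact hS
  have h1 : ((Ω.filter (fun ω => ∀ u ∈ U, ¬ P u ω)).card : ℝ) ≤
      ∑ S ∈ U.powerset.filter (fun S => S.card ≤ r), (-1 : ℝ) ^ S.card *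
        ((Ω.filter (fun ω => ∀ u ∈ S, P u ω)).card : ℝ) := by
    have e1 : ((Ω.filter (fun ω => ∀ u ∈ U, ¬ P u ω)).card : ℝ) =
        ∑ ω ∈ Ω, (if ∀ u ∈ U, ¬ P u ω then (1 : ℝ) else 0) := by
      rw [Finset.card_filter]
      push_cast
      rfl
    have e2 : ∀ S : Finset ℕ, ((Ω.filter (fun ω => ∀ u ∈ S, P u ω)).card : ℝ) =
        ∑ ω ∈ Ω, (if ∀ u ∈ S, P u ω then (1 : ℝ) else 0) := by
      intro S
      rw [Finset.card_filter]
      push_cast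
      rfl
    rw [e1]
    refine (Finset.sum_le_sum fun ω _ => bonferroni hr U (fun u => P u ω)).trans (le_of_eq ?_)
    rw [Finset.sum_comm]
    refine Finset.sum_congr rfl fun S _ => ?_
    rw [e2, Finset.mul_sum]
  have h2 : ∀ S ∈ U.powerset.filter (fun S => S.card ≤ r),
      (-1 : ℝ) ^ S.card * ((Ω.filter (fun ω => ∀ u ∈ S, P u ω)).card : ℝ) ≤
      X * ((-1 : ℝ) ^ S.card * ∏ u ∈ S, g u) + R * ∏ u ∈ S, c u := by
    intro S hS
    have h5 := abs_le.mp (h S (hFsub S hS).1 (hFsub S hS).2)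
    rcases neg_one_pow_eq_or ℝ S.card with h6 | h6
    · rw [h6]; linarith [h5.2]
    · rw [h6]; linarith [h5.1]
  have h3 := main_le U g hg0 hg1 r
  rw [hG] at h3
  have h4 := err_le U c hc0 r hD1 hD
  refine h1.trans ((Finset.sum_le_sum h2).trans ?_)
  rw [Finset.sum_add_distrib, ← Finset.mul_sum, ← Finset.mul_sum]
  have h5 := mul_le_mul_of_nonneg_left h3 hX
  have h6 := mul_le_mul_of_nonneg_left h4 hR
  linarith

end Pool.Agent.Lib.MP_79499b_co.PL
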