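import Pool.Agent.Lib.MP_79499b_co.PL.Defs

/-!
# K9: smaller sets of forbidden classes of a given size

Proof. For a prime `p ≥ 13` choose a subset `W p` of `{(a,b,e) ∈ (range p)^3 : Om p a b e}` of cardinality `m p` (`Finset.exists_subset_card_eq`), for other `p` `W p = ∅`; put
`Om' p a b e ↔ (a % p, b % p, e % p) ∈ W p`. Then `Om' → Om` by `Per Om`, `Per Om'` (`Nat.mod_mod`; `¬ p ∣ a` from `Om`), and `omc Om' p = |W p|` since `a % p = a` for `a < p`.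
-/

set_option autoImplicit false

namespace Pool.Agent.Lib.MP_79499b_co.PL

open Finset Q38
open scoped Classical NumberTheorySymbols

theorem K9_main {Om : ℕ → ℕ → ℕ → ℕ → Prop} (hper : Per Om) (m : ℕ → ℕ)
    (hm : ∀ p : ℕ, p.Prime → 13 ≤ p → m p ≤ omc Om p) :
    ∃ Om' : ℕ → ℕ → ℕ → ℕ → Prop, Per Om' ∧
      (∀ p a b e : ℕ, p.Prime → Om' p a b e → Om p a b e) ∧
      ∀ p : ℕ, p.Prime → 13 ≤ p → omc Om' p = m p := by
  have hW : ∀ p : ℕ, ∃ W : Finset (ℕ × ℕ × ℕ), (p.Prime → 13 ≤ p → W.card = m p) ∧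
      (∀ t ∈ W, p.Prime ∧ t.1 < p ∧ t.2.1 < p ∧ t.2.2 < p ∧ Om p t.1 t.2.1 t.2.2) := by
    intro p
    by_cases hp : p.Prime ∧ 13 ≤ p
    · obtain ⟨W, hW1, hW2⟩ := Finset.exists_subset_card_eq (hm p hp.1 hp.2)
      refine ⟨W, fun _ _ => hW2, fun t ht => ?_⟩
      have h1 := hW1 ht
      rw [mem_filter, mem_product, mem_product, mem_range, mem_range, mem_range] at h1
      exact ⟨hp.1, h1.1.1, h1.1.2.1, h1.1.2.2, h1.2⟩
    · refine ⟨∅, fun h1 h2 => absurd ⟨h1, h2⟩ hp, fun t ht => ?_⟩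
      exact absurd ht (Finset.notMem_empty _)
  choose W hW1 hW2 using hW
  refine ⟨fun p a b e => (a % p, b % p, e % p) ∈ W p, ?_, ?_, ?_⟩
  · intro p hp
    refine ⟨fun a b e => ?_, fun a b e h1 => ?_⟩
    · simp only [Nat.mod_mod]
    · obtain ⟨_, _, _, _, h2⟩ := hW2 p _ h1
      exact (hper p hp).2 a b e (((hper p hp).1 a b e).mp h2)
  · intro p a b e hp h1
    obtain ⟨_, _, _, _, h2⟩ := hW2 p _ h1
    exact ((hper p hp).1 a b e).mp h2
  · intro p hp h13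
    rw [← hW1 p hp h13]
    unfold omc
    congr 1
    ext ⟨a, b, e⟩
    simp only [mem_filter, mem_product, mem_range]
    constructor
    · rintro ⟨⟨h1, h2, h3⟩, h4⟩
      rw [Nat.mod_eq_of_lt h1, Nat.mod_eq_of_lt h2, Nat.mod_eq_of_lt h3] at h4
      exact h4
    · intro h4
      obtain ⟨_, h1, h2, h3, _⟩ := hW2 p _ h4
      simp only at h1 h2 h3 ⊢
      refine ⟨⟨h1, h2, h3⟩, ?_⟩
      rw [Nat.mod_eq_of_lt h1, Nat.mod_eq_of_lt h2, Nat.mod_eq_of_lt h3]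
      exact h4

end Pool.Agent.Lib.MP_79499b_co.PL
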