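import Pool.Agent.Lib.MP_79499b_co.PL.K6
import Pool.Agent.Lib.MP_79499b_co.PL.K7
import Pool.Agent.Lib.MP_79499b_co.PL.K8
import Pool.Agent.Lib.MP_79499b_co.PL.K9
import Pool.Agent.Lib.MP_79499b_co.PL.K10
import Pool.Agent.Lib.MP_79499b_co.PL.K11

/-!
# K12: the sieve in `SL2`

Proof. `m p = ⌊h p p^2 - 40 p⌋₊ ≤ omc Om p` for primes `p ≥ 13` (`Nat.floor_le`, `hcard`). `K9_main`: `Om'` with `omc Om' p = m p`; `sft Om U ⊆ sft Om' U` for `U = UZ x` (`Om' → Om`, so a point without `Om`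
is a point without `Om'`). `K8_main` with `Ω = (Ioc A (2A) × range B × range E).filter (a ∣ b e + η)`, `P u t = Om' u t.1 t.2.1 t.2.2`, `X = B E T0`, `g u = m u/(u^3 - u)` (for all `u`; `0 ≤ g` for
`u ≥ 1`, also `u = 0, 1`: division by 0 is 0), `g ≤ 1` on `U`, `c u = m u ≤ 5 u^2`, `∑_{u ∈ U} c u ≤ 5 z^3 = D`, `R` the error factor of `K6_main`, `r = 2 ⌈20 LL⌉`; for `S ⊆ U`: `Ω.filter (∀ u ∈ S, P u) = blk Om' S`
and `omc Om' u = m u`. `K10_main` (`ε/2`), `K11_one`: `X (e^(-G) + e^(8G)/8^(r+1)) ≤ 2 B E e^(-G) ≤ 2 B E exp(-(κ - ε/2) LL) ≤ B E exp(-(κ-ε) LL)` for large `x`, and `3 R D^r ≤ x^(99/100)` by `K7_main`, `K11_two`.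
-/

set_option autoImplicit false

namespace Pool.Agent.Lib.MP_79499b_co.PL

open Finset Q38
open scoped Classical NumberTheorySymbols

private lemma K12_errA (a B E : ℕ) : 0 ≤ errA a B E := by
  unfold errA
  have h1 : (0 : ℝ) ≤ (a : ℝ) ^ (5 / 6 : ℝ) := Real.rpow_nonneg (Nat.cast_nonneg a) _
  positivity

private lemma K12_cube (u : ℕ) : (0 : ℝ) ≤ (u : ℝ) ^ 3 - u := by
  rcases Nat.eq_zero_or_pos u with h | h
  · rw [h]
    norm_num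
  · have h1 : (1 : ℝ) ≤ u := by exact_mod_cast h
    nlinarith [mul_nonneg (sub_nonneg.2 h1) (sub_nonneg.2 h1), sq_nonneg ((u : ℝ) - 1)]

theorem sl2_sieve {Om : ℕ → ℕ → ℕ → ℕ → Prop} (hper : Per Om) (h : ℕ → ℝ)
    (hh : ∀ p, 0 ≤ h p ∧ h p ≤ 5)
    (hcard : ∀ p : ℕ, p.Prime → 13 ≤ p → h p * (p : ℝ) ^ 2 - 40 * p ≤ (omc Om p : ℝ))
    {κ C : ℝ} (hκ : 0 ≤ κ)
    (hsum : ∀ Y : ℕ, 3 ≤ Y → κ * Real.log (Real.log Y) - C ≤
      ∑ p ∈ (range Y).filter Nat.Prime, h p / (p : ℝ)) {ε : ℝ} (hε : 0 < ε) :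
    ∃ x₀ : ℕ, ∀ x : ℕ, x₀ ≤ x → ∀ (A B E : ℕ) (η : ℤ), (η = 1 ∨ η = -1) →
      (x : ℝ) ^ (1 / 4 : ℝ) ≤ A → A ^ 2 ≤ 16 * x → B ≤ 4 * A → A * E ≤ 64 * x →
      ((sft Om (UZ x) A B E η).card : ℝ) ≤
        (B : ℝ) * E * Real.exp (-((κ - ε) * LL x)) + (x : ℝ) ^ (99 / 100 : ℝ) := by
  obtain ⟨m, hm⟩ : ∃ m : ℕ → ℕ, m = fun p => ⌊h p * (p : ℝ) ^ 2 - 40 * p⌋₊ := ⟨_, rfl⟩
  have hm5 : ∀ u : ℕ, (m u : ℝ) ≤ 5 * (u : ℝ) ^ 2 := by
    intro u
    rcases le_total 0 (h u * (u : ℝ) ^ 2 - 40 * u) with h1 | h1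
    · have h2 : (m u : ℝ) ≤ h u * (u : ℝ) ^ 2 - 40 * u := by
        rw [hm]
        exact Nat.floor_le h1
      have h3 : (0 : ℝ) ≤ (u : ℝ) := Nat.cast_nonneg u
      nlinarith [(hh u).2, sq_nonneg (u : ℝ), mul_nonneg (sub_nonneg.2 (hh u).2) (sq_nonneg (u : ℝ))]
    · have h2 : m u = 0 := by
        rw [hm]
        exact Nat.floor_of_nonpos h1
      rw [h2, Nat.cast_zero]
      positivity
  obtain ⟨Om', hper', hsub, homc⟩ := K9_main hper m fun p hp hp13 => by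
    rw [hm]
    exact Nat.floor_le_of_le (hcard p hp hp13)
  obtain ⟨T0, C, hT0, hT1, hC, hK6⟩ := K6_main
  obtain ⟨C', hC', hK7⟩ := K7_main
  obtain ⟨x₁, hx₁⟩ := K10_main h hh hκ hsum (half_pos hε)
  obtain ⟨x₂, hx₂⟩ := K11_one
  obtain ⟨x₃, hx₃⟩ := K11_two C C' hC hC'
  obtain ⟨x₄, hx₄⟩ := Filter.eventually_atTop.mp
    (tendsto_LL.eventually_ge_atTop (Real.log 2 / (ε / 2)))
  refine ⟨max 1 (max x₁ (max x₂ (max x₃ x₄))), fun x hx A B E η hη hA hA2 hB hE => ?_⟩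
  have hx1 : 1 ≤ x := le_trans (le_max_left _ _) hx
  have hxa : max x₁ (max x₂ (max x₃ x₄)) ≤ x := le_trans (le_max_right _ _) hx
  obtain ⟨g1, g2, g3⟩ := hx₁ x (le_trans (le_max_left _ _) hxa)
  have hxb : max x₂ (max x₃ x₄) ≤ x := le_trans (le_max_right _ _) hxa
  obtain ⟨k1, k2, k3, k4⟩ := hx₂ x (le_trans (le_max_left _ _) hxb)
  have hxc : max x₃ x₄ ≤ x := le_trans (le_max_right _ _) hxb
  have l1 := hx₃ x (le_trans (le_max_left _ _) hxc) A B E hA hA2 hB hE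
  have l2 := hx₄ x (le_trans (le_max_right _ _) hxc)
  have hA1 : 1 ≤ A := by
    have h1 : (1 : ℝ) ≤ (x : ℝ) ^ (1 / 4 : ℝ) :=
      Real.one_le_rpow (by exact_mod_cast hx1) (by norm_num)
    exact_mod_cast h1.trans hA
  have hAR : (1 : ℝ) ≤ A := by exact_mod_cast hA1
  have hlogA : 0 ≤ Real.log A := Real.log_nonneg hAR
  have hU : ∀ p ∈ UZ x, p.Prime ∧ p < zz x := by
    intro p hp
    unfold UZ at hp
    rw [mem_filter, mem_range] at hp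
    exact ⟨hp.2.1, hp.1⟩
  obtain ⟨R, hR⟩ : ∃ R : ℝ, R = C * (1 + Real.log A) * (B * E) / A + 2 * ∑ a ∈ Ioc A (2 * A), errA a B E :=
    ⟨_, rfl⟩
  have hR0 : 0 ≤ R := by
    rw [hR]
    have h1 : 0 ≤ ∑ a ∈ Ioc A (2 * A), errA a B E := sum_nonneg fun a _ => K12_errA a B E
    have h2 : 0 ≤ C * (1 + Real.log A) * (B * E) / A := by positivity
    linarith
  obtain ⟨r, hr⟩ : ∃ r : ℕ, r = 2 * ⌈20 * LL x⌉₊ := ⟨_, rfl⟩
  obtain ⟨Ω, hΩ⟩ : ∃ Ω : Finset (ℕ × ℕ × ℕ), Ω = (Ioc A (2 * A) ×ˢ range B ×ˢ range E).filter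
    (fun t : ℕ × ℕ × ℕ => (t.1 : ℤ) ∣ (t.2.1 : ℤ) * (t.2.2 : ℤ) + η) := ⟨_, rfl⟩
  obtain ⟨G, hG⟩ : ∃ G : ℝ, G = ∑ u ∈ UZ x, (m u : ℝ) / ((u : ℝ) ^ 3 - u) := ⟨_, rfl⟩
  have hGG : G = ∑ p ∈ UZ x, (⌊h p * (p : ℝ) ^ 2 - 40 * p⌋₊ : ℝ) / ((p : ℝ) ^ 3 - p) := by
    rw [hG, hm]
  rw [← hGG] at g1 g2
  have hG0 : 0 ≤ G := by
    rw [hG]
    exact sum_nonneg fun u _ => div_nonneg (Nat.cast_nonneg _) (K12_cube u)
  have hmain := K8_main Ω (UZ x) (fun u (t : ℕ × ℕ × ℕ) => Om' u t.1 t.2.1 t.2.2)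
    (fun u => (m u : ℝ) / ((u : ℝ) ^ 3 - u)) (fun u => (m u : ℝ))
    (X := (B : ℝ) * E * T0) (R := R) (G := G) (D := 5 * (zz x : ℝ) ^ 3) (by positivity) hR0
    (fun u => div_nonneg (Nat.cast_nonneg _) (K12_cube u)) (fun u hu => by
      have h1 : (13 : ℝ) ≤ u := by exact_mod_cast g3 u hu
      have h2 : (0 : ℝ) < (u : ℝ) ^ 3 - u := by nlinarith [mul_pos (by linarith : (0 : ℝ) < u) (by linarith : (0 : ℝ) < u)]
      rw [div_le_one h2]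
      refine (hm5 u).trans ?_
      nlinarith [mul_nonneg (by linarith : (0 : ℝ) ≤ u) (by linarith : (0 : ℝ) ≤ (u : ℝ) - 13)])
    (fun u => Nat.cast_nonneg _) hG.symm k3 (by
      have h1 : ∀ u ∈ UZ x, (m u : ℝ) ≤ 5 * (zz x : ℝ) ^ 2 := by
        intro u hu
        have h2 : (u : ℝ) ≤ zz x := by exact_mod_cast (hU u hu).2.le
        have h3 : (u : ℝ) ^ 2 ≤ (zz x : ℝ) ^ 2 := pow_le_pow_left₀ (Nat.cast_nonneg u) h2 2
        exact (hm5 u).trans (by linarith)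
      have h4 := sum_le_sum h1
      rw [sum_const, nsmul_eq_mul] at h4
      have h5 : ((UZ x).card : ℝ) ≤ zz x := by
        have h6 : (UZ x).card ≤ zz x := by
          unfold UZ
          exact (card_filter_le _ _).trans (card_range _).le
        exact_mod_cast h6
      have h7 : (0 : ℝ) ≤ 5 * (zz x : ℝ) ^ 2 := by positivity
      nlinarith [mul_le_mul_of_nonneg_right h5 h7]) (r := r) (by
      rw [hr]
      exact even_two_mul _) (by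
      intro S hS _
      have h1 := hK6 Om' hper' S (fun p hp => (hU p (hS hp)).1) A B E η hη hA1
      rw [← hR] at h1
      have h2 : blk Om' S A B E η = Ω.filter (fun t : ℕ × ℕ × ℕ => ∀ u ∈ S, Om' u t.1 t.2.1 t.2.2) := by
        unfold blk
        rw [hΩ]
        ext t
        simp only [mem_filter, and_assoc]
      have h3 : ∀ p ∈ S, (omc Om' p : ℝ) = (m p : ℝ) := by
        intro p hp
        rw [homc p (hU p (hS hp)).1 (g3 p (hS hp))]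
      rw [h2, prod_congr rfl h3, prod_congr rfl fun p hp => by rw [h3 p hp]] at h1
      exact h1)
  have hsft : ((sft Om (UZ x) A B E η).card : ℝ) ≤
      ((Ω.filter (fun t : ℕ × ℕ × ℕ => ∀ u ∈ UZ x, ¬ Om' u t.1 t.2.1 t.2.2)).card : ℝ) := by
    refine Nat.cast_le.mpr (card_le_card ?_)
    intro t ht
    unfold sft at ht
    rw [mem_filter] at ht
    rw [hΩ, mem_filter, mem_filter]
    exact ⟨⟨ht.1, ht.2.1⟩, fun u hu h1 => ht.2.2 u hu (hsub u _ _ _ (hU u hu).1 h1)⟩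
  refine hsft.trans (hmain.trans (add_le_add ?_ ?_))
  · have h1 := k2 G hG0 g2
    rw [← hr] at h1
    have h2 : Real.exp (-G) ≤ Real.exp (-((κ - ε / 2) * LL x)) := by
      apply Real.exp_le_exp.mpr
      linarith
    have h3 : 2 * Real.exp (-((κ - ε / 2) * LL x)) ≤ Real.exp (-((κ - ε) * LL x)) := by
      rw [div_le_iff₀ (half_pos hε)] at l2
      have h7 : 2 * Real.exp (-((κ - ε / 2) * LL x)) =
          Real.exp (Real.log 2 + -((κ - ε / 2) * LL x)) := by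
        rw [Real.exp_add, Real.exp_log (by norm_num : (0 : ℝ) < 2)]
      rw [h7]
      apply Real.exp_le_exp.mpr
      linarith
    have h4 : (B : ℝ) * E * T0 ≤ B * E := by
      have : (0 : ℝ) ≤ (B : ℝ) * E := by positivity
      nlinarith
    have h5 : (0 : ℝ) ≤ Real.exp (-G) + Real.exp (8 * G) / 8 ^ (r + 1) := by positivity
    have h6 : (0 : ℝ) ≤ (B : ℝ) * E := by positivity
    calc (B : ℝ) * E * T0 * (Real.exp (-G) + Real.exp (8 * G) / 8 ^ (r + 1))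
        ≤ (B : ℝ) * E * (Real.exp (-G) + Real.exp (8 * G) / 8 ^ (r + 1)) :=
          mul_le_mul_of_nonneg_right h4 h5
      _ ≤ (B : ℝ) * E * Real.exp (-((κ - ε) * LL x)) := by
          refine mul_le_mul_of_nonneg_left ?_ h6
          linarith
  · have h1 : R ≤ C * (1 + Real.log A) * (B * E) / A +
        2 * (C' * (A : ℝ) ^ (11 / 6 : ℝ) * (1 + Real.log A) ^ 6 * (1 + ((B : ℝ) + E) / A)) := by
      rw [hR]
      have := hK7 A B E hA1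
      linarith
    have h2 : (0 : ℝ) ≤ (x : ℝ) ^ (1 / 110 : ℝ) := Real.rpow_nonneg (Nat.cast_nonneg x) _
    rw [← hr] at k4
    calc 3 * R * (5 * (zz x : ℝ) ^ 3) ^ r ≤ 3 * R * (x : ℝ) ^ (1 / 110 : ℝ) :=
          mul_le_mul_of_nonneg_left k4 (by linarith)
      _ ≤ 3 * (C * (1 + Real.log A) * (B * E) / A +
          2 * (C' * (A : ℝ) ^ (11 / 6 : ℝ) * (1 + Real.log A) ^ 6 * (1 + ((B : ℝ) + E) / A))) *
          (x : ℝ) ^ (1 / 110 : ℝ) := mul_le_mul_of_nonneg_right (by linarith) h2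
      _ ≤ _ := l1

end Pool.Agent.Lib.MP_79499b_co.PL
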