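import Pool.Agent.Lib.MP_79499b_co.PL.K1

/-!
# K2: Kloosterman count in residue classes modulo `q`

Proof. The `b < B` with `b % q = b₀` are `b₀ + q j`, `j < B'`, `B' = #{b < B : b % q = b₀}` (`Nat.count_modEq_card` or: `B' = (B + q - 1 - b₀)/q`), `|B' - B/q| ≤ 1`, `B' ≤ B`; similarly `E'`.
`K1_main` with `B', E'`: the number is `B' E' φ(a)/a^2` up to `errA a B' E' ≤ errA a B E`. `|B' E' - B E/q^2| ≤ B/q + E/q + 1 ≤ B + E + 1` (`|xy - uv| ≤ |x-u| y + u |y-v|`), times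
`φ(a)/a^2 ≤ 1/a`: at most `(B+E)/a + 1/a ≤ 1 + (B+E)/a ≤ errA a B E` (`a ≥ 1`: all factors of `errA` are `≥ 1`). Total `2 errA a B E`.
-/

set_option autoImplicit false

namespace Pool.Agent.Lib.MP_79499b_co.PL

open Finset Q38
open scoped Classical NumberTheorySymbols

private theorem K2_lt {q b₀ B : ℕ} (hq0 : 0 < q) (hb : b₀ < q) (j : ℕ) :
    j < (B + q - 1 - b₀) / q ↔ b₀ + q * j < B := by
  rw [Nat.lt_iff_add_one_le, Nat.le_div_iff_mul_le hq0, add_mul, one_mul, mul_comm j q]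
  omega

private theorem K2_abs {q b₀ B : ℕ} (hq0 : 0 < q) (hb : b₀ < q) :
    |(((B + q - 1 - b₀) / q : ℕ) : ℝ) - (B : ℝ) / q| ≤ 1 := by
  have hq : (0 : ℝ) < q := by exact_mod_cast hq0
  obtain ⟨N, hN⟩ : ∃ N, N = (B + q - 1 - b₀) / q := ⟨_, rfl⟩
  rw [← hN]
  have h1 : q * N ≤ B + q - 1 - b₀ := by
    rw [hN]
    exact Nat.mul_div_le _ _
  have h2 : B + q - 1 - b₀ < q * N + q := by
    rw [hN]
    exact Nat.lt_mul_div_succ _ hq0
  have h3 : q * N ≤ B + q := by omega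
  have h4 : B ≤ q * N + q := by omega
  have h3' : (q : ℝ) * N ≤ B + q := by exact_mod_cast h3
  have h4' : (B : ℝ) ≤ q * N + q := by exact_mod_cast h4
  rw [abs_le]
  constructor
  · have h5 : (B : ℝ) / q ≤ N + 1 := by
      rw [div_le_iff₀ hq]
      linarith
    linarith
  · have h5 : (N : ℝ) ≤ B / q + 1 := by
      have h6 : (N : ℝ) ≤ (B + q) / q := by
        rw [le_div_iff₀ hq]
        linarith
      rwa [add_div, div_self hq.ne'] at h6
    linarith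

private theorem K2_le {q b₀ B : ℕ} (hq0 : 0 < q) (hb : b₀ < q) : (B + q - 1 - b₀) / q ≤ B := by
  by_contra h
  push Not at h
  rw [K2_lt hq0 hb] at h
  have h1 : B ≤ q * B := Nat.le_mul_of_pos_left _ hq0
  omega

theorem K2_main (a q b₀ e₀ B E : ℕ) (ha : 0 < a) (hq0 : 0 < q) (hq : Nat.Coprime q a)
    (hb : b₀ < q) (he : e₀ < q) (η : ℤ) (hη : η = 1 ∨ η = -1) :
    |(((range B ×ˢ range E).filter (fun t : ℕ × ℕ =>
      (a : ℤ) ∣ (t.1 : ℤ) * (t.2 : ℤ) + η ∧ t.1 % q = b₀ ∧ t.2 % q = e₀)).card : ℝ) -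
        (B : ℝ) * E * a.totient / ((a : ℝ) ^ 2 * (q : ℝ) ^ 2)| ≤ 2 * errA a B E := by
  obtain ⟨B', hB'⟩ : ∃ B', B' = (B + q - 1 - b₀) / q := ⟨_, rfl⟩
  obtain ⟨E', hE'⟩ : ∃ E', E' = (E + q - 1 - e₀) / q := ⟨_, rfl⟩
  have hBlt : ∀ j, j < B' ↔ b₀ + q * j < B := fun j => by rw [hB']; exact K2_lt hq0 hb j
  have hElt : ∀ j, j < E' ↔ e₀ + q * j < E := fun j => by rw [hE']; exact K2_lt hq0 he j
  have hBabs : |(B' : ℝ) - (B : ℝ) / q| ≤ 1 := by rw [hB']; exact K2_abs hq0 hb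
  have hEabs : |(E' : ℝ) - (E : ℝ) / q| ≤ 1 := by rw [hE']; exact K2_abs hq0 he
  have hBle : B' ≤ B := by rw [hB']; exact K2_le hq0 hb
  have hEle : E' ≤ E := by rw [hE']; exact K2_le hq0 he
  have hcard : ((range B ×ˢ range E).filter (fun t : ℕ × ℕ =>
      (a : ℤ) ∣ (t.1 : ℤ) * (t.2 : ℤ) + η ∧ t.1 % q = b₀ ∧ t.2 % q = e₀)).card =
      ((range B' ×ˢ range E').filter (fun t : ℕ × ℕ =>
      (a : ℤ) ∣ ((b₀ + q * t.1 : ℕ) : ℤ) * ((e₀ + q * t.2 : ℕ) : ℤ) + η)).card := by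
    symm
    refine Finset.card_bij (fun t _ => (b₀ + q * t.1, e₀ + q * t.2)) ?_ ?_ ?_
    · rintro ⟨x, y⟩ h
      rw [mem_filter, mem_product, mem_range, mem_range] at h ⊢
      obtain ⟨⟨h1, h2⟩, h3⟩ := h
      refine ⟨⟨(hBlt x).mp h1, (hElt y).mp h2⟩, h3, ?_, ?_⟩
      · show (b₀ + q * x) % q = b₀
        rw [Nat.add_mul_mod_self_left, Nat.mod_eq_of_lt hb]
      · show (e₀ + q * y) % q = e₀
        rw [Nat.add_mul_mod_self_left, Nat.mod_eq_of_lt he]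
    · rintro ⟨x, y⟩ _ ⟨x', y'⟩ _ h
      rw [Prod.mk.injEq] at h
      obtain ⟨h1, h2⟩ := h
      have h3 : x = x' := Nat.eq_of_mul_eq_mul_left hq0 (Nat.add_left_cancel h1)
      have h4 : y = y' := Nat.eq_of_mul_eq_mul_left hq0 (Nat.add_left_cancel h2)
      rw [h3, h4]
    · rintro ⟨x, y⟩ h
      rw [mem_filter, mem_product, mem_range, mem_range] at h
      obtain ⟨⟨h1, h2⟩, h3, h4, h5⟩ := h
      simp only at h1 h2 h4 h5
      have e1 : b₀ + q * (x / q) = x := by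
        rw [← h4]
        exact Nat.mod_add_div x q
      have e2 : e₀ + q * (y / q) = y := by
        rw [← h5]
        exact Nat.mod_add_div y q
      refine ⟨(x / q, y / q), ?_, ?_⟩
      · rw [mem_filter, mem_product, mem_range, mem_range]
        refine ⟨⟨(hBlt _).mpr (by rw [e1]; exact h1), (hElt _).mpr (by rw [e2]; exact h2)⟩, ?_⟩
        simp only [e1, e2]
        exact h3
      · simp only [e1, e2]
  rw [hcard]
  have hmain := K1_main a q b₀ e₀ B' E' ha hq η hη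
  have ha0 : (0 : ℝ) < a := by exact_mod_cast ha
  have ha1 : (1 : ℝ) ≤ a := by exact_mod_cast ha
  have hq' : (0 : ℝ) < q := by exact_mod_cast hq0
  have hq1 : (1 : ℝ) ≤ q := by exact_mod_cast hq0
  have hBr : (B' : ℝ) ≤ B := by exact_mod_cast hBle
  have hEr : (E' : ℝ) ≤ E := by exact_mod_cast hEle
  have hB0 : (0 : ℝ) ≤ B := Nat.cast_nonneg _
  have hE0 : (0 : ℝ) ≤ E := Nat.cast_nonneg _
  have hK : ∀ x : ℝ, 0 ≤ x → (a.divisors.card : ℝ) ^ 2 * (a : ℝ) ^ (5 / 6 : ℝ) *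
      (1 + Real.log a) ^ 2 * x ≥ x := by
    intro x hx
    have h1 : (1 : ℝ) ≤ (a.divisors.card : ℝ) ^ 2 := by
      have h2 : 1 ≤ a.divisors.card := Finset.card_pos.mpr ⟨1, Nat.one_mem_divisors.mpr ha.ne'⟩
      exact one_le_pow₀ (by exact_mod_cast h2)
    have h2 : (1 : ℝ) ≤ (a : ℝ) ^ (5 / 6 : ℝ) := Real.one_le_rpow ha1 (by norm_num)
    have h3 : (1 : ℝ) ≤ (1 + Real.log a) ^ 2 := by
      have := Real.log_nonneg ha1
      exact one_le_pow₀ (by linarith)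
    have h4 := one_le_mul_of_one_le_of_one_le (one_le_mul_of_one_le_of_one_le h1 h2) h3
    exact le_mul_of_one_le_left hx h4
  have herr : errA a B' E' ≤ errA a B E := by
    unfold errA
    apply mul_le_mul_of_nonneg_left
    · have : ((B' : ℝ) + E') / a ≤ ((B : ℝ) + E) / a := by
        apply div_le_div_of_nonneg_right _ ha0.le
        linarith
      linarith
    · positivity
  have herr2 : ((B : ℝ) + E) / a ≤ errA a B E := by
    have h1 := hK (1 + ((B : ℝ) + E) / a) (by positivity)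
    unfold errA
    linarith
  have hdiff : |(B' : ℝ) * E' * a.totient / (a : ℝ) ^ 2 -
      (B : ℝ) * E * a.totient / ((a : ℝ) ^ 2 * (q : ℝ) ^ 2)| ≤ ((B : ℝ) + E) / a := by
    have e1 : (B' : ℝ) * E' * a.totient / (a : ℝ) ^ 2 -
        (B : ℝ) * E * a.totient / ((a : ℝ) ^ 2 * (q : ℝ) ^ 2) =
        (((B' : ℝ) - B / q) * E' + B / q * ((E' : ℝ) - E / q)) * (a.totient / (a : ℝ) ^ 2) := by
      field_simp
      ring
    rw [e1, abs_mul]
    have h1 : |((B' : ℝ) - B / q) * E' + B / q * ((E' : ℝ) - E / q)| ≤ B + E := by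
      refine (abs_add_le _ _).trans ?_
      rw [abs_mul, abs_mul, abs_of_nonneg (Nat.cast_nonneg E' : (0 : ℝ) ≤ E'),
        abs_of_nonneg (by positivity : (0 : ℝ) ≤ (B : ℝ) / q)]
      have h2 : |(B' : ℝ) - B / q| * E' ≤ 1 * E :=
        mul_le_mul hBabs hEr (Nat.cast_nonneg _) zero_le_one
      have h3 : (B : ℝ) / q ≤ B := div_le_self hB0 hq1
      have h4 : (B : ℝ) / q * |(E' : ℝ) - E / q| ≤ B * 1 :=
        mul_le_mul h3 hEabs (abs_nonneg _) hB0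
      linarith
    have h5 : |(a.totient : ℝ) / (a : ℝ) ^ 2| ≤ 1 / a := by
      rw [abs_of_nonneg (by positivity), div_le_div_iff₀ (by positivity) ha0]
      have h6 : (a.totient : ℝ) ≤ a := by exact_mod_cast Nat.totient_le a
      nlinarith
    calc |((B' : ℝ) - B / q) * E' + B / q * ((E' : ℝ) - E / q)| * |(a.totient : ℝ) / (a : ℝ) ^ 2|
        ≤ (B + E) * (1 / a) := mul_le_mul h1 h5 (abs_nonneg _) (by positivity)
      _ = ((B : ℝ) + E) / a := by ring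
  calc |(((range B' ×ˢ range E').filter (fun t : ℕ × ℕ =>
      (a : ℤ) ∣ ((b₀ + q * t.1 : ℕ) : ℤ) * ((e₀ + q * t.2 : ℕ) : ℤ) + η)).card : ℝ) -
        (B : ℝ) * E * a.totient / ((a : ℝ) ^ 2 * (q : ℝ) ^ 2)|
      = |((((range B' ×ˢ range E').filter (fun t : ℕ × ℕ =>
      (a : ℤ) ∣ ((b₀ + q * t.1 : ℕ) : ℤ) * ((e₀ + q * t.2 : ℕ) : ℤ) + η)).card : ℝ) -
        (B' : ℝ) * E' * a.totient / (a : ℝ) ^ 2) + ((B' : ℝ) * E' * a.totient / (a : ℝ) ^ 2 -
      (B : ℝ) * E * a.totient / ((a : ℝ) ^ 2 * (q : ℝ) ^ 2))| := by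
        rw [sub_add_sub_cancel]
    _ ≤ errA a B' E' + ((B : ℝ) + E) / a := (abs_add_le _ _).trans (add_le_add hmain hdiff)
    _ ≤ 2 * errA a B E := by linarith

end Pool.Agent.Lib.MP_79499b_co.PL
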