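import Pool.Agent.Lib.MP_79499b_co.PL.Defs

/-!
# K3: the Euler product of `∑ μ(k)/k^2` over `k` coprime to `d`

`mu2 d = ∑_{k ≥ 1, (k,d)=1} μ(k)/k^2` (absolutely convergent; the term `k = 0` is 0).

Claim. For squarefree `d`: `mu2 d * ∏_{p ∣ d} (1 - 1/p^2) = mu2 1`.
Proof. Induction over the primes of `d` (`Nat.recOnMul`/`Finset` induction on sets `S` of primes with `d = ∏ S`): for a prime `p ∤ d`: `mu2 d = mu2 (d p) (1 - 1/p^2)`: split the
sum over `k` coprime to `d` into `p ∤ k` (this is `mu2 (dp)`) and `p ∣ k`: for `p^2 ∣ k` `μ(k) = 0`; for `k = p k'`, `p ∤ k'`: `μ(k) = -μ(k')`, `1/k^2 = 1/(p^2 k'^2)`, which gives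
`-(1/p^2) mu2 (dp)`. (Write it as: the function `k' ↦ p k'` is injective, and the terms with `p ∣ k` are supported on its range: `tsum` over the range;
`Summable` by comparison with `1/k^2`.)
Also `|μ(k)| ≤ 1`, and `tail`: `|mu2 d - ∑_{k < N, (k,d)=1} μ(k)/k^2| ≤ 2/N` for `N ≥ 1` (`∑_{k ≥ N} 1/k^2 ≤ 2/N`).
-/

set_option autoImplicit false

namespace Pool.Agent.Lib.MP_79499b_co.PL

open Finset Q38
open scoped Classical NumberTheorySymbols

noncomputable def mu2 (d : ℕ) : ℝ :=
  ∑' k : ℕ, if Nat.Coprime k d then (ArithmeticFunction.moebius k : ℝ) / (k : ℝ) ^ 2 else 0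

private lemma K3_bd (d k : ℕ) :
    ‖(if Nat.Coprime k d then (ArithmeticFunction.moebius k : ℝ) / (k : ℝ) ^ 2 else 0 : ℝ)‖ ≤
      1 / (k : ℝ) ^ 2 := by
  split_ifs
  · rw [norm_div, Real.norm_eq_abs, norm_pow, Real.norm_eq_abs, Nat.abs_cast]
    apply div_le_div_of_nonneg_right _ (by positivity)
    exact_mod_cast ArithmeticFunction.abs_moebius_le_one
  · rw [norm_zero]
    positivity

theorem K3_summable (d : ℕ) : Summable (fun k : ℕ =>
    if Nat.Coprime k d then (ArithmeticFunction.moebius k : ℝ) / (k : ℝ) ^ 2 else 0) :=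
  Summable.of_norm_bounded (Real.summable_one_div_nat_pow.mpr one_lt_two) (K3_bd d)

private lemma K3_step {d p : ℕ} (hp : p.Prime) (hpd : ¬ p ∣ d) :
    mu2 d = mu2 (d * p) * (1 - 1 / (p : ℝ) ^ 2) := by
  have hpc : Nat.Coprime p d := hp.coprime_iff_not_dvd.mpr hpd
  have hcop : ∀ x, Nat.Coprime x p ↔ ¬ p ∣ x := fun x => by
    rw [Nat.coprime_comm, hp.coprime_iff_not_dvd]
  have hp0 : (p : ℝ) ≠ 0 := Nat.cast_ne_zero.mpr hp.ne_zero
  have hf := K3_summable d
  have hfp := K3_summable (d * p)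
  have hinj : Function.Injective (fun k : ℕ => p * k) := fun a b h =>
    Nat.eq_of_mul_eq_mul_left hp.pos h
  have h1 : ∀ k : ℕ, (if Nat.Coprime k d then (ArithmeticFunction.moebius k : ℝ) / (k : ℝ) ^ 2 else 0) =
      (if Nat.Coprime k (d * p) then (ArithmeticFunction.moebius k : ℝ) / (k : ℝ) ^ 2 else 0) +
      (if p ∣ k then (if Nat.Coprime k d then (ArithmeticFunction.moebius k : ℝ) / (k : ℝ) ^ 2 else 0)
        else 0) := by
    intro k
    have h2 : Nat.Coprime k (d * p) ↔ Nat.Coprime k d ∧ ¬ p ∣ k := by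
      rw [Nat.coprime_mul_iff_right, Nat.coprime_comm (n := k) (m := p), hp.coprime_iff_not_dvd]
    by_cases hpk : p ∣ k
    · rw [if_neg (fun h => (h2.mp h).2 hpk), if_pos hpk, zero_add]
    · by_cases hkd : Nat.Coprime k d
      · rw [if_pos hkd, if_pos (h2.mpr ⟨hkd, hpk⟩), if_neg hpk, add_zero]
      · rw [if_neg hkd, if_neg (fun h => hkd (h2.mp h).1), if_neg hpk, add_zero]
  have h3 : ∀ k : ℕ, (if p ∣ p * k then (if Nat.Coprime (p * k) d then
      (ArithmeticFunction.moebius (p * k) : ℝ) / ((p * k : ℕ) : ℝ) ^ 2 else 0) else 0) =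
      -(1 / (p : ℝ) ^ 2) *
        (if Nat.Coprime k (d * p) then (ArithmeticFunction.moebius k : ℝ) / (k : ℝ) ^ 2 else 0) := by
    intro k
    rw [if_pos (Dvd.intro _ rfl)]
    by_cases hpk : p ∣ k
    · have h4 : ArithmeticFunction.moebius (p * k) = 0 := by
        apply ArithmeticFunction.moebius_eq_zero_of_not_squarefree
        intro h
        obtain ⟨r, rfl⟩ := hpk
        exact hp.one_lt.ne' (Nat.isUnit_iff.mp (h p ⟨r, by ring⟩))
      rw [h4, if_neg (fun h : Nat.Coprime k (d * p) => by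
        rw [Nat.coprime_mul_iff_right, Nat.coprime_comm (n := k) (m := p), hp.coprime_iff_not_dvd] at h
        exact h.2 hpk)]
      simp
    · have h4 : ArithmeticFunction.moebius (p * k) = -ArithmeticFunction.moebius k := by
        rw [ArithmeticFunction.isMultiplicative_moebius.map_mul_of_coprime
          (hp.coprime_iff_not_dvd.mpr hpk), ArithmeticFunction.moebius_apply_prime hp]
        ring
      have h5 : Nat.Coprime (p * k) d ↔ Nat.Coprime k (d * p) := by
        rw [Nat.coprime_mul_iff_left, Nat.coprime_mul_iff_right, hcop]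
        exact ⟨fun h => ⟨h.2, hpk⟩, fun h => ⟨hpc, h.1⟩⟩
      by_cases h6 : Nat.Coprime k (d * p)
      · rw [if_pos h6, if_pos (h5.mpr h6), h4]
        push_cast
        by_cases hk : (k : ℝ) = 0
        · rw [hk]
          simp
        · field_simp
      · rw [if_neg h6, if_neg (fun h => h6 (h5.mp h)), mul_zero]
  have hsum : Summable (fun k : ℕ => if p ∣ k then
      (if Nat.Coprime k d then (ArithmeticFunction.moebius k : ℝ) / (k : ℝ) ^ 2 else 0) else 0) := by
    have h := hf.sub hfp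
    exact h.congr fun k => sub_eq_of_eq_add' (h1 k)
  have h7 : (∑' k : ℕ, if p ∣ k then
      (if Nat.Coprime k d then (ArithmeticFunction.moebius k : ℝ) / (k : ℝ) ^ 2 else 0) else 0) =
      -(1 / (p : ℝ) ^ 2) * mu2 (d * p) := by
    rw [← hinj.tsum_eq]
    · simp only [h3]
      rw [tsum_mul_left]
      rfl
    · intro k hk
      rw [Function.mem_support] at hk
      have : p ∣ k := by
        by_contra h
        exact hk (if_neg h)
      obtain ⟨r, rfl⟩ := this
      exact ⟨r, rfl⟩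
  have h8 : mu2 d = mu2 (d * p) + (∑' k : ℕ, if p ∣ k then
      (if Nat.Coprime k d then (ArithmeticFunction.moebius k : ℝ) / (k : ℝ) ^ 2 else 0) else 0) := by
    unfold mu2
    rw [← hfp.tsum_add hsum]
    exact tsum_congr h1
  rw [h8, h7]
  ring

theorem K3_prod {d : ℕ} (hd : Squarefree d) :
    mu2 d * ∏ p ∈ d.primeFactors, (1 - 1 / (p : ℝ) ^ 2) = mu2 1 := by
  induction d using Nat.strong_induction_on with
  | _ d ih =>
    by_cases h1 : d = 1
    · rw [h1]
      simp
    · have hp := Nat.minFac_prime h1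
      obtain ⟨e, he⟩ := Nat.minFac_dvd d
      generalize d.minFac = p at hp he
      have hd0 : 0 < d := Nat.pos_of_ne_zero hd.ne_zero
      rw [mul_comm] at he
      subst he
      have hpe : ¬ p ∣ e := by
        rintro ⟨r, rfl⟩
        exact hp.one_lt.ne' (Nat.isUnit_iff.mp (hd p ⟨r, by ring⟩))
      have hcop : Nat.Coprime e p := by
        rw [Nat.coprime_comm, hp.coprime_iff_not_dvd]
        exact hpe
      have he : Squarefree e := hd.squarefree_of_dvd (Dvd.intro _ rfl)
      have he0 : 0 < e := Nat.pos_of_ne_zero he.ne_zero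
      have hlt : e < e * p := by
        have := hp.two_le
        nlinarith
      rw [← ih e hlt he, hcop.primeFactors_mul, prod_union hcop.disjoint_primeFactors,
        hp.primeFactors, prod_singleton, K3_step hp hpe]
      ring

theorem K3_tail (d N : ℕ) (hN : 1 ≤ N) :
    |mu2 d - ∑ k ∈ (range N).filter (fun k => Nat.Coprime k d),
      (ArithmeticFunction.moebius k : ℝ) / (k : ℝ) ^ 2| ≤ 2 / N := by
  have hs := K3_summable d
  rw [sum_filter]
  unfold mu2
  rw [← hs.sum_add_tsum_nat_add N, add_sub_cancel_left]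
  have h1 : ∀ n : ℕ, ∑ j ∈ range n, 1 / (((j + N : ℕ) : ℝ)) ^ 2 ≤ 2 / N - 2 / ((n + N : ℕ) : ℝ) := by
    intro n
    induction n with
    | zero => simp
    | succ n ih =>
      rw [sum_range_succ]
      have hx : (0 : ℝ) < ((n + N : ℕ) : ℝ) := by
        exact_mod_cast (by omega : 0 < n + N)
      have hx1 : (1 : ℝ) ≤ ((n + N : ℕ) : ℝ) := by
        exact_mod_cast (by omega : 1 ≤ n + N)
      have h2 : ((n + 1 + N : ℕ) : ℝ) = ((n + N : ℕ) : ℝ) + 1 := by push_cast; ring
      rw [h2]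
      have h3 : 1 / ((n + N : ℕ) : ℝ) ^ 2 ≤ 2 / ((n + N : ℕ) : ℝ) - 2 / (((n + N : ℕ) : ℝ) + 1) := by
        rw [div_sub_div _ _ hx.ne' (by positivity), div_le_div_iff₀ (by positivity) (by positivity)]
        nlinarith
      linarith
  have hg : Summable (fun j : ℕ => 1 / (((j + N : ℕ) : ℝ)) ^ 2) :=
    (summable_nat_add_iff N).mpr (Real.summable_one_div_nat_pow.mpr one_lt_two)
  have h4 : ∑' j : ℕ, 1 / (((j + N : ℕ) : ℝ)) ^ 2 ≤ 2 / (N : ℝ) := by
    apply Real.tsum_le_of_sum_range_le (fun j => by positivity)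
    intro n
    have h5 : (0 : ℝ) ≤ 2 / ((n + N : ℕ) : ℝ) := by positivity
    linarith [h1 n]
  refine le_trans ?_ h4
  exact tsum_of_norm_bounded hg.hasSum (fun j => K3_bd d (j + N))

end Pool.Agent.Lib.MP_79499b_co.PL
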