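import Pool.Agent.Lib.MP_79499b_co.PL.K3

/-!
# K4: distribution of `φ(a)/a^2` in residue classes

Proof. (1) For real... natural `k ≥ 1`, `A ≥ 1`, `d ≥ 1`, and a class `c mod d`: `|∑_{A < k j ≤ 2A, j ≡ c (d)} 1/j - (log 2)/d| ≤ 6 k/A`: let `y = A/k` (real). If `y < 1` the left side is at most
`∑_{y < j ≤ 2y} 1/j + 1 ≤ 2 ≤ 2/y` (at most one `j`, `j = 1`). If `y ≥ 1`: the `j ∈ (y, 2y]`, `j ≡ c`, are `j_0 < j_0 + d < ...`; compare `1/j` with `(1/d) ∫_j^(j+d) dt/t`: since `1/t` is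
decreasing, `∑ 1/j` lies between `(1/d) ∫_{j_0}^{J} dt/t` (`J` the first member of the class `> 2y`) and `1/j_0` plus the same; all in all the difference to
`(1/d) ∫_y^{2y} dt/t = (log 2)/d` is at most `2/y` plus the two end pieces `(1/d) ∫` over intervals of length `≤ d`, at most `1/y` each. (Alternative without integrals: `1/d (log(j+d) - log j)`
telescopes, `|d/j - log((j+d)/j)| ≤ (d/j)^2` for... use `log(1+x) ≤ x` and `x - log(1+x) ≤ x - x/(1+x)`, whose sum telescopes: `d/j - d/(j+d)`.)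
(2) `φ(a)/a = ∑_{k ∣ a} μ(k)/k` (`ArithmeticFunction`, or `Nat.totient` as `∑ μ(k) a/k`: `ArithmeticFunction.coe_moebius_mul_coe_zeta`-style; known: `Nat.totient_eq_...`, or from
`Nat.sum_totient` by Moebius inversion). So `∑_{A<a≤2A, a≡a₀} φ(a)/a^2 = ∑_{k ≤ 2A} (μ(k)/k) ∑_{A < kj ≤ 2A, kj ≡ a₀ (d)} 1/(kj)`. As `(a₀, d) = 1`, only `(k, d) = 1` occur, and then
`kj ≡ a₀` is a class for `j`. By (1) the sum is `∑_{k ≤ 2A, (k,d)=1} (μ(k)/k^2) (log 2)/d` up to `∑_{k ≤ 2A} (1/k^2) 6k/A ≤ 6 (1 + log 2A)/A`. By `K3_tail` (`N = 2A+1`) and `K3_prod` the main term is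
`(log 2/d) mu2 d + O(1/A) = T0/(d ∏ (1 - 1/p^2)) + O(1/A)`, `T0 = log 2 · mu2 1` (`1 - 1/p^2 > 0`).
(3) `0 ≤ T0 ≤ 1`: for `d = 1` the left sum is `≥ 0` and `≤ ∑_{A<a≤2A} 1/a ≤ 1`, and tends to `T0` as `A → ∞` (`(1 + log A)/A → 0`).
-/

set_option autoImplicit false

namespace Pool.Agent.Lib.MP_79499b_co.PL

open Finset Q38
open scoped Classical NumberTheorySymbols

private theorem K4_log {d j : ℝ} (hd : 0 < d) (hj : 0 < j) :
    1 / d * (Real.log (j + d) - Real.log j) ≤ 1 / j ∧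
      1 / j ≤ 1 / d * (Real.log (j + d) - Real.log j) + 1 / j - 1 / (j + d) := by
  have hjd : 0 < j + d := by linarith
  constructor
  · have h1 : Real.log (j + d) - Real.log j ≤ d / j := by
      rw [← Real.log_div hjd.ne' hj.ne']
      have h2 := Real.log_le_sub_one_of_pos (show 0 < (j + d) / j by positivity)
      have h3 : (j + d) / j - 1 = d / j := by field_simp; ring
      linarith
    calc 1 / d * (Real.log (j + d) - Real.log j) ≤ 1 / d * (d / j) := mul_le_mul_of_nonneg_left h1 (by positivity)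
      _ = 1 / j := by field_simp
  · have h1 : d / (j + d) ≤ Real.log (j + d) - Real.log j := by
      have h2 := Real.log_le_sub_one_of_pos (show 0 < j / (j + d) by positivity)
      rw [Real.log_div hj.ne' hjd.ne'] at h2
      have h3 : j / (j + d) - 1 = -(d / (j + d)) := by field_simp; ring
      linarith
    have h2 : 1 / d * (d / (j + d)) ≤ 1 / d * (Real.log (j + d) - Real.log j) :=
      mul_le_mul_of_nonneg_left h1 (by positivity)
    have h3 : 1 / d * (d / (j + d)) = 1 / (j + d) := by field_simp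
    linarith

/-- telescoping in a residue class -/
private theorem K4_tel (d c m J0 : ℕ) (hd : 0 < d) (h0 : m < J0) (h1 : J0 ≤ m + d) (h2 : J0 % d = c % d)
    (n : ℕ) (hn : m ≤ n) : ∃ J : ℕ, n < J ∧ J ≤ n + d ∧ J % d = c % d ∧
      1 / (d : ℝ) * (Real.log J - Real.log J0) ≤
        ∑ j ∈ (Ioc m n).filter (fun j => j % d = c % d), 1 / (j : ℝ) ∧
      ∑ j ∈ (Ioc m n).filter (fun j => j % d = c % d), 1 / (j : ℝ) ≤
        1 / (d : ℝ) * (Real.log J - Real.log J0) + 1 / J0 - 1 / J := by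
  have hd' : (0 : ℝ) < d := by exact_mod_cast hd
  induction n, hn using Nat.le_induction with
  | base =>
    refine ⟨J0, h0, h1, h2, ?_, ?_⟩
    · rw [Ioc_self, filter_empty, sum_empty, sub_self, mul_zero]
    · rw [Ioc_self, filter_empty, sum_empty, sub_self, mul_zero, zero_add, sub_self]
  | succ n hn ih =>
    obtain ⟨J, a1, a2, a3, a4, a5⟩ := ih
    have hIoc : Ioc m (n + 1) = insert (n + 1) (Ioc m n) := by
      ext x
      simp only [mem_Ioc, mem_insert]
      omega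
    by_cases hc : (n + 1) % d = c % d
    · have hJ : J = n + 1 := by
        have e1 : (n + 1) ≡ J [MOD d] := by
          unfold Nat.ModEq
          rw [hc, a3]
        obtain ⟨k, hk⟩ := (Nat.modEq_iff_dvd' (by omega)).mp e1
        rcases Nat.eq_zero_or_pos k with h | h
        · rw [h, mul_zero] at hk
          omega
        · have : d ≤ d * k := Nat.le_mul_of_pos_right d h
          omega
      have hs : ∑ j ∈ (Ioc m (n + 1)).filter (fun j => j % d = c % d), 1 / (j : ℝ) =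
          1 / ((n + 1 : ℕ) : ℝ) + ∑ j ∈ (Ioc m n).filter (fun j => j % d = c % d), 1 / (j : ℝ) := by
        rw [hIoc, filter_insert, if_pos hc, sum_insert]
        simp
      have hjp : (0 : ℝ) < J := by exact_mod_cast (by omega : 0 < J)
      obtain ⟨b1, b2⟩ := K4_log hd' hjp
      refine ⟨J + d, by omega, by omega, by rw [Nat.add_mod_right, a3], ?_, ?_⟩
      · rw [hs, ← hJ]
        push_cast
        have e1 : 1 / (d : ℝ) * (Real.log ((J : ℝ) + d) - Real.log J0) =
          1 / (d : ℝ) * (Real.log ((J : ℝ) + d) - Real.log J) + 1 / (d : ℝ) * (Real.log J - Real.log J0) := by ring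
        rw [e1]
        linarith
      · rw [hs, ← hJ]
        push_cast
        have e1 : 1 / (d : ℝ) * (Real.log ((J : ℝ) + d) - Real.log J0) =
          1 / (d : ℝ) * (Real.log ((J : ℝ) + d) - Real.log J) + 1 / (d : ℝ) * (Real.log J - Real.log J0) := by ring
        rw [e1]
        linarith
    · have hs : ∑ j ∈ (Ioc m (n + 1)).filter (fun j => j % d = c % d), 1 / (j : ℝ) =
          ∑ j ∈ (Ioc m n).filter (fun j => j % d = c % d), 1 / (j : ℝ) := by
        rw [hIoc, filter_insert, if_neg hc]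
      have hJ : J ≠ n + 1 := by
        rintro rfl
        exact hc a3
      exact ⟨J, by omega, by omega, a3, by rw [hs]; exact a4, by rw [hs]; exact a5⟩

/-- the sum of `1 / j` over `A < k j ≤ 2 A`, `j` in a residue class -/
private theorem K4_cls (A k d c : ℕ) (hA : 0 < A) (hk : 0 < k) (hd : 0 < d) :
    |∑ j ∈ (Ioc (A / k) (2 * A / k)).filter (fun j => j % d = c % d), 1 / (j : ℝ) - Real.log 2 / d| ≤
      2 * k / A := by
  have hA' : (0 : ℝ) < A := by exact_mod_cast hA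
  have hk' : (0 : ℝ) < k := by exact_mod_cast hk
  have hd' : (0 : ℝ) < d := by exact_mod_cast hd
  obtain ⟨m, hm⟩ : ∃ m : ℕ, m = A / k := ⟨_, rfl⟩
  obtain ⟨n, hn⟩ : ∃ n : ℕ, n = 2 * A / k := ⟨_, rfl⟩
  obtain ⟨y, hy⟩ : ∃ y : ℝ, y = (A : ℝ) / k := ⟨_, rfl⟩
  have hy0 : 0 < y := by rw [hy]; positivity
  have hm1 : (m : ℝ) ≤ y := by
    rw [hm, hy]; exact Nat.cast_div_le
  have hm2 : y < m + 1 := by
    rw [hm, hy, div_lt_iff₀ hk']
    have h1 := Nat.lt_succ_iff.mpr (Nat.le_refl (A / k))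
    have h2 : A < (A / k + 1) * k :=
      lt_of_lt_of_eq (Nat.lt_mul_div_succ A hk) (Nat.mul_comm _ _)
    exact_mod_cast h2
  have hn1 : (n : ℝ) ≤ 2 * y := by
    rw [hn, hy]
    have := Nat.cast_div_le (α := ℝ) (m := 2 * A) (n := k)
    push_cast at this
    rw [mul_div_assoc] at this
    exact this
  have hn2 : 2 * y < n + 1 := by
    rw [hn, hy, ← mul_div_assoc, div_lt_iff₀ hk']
    have h2 : 2 * A < (2 * A / k + 1) * k :=
      lt_of_lt_of_eq (Nat.lt_mul_div_succ (2 * A) hk) (Nat.mul_comm _ _)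
    exact_mod_cast h2
  have hmn : m ≤ n := by
    rw [hm, hn]
    exact Nat.div_le_div_right (by omega)
  -- first element
  obtain ⟨J0, b1, b2, b3⟩ : ∃ J0 : ℕ, m < J0 ∧ J0 ≤ m + d ∧ J0 % d = c % d := by
    refine ⟨m + 1 + (c + (d - 1) * (m + 1)) % d, by omega, ?_, ?_⟩
    · have := Nat.mod_lt (c + (d - 1) * (m + 1)) hd
      omega
    · rw [Nat.add_mod_mod]
      have e1 : m + 1 + (c + (d - 1) * (m + 1)) = c + d * (m + 1) := by
        obtain ⟨e, rfl⟩ : ∃ e, d = e + 1 := ⟨d - 1, by omega⟩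
        rw [Nat.add_sub_cancel]
        ring
      rw [e1, Nat.add_mul_mod_self_left]
  obtain ⟨J, c1, c2, -, c4, c5⟩ := K4_tel d c m J0 hd b1 b2 b3 n hmn
  rw [← hm, ← hn]
  obtain ⟨S, hS⟩ : ∃ S : ℝ, S = ∑ j ∈ (Ioc m n).filter (fun j => j % d = c % d), 1 / (j : ℝ) := ⟨_, rfl⟩
  rw [← hS] at c4 c5 ⊢
  have hJ0 : y < J0 := by
    have : (m : ℝ) + 1 ≤ J0 := by exact_mod_cast b1
    linarith
  have hJ0' : (J0 : ℝ) ≤ y + d := by
    have : (J0 : ℝ) ≤ m + d := by exact_mod_cast b2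
    linarith
  have hJ : 2 * y < J := by
    have : (n : ℝ) + 1 ≤ J := by exact_mod_cast c1
    linarith
  have hJ' : (J : ℝ) ≤ 2 * y + d := by
    have : (J : ℝ) ≤ n + d := by exact_mod_cast c2
    linarith
  -- logarithms
  have l1 : Real.log y ≤ Real.log J0 := Real.log_le_log hy0 hJ0.le
  have l2 : Real.log J0 ≤ Real.log y + d / y := by
    have e1 : Real.log J0 ≤ Real.log (y + d) := Real.log_le_log (by linarith) hJ0'
    have e2 := (K4_log hd' hy0).1
    have e3 : Real.log (y + d) - Real.log y ≤ d / y := by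
      have := mul_le_mul_of_nonneg_left e2 hd'.le
      have e4 : (d : ℝ) * (1 / d * (Real.log (y + d) - Real.log y)) = Real.log (y + d) - Real.log y := by
        field_simp
      have e5 : (d : ℝ) * (1 / y) = d / y := by ring
      linarith
    linarith
  have l3 : Real.log 2 + Real.log y ≤ Real.log J := by
    rw [← Real.log_mul (by norm_num) hy0.ne']
    exact Real.log_le_log (by linarith) hJ.le
  have l4 : Real.log J ≤ Real.log 2 + Real.log y + d / y := by
    have e1 : Real.log J ≤ Real.log (2 * y + d) := Real.log_le_log (by linarith) hJ'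
    have e2 := (K4_log hd' (show 0 < 2 * y by linarith)).1
    have e3 : Real.log (2 * y + d) - Real.log (2 * y) ≤ d / (2 * y) := by
      have := mul_le_mul_of_nonneg_left e2 hd'.le
      have e4 : (d : ℝ) * (1 / d * (Real.log (2 * y + d) - Real.log (2 * y))) =
          Real.log (2 * y + d) - Real.log (2 * y) := by
        field_simp
      have e5 : (d : ℝ) * (1 / (2 * y)) = d / (2 * y) := by ring
      linarith
    rw [Real.log_mul (by norm_num) hy0.ne'] at e3
    have e4 : (d : ℝ) / (2 * y) ≤ d / y := div_le_div_of_nonneg_left hd'.le hy0 (by linarith)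
    linarith
  have hy1 : 1 / y = k / A := by rw [hy]; field_simp
  have r1 : 1 / (J0 : ℝ) ≤ 1 / y := one_div_le_one_div_of_le hy0 hJ0.le
  have r2 : 0 ≤ 1 / (J : ℝ) := by positivity
  have r3 : 1 / (d : ℝ) * (d / y) = 1 / y := by field_simp
  have r4 : (2 : ℝ) * k / A = 2 * (1 / y) := by rw [hy1]; ring
  have r5 : Real.log 2 / d = 1 / (d : ℝ) * Real.log 2 := by ring
  have hd0 : 0 < 1 / (d : ℝ) := by positivity
  have u1 : 1 / (d : ℝ) * (Real.log J - Real.log J0) ≤ 1 / (d : ℝ) * (Real.log 2 + d / y) :=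
    mul_le_mul_of_nonneg_left (by linarith) hd0.le
  have u2 : 1 / (d : ℝ) * (Real.log 2 - d / y) ≤ 1 / (d : ℝ) * (Real.log J - Real.log J0) :=
    mul_le_mul_of_nonneg_left (by linarith) hd0.le
  rw [mul_add, r3] at u1
  rw [mul_sub, r3] at u2
  have hy2 : 0 < 1 / y := by positivity
  rw [r4, r5, abs_le]
  constructor <;> linarith

/-- `φ(a)/a^2` as a sum over the divisors -/
private theorem K4_phi {a : ℕ} (ha : 0 < a) : (a.totient : ℝ) / (a : ℝ) ^ 2 =
    ∑ k ∈ a.divisors, (ArithmeticFunction.moebius k : ℝ) / (k : ℝ) ^ 2 * (1 / ((a / k : ℕ) : ℝ)) := by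
  have h1 := (ArithmeticFunction.sum_eq_iff_sum_mul_moebius_eq (R := ℝ)
    (f := fun n => (n.totient : ℝ)) (g := fun n => (n : ℝ))).mp (by
      intro n _
      exact_mod_cast Nat.sum_totient n) a ha
  rw [← h1, sum_div]
  rw [Nat.sum_divisorsAntidiagonal (f := fun x y : ℕ => (ArithmeticFunction.moebius x : ℝ) * (y : ℝ) / (a : ℝ) ^ 2)]
  refine sum_congr rfl fun k hk => ?_
  have hka := Nat.dvd_of_mem_divisors hk
  obtain ⟨j, rfl⟩ := hka
  have hk0 : 0 < k := Nat.pos_of_mul_pos_right ha |> fun h => by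
    rcases Nat.eq_zero_or_pos k with h0 | h0
    · rw [h0, Nat.zero_mul] at ha; omega
    · exact h0
  have hj0 : 0 < j := by
    rcases Nat.eq_zero_or_pos j with h0 | h0
    · rw [h0, Nat.mul_zero] at ha; omega
    · exact h0
  rw [Nat.mul_div_cancel_left j hk0]
  have e1 : (0 : ℝ) < k := by exact_mod_cast hk0
  have e2 : (0 : ℝ) < j := by exact_mod_cast hj0
  push_cast
  field_simp

/-- exchange of the summations -/
private theorem K4_swap (A d a₀ : ℕ) (hA : 0 < A) :
    ∑ a ∈ (Ioc A (2 * A)).filter (fun a => a % d = a₀ % d), (a.totient : ℝ) / (a : ℝ) ^ 2 =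
    ∑ k ∈ Icc 1 (2 * A), (ArithmeticFunction.moebius k : ℝ) / (k : ℝ) ^ 2 *
      ∑ j ∈ (Ioc (A / k) (2 * A / k)).filter (fun j => (k * j) % d = a₀ % d), 1 / (j : ℝ) := by
  have h1 : ∑ a ∈ (Ioc A (2 * A)).filter (fun a => a % d = a₀ % d), (a.totient : ℝ) / (a : ℝ) ^ 2 =
      ∑ a ∈ (Ioc A (2 * A)).filter (fun a => a % d = a₀ % d), ∑ k ∈ Icc 1 (2 * A),
        if k ∣ a then (ArithmeticFunction.moebius k : ℝ) / (k : ℝ) ^ 2 * (1 / ((a / k : ℕ) : ℝ)) else 0 := by
    refine sum_congr rfl fun a ha => ?_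
    obtain ⟨h2, -⟩ := mem_filter.mp ha
    rw [mem_Ioc] at h2
    rw [K4_phi (by omega), ← sum_filter]
    refine sum_congr ?_ fun _ _ => rfl
    ext k
    rw [Nat.mem_divisors, mem_filter, mem_Icc]
    constructor
    · rintro ⟨h3, h4⟩
      have h5 := Nat.le_of_dvd (by omega) h3
      have h6 := Nat.pos_of_dvd_of_pos h3 (by omega)
      exact ⟨⟨h6, by omega⟩, h3⟩
    · rintro ⟨-, h3⟩
      exact ⟨h3, by omega⟩
  rw [h1, sum_comm]
  refine sum_congr rfl fun k hk => ?_
  rw [mem_Icc] at hk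
  rw [← sum_filter, mul_sum]
  symm
  refine sum_bij (fun j _ => k * j) ?_ ?_ ?_ ?_
  · intro j hj
    obtain ⟨h2, h3⟩ := mem_filter.mp hj
    rw [mem_Ioc] at h2
    refine mem_filter.mpr ⟨mem_filter.mpr ⟨mem_Ioc.mpr ⟨?_, ?_⟩, h3⟩, dvd_mul_right _ _⟩
    · rw [mul_comm]
      exact (Nat.div_lt_iff_lt_mul hk.1).mp h2.1
    · rw [mul_comm]
      exact (Nat.le_div_iff_mul_le hk.1).mp h2.2
  · intro j1 _ j2 _ h
    exact Nat.eq_of_mul_eq_mul_left hk.1 h
  · intro a ha
    obtain ⟨h2, h3⟩ := mem_filter.mp ha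
    obtain ⟨h4, h5⟩ := mem_filter.mp h2
    obtain ⟨j, rfl⟩ := h3
    rw [mem_Ioc] at h4
    refine ⟨j, mem_filter.mpr ⟨mem_Ioc.mpr ⟨?_, ?_⟩, h5⟩, rfl⟩
    · rw [Nat.div_lt_iff_lt_mul hk.1, mul_comm]
      exact h4.1
    · rw [Nat.le_div_iff_mul_le hk.1, mul_comm]
      exact h4.2
  · intro j _
    rw [Nat.mul_div_cancel_left j hk.1]

/-- the class of `j` -/
private theorem K4_class (d a₀ k : ℕ) (hd : 0 < d) (hk : Nat.Coprime k d) :
    ∃ c : ℕ, ∀ j : ℕ, (k * j) % d = a₀ % d ↔ j % d = c % d := by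
  haveI : NeZero d := ⟨hd.ne'⟩
  refine ⟨((k : ZMod d)⁻¹ * (a₀ : ZMod d)).val, fun j => ?_⟩
  have hu : (k : ZMod d) * (k : ZMod d)⁻¹ = 1 := ZMod.coe_mul_inv_eq_one k hk
  have e1 : (k * j) % d = a₀ % d ↔ ((k * j : ℕ) : ZMod d) = (a₀ : ZMod d) :=
    (ZMod.natCast_eq_natCast_iff' _ _ _).symm
  have e2 : j % d = ((k : ZMod d)⁻¹ * (a₀ : ZMod d)).val % d ↔
      (j : ZMod d) = ((((k : ZMod d)⁻¹ * (a₀ : ZMod d)).val : ℕ) : ZMod d) :=
    (ZMod.natCast_eq_natCast_iff' _ _ _).symm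
  rw [e1, e2, ZMod.natCast_zmod_val]
  push_cast
  constructor
  · intro h
    rw [← h, ← mul_assoc, mul_comm ((k : ZMod d)⁻¹) (k : ZMod d), hu, one_mul]
  · intro h
    rw [h, ← mul_assoc, hu, one_mul]

private theorem K4_moeb (k : ℕ) : |(ArithmeticFunction.moebius k : ℝ)| ≤ 1 := by
  have := ArithmeticFunction.abs_moebius_le_one (n := k)
  exact_mod_cast this

private theorem K4_harm (n : ℕ) : ∑ a ∈ Finset.Icc 1 n, (1 : ℝ) / a ≤ 1 + Real.log n := by
  have h := harmonic_le_one_add_log n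
  rw [harmonic_eq_sum_Icc] at h
  push_cast at h
  refine le_trans (le_of_eq ?_) h
  exact Finset.sum_congr rfl fun a _ => one_div _

/-- the asymptotic formula -/
private theorem K4_asy (A d a₀ : ℕ) (hA : 1 ≤ A) (hd : Squarefree d) (ha : Nat.Coprime a₀ d) :
    |∑ a ∈ (Ioc A (2 * A)).filter (fun a => a % d = a₀ % d), (a.totient : ℝ) / (a : ℝ) ^ 2 -
      Real.log 2 * mu2 1 / ((d : ℝ) * ∏ p ∈ d.primeFactors, (1 - 1 / (p : ℝ) ^ 2))| ≤
      6 * (1 + Real.log A) / A := by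
  have hd0 : 0 < d := Nat.pos_of_ne_zero hd.ne_zero
  have hd' : (0 : ℝ) < d := by exact_mod_cast hd0
  have hd1 : (1 : ℝ) ≤ d := by exact_mod_cast hd0
  have hA' : (0 : ℝ) < A := by exact_mod_cast hA
  have hA1 : (1 : ℝ) ≤ A := by exact_mod_cast hA
  have hlA : 0 ≤ Real.log A := Real.log_nonneg hA1
  have hl2 : 0 < Real.log 2 := Real.log_pos (by norm_num)
  have hl2' : Real.log 2 ≤ 1 := by
    have := Real.log_two_lt_d9
    linarith
  have hprod : 0 < ∏ p ∈ d.primeFactors, (1 - 1 / (p : ℝ) ^ 2) := by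
    refine prod_pos fun p hp => ?_
    have h1 : (2 : ℝ) ≤ p := by exact_mod_cast (Nat.prime_of_mem_primeFactors hp).two_le
    have h2 : 1 / (p : ℝ) ^ 2 ≤ 1 / 4 := one_div_le_one_div_of_le (by norm_num) (by nlinarith)
    linarith
  have hmain : Real.log 2 * mu2 1 / ((d : ℝ) * ∏ p ∈ d.primeFactors, (1 - 1 / (p : ℝ) ^ 2)) =
      Real.log 2 / d * mu2 d := by
    rw [← K3_prod hd]
    field_simp
  rw [hmain, K4_swap A d a₀ (by omega)]
  -- split the coprime and the other `k`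
  have h1 : ∑ k ∈ Icc 1 (2 * A), (ArithmeticFunction.moebius k : ℝ) / (k : ℝ) ^ 2 *
      ∑ j ∈ (Ioc (A / k) (2 * A / k)).filter (fun j => (k * j) % d = a₀ % d), 1 / (j : ℝ) =
      ∑ k ∈ (Icc 1 (2 * A)).filter (fun k => Nat.Coprime k d),
        (ArithmeticFunction.moebius k : ℝ) / (k : ℝ) ^ 2 *
      ∑ j ∈ (Ioc (A / k) (2 * A / k)).filter (fun j => (k * j) % d = a₀ % d), 1 / (j : ℝ) := by
    rw [sum_filter]
    refine sum_congr rfl fun k hk => ?_
    by_cases hc : Nat.Coprime k d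
    · rw [if_pos hc]
    · rw [if_neg hc]
      have : (Ioc (A / k) (2 * A / k)).filter (fun j => (k * j) % d = a₀ % d) = ∅ := by
        rw [filter_eq_empty_iff]
        intro j _ hj
        apply hc
        have e1 : k * j ≡ a₀ [MOD d] := hj
        have e2 : Nat.gcd k d ∣ a₀ := by
          have e3 : k * j ≡ a₀ [MOD (Nat.gcd k d)] := e1.of_dvd (Nat.gcd_dvd_right k d)
          have e4 : Nat.gcd k d ∣ k * j := (Nat.gcd_dvd_left k d).mul_right j
          exact (e3.dvd_iff dvd_rfl).mp e4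
        have e3 : Nat.gcd k d ∣ Nat.gcd a₀ d := Nat.dvd_gcd e2 (Nat.gcd_dvd_right k d)
        rw [ha] at e3
        exact Nat.dvd_one.mp e3
      rw [this, sum_empty, mul_zero]
  rw [h1]
  have h2 : |∑ k ∈ (Icc 1 (2 * A)).filter (fun k => Nat.Coprime k d),
        (ArithmeticFunction.moebius k : ℝ) / (k : ℝ) ^ 2 *
      ∑ j ∈ (Ioc (A / k) (2 * A / k)).filter (fun j => (k * j) % d = a₀ % d), 1 / (j : ℝ) -
      Real.log 2 / d * ∑ k ∈ (Icc 1 (2 * A)).filter (fun k => Nat.Coprime k d),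
        (ArithmeticFunction.moebius k : ℝ) / (k : ℝ) ^ 2| ≤ 2 / A * (1 + Real.log (2 * A : ℕ)) := by
    rw [mul_sum, ← sum_sub_distrib]
    refine (abs_sum_le_sum_abs _ _).trans ?_
    have h3 : ∀ k ∈ (Icc 1 (2 * A)).filter (fun k => Nat.Coprime k d),
        |(ArithmeticFunction.moebius k : ℝ) / (k : ℝ) ^ 2 *
          ∑ j ∈ (Ioc (A / k) (2 * A / k)).filter (fun j => (k * j) % d = a₀ % d), 1 / (j : ℝ) -
          Real.log 2 / d * ((ArithmeticFunction.moebius k : ℝ) / (k : ℝ) ^ 2)| ≤ 2 / A * (1 / k) := by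
      intro k hk
      obtain ⟨h4, h5⟩ := mem_filter.mp hk
      rw [mem_Icc] at h4
      have hk0 : (0 : ℝ) < k := by exact_mod_cast (by omega : 0 < k)
      obtain ⟨c, hc⟩ := K4_class d a₀ k hd0 h5
      have h6 : (Ioc (A / k) (2 * A / k)).filter (fun j => (k * j) % d = a₀ % d) =
          (Ioc (A / k) (2 * A / k)).filter (fun j => j % d = c % d) := by
        refine filter_congr fun j _ => ?_
        exact hc j
      rw [h6]
      have h7 := K4_cls A k d c (by omega) (by omega) hd0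
      have h8 : (ArithmeticFunction.moebius k : ℝ) / (k : ℝ) ^ 2 *
          ∑ j ∈ (Ioc (A / k) (2 * A / k)).filter (fun j => j % d = c % d), 1 / (j : ℝ) -
          Real.log 2 / d * ((ArithmeticFunction.moebius k : ℝ) / (k : ℝ) ^ 2) =
          (ArithmeticFunction.moebius k : ℝ) / (k : ℝ) ^ 2 *
          (∑ j ∈ (Ioc (A / k) (2 * A / k)).filter (fun j => j % d = c % d), 1 / (j : ℝ) - Real.log 2 / d) := by
        ring
      rw [h8, abs_mul, abs_div, abs_of_pos (show (0 : ℝ) < (k : ℝ) ^ 2 by positivity)]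
      calc |(ArithmeticFunction.moebius k : ℝ)| / (k : ℝ) ^ 2 * _ ≤ 1 / (k : ℝ) ^ 2 * (2 * k / A) :=
            mul_le_mul (div_le_div_of_nonneg_right (K4_moeb k) (by positivity)) h7 (abs_nonneg _) (by positivity)
        _ = 2 / A * (1 / k) := by field_simp
    refine (sum_le_sum h3).trans ?_
    rw [← mul_sum]
    refine mul_le_mul_of_nonneg_left ?_ (by positivity)
    refine le_trans (sum_le_sum_of_subset_of_nonneg (filter_subset _ _) fun _ _ _ => by positivity) ?_
    exact K4_harm (2 * A)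
  have h3 : ∑ k ∈ (Icc 1 (2 * A)).filter (fun k => Nat.Coprime k d),
      (ArithmeticFunction.moebius k : ℝ) / (k : ℝ) ^ 2 =
      ∑ k ∈ (range (2 * A + 1)).filter (fun k => Nat.Coprime k d),
      (ArithmeticFunction.moebius k : ℝ) / (k : ℝ) ^ 2 := by
    refine sum_subset ?_ ?_
    · intro k hk
      obtain ⟨h4, h5⟩ := mem_filter.mp hk
      rw [mem_Icc] at h4
      exact mem_filter.mpr ⟨mem_range.mpr (by omega), h5⟩
    · intro k hk hk'
      obtain ⟨h4, h5⟩ := mem_filter.mp hk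
      rw [mem_range] at h4
      have h6 : k = 0 := by
        by_contra h7
        exact hk' (mem_filter.mpr ⟨mem_Icc.mpr ⟨by omega, by omega⟩, h5⟩)
      rw [h6]
      simp
  have h4 := K3_tail d (2 * A + 1) (by omega)
  rw [h3] at h2
  obtain ⟨M, hM⟩ : ∃ M : ℝ, M = ∑ k ∈ (range (2 * A + 1)).filter (fun k => Nat.Coprime k d),
      (ArithmeticFunction.moebius k : ℝ) / (k : ℝ) ^ 2 := ⟨_, rfl⟩
  rw [← hM] at h2 h4
  have h5 : |Real.log 2 / d * (mu2 d - M)| ≤ 1 / A := by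
    rw [abs_mul, abs_of_pos (show 0 < Real.log 2 / d by positivity)]
    have e1 : Real.log 2 / d ≤ 1 := by
      rw [div_le_one hd']; linarith
    have e2 : (2 : ℝ) / ((2 * A + 1 : ℕ) : ℝ) ≤ 1 / A := by
      rw [div_le_div_iff₀ (by positivity) hA']
      push_cast
      linarith
    calc Real.log 2 / d * |mu2 d - M| ≤ 1 * (1 / A) :=
          mul_le_mul e1 (h4.trans e2) (abs_nonneg _) (by norm_num)
      _ = 1 / A := one_mul _
  have h6 : Real.log (2 * A : ℕ) = Real.log 2 + Real.log A := by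
    push_cast
    exact Real.log_mul (by norm_num) hA'.ne'
  rw [h6] at h2
  have h7 : 1 / (A : ℝ) + 2 / A * (1 + (Real.log 2 + Real.log A)) ≤ 6 * (1 + Real.log A) / A := by
    have e1 : 1 / (A : ℝ) + 2 / A * (1 + (Real.log 2 + Real.log A)) =
        (1 + 2 * (1 + (Real.log 2 + Real.log A))) / A := by ring
    rw [e1]
    exact div_le_div_of_nonneg_right (by linarith) hA'.le
  rw [abs_le] at h2 h5 ⊢
  constructor <;> linarith [h2.1, h2.2, h5.1, h5.2, mul_sub (Real.log 2 / d) (mu2 d) M]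

private theorem K4_lim : Filter.Tendsto (fun A : ℕ => 6 * (1 + Real.log (A : ℝ)) / A) Filter.atTop (nhds 0) := by
  have h1 : Filter.Tendsto (fun x : ℝ => Real.log x / x) Filter.atTop (nhds 0) := by
    have := Real.isLittleO_log_id_atTop.tendsto_div_nhds_zero
    exact this
  have h2 : Filter.Tendsto (fun x : ℝ => 1 / x) Filter.atTop (nhds 0) := by
    simpa using tendsto_inv_atTop_zero (𝕜 := ℝ)
  have h3 : Filter.Tendsto (fun x : ℝ => 6 * (1 / x + Real.log x / x)) Filter.atTop (nhds 0) := by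
    have := (h2.add h1).const_mul 6
    simpa using this
  have h4 := h3.comp (tendsto_natCast_atTop_atTop (R := ℝ))
  refine h4.congr fun A => ?_
  simp only [Function.comp_apply]
  ring

theorem K4_main : ∃ T0 C : ℝ, 0 ≤ T0 ∧ T0 ≤ 1 ∧ 0 ≤ C ∧ ∀ A d a₀ : ℕ, 1 ≤ A → Squarefree d →
    Nat.Coprime a₀ d →
    |∑ a ∈ (Ioc A (2 * A)).filter (fun a => a % d = a₀ % d), (a.totient : ℝ) / (a : ℝ) ^ 2 -
      T0 / ((d : ℝ) * ∏ p ∈ d.primeFactors, (1 - 1 / (p : ℝ) ^ 2))| ≤
      C * (1 + Real.log A) / A := by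
  refine ⟨Real.log 2 * mu2 1, 6, ?_, ?_, by norm_num, fun A d a₀ hA hd ha => K4_asy A d a₀ hA hd ha⟩
  · have h1 : ∀ A : ℕ, 1 ≤ A → -(6 * (1 + Real.log (A : ℝ)) / A) ≤ Real.log 2 * mu2 1 := by
      intro A hA
      have h2 := K4_asy A 1 0 hA squarefree_one (Nat.coprime_one_right 0)
      rw [Nat.primeFactors_one, prod_empty, mul_one, Nat.cast_one, div_one, abs_le] at h2
      have h3 : 0 ≤ ∑ a ∈ (Ioc A (2 * A)).filter (fun a => a % 1 = 0 % 1), (a.totient : ℝ) / (a : ℝ) ^ 2 :=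
        sum_nonneg fun _ _ => by positivity
      linarith [h2.2]
    have h2 : Filter.Tendsto (fun A : ℕ => -(6 * (1 + Real.log (A : ℝ)) / A)) Filter.atTop (nhds 0) := by
      simpa using K4_lim.neg
    exact le_of_tendsto h2 (Filter.eventually_atTop.mpr ⟨1, h1⟩)
  · have h1 : ∀ A : ℕ, 1 ≤ A → Real.log 2 * mu2 1 ≤ 1 + 6 * (1 + Real.log (A : ℝ)) / A := by
      intro A hA
      have hA' : (0 : ℝ) < A := by exact_mod_cast hA
      have h2 := K4_asy A 1 0 hA squarefree_one (Nat.coprime_one_right 0)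
      rw [Nat.primeFactors_one, prod_empty, mul_one, Nat.cast_one, div_one, abs_le] at h2
      have h3 : ∑ a ∈ (Ioc A (2 * A)).filter (fun a => a % 1 = 0 % 1), (a.totient : ℝ) / (a : ℝ) ^ 2 ≤ 1 := by
        calc ∑ a ∈ (Ioc A (2 * A)).filter (fun a => a % 1 = 0 % 1), (a.totient : ℝ) / (a : ℝ) ^ 2
            ≤ ∑ a ∈ Ioc A (2 * A), (a.totient : ℝ) / (a : ℝ) ^ 2 :=
              sum_le_sum_of_subset_of_nonneg (filter_subset _ _) fun _ _ _ => by positivity
          _ ≤ ∑ a ∈ Ioc A (2 * A), 1 / (A : ℝ) := by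
              refine sum_le_sum fun a ha => ?_
              rw [mem_Ioc] at ha
              have e1 : (A : ℝ) ≤ a := by exact_mod_cast ha.1.le
              have e2 : (0 : ℝ) < a := by linarith
              have e3 : (a.totient : ℝ) ≤ a := by exact_mod_cast Nat.totient_le a
              rw [div_le_div_iff₀ (by positivity) hA']
              nlinarith
          _ = 1 := by
              rw [sum_const, Nat.card_Ioc, nsmul_eq_mul, show 2 * A - A = A by omega]
              field_simp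
      linarith [h2.1]
    have h2 : Filter.Tendsto (fun A : ℕ => 1 + 6 * (1 + Real.log (A : ℝ)) / A) Filter.atTop (nhds 1) := by
      simpa using K4_lim.const_add 1
    exact ge_of_tendsto h2 (Filter.eventually_atTop.mpr ⟨1, h1⟩)

end Pool.Agent.Lib.MP_79499b_co.PL
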