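import Pool.Agent.Lib.MP_79499b_co.PL.Defs

/-!
# K5: Chinese remainder theorem for the forbidden classes

Proof. Induction on `S` (`Finset.induction_on`): `S = ∅`: `range 1`, one point, the empty product is 1. For `insert q S`, `D = ∏_{p∈S} p` coprime to the prime `q`: the map
`(a,b,e) ↦ ((a % q, b % q, e % q), (a % D, b % D, e % D))` is a bijection from `(range (q D))^3` to `(range q)^3 × (range D)^3` (`Nat.chineseRemainder`,
`Nat.ModEq.eq_of_lt_of_lt`, `Nat.modEq_and_modEq_iff_modEq_mul`). `Om q a b e ↔ Om q (a%q) (b%q) (e%q)` by `Per`; for `p ∈ S` (`p ∣ D`): `Om p a b e ↔ Om p (a%D) (b%D) (e%D)`, because both sides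
are equivalent to `Om p` of the residues mod `p` (`Nat.mod_mod_of_dvd`). So the cards multiply.
Second statement: for one `a`: the number of `(b₀, e₀)` mod `D` with all conditions is at most the product (inject `(b₀, e₀) ↦ (a % D, b₀, e₀)` into the set of the first statement).
-/

set_option autoImplicit false

namespace Pool.Agent.Lib.MP_79499b_co.PL

open Finset Q38
open scoped Classical NumberTheorySymbols

private lemma k5_mod {Om : ℕ → ℕ → ℕ → ℕ → Prop} (hper : Per Om) {p N : ℕ} (hp : p.Prime)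
    (hd : p ∣ N) (a b e : ℕ) : Om p (a % N) (b % N) (e % N) ↔ Om p a b e := by
  rw [← (hper p hp).1 (a % N) (b % N) (e % N), ← (hper p hp).1 a b e, Nat.mod_mod_of_dvd _ hd,
    Nat.mod_mod_of_dvd _ hd, Nat.mod_mod_of_dvd _ hd]

/-- the set of the first statement -/
private noncomputable def k5S (Om : ℕ → ℕ → ℕ → ℕ → Prop) (S : Finset ℕ) (N : ℕ) :
    Finset (ℕ × ℕ × ℕ) :=
  (range N ×ˢ range N ×ˢ range N).filter (fun t : ℕ × ℕ × ℕ => ∀ p ∈ S, Om p t.1 t.2.1 t.2.2)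

private lemma k5_mem (Om : ℕ → ℕ → ℕ → ℕ → Prop) (S : Finset ℕ) (N : ℕ) (a b e : ℕ) :
    (a, b, e) ∈ k5S Om S N ↔ (a < N ∧ b < N ∧ e < N) ∧ ∀ p ∈ S, Om p a b e := by
  unfold k5S
  rw [mem_filter, mem_product, mem_product, mem_range, mem_range, mem_range]

private lemma k5_crt {q D : ℕ} (hq : q ≠ 0) (hD : D ≠ 0) (h : q.Coprime D) (a₁ a₂ : ℕ)
    (h1 : a₁ < q) (h2 : a₂ < D) : (Nat.chineseRemainder h a₁ a₂ : ℕ) < q * D ∧
      (Nat.chineseRemainder h a₁ a₂ : ℕ) % q = a₁ ∧ (Nat.chineseRemainder h a₁ a₂ : ℕ) % D = a₂ := by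
  obtain ⟨k1, k2⟩ := (Nat.chineseRemainder h a₁ a₂).2
  refine ⟨Nat.chineseRemainder_lt_mul h a₁ a₂ hq hD, ?_, ?_⟩
  · rw [show (Nat.chineseRemainder h a₁ a₂ : ℕ) % q = a₁ % q from k1, Nat.mod_eq_of_lt h1]
  · rw [show (Nat.chineseRemainder h a₁ a₂ : ℕ) % D = a₂ % D from k2, Nat.mod_eq_of_lt h2]

private lemma k5_crt' {q D : ℕ} (hq : q ≠ 0) (hD : D ≠ 0) (h : q.Coprime D) (n : ℕ)
    (hn : n < q * D) : (Nat.chineseRemainder h (n % q) (n % D) : ℕ) = n := by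
  obtain ⟨h1, h2⟩ := (Nat.chineseRemainder h (n % q) (n % D)).2
  have h3 : ((Nat.chineseRemainder h (n % q) (n % D) : ℕ)) ≡ n [MOD q * D] := by
    rw [← Nat.modEq_and_modEq_iff_modEq_mul h]
    exact ⟨h1.trans (Nat.mod_modEq n q), h2.trans (Nat.mod_modEq n D)⟩
  exact Nat.ModEq.eq_of_lt_of_lt h3 (Nat.chineseRemainder_lt_mul h _ _ hq hD) hn

private lemma k5_mul {Om : ℕ → ℕ → ℕ → ℕ → Prop} (hper : Per Om) (S : Finset ℕ)
    (hS : ∀ p ∈ S, p.Prime) {q D : ℕ} (hq : q.Prime) (hD : D ≠ 0) (h : q.Coprime D)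
    (hSD : ∀ p ∈ S, p ∣ D) :
    (k5S Om (insert q S) (q * D)).card = (k5S Om {q} q).card * (k5S Om S D).card := by
  rw [← card_product]
  refine Finset.card_nbij'
    (fun t => ((t.1 % q, t.2.1 % q, t.2.2 % q), (t.1 % D, t.2.1 % D, t.2.2 % D)))
    (fun t => ((Nat.chineseRemainder h t.1.1 t.2.1 : ℕ), (Nat.chineseRemainder h t.1.2.1 t.2.2.1 : ℕ),
      (Nat.chineseRemainder h t.1.2.2 t.2.2.2 : ℕ))) ?_ ?_ ?_ ?_
  · rintro ⟨a, b, e⟩ ht
    rw [Finset.mem_coe, k5_mem] at ht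
    rw [Finset.mem_coe, mem_product, k5_mem, k5_mem]
    have hq0 := hq.pos
    have hD0 := Nat.pos_of_ne_zero hD
    refine ⟨⟨⟨Nat.mod_lt _ hq0, Nat.mod_lt _ hq0, Nat.mod_lt _ hq0⟩, ?_⟩,
      ⟨Nat.mod_lt _ hD0, Nat.mod_lt _ hD0, Nat.mod_lt _ hD0⟩, ?_⟩
    · intro p hp
      rw [mem_singleton] at hp
      subst hp
      rw [k5_mod hper hq (dvd_refl p)]
      exact ht.2 p (mem_insert_self _ _)
    · intro p hp
      rw [k5_mod hper (hS p hp) (hSD p hp)]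
      exact ht.2 p (mem_insert_of_mem hp)
  · rintro ⟨⟨a₁, b₁, e₁⟩, ⟨a₂, b₂, e₂⟩⟩ ht
    rw [Finset.mem_coe, mem_product, k5_mem, k5_mem] at ht
    obtain ⟨⟨⟨h1, h2, h3⟩, h4⟩, ⟨h5, h6, h7⟩, h8⟩ := ht
    rw [Finset.mem_coe, k5_mem]
    obtain ⟨k1, k2, k3⟩ := k5_crt hq.ne_zero hD h a₁ a₂ h1 h5
    obtain ⟨k4, k5, k6⟩ := k5_crt hq.ne_zero hD h b₁ b₂ h2 h6
    obtain ⟨k7, k8, k9⟩ := k5_crt hq.ne_zero hD h e₁ e₂ h3 h7
    refine ⟨⟨k1, k4, k7⟩, fun p hp => ?_⟩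
    rcases mem_insert.mp hp with hp | hp
    · subst hp
      rw [← k5_mod hper hq (dvd_refl p), k2, k5, k8]
      exact h4 p (mem_singleton_self _)
    · rw [← k5_mod hper (hS p hp) (hSD p hp), k3, k6, k9]
      exact h8 p hp
  · rintro ⟨a, b, e⟩ ht
    rw [Finset.mem_coe, k5_mem] at ht
    simp only
    rw [k5_crt' hq.ne_zero hD h a ht.1.1, k5_crt' hq.ne_zero hD h b ht.1.2.1,
      k5_crt' hq.ne_zero hD h e ht.1.2.2]
  · rintro ⟨⟨a₁, b₁, e₁⟩, ⟨a₂, b₂, e₂⟩⟩ ht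
    rw [Finset.mem_coe, mem_product, k5_mem, k5_mem] at ht
    obtain ⟨⟨⟨h1, h2, h3⟩, h4⟩, ⟨h5, h6, h7⟩, h8⟩ := ht
    obtain ⟨k1, k2, k3⟩ := k5_crt hq.ne_zero hD h a₁ a₂ h1 h5
    obtain ⟨k4, k5, k6⟩ := k5_crt hq.ne_zero hD h b₁ b₂ h2 h6
    obtain ⟨k7, k8, k9⟩ := k5_crt hq.ne_zero hD h e₁ e₂ h3 h7
    simp only
    rw [k2, k3, k5, k6, k8, k9]

private lemma k5_one {Om : ℕ → ℕ → ℕ → ℕ → Prop} (q : ℕ) :
    (k5S Om {q} q).card = omc Om q := by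
  unfold k5S omc
  refine congrArg card (Finset.filter_congr fun t _ => ?_)
  simp only [mem_singleton, forall_eq]

theorem K5_main {Om : ℕ → ℕ → ℕ → ℕ → Prop} (hper : Per Om) (S : Finset ℕ)
    (hS : ∀ p ∈ S, p.Prime) :
    ((range (∏ p ∈ S, p) ×ˢ range (∏ p ∈ S, p) ×ˢ range (∏ p ∈ S, p)).filter
      (fun t : ℕ × ℕ × ℕ => ∀ p ∈ S, Om p t.1 t.2.1 t.2.2)).card = ∏ p ∈ S, omc Om p := by
  change (k5S Om S (∏ p ∈ S, p)).card = _
  induction S using Finset.induction_on with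
  | empty =>
    unfold k5S
    simp
  | insert q S hq ih =>
    have hS' : ∀ p ∈ S, p.Prime := fun p hp => hS p (mem_insert_of_mem hp)
    have hqp : q.Prime := hS q (mem_insert_self _ _)
    rw [prod_insert hq, prod_insert hq, k5_mul hper S hS' hqp
      (Finset.prod_ne_zero_iff.mpr fun p hp => (hS' p hp).ne_zero) ?_
      (fun p hp => dvd_prod_of_mem _ hp), ih hS', k5_one]
    refine Nat.Coprime.prod_right fun p hp => ?_
    rw [Nat.coprime_primes hqp (hS' p hp)]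
    rintro rfl
    exact hq hp

theorem K5_one {Om : ℕ → ℕ → ℕ → ℕ → Prop} (hper : Per Om) (S : Finset ℕ)
    (hS : ∀ p ∈ S, p.Prime) (a : ℕ) :
    ((range (∏ p ∈ S, p) ×ˢ range (∏ p ∈ S, p)).filter
      (fun t : ℕ × ℕ => ∀ p ∈ S, Om p a t.1 t.2)).card ≤ ∏ p ∈ S, omc Om p := by
  rw [← K5_main hper S hS]
  have hD0 : 0 < ∏ p ∈ S, p := Finset.prod_pos fun p hp => (hS p hp).pos
  refine Finset.card_le_card_of_injOn (fun t => (a % ∏ p ∈ S, p, t.1, t.2)) ?_ ?_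
  · rintro ⟨b, e⟩ ht
    rw [Finset.mem_coe, mem_filter, mem_product, mem_range, mem_range] at ht
    obtain ⟨⟨h1, h2⟩, h3⟩ := ht
    change (a % ∏ p ∈ S, p, b, e) ∈ k5S Om S (∏ p ∈ S, p)
    rw [k5_mem]
    refine ⟨⟨Nat.mod_lt _ hD0, h1, h2⟩, fun p hp => ?_⟩
    have h4 := (k5_mod hper (hS p hp) (dvd_prod_of_mem (fun p => p) hp) a b e).mpr (h3 p hp)
    rw [Nat.mod_eq_of_lt h1, Nat.mod_eq_of_lt h2] at h4
    exact h4
  · rintro ⟨b, e⟩ _ ⟨b', e'⟩ _ h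
    simp only [Prod.mk.injEq, true_and] at h
    exact Prod.ext h.1 h.2

end Pool.Agent.Lib.MP_79499b_co.PL
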