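import Pool.Agent.Lib.MP_79499b_co.PL.K2
import Pool.Agent.Lib.MP_79499b_co.PL.K4
import Pool.Agent.Lib.MP_79499b_co.PL.K5

/-!
# K6: points of a block with prescribed forbidden classes

`D = ∏_{p∈S} p` (squarefree, `D.primeFactors = S`), `N(a) = #{(b₀,e₀) mod D : Om p a b₀ e₀ for p ∈ S}`; it depends on `a mod D` only, `N(a) ≤ ∏ omc` (`K5_one`), and `N(a) > 0` implies `(a, D) = 1`
(`Per`). `|blk| = ∑_{A<a≤2A} #{(b,e) : a ∣ be+η, all Om p a b e}`; sort the pairs by `(b % D, e % D) = (b₀, e₀)` (`Om p a b e ↔ Om p a b₀ e₀`, as in K5): by `K2_main` (`q = D`), for `(a, D) = 1`,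
the inner number is `N(a) (B E φ(a)/(a^2 D^2))` up to `N(a) 2 errA a B E`. Sum of the errors: `≤ (∏ omc) 2 ∑ errA a B E`.
Main term: `(B E/D^2) ∑_a N(a) φ(a)/a^2 = (B E/D^2) ∑_{a₀ mod D} N(a₀) ∑_{A<a≤2A, a≡a₀} φ(a)/a^2`, and by `K4_main` (only `a₀` coprime to `D` matter) this is
`(B E/D^2) (∑_{a₀} N(a₀)) T0/(D ∏(1 - 1/p^2))` up to `(B E/D^2) (∑ N(a₀)) C (1 + log A)/A`. `∑_{a₀} N(a₀) = ∏ omc` (`K5_main`), and `D^3 ∏ (1 - 1/p^2) = ∏ (p^3 - p)`, `D ≥ 1`. (`S = ∅`: `D = 1`, fine.)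
-/

set_option autoImplicit false

namespace Pool.Agent.Lib.MP_79499b_co.PL

open Finset Q38
open scoped Classical NumberTheorySymbols

private theorem K6_card (X : Finset ℕ) (Y : Finset (ℕ × ℕ)) (P : ℕ × ℕ × ℕ → Prop) [DecidablePred P] :
    ((X ×ˢ Y).filter P).card = ∑ a ∈ X, (Y.filter (fun t => P (a, t))).card := by
  rw [card_filter, sum_product]
  refine sum_congr rfl fun a _ => ?_
  rw [card_filter]

/-- the number of pairs of classes for `a` -/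
private noncomputable def K6_N (Om : ℕ → ℕ → ℕ → ℕ → Prop) (S : Finset ℕ) (a : ℕ) : ℕ :=
  ((range (∏ p ∈ S, p) ×ˢ range (∏ p ∈ S, p)).filter (fun t : ℕ × ℕ => ∀ p ∈ S, Om p a t.1 t.2)).card

private theorem K6_mod {Om : ℕ → ℕ → ℕ → ℕ → Prop} (hper : Per Om) {S : Finset ℕ} (hS : ∀ p ∈ S, p.Prime)
    (a b e : ℕ) : (∀ p ∈ S, Om p a b e) ↔
      ∀ p ∈ S, Om p (a % ∏ p ∈ S, p) (b % ∏ p ∈ S, p) (e % ∏ p ∈ S, p) := by
  refine forall₂_congr fun p hp => ?_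
  have hd : p ∣ ∏ p ∈ S, p := dvd_prod_of_mem _ hp
  have h1 := (hper p (hS p hp)).1 a b e
  have h2 := (hper p (hS p hp)).1 (a % ∏ p ∈ S, p) (b % ∏ p ∈ S, p) (e % ∏ p ∈ S, p)
  rw [Nat.mod_mod_of_dvd _ hd, Nat.mod_mod_of_dvd _ hd, Nat.mod_mod_of_dvd _ hd] at h2
  exact h1.symm.trans h2

private theorem K6_mod1 {Om : ℕ → ℕ → ℕ → ℕ → Prop} (hper : Per Om) {S : Finset ℕ} (hS : ∀ p ∈ S, p.Prime)
    (a b e : ℕ) : (∀ p ∈ S, Om p a b e) ↔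
      ∀ p ∈ S, Om p a (b % ∏ p ∈ S, p) (e % ∏ p ∈ S, p) := by
  rw [K6_mod hper hS a b e, K6_mod hper hS a (b % ∏ p ∈ S, p) (e % ∏ p ∈ S, p), Nat.mod_mod, Nat.mod_mod]

private theorem K6_Nmod {Om : ℕ → ℕ → ℕ → ℕ → Prop} (hper : Per Om) {S : Finset ℕ} (hS : ∀ p ∈ S, p.Prime)
    (a : ℕ) : K6_N Om S a = K6_N Om S (a % ∏ p ∈ S, p) := by
  unfold K6_N
  congr 1
  refine filter_congr fun t _ => ?_
  rw [K6_mod hper hS a t.1 t.2, K6_mod hper hS (a % ∏ p ∈ S, p) t.1 t.2, Nat.mod_mod]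

private theorem K6_cop {Om : ℕ → ℕ → ℕ → ℕ → Prop} (hper : Per Om) {S : Finset ℕ} (hS : ∀ p ∈ S, p.Prime)
    {a b e : ℕ} (h : ∀ p ∈ S, Om p a b e) : Nat.Coprime a (∏ p ∈ S, p) := by
  refine Nat.Coprime.prod_right fun p hp => ?_
  exact ((Nat.Prime.coprime_iff_not_dvd (hS p hp)).mpr ((hper p (hS p hp)).2 a b e (h p hp))).symm

/-- one `a` -/
private theorem K6_one {Om : ℕ → ℕ → ℕ → ℕ → Prop} (hper : Per Om) {S : Finset ℕ} (hS : ∀ p ∈ S, p.Prime)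
    {a : ℕ} (ha : 0 < a) (B E : ℕ) (η : ℤ) (hη : η = 1 ∨ η = -1) :
    |(((range B ×ˢ range E).filter (fun t : ℕ × ℕ => (a : ℤ) ∣ (t.1 : ℤ) * (t.2 : ℤ) + η ∧
      ∀ p ∈ S, Om p a t.1 t.2)).card : ℝ) -
      K6_N Om S a * ((B : ℝ) * E * a.totient / ((a : ℝ) ^ 2 * ((∏ p ∈ S, p : ℕ) : ℝ) ^ 2))| ≤
      K6_N Om S a * (2 * errA a B E) := by
  obtain ⟨D, hD⟩ : ∃ D : ℕ, D = ∏ p ∈ S, p := ⟨_, rfl⟩
  have hD0 : 0 < D := by rw [hD]; exact prod_pos fun p hp => (hS p hp).pos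
  have h1 : ((range B ×ˢ range E).filter (fun t : ℕ × ℕ => (a : ℤ) ∣ (t.1 : ℤ) * (t.2 : ℤ) + η ∧
      ∀ p ∈ S, Om p a t.1 t.2)).card =
      ∑ s ∈ (range D ×ˢ range D).filter (fun t : ℕ × ℕ => ∀ p ∈ S, Om p a t.1 t.2),
        ((range B ×ˢ range E).filter (fun t : ℕ × ℕ =>
          (a : ℤ) ∣ (t.1 : ℤ) * (t.2 : ℤ) + η ∧ t.1 % D = s.1 ∧ t.2 % D = s.2)).card := by
    rw [Finset.card_eq_sum_card_fiberwise (f := fun t : ℕ × ℕ => (t.1 % D, t.2 % D))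
      (t := (range D ×ˢ range D).filter (fun t : ℕ × ℕ => ∀ p ∈ S, Om p a t.1 t.2))]
    · refine sum_congr rfl fun s hs => ?_
      obtain ⟨-, hs2⟩ := mem_filter.mp hs
      congr 1
      ext t
      simp only [mem_filter]
      constructor
      · rintro ⟨⟨g1, g2, g3⟩, g4⟩
        refine ⟨g1, g2, ?_, ?_⟩
        · rw [← g4]
        · rw [← g4]
      · rintro ⟨g1, g2, g3, g4⟩
        refine ⟨⟨g1, g2, ?_⟩, ?_⟩
        · rw [K6_mod1 hper hS a t.1 t.2, ← hD, g3, g4]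
          exact hs2
        · rw [g3, g4]
    · intro t ht
      obtain ⟨-, -, g3⟩ := mem_filter.mp (mem_coe.mp ht)
      rw [mem_coe, mem_filter, mem_product, mem_range, mem_range]
      refine ⟨⟨Nat.mod_lt _ hD0, Nat.mod_lt _ hD0⟩, ?_⟩
      rw [K6_mod1 hper hS a t.1 t.2, ← hD] at g3
      exact g3
  have h2 : (K6_N Om S a : ℝ) = ∑ _s ∈ (range D ×ˢ range D).filter (fun t : ℕ × ℕ => ∀ p ∈ S, Om p a t.1 t.2),
      (1 : ℝ) := by
    rw [sum_const, nsmul_eq_mul, mul_one]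
    unfold K6_N
    rw [← hD]
  rw [h1, h2, Nat.cast_sum, sum_mul, sum_mul, ← sum_sub_distrib, ← hD]
  refine (abs_sum_le_sum_abs _ _).trans (sum_le_sum fun s hs => ?_)
  obtain ⟨hs1, hs2⟩ := mem_filter.mp hs
  rw [mem_product, mem_range, mem_range] at hs1
  rw [one_mul, one_mul]
  have hc := K6_cop hper hS hs2
  rw [← hD] at hc
  exact K2_main a D s.1 s.2 B E ha hD0 hc.symm hs1.1 hs1.2 η hη

private theorem K6_err (a B E : ℕ) : 0 ≤ errA a B E := by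
  unfold errA
  have h1 : 0 ≤ Real.log (a : ℝ) := Real.log_natCast_nonneg a
  positivity

private theorem K6_sf {S : Finset ℕ} (hS : ∀ p ∈ S, p.Prime) : Squarefree (∏ p ∈ S, p) := by
  apply Finset.squarefree_prod_of_pairwise_isCoprime
  · intro p hp q hq hpq
    exact Nat.coprime_iff_isRelPrime.mp ((Nat.coprime_primes (hS p hp) (hS q hq)).mpr hpq)
  · intro p hp
    exact (hS p hp).prime.squarefree

theorem K6_main : ∃ T0 C : ℝ, 0 ≤ T0 ∧ T0 ≤ 1 ∧ 0 ≤ C ∧ ∀ (Om : ℕ → ℕ → ℕ → ℕ → Prop), Per Om →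
    ∀ S : Finset ℕ, (∀ p ∈ S, p.Prime) → ∀ (A B E : ℕ) (η : ℤ), (η = 1 ∨ η = -1) → 1 ≤ A →
    |((blk Om S A B E η).card : ℝ) -
      ((B : ℝ) * E * T0) * ∏ p ∈ S, ((omc Om p : ℝ) / ((p : ℝ) ^ 3 - p))| ≤
    (C * (1 + Real.log A) * (B * E) / A + 2 * ∑ a ∈ Ioc A (2 * A), errA a B E) *
      ∏ p ∈ S, (omc Om p : ℝ) := by
  obtain ⟨T0, C, hT0, hT1, hC, hK⟩ := K4_main
  refine ⟨T0, C, hT0, hT1, hC, ?_⟩
  intro Om hper S hS A B E η hη hA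
  have hA' : (0 : ℝ) < A := by exact_mod_cast (by omega : 0 < A)
  have hlA : 0 ≤ Real.log (A : ℝ) := Real.log_natCast_nonneg A
  obtain ⟨D, hD⟩ : ∃ D : ℕ, D = ∏ p ∈ S, p := ⟨_, rfl⟩
  have hD0 : 0 < D := by rw [hD]; exact prod_pos fun p hp => (hS p hp).pos
  have hD1 : (1 : ℝ) ≤ D := by exact_mod_cast hD0
  have hDr : (0 : ℝ) < D := by linarith
  have hsf : Squarefree D := by rw [hD]; exact K6_sf hS
  have hpf : D.primeFactors = S := by rw [hD]; exact Nat.primeFactors_prod hS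
  obtain ⟨O, hO⟩ : ∃ O : ℝ, O = ∏ p ∈ S, (omc Om p : ℝ) := ⟨_, rfl⟩
  have hO0 : 0 ≤ O := by rw [hO]; exact prod_nonneg fun _ _ => Nat.cast_nonneg _
  have hNle : ∀ a, (K6_N Om S a : ℝ) ≤ O := by
    intro a
    have h1 := K5_one hper S hS a
    rw [hO]
    exact_mod_cast h1
  -- the sum over `a`
  have hcard : ((blk Om S A B E η).card : ℝ) = ∑ a ∈ Ioc A (2 * A),
      (((range B ×ˢ range E).filter (fun t : ℕ × ℕ => (a : ℤ) ∣ (t.1 : ℤ) * (t.2 : ℤ) + η ∧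
      ∀ p ∈ S, Om p a t.1 t.2)).card : ℝ) := by
    unfold blk
    rw [K6_card]
    push_cast
    rfl
  have step1 : |((blk Om S A B E η).card : ℝ) - (B : ℝ) * E / (D : ℝ) ^ 2 *
      ∑ a ∈ Ioc A (2 * A), K6_N Om S a * ((a.totient : ℝ) / (a : ℝ) ^ 2)| ≤
      (2 * ∑ a ∈ Ioc A (2 * A), errA a B E) * O := by
    rw [hcard, mul_sum, ← sum_sub_distrib]
    refine (abs_sum_le_sum_abs _ _).trans ?_
    rw [mul_sum, sum_mul]
    refine sum_le_sum fun a ha => ?_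
    rw [mem_Ioc] at ha
    have h1 := K6_one hper hS (by omega : 0 < a) B E η hη
    rw [← hD] at h1
    have h2 : (B : ℝ) * E / (D : ℝ) ^ 2 * (K6_N Om S a * ((a.totient : ℝ) / (a : ℝ) ^ 2)) =
        K6_N Om S a * ((B : ℝ) * E * a.totient / ((a : ℝ) ^ 2 * (D : ℝ) ^ 2)) := by
      have : (0 : ℝ) < a := by exact_mod_cast (by omega : 0 < a)
      field_simp
    rw [h2]
    refine h1.trans ?_
    calc (K6_N Om S a : ℝ) * (2 * errA a B E) ≤ O * (2 * errA a B E) :=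
          mul_le_mul_of_nonneg_right (hNle a) (mul_nonneg (by norm_num) (K6_err a B E))
      _ = 2 * errA a B E * O := by ring
  -- the main term
  have hgroup : ∑ a ∈ Ioc A (2 * A), K6_N Om S a * ((a.totient : ℝ) / (a : ℝ) ^ 2) =
      ∑ a₀ ∈ range D, (K6_N Om S a₀ : ℝ) *
        ∑ a ∈ (Ioc A (2 * A)).filter (fun a => a % D = a₀ % D), (a.totient : ℝ) / (a : ℝ) ^ 2 := by
    rw [← sum_fiberwise_of_maps_to (g := fun a : ℕ => a % D) (t := range D)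
      (fun a _ => mem_range.mpr (Nat.mod_lt _ hD0))]
    refine sum_congr rfl fun a₀ ha₀ => ?_
    rw [mem_range] at ha₀
    rw [mul_sum, Nat.mod_eq_of_lt ha₀]
    refine sum_congr rfl fun a ha => ?_
    obtain ⟨-, h1⟩ := mem_filter.mp ha
    rw [K6_Nmod hper hS a, ← hD, h1]
  have hsumN : ∑ a₀ ∈ range D, (K6_N Om S a₀ : ℝ) = O := by
    have h1 := K5_main hper S hS
    rw [K6_card, ← hD] at h1
    rw [hO]
    unfold K6_N
    rw [← hD]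
    exact_mod_cast h1
  have step2 : |∑ a₀ ∈ range D, (K6_N Om S a₀ : ℝ) *
        ∑ a ∈ (Ioc A (2 * A)).filter (fun a => a % D = a₀ % D), (a.totient : ℝ) / (a : ℝ) ^ 2 -
      O * (T0 / ((D : ℝ) * ∏ p ∈ S, (1 - 1 / (p : ℝ) ^ 2)))| ≤ O * (C * (1 + Real.log A) / A) := by
    rw [← hsumN, sum_mul, sum_mul, ← sum_sub_distrib]
    refine (abs_sum_le_sum_abs _ _).trans (sum_le_sum fun a₀ _ => ?_)
    rw [← mul_sub, abs_mul, abs_of_nonneg (Nat.cast_nonneg _)]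
    rcases Nat.eq_zero_or_pos (K6_N Om S a₀) with h0 | h0
    · rw [h0, Nat.cast_zero, zero_mul, zero_mul]
    · refine mul_le_mul_of_nonneg_left ?_ (Nat.cast_nonneg _)
      unfold K6_N at h0
      obtain ⟨t, ht⟩ := card_pos.mp h0
      have hc := K6_cop hper hS (mem_filter.mp ht).2
      rw [← hD] at hc
      have h1 := hK A D a₀ hA hsf hc
      rw [hpf] at h1
      exact h1
  rw [← hgroup] at step2
  -- the product
  have hprod : (B : ℝ) * E / (D : ℝ) ^ 2 * (O * (T0 / ((D : ℝ) * ∏ p ∈ S, (1 - 1 / (p : ℝ) ^ 2)))) =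
      ((B : ℝ) * E * T0) * ∏ p ∈ S, ((omc Om p : ℝ) / ((p : ℝ) ^ 3 - p)) := by
    rw [prod_div_distrib, ← hO]
    have h1 : ∏ p ∈ S, ((p : ℝ) ^ 3 - p) = (D : ℝ) ^ 3 * ∏ p ∈ S, (1 - 1 / (p : ℝ) ^ 2) := by
      rw [hD]
      push_cast
      rw [← prod_pow, ← prod_mul_distrib]
      refine prod_congr rfl fun p hp => ?_
      have : (0 : ℝ) < p := by exact_mod_cast (hS p hp).pos
      field_simp
    have h2 : 0 < ∏ p ∈ S, (1 - 1 / (p : ℝ) ^ 2) := by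
      refine prod_pos fun p hp => ?_
      have h1 : (2 : ℝ) ≤ p := by exact_mod_cast (hS p hp).two_le
      have h2 : 1 / (p : ℝ) ^ 2 ≤ 1 / 4 := one_div_le_one_div_of_le (by norm_num) (by nlinarith)
      linarith
    rw [h1]
    field_simp
  rw [← hprod, ← hO]
  obtain ⟨M, hM⟩ : ∃ M : ℝ, M = ∑ a ∈ Ioc A (2 * A), K6_N Om S a * ((a.totient : ℝ) / (a : ℝ) ^ 2) := ⟨_, rfl⟩
  obtain ⟨M', hM'⟩ : ∃ M' : ℝ, M' = O * (T0 / ((D : ℝ) * ∏ p ∈ S, (1 - 1 / (p : ℝ) ^ 2))) := ⟨_, rfl⟩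
  rw [← hM, ← hM'] at step2
  rw [← hM] at step1
  rw [← hM']
  have step3 : |(B : ℝ) * E / (D : ℝ) ^ 2 * M - (B : ℝ) * E / (D : ℝ) ^ 2 * M'| ≤
      C * (1 + Real.log A) * (B * E) / A * O := by
    have hBE : (0 : ℝ) ≤ (B : ℝ) * E := by positivity
    have h1 : (B : ℝ) * E / (D : ℝ) ^ 2 ≤ B * E := div_le_self hBE (one_le_pow₀ hD1)
    rw [← mul_sub, abs_mul, abs_of_nonneg (show 0 ≤ (B : ℝ) * E / (D : ℝ) ^ 2 by positivity)]
    calc (B : ℝ) * E / (D : ℝ) ^ 2 * |M - M'| ≤ (B * E) * (O * (C * (1 + Real.log A) / A)) :=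
          mul_le_mul h1 step2 (abs_nonneg _) hBE
      _ = _ := by ring
  calc |((blk Om S A B E η).card : ℝ) - (B : ℝ) * E / (D : ℝ) ^ 2 * M'|
      ≤ |((blk Om S A B E η).card : ℝ) - (B : ℝ) * E / (D : ℝ) ^ 2 * M| +
        |(B : ℝ) * E / (D : ℝ) ^ 2 * M - (B : ℝ) * E / (D : ℝ) ^ 2 * M'| := abs_sub_le _ _ _
    _ ≤ (2 * ∑ a ∈ Ioc A (2 * A), errA a B E) * O + C * (1 + Real.log A) * (B * E) / A * O :=
        add_le_add step1 step3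
    _ = _ := by ring

end Pool.Agent.Lib.MP_79499b_co.PL
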