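import Pool.Agent.Lib.MP_79499b_co.PL.Defs

/-!
# Q1: quartic character and its Jacobi sum

Claim. `w ≡ 1 mod 4` prime: there is a multiplicative character `χ` of order 4 on `ZMod w` with values in the Gaussian
integers, its Jacobi sum `J(χ, χ) = s + t i` has `s^2 + t^2 = w`, and `t` is even.

Proof. The Gaussian integer `i = ⟨0, 1⟩` is a primitive 4th root of unity and `4 ∣ w - 1`, so `χ` exists
(`MulChar.exists_mulChar_orderOf`). Norm: map to `ℂ` (`GaussianInt.toComplex`, injective; `jacobiSum_ringHomComp`):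
`jacobiSum_mul_jacobiSum_inv` gives `J(χ, χ) J(χ⁻¹, χ⁻¹) = w` (`χ ≠ 1`, `χ * χ ≠ 1` since the order is 4, `ringChar ℂ = 0`),
and `J(χ⁻¹, χ⁻¹)` is the complex conjugate of `J(χ, χ)` (the values are 0 or roots of unity: `MulChar.star_apply`,
`MulChar.inv_apply`, or: `χ⁻¹ = χ^3`, and `conj z = z^3` for `z ∈ {0, 1, i, -1, -i}`; every value `z = χ a` satisfies `z = 0` or
`z^4 = 1`). `normSq (s + t i) = s^2 + t^2`.
Parity: `J(χ, χ) = ∑_x χ(x) χ(1 - x)`; let `f x` be the imaginary part of `χ(x) χ(1-x)` as an element of `ZMod 2`. The map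
`x ↦ 1 - x` is an involution with `f (1-x) = f x`, i.e. `f x + f (1-x) = 0` in `ZMod 2`, whose only fixed point is `x = 1/2`
(`w` odd). So `Finset.sum_involution` on `univ.erase (1/2)` gives `∑_{x ≠ 1/2} f x = 0`, and `χ(1/2)^2 = ± 1`, because its square is
`χ(1/2)^4 = 1`; its imaginary part is 0. So the imaginary part of `J` is even.
-/

set_option autoImplicit false

namespace Pool.Agent.Lib.MP_79499b_co.PL

open Finset Q38
open scoped Classical NumberTheorySymbols

theorem Q1_main {w : ℕ} [Fact w.Prime] (h4 : w % 4 = 1) :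
    ∃ χ : MulChar (ZMod w) GaussianInt, orderOf χ = 4 ∧
      (jacobiSum χ χ).re ^ 2 + (jacobiSum χ χ).im ^ 2 = (w : ℤ) ∧ Even (jacobiSum χ χ).im := by
  have hw : w.Prime := Fact.out
  have hi : IsPrimitiveRoot (⟨0, 1⟩ : GaussianInt) 4 := by
    rw [IsPrimitiveRoot.iff (by norm_num)]
    refine ⟨by decide, fun l h1 h2 => ?_⟩
    interval_cases l <;> decide
  have hcard : 4 ∣ Fintype.card (ZMod w) - 1 := by
    rw [ZMod.card]
    omega
  obtain ⟨χ, hχ⟩ := MulChar.exists_mulChar_orderOf (ZMod w) hcard hi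
  have h1 : χ ≠ 1 := by
    rintro rfl
    rw [orderOf_one] at hχ
    omega
  have h2 : χ * χ ≠ 1 := by
    intro h
    have h3 : orderOf χ ∣ 2 := orderOf_dvd_of_pow_eq_one (by rw [pow_two, h])
    rw [hχ] at h3
    omega
  refine ⟨χ, hχ, ?_, ?_⟩
  · have hinj : Function.Injective GaussianInt.toComplex := GaussianInt.toComplex_injective
    have h3 := jacobiSum_mul_jacobiSum_inv (F := ZMod w) (F' := ℂ)
      (χ := χ.ringHomComp GaussianInt.toComplex) (φ := χ.ringHomComp GaussianInt.toComplex)
      (by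
        rw [ringChar.eq_zero, ZMod.ringChar_zmod_n]
        exact hw.ne_zero.symm)
      ((MulChar.ringHomComp_ne_one_iff hinj).mpr h1) ((MulChar.ringHomComp_ne_one_iff hinj).mpr h1)
      (by
        rw [← MulChar.ringHomComp_mul]
        exact (MulChar.ringHomComp_ne_one_iff hinj).mpr h2)
    rw [← MulChar.star_eq_inv] at h3
    have h4 : jacobiSum (star (χ.ringHomComp GaussianInt.toComplex))
        (star (χ.ringHomComp GaussianInt.toComplex)) =
        starRingEnd ℂ (jacobiSum (χ.ringHomComp GaussianInt.toComplex)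
          (χ.ringHomComp GaussianInt.toComplex)) :=
      jacobiSum_ringHomComp _ _ (starRingEnd ℂ)
    rw [h4, jacobiSum_ringHomComp, Complex.mul_conj, ZMod.card] at h3
    have h5 : Complex.normSq (GaussianInt.toComplex (jacobiSum χ χ)) = (w : ℝ) := by
      exact_mod_cast h3
    rw [GaussianInt.toComplex_def₂, Complex.normSq_mk] at h5
    have h6 : (((jacobiSum χ χ).re * (jacobiSum χ χ).re + (jacobiSum χ χ).im * (jacobiSum χ χ).im : ℤ) : ℝ) =
        ((w : ℤ) : ℝ) := by
      push_cast
      exact h5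
    have h7 := Int.cast_injective h6
    rw [← h7]
    ring
  · let g : GaussianInt →+ ZMod 2 :=
      { toFun := fun z => (z.im : ZMod 2)
        map_zero' := by simp
        map_add' := fun a b => by simp }
    have h3 : g (jacobiSum χ χ) = 0 := by
      unfold jacobiSum
      rw [map_sum]
      refine Finset.sum_involution (fun x _ => 1 - x) ?_ ?_ ?_ ?_
      · intro x _
        rw [sub_sub_cancel, mul_comm (χ (1 - x))]
        exact CharTwo.add_self_eq_zero _
      · intro x _ h h'
        rw [h'] at h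
        apply h
        change (((χ x * χ x).im : ℤ) : ZMod 2) = 0
        rw [Zsqrtd.im_mul, mul_comm (χ x).im, ← two_mul]
        push_cast
        exact mul_eq_zero_of_left (show (2 : ZMod 2) = 0 from rfl) _
      · intro x _
        exact Finset.mem_univ _
      · intro x _
        exact sub_sub_cancel _ _
    have h4 : (((jacobiSum χ χ).im : ℤ) : ZMod 2) = 0 := h3
    rw [ZMod.intCast_zmod_eq_zero_iff_dvd] at h4
    exact even_iff_two_dvd.mpr h4

end Pool.Agent.Lib.MP_79499b_co.PL
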