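import Pool.Agent.Lib.MP_79499b_co.PL.Defs

/-!
# Q2: the Frobenius relation for quartic Gauss sums

Claim. `w ≡ 1 mod 4`, `p ≠ w` odd primes, `F` a field of characteristic `p`, `χ` a character of order 4 of `ZMod w` with values in
`F`, `χ(p) = 1`, `J = J(χ, χ)`. Then `J^(2 hN p) w^(hN p) = 1` if `p ≡ 1 mod 4` and `= χ(-1) w` if `p ≡ 3 mod 4`; here
`2 hN p = (p-1)/2` resp. `(p+1)/2`.

Proof. Let `K` be an extension field of `F` with a primitive additive character `ψ` of `ZMod w` (`K = CyclotomicField w F` or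
the algebraic closure; e.g. `AddChar.primitiveZModChar`, `w ≠ 0` in `F`); work in `K` (`jacobiSum_ringHomComp`,
`RingHom.injective`). `g = gaussSum χ ψ`. `jacobiSum_mul_nontrivial` (`χ * χ ≠ 1`): `gaussSum (χ*χ) ψ * J = g^2`.
`χ^2` is quadratic and `≠ 1`, `gaussSum_sq`: `gaussSum (χ^2) ψ ^ 2 = χ^2(-1) w = w` (`χ(-1)^2 = χ(1) = 1`). So `g^4 = J^2 w`, and `g ≠ 0`
(`w ≠ 0`; `gaussSum_mul_gaussSum_eq_card`). `gaussSum_frob`: `g^p = gaussSum (χ^p) (ψ^p)`, and `ψ^p = ψ.mulShift p`, so by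
`gaussSum_mulShift` `χ^p(p) g^p = gaussSum (χ^p) ψ`, where `χ^p(p) = χ(p)^p = 1`.
(a) `p ≡ 1 mod 4`: `χ^p = χ`, `g^p = g`, `g^(p-1) = 1`, and `g^(p-1) = (g^4)^((p-1)/4) = J^((p-1)/2) w^((p-1)/4)`; `hN p = (p-1)/4`.
(b) `p ≡ 3 mod 4`: `χ^p = χ^3 = χ⁻¹`, `g^(p+1) = g gaussSum(χ⁻¹, ψ) = χ(-1) w`: `mul_gaussSum_inv_eq_gaussSum` and
`gaussSum_mul_gaussSum_eq_card` (`gaussSum χ ψ * gaussSum χ⁻¹ ψ⁻¹ = w`, `gaussSum χ⁻¹ ψ⁻¹ = χ⁻¹(-1) gaussSum χ⁻¹ ψ`, `χ⁻¹(-1) = χ(-1) = ±1`).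
And `g^(p+1) = (g^4)^((p+1)/4) = J^((p+1)/2) w^((p+1)/4)`; `hN p = (p+1)/4`.
-/

set_option autoImplicit false

namespace Pool.Agent.Lib.MP_79499b_co.PL

open Finset Q38
open scoped Classical NumberTheorySymbols

theorem Q2_main {w p : ℕ} [Fact w.Prime] [Fact p.Prime] (hpw : p ≠ w) (hp2 : p ≠ 2)
    (h4 : w % 4 = 1) {F : Type} [Field F] [CharP F p] {χ : MulChar (ZMod w) F} (hχ : orderOf χ = 4)
    (hpχ : χ (p : ZMod w) = 1) :
    jacobiSum χ χ ^ (2 * hN p) * (w : F) ^ (hN p) = if p % 4 = 1 then 1 else χ (-1) * (w : F) := by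
  have hw : w.Prime := Fact.out
  have hp : p.Prime := Fact.out
  have hchar : ringChar F ≠ ringChar (ZMod w) := by
    rw [ringChar.eq F p, ZMod.ringChar_zmod_n]
    exact hpw
  let ψ := AddChar.FiniteField.primitiveChar (ZMod w) F hchar
  let K := CyclotomicField ψ.n F
  obtain ⟨χ', hχ'⟩ : ∃ c : MulChar (ZMod w) K, c = χ.ringHomComp (algebraMap F K) := ⟨_, rfl⟩
  have hinj := (algebraMap F K).injective
  have : CharP K p := charP_of_injective_algebraMap hinj p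
  have hχ4 : χ' ^ 4 = 1 := by
    rw [hχ', MulChar.ringHomComp_pow, ← hχ, pow_orderOf_eq_one, MulChar.ringHomComp_one]
  have hχ2 : χ' * χ' ≠ 1 := by
    rw [hχ', ← MulChar.ringHomComp_mul]
    refine (MulChar.ringHomComp_ne_one_iff hinj).mpr fun h => ?_
    have h3 : orderOf χ ∣ 2 := orderOf_dvd_of_pow_eq_one (by rw [pow_two, h])
    rw [hχ] at h3
    omega
  have hχ1 : χ' ≠ 1 := by
    intro h
    exact hχ2 (by rw [h, mul_one])
  have hord : orderOf χ' = 4 := by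
    have h := orderOf_eq_prime_pow (x := χ') (p := 2) (n := 1) (by rwa [pow_one, pow_two])
      (by rwa [show 2 ^ (1 + 1) = 4 from rfl])
    rwa [show 2 ^ (1 + 1) = 4 from rfl] at h
  have hcard : (Fintype.card (ZMod w) : K) = (w : K) := by rw [ZMod.card]
  have hw0 : (w : K) ≠ 0 := by
    intro h
    rw [CharP.cast_eq_zero_iff K p] at h
    exact hpw ((Nat.prime_dvd_prime_iff_eq hp hw).mp h)
  have hg0 : gaussSum χ' ψ.char ≠ 0 :=
    gaussSum_ne_zero_of_nontrivial (by rwa [hcard]) hχ1 ψ.prim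
  -- the fourth power
  have hJ := jacobiSum_mul_nontrivial hχ2 ψ.char
  have hq : (χ' * χ').IsQuadratic := by
    rw [MulChar.isQuadratic_iff_sq_eq_one, ← pow_two, ← pow_mul]
    exact hχ4
  have hsq := gaussSum_sq hχ2 hq ψ.prim
  have hneg : (χ' * χ') (-1) = 1 := by
    rw [MulChar.mul_apply, ← map_mul, neg_mul_neg, one_mul, MulChar.map_one]
  rw [hneg, one_mul, hcard] at hsq
  have hg4 : gaussSum χ' ψ.char ^ 4 = jacobiSum χ' χ' ^ 2 * w := by
    rw [show gaussSum χ' ψ.char ^ 4 = (gaussSum χ' ψ.char * gaussSum χ' ψ.char) ^ 2 by ring, ← hJ,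
      mul_pow, hsq, mul_comm]
  -- Frobenius
  have hpu : IsUnit (p : ZMod w) := by
    rw [isUnit_iff_ne_zero]
    intro h
    rw [ZMod.natCast_eq_zero_iff] at h
    exact hpw ((Nat.prime_dvd_prime_iff_eq hw hp).mp h).symm
  have hχp : (χ' ^ p) (p : ZMod w) = 1 := by
    rw [MulChar.pow_apply' _ hp.ne_zero, hχ']
    change (algebraMap F K (χ (p : ZMod w))) ^ p = 1
    rw [hpχ, map_one, one_pow]
  have hfr : gaussSum χ' ψ.char ^ p = gaussSum (χ' ^ p) ψ.char := by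
    rw [gaussSum_frob p, AddChar.pow_mulShift, ← gaussSum_mulShift (χ' ^ p) ψ.char hpu.unit,
      hpu.unit_spec, hχp, one_mul]
  apply hinj
  rw [map_mul, map_pow, map_pow, ← jacobiSum_ringHomComp, map_natCast, ← hχ', pow_mul, ← mul_pow, ← hg4, ← pow_mul]
  have hodd : p % 2 = 1 := Nat.odd_iff.mp (hp.odd_of_ne_two hp2)
  by_cases h1 : p % 4 = 1
  · rw [if_pos h1, map_one]
    obtain ⟨k, hk⟩ : ∃ k, p = 4 * k + 1 := ⟨p / 4, by omega⟩
    have h2 : χ' ^ p = χ' := by rw [hk, pow_succ, pow_mul, hχ4, one_pow, one_mul]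
    have h3 : hN p = k := by unfold hN; omega
    rw [h2] at hfr
    rw [h3]
    have h4 : gaussSum χ' ψ.char ^ (4 * k) * gaussSum χ' ψ.char = 1 * gaussSum χ' ψ.char := by
      rw [← pow_succ, ← hk, hfr, one_mul]
    exact mul_right_cancel₀ hg0 h4
  · rw [if_neg h1, map_mul, map_natCast]
    obtain ⟨k, hk⟩ : ∃ k, p = 4 * k + 3 := ⟨p / 4, by omega⟩
    have h2 : χ' ^ p = χ' ^ 3 := by rw [hk, pow_add, pow_mul, hχ4, one_pow, one_mul]
    have h3 : 4 * hN p = p + 1 := by unfold hN; omega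
    have h5 := gaussSum_mul_gaussSum_pow_orderOf_sub_one hχ1 ψ.prim
    rw [hord, hcard] at h5
    rw [h3, pow_succ, hfr, h2, mul_comm]
    refine h5.trans ?_
    rw [hχ']
    rfl

end Pool.Agent.Lib.MP_79499b_co.PL
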