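import Pool.Agent.Lib.MP_79499b_co.PL.Q1
import Pool.Agent.Lib.MP_79499b_co.PL.Q2

/-!
# Q3: the quartic relation for one prime `w`

Claim. `w ≡ 1 mod 4` prime. There are integers `s, t`, `s^2 + t^2 = w`, `t` even, such that for every odd prime `p ≠ w` with
`p^((w-1)/4) ≡ 1 mod w` and every field `F` of characteristic `p` with an element `i`, `i^2 = -1`:
`(s + t i)^(2 hN p) w^(hN p) = 1` or `(-1)^((w-1)/4) w`, for `p ≡ 1`, `3 mod 4`.

Proof. `χ` from `Q1_main`, `s + t i = J(χ, χ)`. For `p, F, i` let `φ : GaussianInt →+* F` with `φ(i) = i` (`Zsqrtd.lift`), so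
`φ(s + t i) = s + t i`, and `χ' = χ.ringHomComp φ`; `φ(J(χ,χ)) = J(χ', χ')` (`jacobiSum_ringHomComp`). Let `g` generate
`(ZMod w)ˣ`. `χ(g)` has order 4 in the units (a power of `χ` is trivial iff it is trivial at `g`), so `χ(g)^2 = -1` (in the
Gaussian integers `z^4 = 1`, `z^2 ≠ 1` give `z^2 = -1`), `χ'(g)^2 = -1 ≠ 1` (`p ≠ 2`), so `χ'` has order 4 (`χ'^4 = 1`, `χ'^2 ≠ 1`;
`orderOf_eq_prime_pow` or directly). `p = y^4` in `ZMod w`: write `p = g^j`; `g^(j (w-1)/4) = 1` gives `4 ∣ j`. So `χ'(p) = χ'(y)^4 = 1`.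
`-1 = g^((w-1)/2)`, so `χ'(-1) = (χ'(g)^2)^((w-1)/4) = (-1)^((w-1)/4)`. Apply `Q2_main`.
-/

set_option autoImplicit false

namespace Pool.Agent.Lib.MP_79499b_co.PL

open Finset Q38
open scoped Classical NumberTheorySymbols

theorem Q3_main {w : ℕ} (hw : w.Prime) (h4 : w % 4 = 1) :
    ∃ s t : ℤ, s ^ 2 + t ^ 2 = (w : ℤ) ∧ Even t ∧
      ∀ p : ℕ, p.Prime → p ≠ 2 → p ≠ w → w ∣ p ^ ((w - 1) / 4) - 1 →
        ∀ (F : Type) [Field F] [CharP F p] (i : F), i ^ 2 = -1 →
          ((s : F) + t * i) ^ (2 * hN p) * (w : F) ^ (hN p) =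
            if p % 4 = 1 then 1 else (-1) ^ ((w - 1) / 4) * (w : F) := by
  have : Fact w.Prime := ⟨hw⟩
  obtain ⟨χ, hχ, hJ, hev⟩ := Q1_main h4
  refine ⟨_, _, hJ, hev, fun p hp hp2 hpw hdvd F _ _ i hi => ?_⟩
  have : Fact p.Prime := ⟨hp⟩
  -- the homomorphism to F
  let φ : GaussianInt →+* F := Zsqrtd.lift ⟨i, by rw [← pow_two, hi]; simp⟩
  have hφ : ∀ z : GaussianInt, φ z = (z.re : F) + z.im * i := fun z => rfl
  -- a generator
  obtain ⟨g, hg⟩ := IsCyclic.exists_generator (α := (ZMod w)ˣ)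
  obtain ⟨n, hn⟩ : ∃ n, w = 4 * n + 1 := ⟨w / 4, by omega⟩
  have hcard : Fintype.card (ZMod w)ˣ = 4 * n := by rw [ZMod.card_units w]; omega
  have hord : orderOf g = 4 * n := by
    rw [orderOf_eq_card_of_forall_mem_zpowers hg, Nat.card_eq_fintype_card, hcard]
  have hn0 : 0 < n := by
    have := hw.two_le
    omega
  -- the value at the generator
  have h4g : χ g ^ 4 = 1 := by
    rw [← MulChar.pow_apply_coe, ← hχ, pow_orderOf_eq_one, MulChar.one_apply_coe]
  have hpow : ∀ a : (ZMod w)ˣ, ∃ j : ℕ, g ^ j = a := fun a =>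
    mem_powers_iff_mem_zpowers.mpr (hg a)
  have hval : ∀ j : ℕ, χ ((g ^ j : (ZMod w)ˣ) : ZMod w) = χ g ^ j := fun j => by
    rw [Units.val_pow_eq_pow_val, map_pow]
  have h2g : χ g ^ 2 ≠ 1 := by
    intro h
    have h1 : χ ^ 2 = 1 := by
      rw [MulChar.eq_one_iff]
      intro a
      obtain ⟨j, rfl⟩ := hpow a
      rw [MulChar.pow_apply_coe, hval, ← pow_mul, mul_comm, pow_mul, h, one_pow]
    have h3 : orderOf χ ∣ 2 := orderOf_dvd_of_pow_eq_one h1
    rw [hχ] at h3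
    omega
  have h2g' : χ g ^ 2 = -1 := by
    have h1 : (χ g ^ 2 - 1) * (χ g ^ 2 + 1) = 0 := by
      rw [show (χ g ^ 2 - 1) * (χ g ^ 2 + 1) = χ g ^ 4 - 1 by ring, h4g, sub_self]
    rcases mul_eq_zero.mp h1 with h | h
    · exact absurd (sub_eq_zero.mp h) h2g
    · exact eq_neg_of_add_eq_zero_left h
  -- the character with values in F
  have hF : (-1 : F) ≠ 1 := by
    intro h
    have h1 : ((2 : ℕ) : F) = 0 := by
      push_cast
      linear_combination h.symm
    rw [CharP.cast_eq_zero_iff F p] at h1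
    exact hp2 ((Nat.prime_dvd_prime_iff_eq hp Nat.prime_two).mp h1)
  have hord' : orderOf (χ.ringHomComp φ) = 4 := by
    have h := orderOf_eq_prime_pow (x := χ.ringHomComp φ) (p := 2) (n := 1)
      (by
        intro h
        rw [pow_one, MulChar.eq_one_iff] at h
        have h1 := h g
        rw [MulChar.pow_apply_coe] at h1
        change (φ (χ g)) ^ 2 = 1 at h1
        rw [← map_pow, h2g', map_neg, map_one] at h1
        exact hF h1)
      (by
        rw [show 2 ^ (1 + 1) = 4 from rfl, MulChar.ringHomComp_pow, ← hχ, pow_orderOf_eq_one,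
          MulChar.ringHomComp_one])
    rwa [show 2 ^ (1 + 1) = 4 from rfl] at h
  have hχp : (χ.ringHomComp φ) (p : ZMod w) = 1 := by
    have hpu : IsUnit (p : ZMod w) := by
      rw [isUnit_iff_ne_zero]
      intro h
      rw [ZMod.natCast_eq_zero_iff] at h
      exact hpw ((Nat.prime_dvd_prime_iff_eq hw hp).mp h).symm
    obtain ⟨j, hj⟩ := hpow hpu.unit
    have h1 : (p : ZMod w) ^ n = 1 := by
      have h2 : (w - 1) / 4 = n := by omega
      rw [h2] at hdvd
      have h3 : ((p ^ n - 1 : ℕ) : ZMod w) = 0 := (ZMod.natCast_eq_zero_iff _ _).mpr hdvd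
      rw [Nat.cast_sub (Nat.one_le_pow _ _ hp.pos)] at h3
      push_cast at h3
      exact sub_eq_zero.mp h3
    have h2 : g ^ (j * n) = 1 := by
      rw [pow_mul, hj]
      ext
      push_cast
      rw [hpu.unit_spec, h1]
    have h3 : 4 * n ∣ j * n := hord ▸ orderOf_dvd_of_pow_eq_one h2
    obtain ⟨l, rfl⟩ := Nat.dvd_of_mul_dvd_mul_right hn0 h3
    change φ (χ (p : ZMod w)) = 1
    rw [← hpu.unit_spec, ← hj, hval, pow_mul, h4g, one_pow, map_one]
  have hneg : (χ.ringHomComp φ) (-1) = (-1) ^ ((w - 1) / 4) := by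
    have h1 : ((g ^ (2 * n) : (ZMod w)ˣ) : ZMod w) = -1 := by
      have h2 : ((g ^ (2 * n) : (ZMod w)ˣ) : ZMod w) ^ 2 = 1 := by
        rw [← Units.val_pow_eq_pow_val, ← pow_mul, show 2 * n * 2 = 4 * n by ring, ← hord,
          pow_orderOf_eq_one, Units.val_one]
      rcases mul_self_eq_one_iff.mp ((pow_two _).symm.trans h2) with h | h
      · exfalso
        have h3 : g ^ (2 * n) = 1 := Units.ext h
        have h4 : 4 * n ∣ 2 * n := hord ▸ orderOf_dvd_of_pow_eq_one h3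
        have := Nat.le_of_dvd (by omega) h4
        omega
      · exact h
    change φ (χ (-1)) = _
    rw [← h1, hval, pow_mul, h2g', show (w - 1) / 4 = n by omega, map_pow, map_neg, map_one]
  have h := Q2_main hpw hp2 h4 hord' hχp
  rw [jacobiSum_ringHomComp, hφ, hneg] at h
  exact h

end Pool.Agent.Lib.MP_79499b_co.PL
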