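import Pool.Agent.Lib.MP_79499b_co.PL.Q3

/-!
# Q4: the quartic relation for products of primes 1 mod 4

Claim: the statement of `Q3_main` for all `v` with all prime factors `≡ 1 mod 4`.

Proof. Induction over the prime factorisation (`Nat.recOnMul` / `induction_on_primes`), proving also `v % 4 = 1`. `v = 1`: `s = 1`,
`t = 0`, both sides are 1 (`(1-1)/4 = 0`). `v = w c`: `s1, t1` for `w` (`Q3_main`), `s2, t2` for `c`; put `s = s1 s2 - t1 t2`,
`t = s1 t2 + t1 s2` (even), `s^2 + t^2 = w c`; `s + t i = (s1 + t1 i)(s2 + t2 i)` as `i^2 = -1`. Multiply the two relations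
(`¬ p ∣ v` gives `p ≠ w`, `¬ p ∣ c`). For `p ≡ 3 mod 4` the right sides give `(-1)^((w-1)/4 + (c-1)/4) w c`, and
`(wc - 1)/4 = (w-1)/4 + (c-1)/4 + 4 ((w-1)/4) ((c-1)/4)` for `w = 4 k + 1`, `c = 4 m + 1`: `(wc-1)/4 = 4 k m + k + m`, the same parity.
-/

set_option autoImplicit false

namespace Pool.Agent.Lib.MP_79499b_co.PL

open Finset Q38
open scoped Classical NumberTheorySymbols

private lemma Q4_aux : ∀ v : ℕ, v ≠ 0 → (∀ w : ℕ, w.Prime → w ∣ v → w % 4 = 1) → v % 4 = 1 ∧
    ∃ s t : ℤ, s ^ 2 + t ^ 2 = (v : ℤ) ∧ Even t ∧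
      ∀ p : ℕ, p.Prime → p ≠ 2 → ¬ p ∣ v →
        (∀ w : ℕ, w.Prime → w ∣ v → w ∣ p ^ ((w - 1) / 4) - 1) →
        ∀ (F : Type) [Field F] [CharP F p] (i : F), i ^ 2 = -1 →
          ((s : F) + t * i) ^ (2 * hN p) * (v : F) ^ (hN p) =
            if p % 4 = 1 then 1 else (-1) ^ ((v - 1) / 4) * (v : F) := by
  intro v
  induction v using Nat.strong_induction_on with
  | _ v ih =>
    intro hv0 hv
    rcases eq_or_ne v 1 with rfl | hv1
    · refine ⟨by norm_num, 1, 0, by norm_num, Even.zero, ?_⟩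
      intro p hp hp2 hnd hq F _ _ i hi
      simp
    · obtain ⟨w, hw, c, rfl⟩ : ∃ w, w.Prime ∧ w ∣ v := ⟨v.minFac, Nat.minFac_prime hv1, Nat.minFac_dvd v⟩
      have hc0 : c ≠ 0 := by
        rintro rfl
        exact hv0 (mul_zero w)
      have hcv : c < w * c := by
        have := hw.two_le
        have : 0 < c := Nat.pos_of_ne_zero hc0
        nlinarith
      obtain ⟨hc4, s2, t2, hst2, hev2, h2⟩ := ih c hcv hc0
        (fun w' hw' hd => hv w' hw' (hd.trans (dvd_mul_left c w)))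
      have hw4 := hv w hw (dvd_mul_right w c)
      obtain ⟨s1, t1, hst1, hev1, h1⟩ := Q3_main hw hw4
      refine ⟨by rw [Nat.mul_mod, hw4, hc4], s1 * s2 - t1 * t2, s1 * t2 + t1 * s2, ?_, ?_, ?_⟩
      · push_cast
        rw [← hst1, ← hst2]
        ring
      · exact (hev2.mul_left s1).add (hev1.mul_right s2)
      · intro p hp hp2 hnd hq F _ _ i hi
        have e1 := h1 p hp hp2 (by
          rintro rfl
          exact hnd (dvd_mul_right _ _)) (hq w hw (dvd_mul_right w c)) F i hi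
        have e2 := h2 p hp hp2 (fun hd => hnd (hd.trans (dvd_mul_left c w)))
          (fun w' hw' hd => hq w' hw' (hd.trans (dvd_mul_left c w))) F i hi
        have e3 : (((s1 * s2 - t1 * t2 : ℤ) : F) + ((s1 * t2 + t1 * s2 : ℤ) : F) * i) =
            ((s1 : F) + t1 * i) * ((s2 : F) + t2 * i) := by
          push_cast
          linear_combination -(t1 : F) * t2 * hi
        have e4 : (((s1 : F) + t1 * i) * ((s2 : F) + t2 * i)) ^ (2 * hN p) *
            ((w * c : ℕ) : F) ^ hN p = (((s1 : F) + t1 * i) ^ (2 * hN p) * (w : F) ^ hN p) *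
              (((s2 : F) + t2 * i) ^ (2 * hN p) * (c : F) ^ hN p) := by
          push_cast
          rw [mul_pow, mul_pow]
          ring
        rw [e3, e4, e1, e2]
        by_cases h5 : p % 4 = 1
        · rw [if_pos h5, if_pos h5, if_pos h5, one_mul]
        · rw [if_neg h5, if_neg h5, if_neg h5]
          obtain ⟨a, ha⟩ : ∃ a, w = 4 * a + 1 := ⟨w / 4, by omega⟩
          obtain ⟨b, hb⟩ : ∃ b, c = 4 * b + 1 := ⟨c / 4, by omega⟩
          have g1 : (w - 1) / 4 = a := by omega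
          have g2 : (c - 1) / 4 = b := by omega
          have g3 : (w * c - 1) / 4 = 4 * (a * b) + a + b := by
            have : w * c = 4 * (4 * (a * b) + a + b) + 1 := by
              rw [ha, hb]
              ring
            omega
          rw [g1, g2, g3]
          have g4 : ((-1 : F)) ^ (4 * (a * b) + a + b) = (-1) ^ a * (-1) ^ b := by
            rw [pow_add, pow_add, pow_mul]
            norm_num
          rw [g4]
          push_cast
          ring

theorem Q4_main : ∀ v : ℕ, v ≠ 0 → (∀ w : ℕ, w.Prime → w ∣ v → w % 4 = 1) →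
    ∃ s t : ℤ, s ^ 2 + t ^ 2 = (v : ℤ) ∧ Even t ∧
      ∀ p : ℕ, p.Prime → p ≠ 2 → ¬ p ∣ v →
        (∀ w : ℕ, w.Prime → w ∣ v → w ∣ p ^ ((w - 1) / 4) - 1) →
        ∀ (F : Type) [Field F] [CharP F p] (i : F), i ^ 2 = -1 →
          ((s : F) + t * i) ^ (2 * hN p) * (v : F) ^ (hN p) =
            if p % 4 = 1 then 1 else (-1) ^ ((v - 1) / 4) * (v : F) :=
  fun v hv0 hv => (Q4_aux v hv0 hv).2

end Pool.Agent.Lib.MP_79499b_co.PL
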