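import Pool.Agent.Lib.MP_79499b_co.PL.Defs

/-!
# Q5: the quadratic character of the norm one group is a Legendre symbol

Claim. `p` an odd prime, `F` a field of characteristic `p`, `i^2 = -1` in `F`, `s^2 + t^2 ≡ 1 mod p`, `p ∤ 2 + 2s`. Then
`(s + t i)^(2 hN p) = ((2 + 2s)/p)` in `F`.

Proof. `α = s + t i`, `ᾱ = s - t i`, `α ᾱ = 1`, so `(1 + α)^2 = 1 + 2α + α^2 = α (ᾱ + 2 + α) = α (2 + 2s)`, and `1 + α ≠ 0` (else
`α = -1`, `ᾱ = -1`, `2s = -2`). Frobenius (`frobenius F p` is a ring homomorphism fixing the images of integers: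
`(s : F)^p = s`, from `ZMod.pow_card`/`Int` casts): `(1 + α)^p = 1 + s + t i^p`.
(a) `p ≡ 1 mod 4`: `i^p = i (i^4)^((p-1)/4) = i`, so `(1+α)^p = 1 + α`, `(1+α)^(p-1) = 1`. `2 hN p = (p-1)/2`:
`α^((p-1)/2) (2+2s)^((p-1)/2) = (1+α)^(p-1) = 1`, and `(2+2s)^((p-1)/2)` is the Legendre symbol `= ±1` (`ZMod.euler_criterion`,
`legendreSym.eq_pow`), so `α^((p-1)/2)` is the same sign.
(b) `p ≡ 3 mod 4`: `i^p = -i`, `(1+α)^p = 1 + ᾱ`, `(1+α)^(p+1) = (1+α)(1+ᾱ) = 2 + 2s`. `2 hN p = (p+1)/2`: `α^((p+1)/2) (2+2s)^((p+1)/2) = 2+2s`,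
so `α^((p+1)/2) (2+2s)^((p-1)/2) = 1`.
`J(a | p)` is `legendreSym p a` (`jacobiSym.legendreSym.to_jacobiSym`).
-/

set_option autoImplicit false

namespace Pool.Agent.Lib.MP_79499b_co.PL

open Finset Q38
open scoped Classical NumberTheorySymbols

private lemma Q5_int_pow {p : ℕ} [Fact p.Prime] {F : Type} [Field F] [CharP F p] (c : ℤ) :
    (c : F) ^ p = c := by
  have h := map_intCast (frobenius F p) c
  rwa [frobenius_def] at h

private lemma Q5_leg {p : ℕ} [Fact p.Prime] {F : Type} [Field F] [CharP F p] (c : ℤ) :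
    ((J(c | p) : ℤ) : F) = (c : F) ^ (p / 2) := by
  rw [← jacobiSym.legendreSym.to_jacobiSym]
  have h := legendreSym.eq_pow p c
  have h2 := congrArg (ZMod.castHom (dvd_refl p) F) h
  rw [map_pow, map_intCast, map_intCast] at h2
  exact h2

theorem Q5_main {p : ℕ} [Fact p.Prime] (hp : p ≠ 2) {F : Type} [Field F] [CharP F p] {i : F}
    (hi : i ^ 2 = -1) {s t : ℤ} (hst : (p : ℤ) ∣ s ^ 2 + t ^ 2 - 1) (hs : ¬ (p : ℤ) ∣ 2 + 2 * s) :
    ((s : F) + t * i) ^ (2 * hN p) = ((J(2 + 2 * s | p) : ℤ) : F) := by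
  have hpp : p.Prime := Fact.out
  rw [Q5_leg]
  obtain ⟨c, hc⟩ : ∃ c : F, c = 2 + 2 * (s : F) := ⟨_, rfl⟩
  have hcc : ((2 + 2 * s : ℤ) : F) = c := by
    rw [hc]
    push_cast
    ring
  rw [hcc]
  have hc0 : c ≠ 0 := by
    rw [← hcc]
    intro h
    exact hs ((CharP.intCast_eq_zero_iff F p _).1 h)
  have hcp : c ^ p = c := by
    rw [← hcc]
    exact Q5_int_pow _
  have hcp1 : c ^ (p - 1) = 1 := by
    have h1 : c ^ (p - 1) * c = 1 * c := by
      rw [← pow_succ, Nat.sub_add_cancel hpp.one_lt.le, hcp, one_mul]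
    exact mul_right_cancel₀ hc0 h1
  obtain ⟨α, hα⟩ : ∃ α : F, α = (s : F) + t * i := ⟨_, rfl⟩
  obtain ⟨β, hβ⟩ : ∃ β : F, β = (s : F) - t * i := ⟨_, rfl⟩
  rw [← hα]
  have h1 : (s : F) ^ 2 + (t : F) ^ 2 = 1 := by
    have h := (CharP.intCast_eq_zero_iff F p _).2 hst
    push_cast at h
    linear_combination h
  have hαβ : α * β = 1 := by
    rw [hα, hβ]
    linear_combination h1 - (t : F) ^ 2 * hi
  have hsum : α + β = 2 * (s : F) := by
    rw [hα, hβ]
    ring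
  have hsq : (1 + α) ^ 2 = α * c := by
    rw [hc]
    linear_combination -hαβ + α * hsum
  have hα1 : (1 + α) ≠ 0 := by
    intro h
    have h2 : α * c = 0 := by
      rw [← hsq, h]
      ring
    rcases mul_eq_zero.1 h2 with h3 | h3
    · rw [h3, zero_mul] at hαβ
      exact zero_ne_one hαβ
    · exact hc0 h3
  have hfr : (1 + α) ^ p = 1 + (s : F) + t * i ^ p := by
    rw [add_pow_char, one_pow, hα, add_pow_char, mul_pow, Q5_int_pow, Q5_int_pow]
    ring
  have hi4 : i ^ 4 = 1 := by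
    have : i ^ 4 = (i ^ 2) ^ 2 := by ring
    rw [this, hi]
    ring
  have hodd : p % 2 = 1 := by
    rcases hpp.eq_two_or_odd with h | h
    · exact absurd h hp
    · exact h
  have h4 : p % 4 = 1 ∨ p % 4 = 3 := by omega
  rcases h4 with h4 | h4
  · obtain ⟨k, rfl⟩ : ∃ k, p = 4 * k + 1 := ⟨p / 4, by omega⟩
    have e1 : 2 * hN (4 * k + 1) = 2 * k := by
      unfold hN
      omega
    have e2 : (4 * k + 1) / 2 = 2 * k := by omega
    rw [e1, e2]
    have e3 : (1 + α) ^ (4 * k + 1) = 1 + α := by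
      rw [hfr]
      have : i ^ (4 * k + 1) = i := by
        rw [pow_succ, pow_mul, hi4, one_pow, one_mul]
      rw [this, hα]
      ring
    have e4 : (1 + α) ^ (4 * k) = 1 := by
      have h5 : (1 + α) ^ (4 * k) * (1 + α) = 1 * (1 + α) := by
        rw [← pow_succ, e3, one_mul]
      exact mul_right_cancel₀ hα1 h5
    have e5 : α ^ (2 * k) * c ^ (2 * k) = 1 := by
      have h5 : α ^ (2 * k) * c ^ (2 * k) = (1 + α) ^ (4 * k) := by
        rw [← mul_pow, ← hsq, ← pow_mul]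
        congr 1
        ring
      rw [h5, e4]
    have e6 : c ^ (2 * k) * c ^ (2 * k) = 1 := by
      have h5 : c ^ (2 * k) * c ^ (2 * k) = c ^ (4 * k + 1 - 1) := by
        rw [← pow_add]
        congr 1
        omega
      rw [h5, hcp1]
    have e7 : c ^ (2 * k) ≠ 0 := pow_ne_zero _ hc0
    exact mul_right_cancel₀ e7 (e5.trans e6.symm)
  · obtain ⟨k, rfl⟩ : ∃ k, p = 4 * k + 3 := ⟨p / 4, by omega⟩
    have e1 : 2 * hN (4 * k + 3) = 2 * k + 2 := by
      unfold hN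
      omega
    have e2 : (4 * k + 3) / 2 = 2 * k + 1 := by omega
    rw [e1, e2]
    have e3 : (1 + α) ^ (4 * k + 3) = 1 + β := by
      rw [hfr]
      have : i ^ (4 * k + 3) = -i := by
        rw [pow_add, pow_mul, hi4, one_pow, one_mul, pow_succ, hi]
        ring
      rw [this, hβ]
      ring
    have e4 : (1 + α) ^ (4 * k + 4) = c := by
      have h5 : (1 + α) ^ (4 * k + 4) = (1 + α) ^ (4 * k + 3) * (1 + α) := by
        rw [← pow_succ]
      rw [h5, e3, hc]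
      linear_combination hαβ + hsum
    have e5 : α ^ (2 * k + 2) * c ^ (2 * k + 1) * c = 1 * c := by
      have h5 : α ^ (2 * k + 2) * c ^ (2 * k + 1) * c = (1 + α) ^ (4 * k + 4) := by
        rw [mul_assoc, ← pow_succ, ← mul_pow, ← hsq, ← pow_mul]
        congr 1
        ring
      rw [h5, e4, one_mul]
    have e5' : α ^ (2 * k + 2) * c ^ (2 * k + 1) = 1 := mul_right_cancel₀ hc0 e5
    have e6 : c ^ (2 * k + 1) * c ^ (2 * k + 1) = 1 := by
      have h5 : c ^ (2 * k + 1) * c ^ (2 * k + 1) = c ^ (4 * k + 3 - 1) := by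
        rw [← pow_add]
        congr 1
        omega
      rw [h5, hcp1]
    have e7 : c ^ (2 * k + 1) ≠ 0 := pow_ne_zero _ hc0
    exact mul_right_cancel₀ e7 (e5'.trans e6.symm)

end Pool.Agent.Lib.MP_79499b_co.PL
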