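import Pool.Agent.Lib.MP_79499b_co.PL.Q4
import Pool.Agent.Lib.MP_79499b_co.PL.Q5

/-!
# Q6: the quartic condition for `n^2 + n + 1 = s^2 + t^2`

Claim. `n ≡ 0, 3 mod 4`, all prime factors of `v = n^2 + n + 1` are `≡ 1 mod 4`. There are `s, t` with `s^2 + t^2 = v`, `s ≡ n mod 2`, such
that for each odd prime `p ∣ n` which is a fourth power modulo all primes `w ∣ v`: `((2 ± 2s)/p) = sg n p` (if `p ∤ 2 ± 2s`).

Proof. `Phi_three` (Q38Deduce): `Phi 3 n = v`. `Q4_main`: `s', t'`, `t'` even, so `s'` is odd (`v` is odd). If `n` is odd put `s = s'`,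
`t = t'`; if `n` is even `s = t'`, `t = s'`. Let `p ∣ n` be as in the claim, `F` the algebraic closure of `ZMod p`, `i ∈ F` with
`i^2 = -1` (`IsAlgClosed.exists_pow_nat_eq`). `v = 1` in `F` and `p ∤ v`, so `α^(2 hN p) = c` for `α = s' + t' i`, `c = 1` if `p ≡ 1 mod 4`, `c = (-1)^((v-1)/4)`
if `p ≡ 3 mod 4`; `c = -1` iff `p ≡ 3 mod 4` and `v ≡ 5 mod 8` (`v ≡ 1 mod 4`). `s' - t' i = α⁻¹` as `s'^2 + t'^2 = 1` in `F`. By `Q5_main`
`((2+2s'')/p) = β^(2 hN p)` in `F` for `β = s'' + t'' i`, `s''^2 + t''^2 ≡ 1`: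
`n` odd: `(s'', t'') = (s', t')`: `β = α`; `(-s', t')`: `β = -α⁻¹`: `β^(2 hN p) = c`, `c⁻¹ = c`.
`n` even: `(t', s')`: `β = i α⁻¹`; `(-t', s')`: `β = i α`: `β^(2 hN p) = (-1)^(hN p) c`, and `(-1)^(hN p) = J(2 | p)`: `p mod 8 = 1, 3, 5, 7` gives
`hN p = (p+1)/4` even, odd, odd, even (`ZMod.χ₈`, `jacobiSym.at_two`).
Both sides are `±1` and `1 ≠ -1` in `F`, so the equality holds in `ℤ` and is `sg n p` by definition (`Int.cast` injective on `{1,-1}`).
-/

set_option autoImplicit false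

namespace Pool.Agent.Lib.MP_79499b_co.PL

open Finset Q38
open scoped Classical NumberTheorySymbols

/-- `1` and `-1` are different in `F` -/
private lemma Q6_sign {p : ℕ} (hp : p.Prime) (hp2 : p ≠ 2) {F : Type} [Field F] [CharP F p] {a b : ℤ}
    (ha : a = 1 ∨ a = -1) (hb : b = 1 ∨ b = -1) (h : (a : F) = (b : F)) : a = b := by
  have h2 : (2 : F) ≠ 0 := by
    intro h0
    have h1 : ((2 : ℕ) : F) = 0 := by exact_mod_cast h0
    rw [CharP.cast_eq_zero_iff F p] at h1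
    exact hp2 ((Nat.prime_dvd_prime_iff_eq hp Nat.prime_two).mp h1)
  rcases ha with rfl | rfl <;> rcases hb with rfl | rfl
  · rfl
  · exfalso
    apply h2
    push_cast at h
    linear_combination h
  · exfalso
    apply h2
    push_cast at h
    linear_combination -h
  · rfl

private lemma Q6_two {p : ℕ} (hp : p.Prime) (hp2 : p ≠ 2) : J(2 | p) = (-1) ^ hN p := by
  have hodd : Odd p := hp.odd_of_ne_two hp2
  have h2 : p % 2 = 1 := Nat.odd_iff.mp hodd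
  rw [jacobiSym.at_two hodd, ZMod.χ₈_nat_eq_if_mod_eight, if_neg (by omega)]
  unfold hN
  by_cases h : p % 8 = 1 ∨ p % 8 = 7
  · rw [if_pos h, Even.neg_one_pow]
    rw [Nat.even_iff]
    omega
  · rw [if_neg h, Odd.neg_one_pow]
    rw [Nat.odd_iff]
    omega

theorem Q6_main {n : ℕ} (hn : n % 4 = 0 ∨ n % 4 = 3)
    (hw : ∀ w : ℕ, w.Prime → w ∣ Phi 3 n → w % 4 = 1) :
    ∃ s t : ℤ, s ^ 2 + t ^ 2 = (n : ℤ) ^ 2 + n + 1 ∧ (s - n) % 2 = 0 ∧
      ∀ p : ℕ, p.Prime → p ≠ 2 → p ∣ n →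
        (∀ w : ℕ, w.Prime → w ∣ Phi 3 n → w ∣ p ^ ((w - 1) / 4) - 1) →
        ∀ δ : ℤ, (δ = 1 ∨ δ = -1) → ¬ (p : ℤ) ∣ 2 + 2 * (δ * s) →
          J(2 + 2 * (δ * s) | p) = sg n p := by
  rw [Phi_three] at hw
  have hv4 : (n ^ 2 + n + 1) % 4 = 1 := by
    rcases hn with h | h <;> simp [Nat.add_mod, Nat.pow_mod, h]
  obtain ⟨s', t', hst, hev, hrel⟩ := Q4_main (n ^ 2 + n + 1) (by positivity) hw
  have hst' : s' ^ 2 + t' ^ 2 = (n : ℤ) ^ 2 + n + 1 := by rw [hst]; push_cast; ring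
  have hs' : s' % 2 = 1 := by
    obtain ⟨r, hr⟩ := hev
    by_contra hs
    have h0 : s' % 2 = 0 := by omega
    obtain ⟨q, hq⟩ : ∃ q, s' = 2 * q := ⟨s' / 2, by omega⟩
    have h1 : ((n ^ 2 + n + 1 : ℕ) : ℤ) % 2 = 0 := by
      rw [← hst, hq, hr, show (2 * q) ^ 2 + (r + r) ^ 2 = 2 * (2 * q ^ 2 + 2 * r ^ 2) by ring]
      exact Int.mul_emod_right _ _
    omega
  -- the common argument
  have key : ∀ p : ℕ, p.Prime → p ≠ 2 → p ∣ n →
      (∀ w : ℕ, w.Prime → w ∣ n ^ 2 + n + 1 → w ∣ p ^ ((w - 1) / 4) - 1) →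
      ∃ (F : Type) (_ : Field F) (_ : CharP F p) (i : F), i ^ 2 = -1 ∧
        ∀ δ : ℤ, (δ = 1 ∨ δ = -1) → ((s' : F) + δ * t' * i) ^ (2 * hN p) =
          (((if p % 4 = 3 ∧ (n ^ 2 + n + 1) % 8 = 5 then -1 else 1 : ℤ)) : F) := by
    intro p hp hp2 hpn hwp
    have : Fact p.Prime := ⟨hp⟩
    have hpv : ¬ p ∣ n ^ 2 + n + 1 := by
      intro h
      have h1 : p ∣ n ^ 2 + n := (Dvd.dvd.pow hpn two_ne_zero).add hpn
      exact hp.one_lt.ne' (Nat.dvd_one.mp ((Nat.dvd_add_right h1).mp h))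
    let F := AlgebraicClosure (ZMod p)
    have hF : CharP F p := charP_of_injective_algebraMap (algebraMap (ZMod p) F).injective p
    obtain ⟨i, hi⟩ := IsAlgClosed.exists_pow_nat_eq (-1 : F) (n := 2) two_pos
    refine ⟨F, inferInstance, hF, i, hi, ?_⟩
    have h1 := hrel p hp hp2 hpv hwp F i hi
    have hn0 : (n : F) = 0 := (CharP.cast_eq_zero_iff F p n).mpr hpn
    have hv1 : ((n ^ 2 + n + 1 : ℕ) : F) = 1 := by
      push_cast
      rw [hn0]
      ring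
    rw [hv1, one_pow, mul_one, mul_one] at h1
    have hodd : p % 2 = 1 := Nat.odd_iff.mp (hp.odd_of_ne_two hp2)
    have h2 : ((s' : F) + t' * i) ^ (2 * hN p) =
        (((if p % 4 = 3 ∧ (n ^ 2 + n + 1) % 8 = 5 then -1 else 1 : ℤ)) : F) := by
      rw [h1]
      by_cases h4 : p % 4 = 1
      · rw [if_pos h4, if_neg (by omega), Int.cast_one]
      · rw [if_neg h4]
        by_cases h8 : (n ^ 2 + n + 1) % 8 = 5
        · rw [if_pos ⟨by omega, h8⟩, Odd.neg_one_pow (by rw [Nat.odd_iff]; omega)]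
          push_cast
          rfl
        · rw [if_neg (fun h => h8 h.2), Even.neg_one_pow (by rw [Nat.even_iff]; omega), Int.cast_one]
    have hc2 : ((((if p % 4 = 3 ∧ (n ^ 2 + n + 1) % 8 = 5 then -1 else 1 : ℤ)) : F)) *
        (((if p % 4 = 3 ∧ (n ^ 2 + n + 1) % 8 = 5 then -1 else 1 : ℤ)) : F) = 1 := by
      rw [← Int.cast_mul]
      split_ifs <;> simp
    have hnorm : ((s' : F) + t' * i) * ((s' : F) + ((-1 : ℤ) : F) * t' * i) = 1 := by
      have h3 : ((s' ^ 2 + t' ^ 2 : ℤ) : F) = 1 := by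
        rw [hst']
        push_cast
        rw [hn0]
        ring
      push_cast at h3 ⊢
      linear_combination h3 - (t' : F) ^ 2 * hi
    intro δ hδ
    rcases hδ with rfl | rfl
    · rw [Int.cast_one, one_mul]
      exact h2
    · have h3 : (((s' : F) + t' * i) * ((s' : F) + ((-1 : ℤ) : F) * t' * i)) ^ (2 * hN p) = 1 := by
        rw [hnorm, one_pow]
      rw [mul_pow, h2] at h3
      calc _ = ((((if p % 4 = 3 ∧ (n ^ 2 + n + 1) % 8 = 5 then -1 else 1 : ℤ)) : F) *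
        (((if p % 4 = 3 ∧ (n ^ 2 + n + 1) % 8 = 5 then -1 else 1 : ℤ)) : F)) *
          ((s' : F) + ((-1 : ℤ) : F) * t' * i) ^ (2 * hN p) := by rw [hc2, one_mul]
        _ = _ := by rw [mul_assoc, h3, mul_one]
  have hc1 : ∀ p : ℕ, (if p % 4 = 3 ∧ (n ^ 2 + n + 1) % 8 = 5 then -1 else 1 : ℤ) = 1 ∨
      (if p % 4 = 3 ∧ (n ^ 2 + n + 1) % 8 = 5 then -1 else 1 : ℤ) = -1 := by
    intro p
    split_ifs <;> simp
  have hdiv : ∀ p : ℕ, p ∣ n → (p : ℤ) ∣ (n : ℤ) ^ 2 + n := by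
    intro p hpn
    have h : (p : ℤ) ∣ n := by exact_mod_cast hpn
    exact (Dvd.dvd.pow h two_ne_zero).add h
  have hJ : ∀ (p : ℕ), p.Prime → ∀ a : ℤ, ¬ (p : ℤ) ∣ a → J(a | p) = 1 ∨ J(a | p) = -1 := by
    intro p hp a ha
    apply jacobiSym.eq_one_or_neg_one
    rw [Int.gcd_comm]
    exact Int.isCoprime_iff_gcd_eq_one.mp
      ((Nat.prime_iff_prime_int.mp hp).coprime_iff_not_dvd.mpr ha)
  by_cases hodd : n % 2 = 1
  · refine ⟨s', t', hst', by omega, fun p hp hp2 hpn hwp δ hδ hns => ?_⟩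
    rw [Phi_three] at hwp
    have : Fact p.Prime := ⟨hp⟩
    obtain ⟨F, _, _, i, hi, h⟩ := key p hp hp2 hpn hwp
    have h5 := Q5_main hp2 hi (s := δ * s') (t := t') (by
      rw [show (δ * s') ^ 2 + t' ^ 2 - 1 = (n : ℤ) ^ 2 + n by
        rcases hδ with rfl | rfl <;> linear_combination hst']
      exact hdiv p hpn) hns
    unfold sg
    rw [if_neg (by omega), one_mul]
    apply Q6_sign hp hp2 (F := F) (hJ p hp _ hns) (hc1 p)
    rw [← h5, ← h δ hδ, pow_mul, pow_mul]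
    congr 1
    rcases hδ with rfl | rfl <;> push_cast <;> ring
  · have hn2 : n % 2 = 0 := by omega
    have ht' : t' % 2 = 0 := by
      obtain ⟨r, hr⟩ := hev
      omega
    refine ⟨t', s', by rw [add_comm, hst'], by omega, fun p hp hp2 hpn hwp δ hδ hns => ?_⟩
    rw [Phi_three] at hwp
    have : Fact p.Prime := ⟨hp⟩
    obtain ⟨F, _, _, i, hi, h⟩ := key p hp hp2 hpn hwp
    have h5 := Q5_main hp2 hi (s := δ * t') (t := s') (by
      rw [show (δ * t') ^ 2 + s' ^ 2 - 1 = (n : ℤ) ^ 2 + n by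
        rcases hδ with rfl | rfl <;> linear_combination hst']
      exact hdiv p hpn) hns
    have hneg : (-δ = 1 ∨ -δ = -1) := by
      rcases hδ with rfl | rfl
      · exact Or.inr rfl
      · exact Or.inl (by ring)
    have hsg : sg n p = 1 ∨ sg n p = -1 := by
      unfold sg
      rw [if_pos hn2, Q6_two hp hp2]
      rcases neg_one_pow_eq_or ℤ (hN p) with h1 | h1 <;> rcases hc1 p with h2 | h2 <;>
        rw [h1, h2] <;> simp
    apply Q6_sign hp hp2 (F := F) (hJ p hp _ hns) hsg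
    have h6 : ((δ * t' : ℤ) : F) + (s' : F) * i = i * ((s' : F) + ((-δ : ℤ) : F) * t' * i) := by
      push_cast
      linear_combination (δ : F) * t' * hi
    rw [← h5, h6, mul_pow, h (-δ) hneg, pow_mul, hi]
    unfold sg
    rw [if_pos hn2, Q6_two hp hp2]
    push_cast
    rfl

end Pool.Agent.Lib.MP_79499b_co.PL
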