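import Pool.Agent.Lib.MP_79499b_co.PL.Defs

/-!
# R1: descent for the form `a^2 + 4ab + b^2`

Claim. `P, B, R > 0`, `P R + 3 = B^2`, each odd one of `P, R` is `≡ 1 mod 4`, and not both are even. Then there are `a, b, e, f ≥ 0` with
`a f = b e + 1`, `P = a^2 + 4ab + b^2`, `R = e^2 + 4ef + f^2`, `B = a e + 2(a f + b e) + b f`.

Proof. Strong induction on `P + R`. Let `P ≤ R` (the other case is symmetric: exchange `(a,b)` and `(e,f)`... the determinant: in the case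
`R < P` apply the induction to `(P', B', R) = (P - 2B + R, B - R, R)` and put `a = a' + e`, `b = b' + f`). `P^2 ≤ P R < B^2`, so `P < B`; put
`B' = B - P ≥ 1`, and `P (R - 2B + P) = B'^2 - 3`.
If `B' = 1`: `P ∣ 2`, i.e. `P = 1` (then `P R = B^2 - 3 = 4 - 3`, `R = 1`, `B = 2`: take `a = f = 1`, `b = e = 0`) or `P = 2` (then `B = 3`, `R = 3`, odd and
`≡ 3 mod 4`: excluded). If `B' ≥ 2`, then `R' = R - 2B + P > 0` and `P R' + 3 = B'^2`, `P + R' < P + R` (as `P < 2B`).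
The side conditions for `(P, B', R')`: suppose `P` is odd, so `P ≡ 1 mod 4`. If `R'` is odd then `P R' + 3 = B'^2` is even, so `≡ 0 mod 4`,
`P R' ≡ 1 mod 4`, `R' ≡ 1 mod 4`. Suppose `P` is even: then `R` is odd, `R ≡ 1 mod 4`; `P R + 3 = B^2` is odd, `B` odd, `P R = B^2 - 3 ≡ 2 mod 4`, so
`P ≡ 2 mod 4`, and `R' = R - 2B + P ≡ R - 2 + 2 = R ≡ 1 mod 4`. So not both of `P, R'` are even in either case.
Induction: `(a, b, e', f')` for `(P, B', R')`; put `e = e' + a`, `f = f' + b`: `a f - b e = a f' - b e' = 1`, `e^2 + 4ef + f^2 = R' + 2B' + P = R`,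
`a e + 2(a f + b e) + b f = B' + P = B` (`nlinarith`/`ring` in `ℤ`).
-/

set_option autoImplicit false

namespace Pool.Agent.Lib.MP_79499b_co.PL

open Finset Q38
open scoped Classical NumberTheorySymbols

/-- the side conditions modulo 4 -/
private lemma R1_mod (P B R : ℕ) (h : P * R + 3 = B ^ 2) (hP : P % 2 = 1 → P % 4 = 1)
    (hR : (P + 2 * B + R) % 2 = 1 → (P + 2 * B + R) % 4 = 1)
    (hor : P % 2 = 1 ∨ (P + 2 * B + R) % 2 = 1) :
    (R % 2 = 1 → R % 4 = 1) ∧ (P % 2 = 1 ∨ R % 2 = 1) := by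
  have h1 : ((P % 4) * (R % 4) + 3) % 4 = ((B % 4) * (B % 4)) % 4 := by
    have e1 : (P * R + 3) % 4 = (B * B) % 4 := by rw [h, pow_two]
    rw [Nat.add_mod, Nat.mul_mod] at e1
    rw [Nat.add_mod, e1, Nat.mul_mod]
  have hp : P % 4 = 0 ∨ P % 4 = 1 ∨ P % 4 = 2 ∨ P % 4 = 3 := by omega
  have hr : R % 4 = 0 ∨ R % 4 = 1 ∨ R % 4 = 2 ∨ R % 4 = 3 := by omega
  have hb : B % 4 = 0 ∨ B % 4 = 1 ∨ B % 4 = 2 ∨ B % 4 = 3 := by omega
  rcases hp with hp | hp | hp | hp <;> rcases hr with hr | hr | hr | hr <;>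
    rcases hb with hb | hb | hb | hb <;> rw [hp, hr, hb] at h1 <;> norm_num at h1 <;> omega

private lemma R1_key (N : ℕ) (ih : ∀ P B R : ℕ, P + R ≤ N → 0 < P → 0 < B → 0 < R →
    P * R + 3 = B ^ 2 → (P % 2 = 1 → P % 4 = 1) → (R % 2 = 1 → R % 4 = 1) →
    (P % 2 = 1 ∨ R % 2 = 1) → ∃ a b e f : ℕ, a * f = b * e + 1 ∧ P = a ^ 2 + 4 * a * b + b ^ 2 ∧
      R = e ^ 2 + 4 * e * f + f ^ 2 ∧ B = a * e + 2 * (a * f + b * e) + b * f)
    (P B R : ℕ) (hle : P ≤ R) (hN : P + R ≤ N + 1) (hP : 0 < P) (hB : 0 < B)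
    (h : P * R + 3 = B ^ 2) (hP4 : P % 2 = 1 → P % 4 = 1) (hR4 : R % 2 = 1 → R % 4 = 1)
    (hor : P % 2 = 1 ∨ R % 2 = 1) :
    ∃ a b e f : ℕ, a * f = b * e + 1 ∧ P = a ^ 2 + 4 * a * b + b ^ 2 ∧
      R = e ^ 2 + 4 * e * f + f ^ 2 ∧ B = a * e + 2 * (a * f + b * e) + b * f := by
  have hPB : P < B := by
    by_contra hc
    push Not at hc
    have h1 : B * B ≤ P * R := Nat.mul_le_mul hc (le_trans hc hle)
    rw [pow_two] at h
    omega
  obtain ⟨B', rfl⟩ : ∃ B', B = P + B' := ⟨B - P, by omega⟩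
  have hB' : 0 < B' := by omega
  have hexp : P * R + 3 = P * P + 2 * (P * B') + B' * B' := by
    rw [h]
    ring
  rcases Nat.lt_or_ge B' 2 with h2 | h2
  · have hB1 : B' = 1 := by omega
    subst hB1
    have h3 : P * (P + 2) = P * R + 2 := by
      have : P * (P + 2) = P * P + 2 * P := by ring
      omega
    have h4 : P ∣ 2 := (Nat.dvd_add_right (dvd_mul_right P R)).1 (h3 ▸ dvd_mul_right P (P + 2))
    have h5 : P ≤ 2 := Nat.le_of_dvd (by norm_num) h4
    have h6 : P = 1 ∨ P = 2 := by omega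
    rcases h6 with h6 | h6
    · subst h6
      have hR : R = 1 := by omega
      subst hR
      exact ⟨1, 0, 0, 1, by norm_num, by norm_num, by norm_num, by norm_num⟩
    · subst h6
      omega
  · have h3 : P + 2 * B' < R := by
      by_contra hc
      push Not at hc
      have h4 : P * R ≤ P * (P + 2 * B') := Nat.mul_le_mul_left P hc
      have h5 : P * (P + 2 * B') = P * P + 2 * (P * B') := by ring
      have h6 : 2 * 2 ≤ B' * B' := Nat.mul_le_mul h2 h2
      omega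
    obtain ⟨R', rfl⟩ : ∃ R', R = P + 2 * B' + R' := ⟨R - (P + 2 * B'), by omega⟩
    have hR' : 0 < R' := by omega
    have heq : P * R' + 3 = B' ^ 2 := by
      have h4 : P * (P + 2 * B' + R') = P * P + 2 * (P * B') + P * R' := by ring
      rw [pow_two]
      omega
    obtain ⟨m1, m2⟩ := R1_mod P B' R' heq hP4 hR4 hor
    obtain ⟨a, b, e, f, h1, h5, h6, h7⟩ := ih P B' R' (by omega) hP hB' hR' heq hP4 m1 m2
    refine ⟨a, b, e + a, f + b, ?_, h5, ?_, ?_⟩
    · rw [mul_add, h1]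
      ring
    · subst h5 h6 h7
      ring
    · subst h5 h6 h7
      ring

theorem R1_main : ∀ N P B R : ℕ, P + R ≤ N → 0 < P → 0 < B → 0 < R → P * R + 3 = B ^ 2 →
    (P % 2 = 1 → P % 4 = 1) → (R % 2 = 1 → R % 4 = 1) → (P % 2 = 1 ∨ R % 2 = 1) →
    ∃ a b e f : ℕ, a * f = b * e + 1 ∧ P = a ^ 2 + 4 * a * b + b ^ 2 ∧
      R = e ^ 2 + 4 * e * f + f ^ 2 ∧ B = a * e + 2 * (a * f + b * e) + b * f := by
  intro N
  induction N with
  | zero =>
    intro P B R h hP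
    omega
  | succ N ih =>
    intro P B R hN hP hB hR h hP4 hR4 hor
    rcases le_total P R with hle | hle
    · exact R1_key N ih P B R hle hN hP hB h hP4 hR4 hor
    · obtain ⟨a, b, e, f, h1, h2, h3, h4⟩ := R1_key N ih R B P hle (by omega) hR hB
        (by rw [mul_comm]; exact h) hR4 hP4 hor.symm
      refine ⟨f, e, b, a, ?_, ?_, ?_, ?_⟩
      · rw [mul_comm f a, h1, mul_comm b e]
      · rw [h3]
        ring
      · rw [h2]
        ring
      · rw [h4]
        ring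

end Pool.Agent.Lib.MP_79499b_co.PL
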