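import Pool.Agent.Lib.MP_79499b_co.PL.R1

/-!
# R2: representation by sorted matrices

Proof. `t ≠ 0`: otherwise `s^2 = n^2 + n + 1`, which lies strictly between `n^2` and `(n+1)^2` for `n ≥ 1`, and for `n = 0` `s = ±1` is odd. So
`s^2 ≤ n^2 + n < (n+1)^2`, `|s| ≤ n`, and `P = 2n+1+2s`, `R = 2n+1-2s` are `≥ 1`, `B = 2|t| ≥ 2`, `P R + 3 = 4 t^2 = B^2`, `P, R` odd, and
`P = 1 + 2(n+s) ≡ 1`, `R = 1 + 2 (n - s) ≡ 1 mod 4` because `n + s`, `n - s` are even. `R1_main` gives `a, b, e, f` with `a f - b e = 1`. Let the largest of the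
four numbers be (1) `a`: `σ = 1`, `δ = 1`; (2) `b`: exchange the columns, `(b, a, f, e)`: `b e = a f - 1`, `σ = -1`, `δ = 1`; (3) `e`: exchange the
rows, `(e, f, a, b)`: `e b = f a - 1`, `σ = -1`, and `gP e f = R = 2n + 1 - 2s`, `δ = -1`; (4) `f`: `(f, e, b, a)`: `f a = e b + 1`, `σ = 1`, `δ = -1`. The maximum is
`≥ 1` since `a f = b e + 1`. `a^2 ≤ gP a b ≤ 4 n + 2 - 1`.
-/

set_option autoImplicit false

namespace Pool.Agent.Lib.MP_79499b_co.PL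

open Finset Q38
open scoped Classical NumberTheorySymbols

private lemma R2_sq_le (n a b e f : ℕ) (h : gP (a : ℤ) b + gP (e : ℤ) f = 4 * n + 2) :
    a ^ 2 ≤ 4 * n + 2 := by
  unfold gP at h
  have h1 : (a : ℤ) ^ 2 ≤ 4 * n + 2 := by
    have e1 : (0 : ℤ) ≤ 4 * a * b + b ^ 2 + (e ^ 2 + 4 * e * f + f ^ 2) := by positivity
    linarith
  exact_mod_cast h1

private lemma R2_four (n a b e f : ℕ) (P R s : ℤ) (h1 : a * f = b * e + 1)
    (hP : P = (a : ℤ) ^ 2 + 4 * a * b + b ^ 2) (hR : R = (e : ℤ) ^ 2 + 4 * e * f + f ^ 2)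
    (hPs : P = 2 * n + 1 + 2 * s) (hRs : R = 2 * n + 1 - 2 * s) :
    ∃ (a b e f : ℕ) (σ δ : ℤ), (σ = 1 ∨ σ = -1) ∧ (δ = 1 ∨ δ = -1) ∧ 1 ≤ a ∧ b ≤ a ∧ e ≤ a ∧
      (a : ℤ) * f = b * e + σ ∧ gP (a : ℤ) b + gP (e : ℤ) f = 4 * n + 2 ∧
      gP (a : ℤ) b = 2 * n + 1 + 2 * (δ * s) ∧ a ^ 2 ≤ 4 * n + 2 := by
  have ha : 1 ≤ a := by
    rcases Nat.eq_zero_or_pos a with h | h
    · subst h
      omega
    · exact h
  have hf : 1 ≤ f := by
    rcases Nat.eq_zero_or_pos f with h | h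
    · subst h
      omega
    · exact h
  have h1' : (a : ℤ) * f = b * e + 1 := by exact_mod_cast h1
  have hcase : (b ≤ a ∧ e ≤ a) ∨ (a ≤ b ∧ f ≤ b) ∨ (f ≤ e ∧ a ≤ e) ∨ (e ≤ f ∧ b ≤ f) := by omega
  rcases hcase with ⟨c1, c2⟩ | ⟨c1, c2⟩ | ⟨c1, c2⟩ | ⟨c1, c2⟩
  · have e1 : gP (a : ℤ) b + gP (e : ℤ) f = 4 * n + 2 := by
      unfold gP
      linarith
    refine ⟨a, b, e, f, 1, 1, Or.inl rfl, Or.inl rfl, ha, c1, c2, h1', e1, ?_, R2_sq_le n a b e f e1⟩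
    unfold gP
    linarith
  · have e1 : gP (b : ℤ) a + gP (f : ℤ) e = 4 * n + 2 := by
      unfold gP
      linarith
    refine ⟨b, a, f, e, -1, 1, Or.inr rfl, Or.inl rfl, le_trans ha c1, c1, c2, ?_, e1, ?_,
      R2_sq_le n b a f e e1⟩
    · linarith
    · unfold gP
      linarith
  · have e1 : gP (e : ℤ) f + gP (a : ℤ) b = 4 * n + 2 := by
      unfold gP
      linarith
    refine ⟨e, f, a, b, -1, -1, Or.inr rfl, Or.inr rfl, le_trans hf c1, c1, c2, ?_, e1, ?_,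
      R2_sq_le n e f a b e1⟩
    · linarith
    · unfold gP
      linarith
  · have e1 : gP (f : ℤ) e + gP (b : ℤ) a = 4 * n + 2 := by
      unfold gP
      linarith
    refine ⟨f, e, b, a, 1, -1, Or.inl rfl, Or.inr rfl, hf, c1, c2, ?_, e1, ?_,
      R2_sq_le n f e b a e1⟩
    · linarith
    · unfold gP
      linarith

theorem R2_main {n : ℕ} {s t : ℤ} (hst : s ^ 2 + t ^ 2 = (n : ℤ) ^ 2 + n + 1)
    (hs : (s - n) % 2 = 0) :
    ∃ (a b e f : ℕ) (σ δ : ℤ), (σ = 1 ∨ σ = -1) ∧ (δ = 1 ∨ δ = -1) ∧ 1 ≤ a ∧ b ≤ a ∧ e ≤ a ∧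
      (a : ℤ) * f = b * e + σ ∧ gP (a : ℤ) b + gP (e : ℤ) f = 4 * n + 2 ∧
      gP (a : ℤ) b = 2 * n + 1 + 2 * (δ * s) ∧ a ^ 2 ≤ 4 * n + 2 := by
  have hn0 : (0 : ℤ) ≤ n := Int.natCast_nonneg n
  have ht : t ≠ 0 := by
    intro h0
    subst h0
    have h1 : s ^ 2 = (n : ℤ) ^ 2 + n + 1 := by linarith
    rcases Nat.eq_zero_or_pos n with hn | hn
    · subst hn
      have h2 : s ^ 2 = 1 := by
        rw [h1]
        norm_num
      have h3 : s = 1 ∨ s = -1 := mul_self_eq_one_iff.1 (by rw [← pow_two]; exact h2)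
      push_cast at hs
      rcases h3 with h3 | h3 <;> subst h3 <;> norm_num at hs
    · have hn1 : (1 : ℤ) ≤ n := by exact_mod_cast hn
      have h2 : |s| < n + 1 := by
        apply abs_lt_of_sq_lt_sq _ (by linarith)
        nlinarith
      have h3 : (n : ℤ) < |s| := by
        by_contra hc
        push Not at hc
        have := sq_le_sq' (by linarith [abs_nonneg s] : -(n : ℤ) ≤ |s|) hc
        rw [sq_abs] at this
        linarith
      omega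
  have ht1 : 1 ≤ t ^ 2 := by
    have : 0 < t ^ 2 := by positivity
    linarith
  have hsn : |s| ≤ n := by
    have h2 : |s| < n + 1 := by
      apply abs_lt_of_sq_lt_sq _ (by linarith)
      nlinarith
    linarith
  obtain ⟨hs1, hs2⟩ := abs_le.1 hsn
  obtain ⟨P, hP⟩ : ∃ P : ℕ, (P : ℤ) = 2 * n + 1 + 2 * s := ⟨(2 * n + 1 + 2 * s).toNat, by
    rw [Int.toNat_of_nonneg (by linarith)]⟩
  obtain ⟨R, hR⟩ : ∃ R : ℕ, (R : ℤ) = 2 * n + 1 - 2 * s := ⟨(2 * n + 1 - 2 * s).toNat, by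
    rw [Int.toNat_of_nonneg (by linarith)]⟩
  obtain ⟨T, hT⟩ : ∃ T : ℕ, (T : ℤ) = |t| := ⟨t.natAbs, by simp⟩
  have hTpos : 0 < T := by
    have : 0 < |t| := abs_pos.2 ht
    omega
  have hPR : P * R + 3 = (2 * T) ^ 2 := by
    zify
    rw [hP, hR, hT]
    have e1 : (2 * |t|) ^ 2 = 4 * t ^ 2 := by
      rw [mul_pow, sq_abs]
      norm_num
    rw [e1]
    linarith [hst]
  obtain ⟨a, b, e, f, h1, h2, h3, -⟩ := R1_main (P + R) P (2 * T) R le_rfl (by omega) (by omega)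
    (by omega) hPR (by omega) (by omega) (by omega)
  exact R2_four n a b e f P R s h1 (by rw [h2]; push_cast; ring) (by rw [h3]; push_cast; ring) hP hR

end Pool.Agent.Lib.MP_79499b_co.PL
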