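import Pool.Agent.Lib.MP_79499b_co.PL.Defs

/-!
# S1: Brun sieve in a residue class, moduli `u^2`

Proof. As `brun_cls` (QZ/QV1.lean) with `q u = u^2` instead of `u` and `sieve_spec` (Q38Lower): the `n` with `M ∣ n`, `n % w = c` lie in one class `ρ` modulo `V = M w` (or there is none; `c < w` may be assumed, otherwise the set is empty;
Chinese remainder, `M`, `w` coprime). Write `n = ρ + V t`, `t < x/V + 1`, and use `Q38.brun` with `M = 1`, `q u = u^2`, `P u t ↔ Rem l E F u (ρ + V t)`; `V` is a unit modulo `u^2` for `u ∈ UU Y S` (`u ∤ M`, `u ∤ w`), so the number of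
classes `t mod u^2` is the number of classes `n mod u^2`, and `G = GG l E F Y S`. `D = Y^3` as in `sieve_spec`.
-/

set_option autoImplicit false

namespace Pool.Agent.Lib.MP_79499b_co.PL

open Finset Q38
open scoped Classical NumberTheorySymbols

private theorem s1_perm {V q ρ : ℕ} (hq : 0 < q) (hcop : V.Coprime q) (E : ℕ → Prop)
    (hE : ∀ n : ℕ, E (n % q) ↔ E n) :
    ((range q).filter (fun t => E (ρ + V * t))).card = ((range q).filter E).card := by
  have hinj : Set.InjOn (fun t : ℕ => (ρ + V * t) % q) (range q : Finset ℕ) := by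
    intro a ha b hb hab
    rw [coe_range, Set.mem_Iio] at ha hb
    have h1 : (ρ + V * a) ≡ (ρ + V * b) [MOD q] := hab
    have h2 : V * a ≡ V * b [MOD q] := Nat.ModEq.add_left_cancel' ρ h1
    have h3 : a ≡ b [MOD q] := Nat.ModEq.cancel_left_of_coprime (by rwa [Nat.gcd_comm]) h2
    exact Nat.ModEq.eq_of_lt_of_lt h3 ha hb
  have himg : (range q).image (fun t : ℕ => (ρ + V * t) % q) = range q := by
    refine Finset.eq_of_subset_of_card_le ?_ ?_
    · intro y hy
      rw [mem_image] at hy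
      obtain ⟨t, _, rfl⟩ := hy
      rw [mem_range]
      exact Nat.mod_lt _ hq
    · rw [card_image_of_injOn hinj]
  have h1 : (range q).filter E =
      ((range q).filter (fun t => E (ρ + V * t))).image (fun t : ℕ => (ρ + V * t) % q) := by
    nth_rewrite 1 [← himg]
    rw [filter_image]
    congr 1
    refine filter_congr fun t _ => ?_
    exact hE _
  rw [h1, card_image_of_injOn]
  exact hinj.mono (by
    rw [coe_subset]
    exact filter_subset _ _)

/-- the sieve in a class modulo `V` -/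
private theorem s1_cls {l V Y r : ℕ} (hY : 1 ≤ Y)
    (E F : ℕ → Prop) {S : Finset ℕ} (hVS : ∀ u, u.Prime → u ∉ S → ¬ u ∣ V) (hr : Even r) (x ρ : ℕ) :
    (((range x).filter (fun n => n % V = ρ ∧ ∀ u ∈ UU Y S, ¬ Rem l E F u n)).card : ℝ) ≤
      ((x : ℝ) / (V : ℝ) + 1) *
        (Real.exp (-(GG l E F Y S)) + Real.exp (8 * GG l E F Y S) / 8 ^ (r + 1)) +
        3 * ((Y : ℝ) ^ 3) ^ r := by
  have hprime : ∀ u ∈ UU Y S, u.Prime := fun u hu => (Finset.mem_filter.mp hu).2.1
  have hY1 : (1 : ℝ) ≤ Y := by exact_mod_cast hY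
  have hq0 : ∀ u ∈ UU Y S, 0 < u ^ 2 := fun u hu => by
    have := (hprime u hu).pos
    positivity
  have hcop : ∀ u ∈ UU Y S, V.Coprime (u ^ 2) := by
    intro u hu
    rw [Nat.coprime_comm]
    apply Nat.Coprime.pow_left
    exact (Nat.Prime.coprime_iff_not_dvd (hprime u hu)).mpr
      (hVS u (hprime u hu) (Finset.mem_filter.mp hu).2.2)
  have hc1 : ∀ u ∈ UU Y S, ((range (u ^ 2)).filter (fun t => Rem l E F u (ρ + V * t))).card =
      ((range (u ^ 2)).filter (Rem l E F u)).card := fun u hu =>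
    s1_perm (hq0 u hu) (hcop u hu) (Rem l E F u) (Rem_periodic l E F u)
  have hb := Q38.brun (M := 1) one_pos (P := fun u t => Rem l E F u (ρ + V * t))
    (q := fun u => u ^ 2) (UU Y S) hq0 (fun u _ => by simp)
    (fun u hu v hv huv => Nat.Coprime.pow 2 2
      ((Nat.coprime_primes (hprime u hu) (hprime v hv)).mpr huv))
    (fun u hu n => by
      have h1 : (ρ + V * (n % u ^ 2)) % u ^ 2 = (ρ + V * n) % u ^ 2 :=
        (Nat.ModEq.refl ρ).add ((Nat.ModEq.refl V).mul (Nat.mod_modEq n (u ^ 2)))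
      show Rem l E F u (ρ + V * (n % u ^ 2)) ↔ Rem l E F u (ρ + V * n)
      rw [← Rem_periodic l E F u (ρ + V * (n % u ^ 2)), h1, Rem_periodic]) hr (x / V + 1)
    (G := GG l E F Y S) (D := (Y : ℝ) ^ 3)
    (by
      unfold GG
      refine sum_congr rfl fun u hu => ?_
      rw [hc1 u hu]) (one_le_pow₀ hY1)
    (by
      calc ∑ u ∈ UU Y S, (((range (u ^ 2)).filter (fun t => Rem l E F u (ρ + V * t))).card : ℝ) ≤
          ∑ u ∈ UU Y S, (Y : ℝ) ^ 2 := by
            refine Finset.sum_le_sum fun u hu => ?_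
            have h1 : ((range (u ^ 2)).filter (fun t => Rem l E F u (ρ + V * t))).card ≤ u ^ 2 := by
              refine (Finset.card_filter_le _ _).trans ?_
              rw [Finset.card_range]
            have h2 : u ≤ Y := (Finset.mem_range.mp (Finset.mem_filter.mp hu).1).le
            have h3 : u ^ 2 ≤ Y ^ 2 := Nat.pow_le_pow_left h2 2
            exact_mod_cast h1.trans h3
        _ = (UU Y S).card * (Y : ℝ) ^ 2 := by rw [Finset.sum_const, nsmul_eq_mul]
        _ ≤ Y * (Y : ℝ) ^ 2 := by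
            apply mul_le_mul_of_nonneg_right _ (by positivity)
            have : (UU Y S).card ≤ Y := by
              refine (Finset.card_filter_le _ _).trans ?_
              rw [Finset.card_range]
            exact_mod_cast this
        _ = (Y : ℝ) ^ 3 := by ring)
  rw [Nat.cast_one, div_one] at hb
  have h1 : ((range x).filter (fun n => n % V = ρ ∧ ∀ u ∈ UU Y S, ¬ Rem l E F u n)).card ≤
      ((range (x / V + 1)).filter (fun t => 1 ∣ t ∧ ∀ u ∈ UU Y S,
        ¬ Rem l E F u (ρ + V * t))).card := by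
    refine card_le_card_of_injOn (fun n => n / V) ?_ ?_
    · intro n hn
      have hn' := mem_filter.1 (mem_coe.1 hn)
      rw [mem_coe, mem_filter, mem_range]
      refine ⟨Nat.lt_succ_of_le (Nat.div_le_div_right (mem_range.1 hn'.1).le), one_dvd _, ?_⟩
      intro u hu
      have h2 : ρ + V * (n / V) = n := by
        rw [← hn'.2.1]
        exact Nat.mod_add_div n V
      show ¬ Rem l E F u (ρ + V * (n / V))
      rw [h2]
      exact hn'.2.2 u hu
    · intro a ha b hb hab
      have ha' := mem_filter.1 (mem_coe.1 ha)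
      have hb' := mem_filter.1 (mem_coe.1 hb)
      have hab' : a / V = b / V := hab
      rw [← Nat.mod_add_div a V, ← Nat.mod_add_div b V, ha'.2.1, hb'.2.1, hab']
  refine (Nat.cast_le.mpr h1).trans (hb.trans ?_)
  refine add_le_add_left (mul_le_mul_of_nonneg_right ?_ (by positivity)) _
  push_cast
  have := @Nat.cast_div_le ℝ _ _ _ x V
  linarith

theorem S1_main {l M w c Y r : ℕ} (hM : 0 < M) (hw : 0 < w) (hMw : Nat.Coprime M w) (hY : 1 ≤ Y)
    (E F : ℕ → Prop) {S : Finset ℕ} (hMS : ∀ u, u.Prime → u ∉ S → ¬ u ∣ M)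
    (hwS : ∀ u, u.Prime → u ∉ S → ¬ u ∣ w) (hr : Even r) (x : ℕ) :
    (((range x).filter (fun n => M ∣ n ∧ n % w = c ∧ ∀ u ∈ UU Y S, ¬ Rem l E F u n)).card : ℝ) ≤
      ((x : ℝ) / ((M : ℝ) * w) + 1) *
        (Real.exp (-(GG l E F Y S)) + Real.exp (8 * GG l E F Y S) / 8 ^ (r + 1)) +
        3 * ((Y : ℝ) ^ 3) ^ r := by
  have hrhs : 0 ≤ ((x : ℝ) / ((M : ℝ) * w) + 1) *
        (Real.exp (-(GG l E F Y S)) + Real.exp (8 * GG l E F Y S) / 8 ^ (r + 1)) +
        3 * ((Y : ℝ) ^ 3) ^ r := by positivity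
  rcases ((range x).filter (fun n => M ∣ n ∧ n % w = c ∧ ∀ u ∈ UU Y S,
    ¬ Rem l E F u n)).eq_empty_or_nonempty with he | ⟨n₀, hn₀⟩
  · rw [he, card_empty, Nat.cast_zero]
    exact hrhs
  · have h0 := (mem_filter.1 hn₀).2
    have hVS : ∀ u, u.Prime → u ∉ S → ¬ u ∣ M * w := by
      intro u hu hn h
      rcases (Nat.Prime.dvd_mul hu).1 h with h | h
      · exact hMS u hu hn h
      · exact hwS u hu hn h
    have hb := s1_cls (l := l) hY E F hVS hr x (n₀ % (M * w))
    push_cast at hb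
    refine le_trans (Nat.cast_le.mpr (card_le_card ?_)) hb
    intro n hn
    rw [mem_filter] at hn ⊢
    refine ⟨hn.1, ?_, hn.2.2.2⟩
    have h1 : n ≡ n₀ [MOD M] :=
      ((Nat.modEq_zero_iff_dvd).2 hn.2.1).trans ((Nat.modEq_zero_iff_dvd).2 h0.1).symm
    have h2 : n ≡ n₀ [MOD w] := by
      show n % w = n₀ % w
      rw [hn.2.2.1, h0.2.1]
    exact (Nat.modEq_and_modEq_iff_modEq_mul hMw).1 ⟨h1, h2⟩

end Pool.Agent.Lib.MP_79499b_co.PL
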