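import Pool.Agent.Lib.MP_79499b_co.PL.Defs

/-!
# T5: the nonresidues modulo `w`

Proof. For a prime `u ≠ w`: `1_{J(u|w) = -1} = (1 - J(u|w))/2`, for `u = w` it is `0 = (1 - J)/2 - 1/2`. So `esum E Y = (1/2) ∑_{u<Y} 1/u - (1/2) SS Y w - (1/2)(1/w) 1_{w<Y} ≥ (1/2)(log log Y - C) - (1/2) SS Y w - 1/2` (`mertens_all`).
-/

set_option autoImplicit false

namespace Pool.Agent.Lib.MP_79499b_co.PL

open Finset Q38
open scoped Classical NumberTheorySymbols

lemma esum_eq (E : ℕ → Prop) (Y : ℕ) :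
    esum E Y = ∑ u ∈ (range Y).filter Nat.Prime, if E u then ((u : ℝ))⁻¹ else 0 := by
  unfold esum
  rw [← Finset.sum_filter, Finset.filter_filter]

theorem T5_main : ∃ C : ℝ, ∀ Y w : ℕ, 3 ≤ Y → w.Prime → w ≠ 2 →
    1 / 2 * Real.log (Real.log Y) - 1 / 2 * SS Y w - C ≤
      esum (fun u => J((u : ℤ) | w) = -1) Y := by
  obtain ⟨C, hC0, hC⟩ := mertens_two
  refine ⟨1 / 2 * C + 1 / 2, fun Y w hY hw _ => ?_⟩
  have h1 := abs_le.mp (hC Y hY)
  have h2 : 1 / 2 * fsum (fun _ => 1) Y - 1 / 2 * SS Y w ≤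
      esum (fun u => J((u : ℤ) | w) = -1) Y + 1 / 2 := by
    unfold fsum SS
    rw [Finset.mul_sum, Finset.mul_sum, ← Finset.sum_sub_distrib]
    have h4 : ∀ u ∈ (range Y).filter Nat.Prime,
        1 / 2 * (1 / (u : ℝ)) - 1 / 2 * (((J((u : ℤ) | w) : ℤ) : ℝ) / u) ≤
          (if J((u : ℤ) | w) = -1 then ((u : ℝ))⁻¹ else 0) + (if u = w then 1 / 2 else 0) := by
      intro u hu
      have hup := (Finset.mem_filter.mp hu).2
      have hu0 : (0 : ℝ) < u := by exact_mod_cast hup.pos
      have hi0 : (0 : ℝ) < ((u : ℝ))⁻¹ := by positivity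
      have hu1 : ((u : ℝ))⁻¹ ≤ 1 := inv_le_one_of_one_le₀ (by exact_mod_cast hup.one_lt.le)
      rw [one_div (u : ℝ), div_eq_mul_inv (((J((u : ℤ) | w) : ℤ) : ℝ)) (u : ℝ)]
      by_cases huw : u = w
      · rw [if_pos huw]
        have h5 : J((u : ℤ) | w) = 0 := by
          rw [huw, jacobiSym.mod_left]
          simp [jacobiSym.zero_left hw.one_lt]
        rw [h5]
        norm_num
        linarith
      · have h4 : J((u : ℤ) | w) ≠ 0 := by
          apply jacobiSym.ne_zero
          rw [Int.gcd_natCast_natCast]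
          exact (Nat.coprime_primes hup hw).mpr huw
        rw [if_neg huw, add_zero]
        rcases jacobiSym.trichotomy (u : ℤ) w with h | h | h
        · exact absurd h h4
        · rw [h]
          norm_num
        · rw [h, if_pos rfl]
          push_cast
          linarith
    refine (Finset.sum_le_sum h4).trans ?_
    rw [Finset.sum_add_distrib]
    have h5 : ∑ u ∈ (range Y).filter Nat.Prime, (if u = w then (1 / 2 : ℝ) else 0) ≤ 1 / 2 := by
      rw [Finset.sum_ite_eq']
      split_ifs <;> norm_num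
    have h6 : (∑ x ∈ (range Y).filter Nat.Prime,
        (if J((x : ℤ) | w) = -1 then ((x : ℝ))⁻¹ else 0)) =
        esum (fun u => J((u : ℤ) | w) = -1) Y := by
      rw [esum_eq]
      refine Finset.sum_congr rfl (fun u _ => ?_)
      by_cases h : J((u : ℤ) | w) = -1
      · rw [if_pos h, if_pos h]
      · rw [if_neg h, if_neg h]
    rw [h6]
    linarith
  linarith [h1.1]

end Pool.Agent.Lib.MP_79499b_co.PL
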