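import Pool.Agent.Lib.MP_79499b_co.PL.S1
import Pool.Agent.Lib.MP_79499b_co.PL.T5

/-!
# S2: the sieve for a small prime `w ∣ n^2 + n + 1` and `k` primes of `n`

Proof. As `master` (Q38Master; `PC.master'`), `l = 3`, `Y = YY 3 x`, `M = ∏ S`, with `S1_main` for `S' = insert w S` (`w ∤ M`, as `w ∉ S`), `R = S`, `E u ↔ J(u|w) = -1`, `F = NR 3 S`, `r = rr 3 x`. `GG_lower` (`hR : S ⊆ S'`, `η = (δ/24) LL`):
`G ≥ esum E Y + 2 (1 - 1/2^|S|) msum 3 1 Y - (3 η + 9 (k+1) + 1)`; `T5_main`: `esum ≥ (1/2) log log Y - (δ/2) LL - C`; `mertens_one_mod` (`l = 3`, `φ = 2`): `msum 3 1 Y ≥ (1/2) log log Y - C`; `log log Y ≥ (1 - δ/8) LL` (`YY_facts`). So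
`G ≥ (3/2 - 1/2^|S|) LL - (δ/8)(3/2) LL - (δ/2) LL - (δ/8) LL - C' ≥ (3/2 - 1/2^|S| - 2δ) LL` for large `x`; `G ≤ 4 (LL + C)` (`GG_upper`). The rest as in `master`: `e^(8G)/8^(r+1) ≤ e^(-G)`; `M w ≤ Y^k Y ≤ exp(L/2)` (`YY_facts` with `k + 1`), so
`x/(M w) ≥ exp(L/2) ≥ 1` and `(x/(Mw) + 1) ≤ 2 x/(Mw)`, `3 (Y^3)^r ≤ 3 exp(L/8) ≤ (x/(Mw)) exp(-2 LL)`. The constants (4 + 3) are absorbed by `δ LL`.
-/

set_option autoImplicit false

namespace Pool.Agent.Lib.MP_79499b_co.PL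

open Finset Q38
open scoped Classical NumberTheorySymbols

theorem S2_main (k : ℕ) {δ : ℝ} (hδ : 0 < δ) : ∃ x₀ : ℕ, ∀ x : ℕ, x₀ ≤ x → ∀ S : Finset ℕ,
    S.card ≤ k → (∀ p ∈ S, p.Prime ∧ p < YY 3 x) →
    (∀ V ⊆ S, V.Nonempty → T 3 (YY 3 x) (∏ p ∈ V, p) ≤ (δ / 24) * LL x) →
    ∀ w : ℕ, w.Prime → w ≠ 2 → w < YY 3 x → w ∉ S → SS (YY 3 x) w ≤ δ * LL x → ∀ c : ℕ,
    (((range x).filter (fun n => (∏ p ∈ S, p) ∣ n ∧ n % w = c ∧ ∀ u ∈ UU (YY 3 x) (insert w S),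
      ¬ Rem 3 (fun u => J((u : ℤ) | w) = -1) (NR 3 S) u n)).card : ℝ) ≤
      (x / (((∏ p ∈ S, p : ℕ) : ℝ) * w)) *
        Real.exp (-((3 / 2 - 1 / 2 ^ S.card - 3 * δ) * LL x)) := by
  obtain ⟨C1, hC1⟩ := T5_main
  obtain ⟨C2, hC2⟩ := mertens_one_mod (show 2 ≤ 3 by norm_num)
  obtain ⟨C3, hC30, hC3⟩ := msum_one_le
  have hφ : ((Nat.totient 3 : ℕ) : ℝ) = 2 := by
    rw [Nat.totient_prime (by norm_num)]; norm_num
  have hlog8 : 0 ≤ Real.log 8 := Real.log_nonneg (by norm_num)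
  set K : ℝ := |C1| + 2 * |C2| + 9 * (k + 1) + 1 + Real.log 8 with hK
  have ev1 := YY_facts 3 (k + 1) (show 0 < δ / 8 by positivity)
  have ev2 : ∀ᶠ x : ℕ in Filter.atTop,
      Real.log (1 * Real.log x + 0) + Real.log 6 / 3 ≤ (1 / 24) * Real.log x :=
    tendsto_log_nat.eventually (eventually_log_le 1 0 _ (1 / 24) one_pos (by norm_num))
  obtain ⟨x₀, hx₀⟩ := Filter.eventually_atTop.mp (ev1.and (ev2.and
    ((tendsto_LL.eventually_ge_atTop (8 * K / δ)).and ((tendsto_LL.eventually_ge_atTop (C3 + 1)).and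
      (Filter.eventually_ge_atTop 3)))))
  refine ⟨x₀, fun x hx S hSk hS hT w hw hw2 hwY hwS hSS c => ?_⟩
  obtain ⟨⟨hY3, hYlow, hYup, hYx, hYk, hYr⟩, h2, h3, h4, hx3⟩ := hx₀ x hx
  set Y := YY 3 x with hY
  set L := LL x with hL
  set t := Real.log x with ht
  have ht1 : 1 < t := one_lt_log hx3
  have hLt : Real.log t = L := rfl
  have hL1 : 1 ≤ L := by linarith
  set j := S.card with hj
  set η : ℝ := (δ / 24) * L with hη
  have hη0 : 0 ≤ η := by positivity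
  set G := GG 3 (fun u => J((u : ℤ) | w) = -1) (NR 3 S) Y (insert w S) with hG
  have hS'p : ∀ p ∈ insert w S, p.Prime := by
    intro p hp
    rcases mem_insert.mp hp with rfl | hp
    · exact hw
    · exact (hS p hp).1
  have hS'k : ((insert w S).card : ℝ) ≤ k + 1 := by
    rw [card_insert_of_notMem hwS]
    push_cast
    have : (j : ℝ) ≤ k := by exact_mod_cast hSk
    linarith
  -- lower bound for G
  have hq0 : (0 : ℝ) ≤ 1 - 1 / 2 ^ j := by
    rw [sub_nonneg, div_le_one (by positivity)]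
    exact one_le_pow₀ (by norm_num)
  have hq1 : (1 : ℝ) - 1 / 2 ^ j ≤ 1 := by
    have : (0 : ℝ) ≤ 1 / 2 ^ j := by positivity
    linarith
  have hlow : (1 / 2 + (1 - 1 / 2 ^ j)) * Real.log (Real.log Y) - 1 / 2 * (δ * L) -
      (|C1| + 2 * |C2| + 3 * η + 9 * (k + 1) + 1) ≤ G := by
    have h5 := GG_lower (Y := Y) (l := 3) (by norm_num) (le_refl 3)
      (fun u => J((u : ℤ) | w) = -1) (subset_insert w S) hS'p hη0 hT
    have h6 := hC1 Y w hY3 hw hw2
    have h7 := hC2 Y hY3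
    rw [hφ] at h7
    have h8 : (1 - 1 / 2 ^ j) * (2 * (2⁻¹ * Real.log (Real.log Y) - C2)) ≤
        (1 - 1 / 2 ^ j) * (2 * msum 3 1 Y) :=
      mul_le_mul_of_nonneg_left (by linarith) hq0
    have h10 : (1 - 1 / 2 ^ j) * (2 * C2) ≤ 2 * |C2| := by
      calc (1 - 1 / 2 ^ j) * (2 * C2) ≤ (1 - 1 / 2 ^ j) * (2 * |C2|) :=
            mul_le_mul_of_nonneg_left (by linarith [le_abs_self C2]) hq0
        _ ≤ 1 * (2 * |C2|) :=
            mul_le_mul_of_nonneg_right hq1 (by positivity)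
        _ = 2 * |C2| := by ring
    have h11 := le_abs_self C1
    have h9 : (1 - 1 / 2 ^ j) * (2 * (2⁻¹ * Real.log (Real.log Y) - C2)) =
      (1 - 1 / 2 ^ j) * Real.log (Real.log Y) - (1 - 1 / 2 ^ j) * (2 * C2) := by ring
    rw [h9] at h8
    have h12 : (1 / 2 + (1 - 1 / 2 ^ j)) * Real.log (Real.log Y) =
      1 / 2 * Real.log (Real.log Y) + (1 - 1 / 2 ^ j) * Real.log (Real.log Y) := by ring
    have h13 : (((3 : ℕ) : ℝ) - 1) * (1 - 1 / 2 ^ j) * msum 3 1 Y =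
      (1 - 1 / 2 ^ j) * (2 * msum 3 1 Y) := by push_cast; ring
    rw [h13] at h5
    rw [h12]
    push_cast at h5
    linarith
  have hc0 : 0 ≤ 1 / 2 + (1 - 1 / (2 : ℝ) ^ j) := by linarith
  have hc2 : 1 / 2 + (1 - 1 / (2 : ℝ) ^ j) ≤ 3 / 2 := by linarith
  have hδL : 0 ≤ δ * L := by positivity
  have hlow2 : (1 / 2 + (1 - 1 / 2 ^ j)) * L - 3 / 2 * (δ * L) - (K - Real.log 8) ≤ G := by
    have h5 : (1 / 2 + (1 - 1 / 2 ^ j)) * ((1 - δ / 8) * L) ≤
        (1 / 2 + (1 - 1 / 2 ^ j)) * Real.log (Real.log Y) := mul_le_mul_of_nonneg_left hYlow hc0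
    have h6 : (1 / 2 + (1 - 1 / 2 ^ j)) * ((1 - δ / 8) * L) = (1 / 2 + (1 - 1 / 2 ^ j)) * L -
        (1 / 2 + (1 - 1 / 2 ^ j)) * (δ / 8 * L) := by ring
    have h7 : (1 / 2 + (1 - 1 / (2 : ℝ) ^ j)) * (δ / 8 * L) ≤ 3 / 2 * (δ / 8 * L) :=
      mul_le_mul_of_nonneg_right hc2 (by positivity)
    have h8 : (3 : ℝ) * η = 1 / 8 * (δ * L) := by rw [hη]; ring
    rw [h8] at hlow
    have h9 : 3 / 2 * (δ / 8 * L) = 3 / 16 * (δ * L) := by ring
    rw [hK]
    linarith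
  have hKL : K ≤ 1 / 8 * (δ * L) := by
    rw [div_le_iff₀ hδ] at h3
    linarith
  have hlow3 : (3 / 2 - 1 / 2 ^ j - 3 * δ) * L + Real.log 8 ≤ G := by
    have : (3 / 2 - 1 / (2 : ℝ) ^ j - 3 * δ) * L =
      (1 / 2 + (1 - 1 / 2 ^ j)) * L - 3 * (δ * L) := by ring
    linarith
  -- upper bound for G
  have hup : G ≤ 8 * L := by
    have h5 := GG_upper (Y := Y) (show 1 ≤ 3 by norm_num) (fun u => J((u : ℤ) | w) = -1)
      (NR 3 S) (insert w S)
    have h6 := hC3 Y hY3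
    have h7 : (((3 : ℕ) : ℝ) + 1) * msum 1 0 Y ≤ (((3 : ℕ) : ℝ) + 1) * (2 * L) := by
      apply mul_le_mul_of_nonneg_left _ (by positivity)
      linarith
    have h8 : (((3 : ℕ) : ℝ) + 1) * (2 * L) = 8 * L := by push_cast; ring
    linarith
  -- the modulus
  set M := ∏ p ∈ S, p with hM
  have hMpos : 0 < M := prod_pos fun p hp => (hS p hp).1.pos
  have hM0 : (0 : ℝ) < M := by exact_mod_cast hMpos
  have hw0 : (0 : ℝ) < w := by exact_mod_cast hw.pos
  have hdvd : ∀ u, u.Prime → u ∣ M → u ∈ S := by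
    intro u hu hd
    obtain ⟨p, hp, hup⟩ := (hu.prime.dvd_finsetProd_iff _).mp hd
    rwa [(Nat.prime_dvd_prime_iff_eq hu (hS p hp).1).mp hup]
  have hMw : Nat.Coprime M w := by
    refine ((Nat.Prime.coprime_iff_not_dvd hw).mpr fun h => hwS (hdvd w hw h)).symm
  have hMS : ∀ u, u.Prime → u ∉ insert w S → ¬ u ∣ M := by
    intro u hu hn h
    exact hn (mem_insert_of_mem (hdvd u hu h))
  have hwS' : ∀ u, u.Prime → u ∉ insert w S → ¬ u ∣ w := by
    intro u hu hn h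
    rw [(Nat.prime_dvd_prime_iff_eq hu hw).mp h] at hn
    exact hn (mem_insert_self w S)
  have hY1 : (1 : ℝ) ≤ Y := by
    have : 1 ≤ Y := by omega
    exact_mod_cast this
  have hMY : (M : ℝ) ≤ (Y : ℝ) ^ k := by
    have h5 : M ≤ Y ^ j := by
      rw [hM, hj]
      calc ∏ p ∈ S, p ≤ ∏ _p ∈ S, Y := prod_le_prod' fun p hp => (hS p hp).2.le
        _ = Y ^ S.card := prod_const _
    calc (M : ℝ) ≤ (Y : ℝ) ^ j := by exact_mod_cast h5
      _ ≤ (Y : ℝ) ^ k := pow_le_pow_right₀ hY1 hSk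
  have hMwY : (M : ℝ) * w ≤ Real.exp (t / 4) := by
    calc (M : ℝ) * w ≤ (Y : ℝ) ^ k * Y := by
          apply mul_le_mul hMY _ hw0.le (by positivity)
          exact_mod_cast hwY.le
      _ = (Y : ℝ) ^ (k + 1) := (pow_succ _ _).symm
      _ ≤ Real.exp (t / 4) := hYk
  -- the sieve
  have hsv := S1_main (l := 3) (M := M) (w := w) (c := c) (Y := Y) (r := rr 3 x) hMpos hw.pos hMw
    (show 1 ≤ Y by omega) (fun u => J((u : ℤ) | w) = -1) (NR 3 S) hMS hwS'
    (by unfold rr; exact even_two_mul _) x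
  refine hsv.trans ?_
  rw [← hG]
  have hx0 : (0 : ℝ) < x := by
    have : 0 < x := by omega
    exact_mod_cast this
  have hxexp : (x : ℝ) = Real.exp t := (Real.exp_log hx0).symm
  -- the tail
  have htail : Real.exp (8 * G) / 8 ^ (rr 3 x + 1) ≤ Real.exp (-G) := by
    rw [div_le_iff₀ (by positivity), ← Real.log_le_log_iff (by positivity) (by positivity),
      Real.log_exp, Real.log_mul (by positivity) (by positivity), Real.log_exp, Real.log_pow]
    have h5 : 64 * L ≤ (rr 3 x : ℝ) := by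
      unfold rr
      push_cast
      have := Nat.le_ceil (8 * ((3 : ℝ) + 1) * LL x)
      linarith
    have h6 : (2 : ℝ) ≤ Real.log 8 := by
      have : Real.log 8 = 3 * Real.log 2 := by
        rw [show (8 : ℝ) = 2 ^ 3 by norm_num, Real.log_pow]; norm_num
      have := Real.log_two_gt_d9
      linarith
    push_cast
    have h8 : (64 * L + 1) * 2 ≤ ((rr 3 x : ℝ) + 1) * Real.log 8 := by
      apply mul_le_mul (by linarith) h6 (by norm_num) (by positivity)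
    linarith
  set P : ℝ := (M : ℝ) * w with hP
  have hP0 : 0 < P := by positivity
  set W : ℝ := Real.exp (-((3 / 2 - 1 / 2 ^ j - 3 * δ) * L)) with hW
  have hmain : Real.exp (-G) + Real.exp (8 * G) / 8 ^ (rr 3 x + 1) ≤ (1 / 4) * W := by
    have h5 : Real.exp (-G) ≤ W * (1 / 8) := by
      have h6 : (1 / 8 : ℝ) = Real.exp (-Real.log 8) := by
        rw [Real.exp_neg, Real.exp_log (by norm_num)]; norm_num
      rw [h6, hW, ← Real.exp_add]
      apply Real.exp_le_exp.mpr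
      linarith
    linarith
  have hxP : Real.exp (3 / 4 * t) ≤ x / P := by
    rw [le_div_iff₀ hP0]
    calc Real.exp (3 / 4 * t) * P ≤ Real.exp (3 / 4 * t) * Real.exp (t / 4) :=
          mul_le_mul_of_nonneg_left hMwY (Real.exp_pos _).le
      _ = x := by rw [← Real.exp_add, hxexp]; ring_nf
  have hxP1 : 1 ≤ x / P := by
    refine le_trans (Real.one_le_exp ?_) hxP
    linarith
  -- the error term
  have herr : 3 * ((Y : ℝ) ^ 3) ^ rr 3 x ≤ (x / P) * ((1 / 2) * W) := by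
    have h5 : Real.exp (t / 4) ≤ x / P := by
      refine le_trans (Real.exp_le_exp.mpr ?_) hxP
      linarith
    have h6 : Real.exp (-(2 * L)) ≤ W := by
      rw [hW]
      apply Real.exp_le_exp.mpr
      apply neg_le_neg
      have h10 : 3 / 2 - 1 / (2 : ℝ) ^ j - 3 * δ ≤ 2 := by linarith only [hc2, hδ]
      exact mul_le_mul_of_nonneg_right h10 (by linarith only [hL1])
    have h7 : 6 * Real.exp (t / 8) ≤ Real.exp (t / 4) * Real.exp (-(2 * L)) := by
      have h8 : (6 : ℝ) = Real.exp (Real.log 6) := (Real.exp_log (by norm_num)).symm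
      rw [h8, ← Real.exp_add, ← Real.exp_add]
      apply Real.exp_le_exp.mpr
      rw [add_zero, one_mul, hLt] at h2
      have h9 : 0 ≤ Real.log 6 := Real.log_nonneg (by norm_num)
      linarith only [h2, h9, hL1]
    calc 3 * ((Y : ℝ) ^ 3) ^ rr 3 x ≤ 3 * Real.exp (t / 8) :=
          mul_le_mul_of_nonneg_left hYr (by norm_num)
      _ ≤ (1 / 2) * (Real.exp (t / 4) * Real.exp (-(2 * L))) := by linarith only [h7]
      _ ≤ (1 / 2) * ((x / P) * W) := by
          apply mul_le_mul_of_nonneg_left _ (by norm_num)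
          exact mul_le_mul h5 h6 (Real.exp_pos _).le (by positivity)
      _ = _ := by ring
  have hW0 : 0 ≤ W := (Real.exp_pos _).le
  calc _ ≤ (x / P + 1) * ((1 / 4) * W) + (x / P) * ((1 / 2) * W) := by
        apply add_le_add _ herr
        exact mul_le_mul_of_nonneg_left hmain (by positivity)
    _ ≤ (x / P + x / P) * ((1 / 4) * W) + (x / P) * ((1 / 2) * W) := by
        apply add_le_add_left
        exact mul_le_mul_of_nonneg_right (by linarith) (by positivity)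
    _ = _ := by ring

end Pool.Agent.Lib.MP_79499b_co.PL
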