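import Pool.Agent.Lib.MP_79499b_co.PL.S1
import Pool.Agent.Lib.MP_79499b_co.PL.T5

/-!
# S3: the sieve for a large prime `w ∣ n^2 + n + 1`, `n^2 + n + 1` without small primes

Proof. `S1_main` with `l = 3`, `M = 1`, `Y = zz x`, `S = {w}`, `E u ↔ J(u|w) = -1`, `F u ↔ u % 3 = 1`, `r = 2 ⌈20 LL⌉`. Lower bound for `G = GG 3 E F Y {w}`: by `card_Rem` and `le_nroots` (`nroots 3 u ≥ 2` for `u ≡ 1 mod 3`) the summand for `u ∈ UU` is at least
`1_{E u} (1/u - 1/u^2) + 1_{u ≡ 1 (3)} 2/u`; the one missing prime `u = w` costs at most `3/w ≤ 1`, `∑ 1/u^2 ≤ 1` (`sum_inv_sq_le`). So `G ≥ esum E Y + 2 msum 3 1 Y - 3 ≥ (1/2) log log Y - (δ/2) LL + log log Y - C ≥ (3/2 - δ) LL` for large `x`, with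
`T5_main`, `mertens_one_mod`, and `log log (zz x) ≥ (1 - δ/8) LL` (as in K10). `GG_upper`: `G ≤ 4 (LL + C) ≤ 5 LL`, so `e^(8G)/8^(r+1) ≤ e^(-G)` (`45 LL ≤ 80 LL`). `x/w ≥ x^(1/30) ≥ 1`; `(Y^3)^r ≤ exp(3 (40 LL + 2) L/(20000 LL)) ≤ x^(1/150)`, so
`3 (Y^3)^r ≤ (x/w) exp(-2 LL)` for large `x`.
-/

set_option autoImplicit false

namespace Pool.Agent.Lib.MP_79499b_co.PL

open Finset Q38
open scoped Classical NumberTheorySymbols
open Filter Topology

private theorem s3_zz {δ : ℝ} (hδ : 0 < δ) : ∀ᶠ x : ℕ in atTop,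
    3 ≤ zz x ∧ (1 - δ) * LL x ≤ Real.log (Real.log (zz x)) ∧
      Real.log (Real.log (zz x)) ≤ LL x ∧
      ((zz x : ℝ) ^ 3) ^ (2 * ⌈20 * LL x⌉₊) ≤ Real.exp (Real.log x / 150) := by
  have e1 : ∀ᶠ x : ℕ in atTop, Real.log (40000 * LL x + 0) + 0 ≤ δ * LL x :=
    tendsto_LL.eventually (eventually_log_le _ _ _ _ (by positivity) hδ)
  have e2 : ∀ K : ℝ, 0 < K → ∀ᶠ x : ℕ in atTop, Real.log (1 * Real.log x + 0) + 0 ≤ (1 / K) * Real.log x :=
    fun K hK => tendsto_log_nat.eventually (eventually_log_le 1 0 0 (1 / K) one_pos (by positivity))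
  filter_upwards [e1, e2 40000 (by positivity), tendsto_LL.eventually_ge_atTop 1,
    eventually_ge_atTop 3] with x h1 h2 h3 h4
  set t := Real.log x with ht
  set L := LL x with hL
  have hLt : Real.log t = L := rfl
  have ht1 : 1 < t := one_lt_log h4
  have ht0 : 0 < t := by linarith
  rw [add_zero, add_zero] at h1
  rw [add_zero, add_zero, one_mul, hLt] at h2
  have hL0 : 0 < L := by linarith
  set A : ℝ := t / (20000 * L) with hA
  have hA2 : 2 ≤ A := by
    rw [hA, le_div_iff₀ (by positivity)]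
    linarith
  have hYup : (zz x : ℝ) ≤ Real.exp A := Nat.floor_le (Real.exp_pos _).le
  have hYlow : Real.exp (A - 1) ≤ zz x := by
    have h5 : Real.exp A < zz x + 1 := Nat.lt_floor_add_one _
    have h6 : Real.exp A = Real.exp (A - 1) * Real.exp 1 := by rw [← Real.exp_add]; ring_nf
    have h7 : 2 ≤ Real.exp 1 := by
      have := Real.add_one_le_exp (1 : ℝ); linarith
    have h8 : 1 ≤ Real.exp (A - 1) := Real.one_le_exp (by linarith)
    nlinarith
  have hY3 : 3 ≤ zz x := by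
    have h5 : Real.exp A < zz x + 1 := Nat.lt_floor_add_one _
    have h6 : Real.exp 2 ≤ Real.exp A := Real.exp_le_exp.mpr hA2
    have h7 : (4 : ℝ) ≤ Real.exp 2 := by
      have h8 : 2 ≤ Real.exp 1 := by
        have := Real.add_one_le_exp (1 : ℝ); linarith
      have h9 : Real.exp 2 = Real.exp 1 * Real.exp 1 := by rw [← Real.exp_add]; norm_num
      rw [h9]; nlinarith
    have h8 : (3 : ℝ) < zz x := by linarith
    have : 3 < zz x := by exact_mod_cast h8
    omega
  have hYpos : (0 : ℝ) < zz x := by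
    have : 0 < zz x := by omega
    exact_mod_cast this
  have hlogY_low : A / 2 ≤ Real.log (zz x) := by
    have := Real.log_le_log (Real.exp_pos _) hYlow
    rw [Real.log_exp] at this
    linarith
  have hlogY_up : Real.log (zz x) ≤ A := by
    have := Real.log_le_log hYpos hYup
    rwa [Real.log_exp] at this
  have hAt : A ≤ t := by
    rw [hA]
    apply div_le_self ht0.le
    nlinarith
  refine ⟨hY3, ?_, ?_, ?_⟩
  · have h5 : Real.log (A / 2) ≤ Real.log (Real.log (zz x)) := Real.log_le_log (by positivity) hlogY_low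
    have h6 : A / 2 = t / (40000 * L) := by rw [hA]; field_simp; ring
    rw [h6, Real.log_div ht0.ne' (by positivity), hLt] at h5
    linarith
  · have h5 : 0 < Real.log (zz x) := by
      have := one_lt_log hY3
      linarith
    have := Real.log_le_log h5 (hlogY_up.trans hAt)
    rwa [hLt] at this
  · have hr : ((⌈20 * L⌉₊ : ℕ) : ℝ) ≤ 20 * L + 1 :=
      (Nat.ceil_lt_add_one (show 0 ≤ 20 * L by positivity)).le
    calc ((zz x : ℝ) ^ 3) ^ (2 * ⌈20 * L⌉₊) ≤ ((Real.exp A) ^ 3) ^ (2 * ⌈20 * L⌉₊) := by gcongr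
      _ = Real.exp (((3 * (2 * ⌈20 * L⌉₊) : ℕ) : ℝ) * A) := by rw [← pow_mul, ← Real.exp_nat_mul]
      _ ≤ Real.exp (t / 150) := by
          apply Real.exp_le_exp.mpr
          push_cast
          rw [hA, mul_div_assoc', div_le_div_iff₀ (by positivity) (by norm_num)]
          have h5 : 3 * (2 * ((⌈20 * L⌉₊ : ℕ) : ℝ)) * 150 ≤ 20000 * L := by nlinarith
          calc 3 * (2 * ((⌈20 * L⌉₊ : ℕ) : ℝ)) * t * 150 = (3 * (2 * ((⌈20 * L⌉₊ : ℕ) : ℝ)) * 150) * t := by ring
            _ ≤ (20000 * L) * t := mul_le_mul_of_nonneg_right h5 ht0.le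
            _ = t * (20000 * L) := by ring

/-- lower bound for the density, `l = 3` -/
private theorem s3_GG {Y : ℕ} (E : ℕ → Prop) {S : Finset ℕ} (hS : ∀ p ∈ S, p.Prime) :
    esum E Y + 2 * msum 3 1 Y - (3 * S.card + 1) ≤ GG 3 E (fun u => u % 3 = 1) Y S := by
  have h1 : ∀ u ∈ UU Y S, (if E u then ((u : ℝ))⁻¹ else 0) - 1 / (u : ℝ) ^ 2 +
      2 * (if u % 3 = 1 then ((u : ℝ))⁻¹ else 0) ≤
      (((range (u ^ 2)).filter (Rem 3 E (fun u => u % 3 = 1) u)).card : ℝ) / ((u ^ 2 : ℕ) : ℝ) := by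
    intro u hu
    have hup : u.Prime := (Finset.mem_filter.mp hu).2.1
    have hu0 : (0 : ℝ) < u := by exact_mod_cast hup.pos
    rw [card_Rem (by omega) hup]
    have h2 : (if u % 3 = 1 then (2 : ℝ) * u else 0) ≤ ((if u % 3 = 1 then u * nroots 3 u else 0 : ℕ) : ℝ) := by
      split_ifs with h
      · push_cast
        have h3 : 2 ≤ nroots 3 u := le_nroots Nat.prime_three hup h
        have h4 : (2 : ℝ) ≤ nroots 3 u := by exact_mod_cast h3
        nlinarith
      · simp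
    have h3 : (if E u then (u : ℝ) - 1 else 0) ≤ ((if E u then u - 1 else 0 : ℕ) : ℝ) := by
      split_ifs with h
      · rw [Nat.cast_sub hup.one_lt.le]; push_cast; exact le_rfl
      · simp
    rw [le_div_iff₀ (by push_cast; positivity)]
    push_cast at h2 h3 ⊢
    refine le_trans ?_ (add_le_add h3 h2)
    split_ifs
    · field_simp
      nlinarith
    · field_simp
      nlinarith
    · field_simp
      nlinarith
    · field_simp
      nlinarith
  have h2 : GG 3 E (fun u => u % 3 = 1) Y S ≥ ∑ u ∈ UU Y S, ((if E u then ((u : ℝ))⁻¹ else 0) - 1 / (u : ℝ) ^ 2 +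
      2 * (if u % 3 = 1 then ((u : ℝ))⁻¹ else 0)) := Finset.sum_le_sum h1
  rw [Finset.sum_add_distrib, Finset.sum_sub_distrib, ← Finset.mul_sum] at h2
  have h3 : ∑ u ∈ UU Y S, 1 / (u : ℝ) ^ 2 ≤ 1 := by
    have := sum_inv_sq_le (UU Y S) (Z := 2) (by norm_num) (fun a ha =>
      (Finset.mem_filter.mp ha).2.1.two_le)
    simpa using this
  have h7 := sum_inv_primes_le hS
  have h4 : esum E Y - S.card ≤ ∑ u ∈ UU Y S, (if E u then ((u : ℝ))⁻¹ else 0) := by
    rw [← Finset.sum_filter]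
    have h5 : (range Y).filter (fun u => u.Prime ∧ E u) ⊆ (UU Y S).filter E ∪ S := by
      intro u hu
      rw [Finset.mem_filter] at hu
      rw [Finset.mem_union]
      by_cases huS : u ∈ S
      · right; exact huS
      · left
        rw [Finset.mem_filter, UU, Finset.mem_filter]
        exact ⟨⟨hu.1, hu.2.1, huS⟩, hu.2.2⟩
    have h6 : esum E Y ≤ ∑ u ∈ (UU Y S).filter E, ((u : ℝ))⁻¹ + ∑ u ∈ S, ((u : ℝ))⁻¹ :=
      (Finset.sum_le_sum_of_subset_of_nonneg h5 fun _ _ _ => by positivity).trans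
        (sum_union_le' _ _ _ fun _ => by positivity)
    linarith
  have h5 : msum 3 1 Y - S.card ≤ ∑ u ∈ UU Y S, (if u % 3 = 1 then ((u : ℝ))⁻¹ else 0) := by
    rw [← Finset.sum_filter]
    have h5 : (range Y).filter (fun u => u.Prime ∧ u % 3 = 1) ⊆ (UU Y S).filter (fun u => u % 3 = 1) ∪ S := by
      intro u hu
      rw [Finset.mem_filter] at hu
      rw [Finset.mem_union]
      by_cases huS : u ∈ S
      · right; exact huS
      · left
        rw [Finset.mem_filter, UU, Finset.mem_filter]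
        exact ⟨⟨hu.1, hu.2.1, huS⟩, hu.2.2⟩
    have h6 : msum 3 1 Y ≤ ∑ u ∈ (UU Y S).filter (fun u => u % 3 = 1), ((u : ℝ))⁻¹ + ∑ u ∈ S, ((u : ℝ))⁻¹ := by
      unfold msum
      exact (Finset.sum_le_sum_of_subset_of_nonneg h5 fun _ _ _ => by positivity).trans
        (sum_union_le' _ _ _ fun _ => by positivity)
    linarith
  linarith

theorem S3_main {δ : ℝ} (hδ : 0 < δ) : ∃ x₀ : ℕ, ∀ x : ℕ, x₀ ≤ x → ∀ w : ℕ, w.Prime → w ≠ 2 →
    (w : ℝ) ≤ (x : ℝ) ^ (29 / 30 : ℝ) → SS (zz x) w ≤ δ * LL x → ∀ c : ℕ,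
    (((range x).filter (fun n => n % w = c ∧ ∀ u ∈ UU (zz x) {w},
      ¬ Rem 3 (fun u => J((u : ℤ) | w) = -1) (fun u => u % 3 = 1) u n)).card : ℝ) ≤
      (x / (w : ℝ)) * Real.exp (-((3 / 2 - 3 * δ) * LL x)) := by
  obtain ⟨C1, hC1⟩ := T5_main
  obtain ⟨C2, hC2⟩ := mertens_one_mod (l := 3) (by norm_num)
  obtain ⟨C3, hC30, hC3⟩ := msum_one_le
  have e2 : ∀ᶠ x : ℕ in atTop, Real.log (1 * Real.log x + 0) + 0 ≤ (1 / 100) * Real.log x :=
    tendsto_log_nat.eventually (eventually_log_le 1 0 0 (1 / 100) one_pos (by positivity))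
  have ev : ∀ᶠ x : ℕ in atTop, (∀ w : ℕ, w.Prime → w ≠ 2 →
    (w : ℝ) ≤ (x : ℝ) ^ (29 / 30 : ℝ) → SS (zz x) w ≤ δ * LL x → ∀ c : ℕ,
    (((range x).filter (fun n => n % w = c ∧ ∀ u ∈ UU (zz x) {w},
      ¬ Rem 3 (fun u => J((u : ℤ) | w) = -1) (fun u => u % 3 = 1) u n)).card : ℝ) ≤
      (x / (w : ℝ)) * Real.exp (-((3 / 2 - 3 * δ) * LL x))) := by
    filter_upwards [s3_zz (δ := δ / 8) (by positivity), tendsto_LL.eventually_ge_atTop 1,
      tendsto_LL.eventually_ge_atTop ((C1 + 2 * C2 + 4) / (δ * (5 / 16))),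
      tendsto_LL.eventually_ge_atTop (4 * C3), tendsto_LL.eventually_ge_atTop (Real.log 7 / δ),
      eventually_ge_atTop 3, e2] with x hx hL1 hLC hLC3 hL7 hx3 hlog w hw hw2 hwx hSS c
    obtain ⟨hY3, hYlo, hYup, hYr⟩ := hx
    set L := LL x with hL
    set t := Real.log x with ht
    have hLt : Real.log t = L := rfl
    rw [add_zero, add_zero, one_mul, hLt] at hlog
    have ht1 : 1 < t := one_lt_log hx3
    have hxpos : (0 : ℝ) < x := by
      have : 0 < x := by omega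
      exact_mod_cast this
    have hw0 : (0 : ℝ) < w := by exact_mod_cast hw.pos
    have hxe : (x : ℝ) = Real.exp t := (Real.exp_log hxpos).symm
    set G := GG 3 (fun u => J((u : ℤ) | w) = -1) (fun u => u % 3 = 1) (zz x) {w} with hG
    have hmain := S1_main (l := 3) (M := 1) (w := w) (c := c) (Y := zz x) (r := 2 * ⌈20 * L⌉₊) one_pos hw.pos
      (Nat.coprime_one_left w) (by omega) (fun u => J((u : ℤ) | w) = -1) (fun u => u % 3 = 1) (S := {w})
      (fun u hu _ h => hu.one_lt.ne' (Nat.dvd_one.1 h))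
      (fun u hu hu2 h => hu2 (Finset.mem_singleton.2 ((Nat.prime_dvd_prime_iff_eq hu hw).1 h)))
      (even_two_mul _) x
    have hset : (range x).filter (fun n => 1 ∣ n ∧ n % w = c ∧ ∀ u ∈ UU (zz x) {w},
        ¬ Rem 3 (fun u => J((u : ℤ) | w) = -1) (fun u => u % 3 = 1) u n) =
        (range x).filter (fun n => n % w = c ∧ ∀ u ∈ UU (zz x) {w},
        ¬ Rem 3 (fun u => J((u : ℤ) | w) = -1) (fun u => u % 3 = 1) u n) := by
      refine Finset.filter_congr fun n _ => ?_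
      simp only [one_dvd, true_and]
    rw [hset] at hmain
    refine hmain.trans ?_
    -- lower and upper bound of `G`
    have hGlo : (3 / 2 - δ) * L ≤ G := by
      have h1 := s3_GG (Y := zz x) (fun u => J((u : ℤ) | w) = -1) (S := {w}) (fun p hp => by
        rw [Finset.mem_singleton.1 hp]; exact hw)
      rw [Finset.card_singleton] at h1
      have h2 := hC1 (zz x) w hY3 hw hw2
      have h3 := hC2 (zz x) hY3
      have h4 : ((Nat.totient 3 : ℕ) : ℝ)⁻¹ = 1 / 2 := by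
        rw [Nat.totient_prime Nat.prime_three]
        norm_num
      rw [h4] at h3
      rw [div_le_iff₀ (by positivity)] at hLC
      push_cast at h1
      nlinarith
    have hGup : G ≤ 5 * L := by
      have h1 := GG_upper (l := 3) (Y := zz x) (by omega) (fun u => J((u : ℤ) | w) = -1) (fun u => u % 3 = 1) {w}
      have h2 := hC3 (zz x) hY3
      push_cast at h1
      linarith
    have hG8 : Real.exp (8 * G) / 8 ^ (2 * ⌈20 * L⌉₊ + 1) ≤ Real.exp (-G) := by
      rw [div_le_iff₀ (by positivity)]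
      have h8 : Real.exp 2 ≤ 8 := by
        have h1 := Real.exp_one_lt_d9.le
        have h2 : Real.exp 2 = Real.exp 1 * Real.exp 1 := by rw [← Real.exp_add]; norm_num
        rw [h2]
        have h3 := Real.exp_pos 1
        nlinarith
      have h9 : Real.exp (2 * ((2 * ⌈20 * L⌉₊ + 1 : ℕ) : ℝ)) ≤ 8 ^ (2 * ⌈20 * L⌉₊ + 1) := by
        rw [mul_comm, Real.exp_nat_mul]
        exact pow_le_pow_left₀ (Real.exp_pos _).le h8 _
      have h10 : 20 * L ≤ ((⌈20 * L⌉₊ : ℕ) : ℝ) := Nat.le_ceil _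
      calc Real.exp (8 * G) ≤ Real.exp (-G) * Real.exp (2 * ((2 * ⌈20 * L⌉₊ + 1 : ℕ) : ℝ)) := by
            rw [← Real.exp_add]
            apply Real.exp_le_exp.mpr
            push_cast
            linarith
        _ ≤ _ := mul_le_mul_of_nonneg_left h9 (Real.exp_pos _).le
    have hxw : (x : ℝ) / w ≥ Real.exp (t / 30) := by
      rw [ge_iff_le, le_div_iff₀ hw0]
      calc Real.exp (t / 30) * w ≤ Real.exp (t / 30) * (x : ℝ) ^ (29 / 30 : ℝ) :=
            mul_le_mul_of_nonneg_left hwx (Real.exp_pos _).le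
        _ = x := by
            rw [Real.rpow_def_of_pos hxpos, ← Real.exp_add, ← ht]
            rw [hxe]
            congr 1
            ring
    have hxw1 : 1 ≤ (x : ℝ) / w := (Real.one_le_exp (by positivity)).trans hxw
    have hxw0 : 0 < (x : ℝ) / w := by linarith
    have hY2 : ((zz x : ℝ) ^ 3) ^ (2 * ⌈20 * L⌉₊) ≤ (x / w) * Real.exp (-(3 / 2 - δ) * L) := by
      refine hYr.trans ?_
      calc Real.exp (t / 150) ≤ Real.exp (t / 30) * Real.exp (-(3 / 2 - δ) * L) := by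
            rw [← Real.exp_add]
            apply Real.exp_le_exp.mpr
            nlinarith
        _ ≤ _ := mul_le_mul_of_nonneg_right hxw (Real.exp_pos _).le
    have hG1 : Real.exp (-G) ≤ Real.exp (-(3 / 2 - δ) * L) := Real.exp_le_exp.mpr (by linarith)
    have hcast : (x : ℝ) / (((1 : ℕ) : ℝ) * w) = x / w := by rw [Nat.cast_one, one_mul]
    rw [hcast]
    have hfin : 7 * Real.exp (-(3 / 2 - δ) * L) ≤ Real.exp (-((3 / 2 - 3 * δ) * L)) := by
      have h7 : (7 : ℝ) = Real.exp (Real.log 7) := (Real.exp_log (by norm_num)).symm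
      rw [h7, ← Real.exp_add]
      apply Real.exp_le_exp.mpr
      rw [div_le_iff₀ hδ] at hL7
      nlinarith
    calc (x / w + 1) * (Real.exp (-G) + Real.exp (8 * G) / 8 ^ (2 * ⌈20 * L⌉₊ + 1)) + 3 * ((zz x : ℝ) ^ 3) ^ (2 * ⌈20 * L⌉₊)
        ≤ (2 * (x / w)) * (2 * Real.exp (-(3 / 2 - δ) * L)) + 3 * ((x / w) * Real.exp (-(3 / 2 - δ) * L)) := by
          have h1 : Real.exp (-G) + Real.exp (8 * G) / 8 ^ (2 * ⌈20 * L⌉₊ + 1) ≤ 2 * Real.exp (-(3 / 2 - δ) * L) := by
            linarith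
          have h2 : (x : ℝ) / w + 1 ≤ 2 * (x / w) := by linarith
          have h3 : 0 ≤ Real.exp (-G) + Real.exp (8 * G) / 8 ^ (2 * ⌈20 * L⌉₊ + 1) := by positivity
          have h4 := mul_le_mul h2 h1 h3 (by positivity)
          linarith
      _ = (x / w) * (7 * Real.exp (-(3 / 2 - δ) * L)) := by ring
      _ ≤ _ := mul_le_mul_of_nonneg_left hfin hxw0.le
  obtain ⟨x₀, h⟩ := eventually_atTop.mp ev
  exact ⟨x₀, fun x hx => h x hx⟩

end Pool.Agent.Lib.MP_79499b_co.PL
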