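import Pool.Agent.Lib.MP_79499b_co.PL.Defs

/-!
# T1: small moduli: `∑ (u/w)/u ≤ log (log w + 4) + C`

Proof (as `T_le_of_good` in Q38Small, simpler). For an odd prime `w` the function `f(n) = (n/w)` (`J(n | w)`, complex valued) is completely multiplicative, bounded by 1, periodic modulo `w`, and has zero sum over
a period (`zero_sum` in Q38Char with `n₀` a nonresidue coprime to `w`; a nonsquare exists in `ZMod w`). So its partial sums are bounded by `w` (`norm_sum_range_le`), `norm_tsum_tw_le` (Q38LSer) and `psum_re_sub_log` give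
`psum (J(· | w)) s ≤ log (log w + 4) + c2` for `s > 1` as in `psum_jc_le`, and `exists_transfer` (Q38Transfer) compares `psum g (sx Y)` with `fsum g Y = ∑_{u < Y} g(u)/u = SS Y w`.
-/

set_option autoImplicit false

namespace Pool.Agent.Lib.MP_79499b_co.PL

open Finset Q38
open scoped Classical NumberTheorySymbols

/-- `n ↦ (n/w)`, complex valued -/
noncomputable def jn (w : ℕ) (hw : w.Prime) : ℕ →*₀ ℂ where
  toFun n := ((J((n : ℤ) | w) : ℤ) : ℂ)
  map_zero' := by
    have h : J((0 : ℤ) | w) = 0 := jacobiSym.zero_left hw.one_lt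
    simp [h]
  map_one' := by simp [jacobiSym.one_left]
  map_mul' m n := by
    push_cast
    rw [jacobiSym.mul_left]
    push_cast
    rfl

lemma jn_apply {w : ℕ} (hw : w.Prime) (n : ℕ) : jn w hw n = ((J((n : ℤ) | w) : ℤ) : ℂ) := rfl

lemma norm_jn_le {w : ℕ} (hw : w.Prime) (n : ℕ) : ‖jn w hw n‖ ≤ 1 := by
  rw [jn_apply]
  rcases jacobiSym.trichotomy (n : ℤ) w with h | h | h <;> rw [h] <;> simp

lemma jn_periodic {w : ℕ} (hw : w.Prime) (n : ℕ) : jn w hw (n % w) = jn w hw n := by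
  rw [jn_apply, jn_apply]
  have h : J(((n % w : ℕ) : ℤ) | w) = J((n : ℤ) | w) := by
    rw [jacobiSym.mod_left (n : ℤ) w, Int.natCast_mod]
  rw [h]

lemma jn_partial {w : ℕ} (hw : w.Prime) (hw2 : w ≠ 2) (N : ℕ) :
    ‖∑ i ∈ range N, jn w hw i‖ ≤ (w : ℕ) := by
  have hf : Fact w.Prime := ⟨hw⟩
  refine norm_sum_range_le hw.pos _ (jn_periodic hw) ?_ (norm_jn_le hw) N
  obtain ⟨b, hb⟩ : ∃ b : ZMod w, ¬ IsSquare b := FiniteField.exists_nonsquare (by
    rw [ZMod.ringChar_zmod_n]; exact hw2)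
  have hb0 : b ≠ 0 := by rintro rfl; exact hb ⟨0, by simp⟩
  have hcop : b.val.Coprime w := by
    rw [Nat.coprime_comm, Nat.Prime.coprime_iff_not_dvd hw]
    intro h
    have h1 := (ZMod.natCast_eq_zero_iff b.val w).mpr h
    rw [ZMod.natCast_zmod_val] at h1
    exact hb0 h1
  have hleg : J((b.val : ℤ) | w) = -1 := by
    rw [← jacobiSym.legendreSym.to_jacobiSym, legendreSym.eq_neg_one_iff]
    simpa using hb
  refine zero_sum hw.pos _ (jn_periodic hw) (fun m n => map_mul _ m n) hcop ?_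
  rw [jn_apply, hleg]
  norm_num

lemma SS_eq_fsum (Y w : ℕ) : SS Y w = fsum (fun n => ((J((n : ℤ) | w) : ℤ) : ℝ)) Y := rfl

theorem T1_main : ∃ C : ℝ, 0 ≤ C ∧ ∀ Y w : ℕ, 3 ≤ Y → w.Prime → w ≠ 2 →
    SS Y w ≤ Real.log (Real.log w + 4) + C := by
  obtain ⟨C, hC0, hC⟩ := exists_transfer
  have hc2 : 0 ≤ c2 := tsum_nonneg fun n => by positivity
  refine ⟨C + c2, by positivity, fun Y w hY hw hw2 => ?_⟩
  have hs := (sx_mem hY).1
  have hg : ∀ n : ℕ, |((J((n : ℤ) | w) : ℤ) : ℝ)| ≤ 1 := by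
    intro n
    rcases jacobiSym.trichotomy (n : ℤ) w with h | h | h <;> rw [h] <;> simp
  have h1 := hC (fun n => ((J((n : ℤ) | w) : ℤ) : ℝ)) hg Y hY
  rw [SS_eq_fsum]
  have h2 : psum (fun n => ((J((n : ℤ) | w) : ℤ) : ℝ)) (sx Y) =
      psum (fun n => (jn w hw n).re) (sx Y) := by
    refine psum_congr (fun n _ => ?_) _
    rw [jn_apply, Complex.intCast_re]
  have h3 := psum_re_sub_log (norm_jn_le hw) hs
  have h4 := norm_tsum_tw_le (norm_jn_le hw) hw.one_lt.le (jn_partial hw hw2) hs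
  have h5 : Real.log ‖∑' n, tw (jn w hw) (sx Y) n‖ ≤ Real.log (Real.log w + 4) := by
    have h6 : 0 ≤ Real.log w := Real.log_nonneg (by exact_mod_cast hw.one_lt.le)
    rcases (norm_nonneg (∑' n, tw (jn w hw) (sx Y) n)).eq_or_lt with h | h
    · rw [← h, Real.log_zero]
      exact Real.log_nonneg (by linarith)
    · exact Real.log_le_log h h4
  rw [h2] at h1
  have h7 := abs_le.mp h1
  have h8 := abs_le.mp h3
  linarith [h7.2, h8.2]

end Pool.Agent.Lib.MP_79499b_co.PL
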