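import Pool.Agent.Lib.MP_79499b_co.PL.Defs

/-!
# T2: second moments: the two zones for arbitrary sets of primes

`T2_one` is `zone1` of Q38Bad for an arbitrary finite set `W` of odd primes in `[Z, U)`; `T2_three` is `zone3` of Q38Bad for an arbitrary finite set `W` of primes in `[2^(8j), Y)` (there `W l Y lo hi` is used only through
these properties; the restriction `w % 8 = c` is not needed). Copy the proofs.
-/

set_option autoImplicit false

namespace Pool.Agent.Lib.MP_79499b_co.PL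

open Finset Q38
open scoped Classical NumberTheorySymbols

theorem T2_one {Z U j : ℕ} (hZ : 1 ≤ Z) (W : Finset ℕ)
    (hW : ∀ w ∈ W, w.Prime ∧ w ≠ 2 ∧ Z ≤ w ∧ w < U) (ε : ℕ → ℝ) (hε : ∀ w, |ε w| ≤ 1) :
    ∑ b ∈ (Ico (2 ^ j) (2 ^ (j + 1))).filter
      (fun b : ℕ => 1 < |∑ w ∈ W, ε w / w * ((J((b : ℤ) | w) : ℤ) : ℝ)|), 1 / (b : ℝ) ≤
      2 / (Z : ℝ) + 2 * (U : ℝ) ^ 2 / 2 ^ j := by
  have h1 := second_moment W (fun a ha => (hW a ha).1.prime.squarefree)
    (fun a ha => (hW a ha).1.odd_of_ne_two (hW a ha).2.1) (fun w => ε w / w)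
    (fun a _ => by
      rw [abs_div, Nat.abs_cast]
      exact div_le_div_of_nonneg_right (hε a) (Nat.cast_nonneg a)) (2 ^ j) (2 ^ j)
  have h2 : (2 : ℕ) ^ j + 2 ^ j = 2 ^ (j + 1) := by ring
  rw [h2] at h1
  set S : ℕ → ℝ := fun b => ∑ w ∈ W, ε w / w * ((J((b : ℤ) | w) : ℤ) : ℝ) with hS
  have h3 : ∑ b ∈ (Ico (2 ^ j) (2 ^ (j + 1))).filter (fun b => 1 < |S b|), 1 / (b : ℝ) ≤
      (1 / 2 ^ j) * ∑ m ∈ Ico (2 ^ j) (2 ^ (j + 1)), (S m) ^ 2 := by
    rw [Finset.mul_sum]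
    calc ∑ b ∈ (Ico (2 ^ j) (2 ^ (j + 1))).filter (fun b => 1 < |S b|), 1 / (b : ℝ) ≤
        ∑ b ∈ (Ico (2 ^ j) (2 ^ (j + 1))).filter (fun b => 1 < |S b|), (1 / 2 ^ j) * (S b) ^ 2 := by
          refine Finset.sum_le_sum fun b hb => ?_
          rw [Finset.mem_filter, Finset.mem_Ico] at hb
          have h4 : 1 ≤ (S b) ^ 2 := by
            rw [← sq_abs]
            nlinarith [hb.2]
          have h5 : 1 / (b : ℝ) ≤ 1 / 2 ^ j := by
            apply one_div_le_one_div_of_le (by positivity)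
            exact_mod_cast hb.1.1
          have h6 : (0 : ℝ) < 1 / 2 ^ j := by positivity
          nlinarith
      _ ≤ _ := by
          apply Finset.sum_le_sum_of_subset_of_nonneg (Finset.filter_subset _ _)
          intro b _ _
          positivity
  have h7 := sum_inv_sq_le W hZ (fun a ha => (hW a ha).2.2.1)
  have h8 : (W.card : ℝ) ≤ U := by
    have : W.card ≤ (range U).card := by
      apply Finset.card_le_card
      intro w hw
      exact Finset.mem_range.mpr (hW w hw).2.2.2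
    rw [Finset.card_range] at this
    exact_mod_cast this
  have hp : (0 : ℝ) < 2 ^ j := by positivity
  calc _ ≤ _ := h3
    _ ≤ (1 / 2 ^ j) * (2 ^ j * (2 / Z) + 2 * (U : ℝ) ^ 2) := by
        apply mul_le_mul_of_nonneg_left _ (by positivity)
        refine h1.trans ?_
        push_cast
        apply add_le_add
        · exact mul_le_mul_of_nonneg_left h7 (by positivity)
        · have : (W.card : ℝ) ^ 2 ≤ (U : ℝ) ^ 2 :=
            pow_le_pow_left₀ (Nat.cast_nonneg _) h8 2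
          linarith
    _ = 2 / Z + 2 * (U : ℝ) ^ 2 / 2 ^ j := by field_simp

theorem T2_three {Y j : ℕ} (W : Finset ℕ) (hW : ∀ w ∈ W, w.Prime ∧ 2 ^ (8 * j) ≤ w ∧ w < Y) :
    (∑ b ∈ (Ico (2 ^ j) (2 ^ (j + 1))).filter
      (fun b : ℕ => (Odd b ∧ Squarefree b) ∧
        1 < |∑ w ∈ W, 1 / (w : ℝ) * ((J((w : ℤ) | b) : ℤ) : ℝ)|), 1 / (b : ℝ)) ^ 2 ≤
      msum 1 0 Y * (((Nat.log 2 Y : ℝ) + 1) * (3 / 2 ^ j)) := by
  set S : ℕ → ℝ := fun b => ∑ w ∈ W, 1 / (w : ℝ) * ((J((w : ℤ) | b) : ℤ) : ℝ) with hS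
  set D := (Ico (2 ^ j) (2 ^ (j + 1))).filter
      (fun b : ℕ => (Odd b ∧ Squarefree b) ∧ 1 < |S b|) with hD
  have hDmem : ∀ b ∈ D, 2 ^ j ≤ b ∧ b < 2 ^ (j + 1) ∧ Odd b ∧ Squarefree b ∧ 1 < |S b| := by
    intro b hb
    rw [hD, Finset.mem_filter, Finset.mem_Ico] at hb
    exact ⟨hb.1.1, hb.1.2, hb.2.1.1, hb.2.1.2, hb.2.2⟩
  set α : ℕ → ℝ := fun b => (SignType.sign (S b) : ℝ) / b with hα
  have hαle : ∀ b ∈ D, |α b| ≤ 1 / b := by
    intro b _
    rw [hα]
    simp only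
    rw [abs_div, Nat.abs_cast]
    apply div_le_div_of_nonneg_right _ (Nat.cast_nonneg b)
    rcases lt_trichotomy (S b) 0 with h | h | h
    · simp [sign_neg h]
    · simp [h]
    · simp [sign_pos h]
  set R : ℕ → ℝ := fun w => ∑ b ∈ D, α b * ((J((w : ℤ) | b) : ℤ) : ℝ) with hR
  -- step 1
  have h1 : ∑ b ∈ D, 1 / (b : ℝ) ≤ ∑ w ∈ W, 1 / (w : ℝ) * R w := by
    have h2 : ∑ w ∈ W, 1 / (w : ℝ) * R w = ∑ b ∈ D, α b * S b := by
      simp only [hR, hS, Finset.mul_sum]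
      rw [Finset.sum_comm]
      refine Finset.sum_congr rfl fun b _ => Finset.sum_congr rfl fun w _ => ?_
      ring
    rw [h2]
    refine Finset.sum_le_sum fun b hb => ?_
    obtain ⟨h3, _, _, _, h4⟩ := hDmem b hb
    have hb0 : (0 : ℝ) < b := by
      have : 0 < b := lt_of_lt_of_le (by positivity) h3
      exact_mod_cast this
    have h5 : α b * S b = |S b| / b := by
      rw [hα]
      simp only
      rw [div_mul_eq_mul_div, sign_mul_self]
    rw [h5]
    exact div_le_div_of_nonneg_right h4.le hb0.le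
  have h0 : 0 ≤ ∑ b ∈ D, 1 / (b : ℝ) := Finset.sum_nonneg fun b _ => by positivity
  -- step 2: Cauchy–Schwarz
  have h2 : (∑ b ∈ D, 1 / (b : ℝ)) ^ 2 ≤
      (∑ w ∈ W, 1 / (w : ℝ)) * ∑ w ∈ W, 1 / (w : ℝ) * (R w) ^ 2 :=
    (pow_le_pow_left₀ h0 h1 2).trans (cs W (fun w => 1 / (w : ℝ)) R fun w _ => by positivity)
  have h3 : ∑ w ∈ W, 1 / (w : ℝ) ≤ msum 1 0 Y := by
    unfold msum
    calc ∑ w ∈ W, 1 / (w : ℝ) ≤ ∑ w ∈ (range Y).filter (fun p => p.Prime ∧ p % 1 = 0), 1 / (w : ℝ) := by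
          apply Finset.sum_le_sum_of_subset_of_nonneg
          · intro w hw
            rw [Finset.mem_filter, Finset.mem_range]
            exact ⟨(hW w hw).2.2, (hW w hw).1, Nat.mod_one w⟩
          · intro w _ _; positivity
      _ = _ := by simp only [one_div]
  have hDsq : ∑ b ∈ D, 1 / (b : ℝ) ^ 2 ≤ 1 / 2 ^ j := by
    have h4 : (D.card : ℝ) ≤ 2 ^ j := by
      have h5 : D.card ≤ (Ico (2 ^ j) (2 ^ (j + 1))).card := Finset.card_le_card (Finset.filter_subset _ _)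
      rw [Nat.card_Ico] at h5
      have h6 : 2 ^ (j + 1) - 2 ^ j = 2 ^ j := by rw [pow_succ]; omega
      rw [h6] at h5
      exact_mod_cast h5
    calc ∑ b ∈ D, 1 / (b : ℝ) ^ 2 ≤ ∑ b ∈ D, 1 / ((2 : ℝ) ^ j) ^ 2 := by
          refine Finset.sum_le_sum fun b hb => ?_
          apply one_div_le_one_div_of_le (by positivity)
          apply pow_le_pow_left₀ (by positivity)
          exact_mod_cast (hDmem b hb).1
      _ = D.card * (1 / ((2 : ℝ) ^ j) ^ 2) := by rw [Finset.sum_const, nsmul_eq_mul]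
      _ ≤ 2 ^ j * (1 / ((2 : ℝ) ^ j) ^ 2) := mul_le_mul_of_nonneg_right h4 (by positivity)
      _ = 1 / 2 ^ j := by field_simp
  have hDcard : (D.card : ℝ) ≤ 2 ^ j := by
    have h5 : D.card ≤ (Ico (2 ^ j) (2 ^ (j + 1))).card := Finset.card_le_card (Finset.filter_subset _ _)
    rw [Nat.card_Ico] at h5
    have h6 : 2 ^ (j + 1) - 2 ^ j = 2 ^ j := by rw [pow_succ]; omega
    rw [h6] at h5
    exact_mod_cast h5
  -- step 3: dyadic blocks in w
  have h4 : ∑ w ∈ W, 1 / (w : ℝ) * (R w) ^ 2 ≤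
      ∑ i ∈ (range (Nat.log 2 Y + 1)).filter (fun i => 8 * j ≤ i),
        ∑ m ∈ Ico (2 ^ i : ℕ) (2 ^ (i + 1)), 1 / (m : ℝ) * (R m) ^ 2 := by
    rw [← Finset.sum_biUnion]
    · apply Finset.sum_le_sum_of_subset_of_nonneg
      · intro w hw
        obtain ⟨h6, h7, h5⟩ := hW w hw
        rw [Finset.mem_biUnion]
        refine ⟨Nat.log 2 w, ?_, ?_⟩
        · rw [Finset.mem_filter, Finset.mem_range]
          refine ⟨Nat.lt_succ_of_le (Nat.log_mono_right h5.le), ?_⟩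
          exact (Nat.le_log_iff_pow_le (by norm_num) h6.ne_zero).mpr h7
        · rw [Finset.mem_Ico]
          exact ⟨Nat.pow_log_le_self 2 h6.ne_zero, Nat.lt_pow_succ_log_self (by norm_num) w⟩
      · intro w _ _; positivity
    · intro i _ i' _ hne
      change Disjoint _ _
      rw [Finset.disjoint_left]
      intro m hm hm'
      rw [Finset.mem_Ico] at hm hm'
      apply hne
      have h5 : Nat.log 2 m = i := (Nat.log_eq_iff (Or.inr ⟨by norm_num, by
        have : 0 < 2 ^ i := by positivity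
        omega⟩)).mpr hm
      have h6 : Nat.log 2 m = i' := (Nat.log_eq_iff (Or.inr ⟨by norm_num, by
        have : 0 < 2 ^ i := by positivity
        omega⟩)).mpr hm'
      rw [← h5, ← h6]
  have h5 : ∀ i ∈ (range (Nat.log 2 Y + 1)).filter (fun i => 8 * j ≤ i),
      ∑ m ∈ Ico (2 ^ i : ℕ) (2 ^ (i + 1)), 1 / (m : ℝ) * (R m) ^ 2 ≤ 3 / 2 ^ j := by
    intro i hi
    rw [Finset.mem_filter] at hi
    have h6 := second_moment D (fun a ha => (hDmem a ha).2.2.2.1) (fun a ha => (hDmem a ha).2.2.1) α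
      hαle (2 ^ i) (2 ^ i)
    have h7 : (2 : ℕ) ^ i + 2 ^ i = 2 ^ (i + 1) := by ring
    rw [h7] at h6
    have h8 : (2 : ℝ) ^ (8 * j) ≤ 2 ^ i := pow_le_pow_right₀ (by norm_num) hi.2
    calc ∑ m ∈ Ico (2 ^ i : ℕ) (2 ^ (i + 1)), 1 / (m : ℝ) * (R m) ^ 2 ≤
        ∑ m ∈ Ico (2 ^ i : ℕ) (2 ^ (i + 1)), (1 / 2 ^ i) * (R m) ^ 2 := by
          refine Finset.sum_le_sum fun m hm => ?_
          rw [Finset.mem_Ico] at hm
          apply mul_le_mul_of_nonneg_right _ (sq_nonneg _)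
          apply one_div_le_one_div_of_le (by positivity)
          exact_mod_cast hm.1
      _ = (1 / 2 ^ i) * ∑ m ∈ Ico (2 ^ i : ℕ) (2 ^ (i + 1)), (R m) ^ 2 := by rw [Finset.mul_sum]
      _ ≤ (1 / 2 ^ i) * (2 ^ i * (1 / 2 ^ j) + 2 * (2 ^ j) ^ 2) := by
          apply mul_le_mul_of_nonneg_left _ (by positivity)
          refine h6.trans ?_
          push_cast
          apply add_le_add
          · exact mul_le_mul_of_nonneg_left hDsq (by positivity)
          · have : (D.card : ℝ) ^ 2 ≤ (2 ^ j) ^ 2 := pow_le_pow_left₀ (Nat.cast_nonneg _) hDcard 2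
            linarith
      _ = 1 / 2 ^ j + 2 * (2 ^ j) ^ 2 / 2 ^ i := by field_simp
      _ ≤ 1 / 2 ^ j + 2 * (2 ^ j) ^ 2 / 2 ^ (8 * j) := by
          gcongr
      _ ≤ 1 / 2 ^ j + 2 / 2 ^ j := by
          gcongr 1 / 2 ^ j + ?_
          rw [div_le_div_iff₀ (by positivity) (by positivity)]
          have h9 : (2 * (2 ^ j) ^ 2 : ℝ) * 2 ^ j = 2 * 2 ^ (3 * j) := by ring
          rw [h9]
          have : (2 : ℝ) ^ (3 * j) ≤ 2 ^ (8 * j) := pow_le_pow_right₀ (by norm_num) (by omega)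
          linarith
      _ = 3 / 2 ^ j := by ring
  have h6 : ∑ w ∈ W, 1 / (w : ℝ) * (R w) ^ 2 ≤ ((Nat.log 2 Y : ℝ) + 1) * (3 / 2 ^ j) := by
    refine h4.trans ((Finset.sum_le_sum h5).trans ?_)
    rw [Finset.sum_const, nsmul_eq_mul]
    apply mul_le_mul_of_nonneg_right _ (by positivity)
    have : ((range (Nat.log 2 Y + 1)).filter (fun i => 8 * j ≤ i)).card ≤ Nat.log 2 Y + 1 := by
      refine (Finset.card_filter_le _ _).trans ?_
      rw [Finset.card_range]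
    exact_mod_cast this
  refine h2.trans (mul_le_mul h3 h6 (Finset.sum_nonneg fun w _ => by positivity) ?_)
  unfold msum
  exact Finset.sum_nonneg fun w _ => by positivity

end Pool.Agent.Lib.MP_79499b_co.PL
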