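import Pool.Agent.Lib.MP_79499b_co.PL.T2

/-!
# T3: bad moduli are rare

`Bd Y Z w`: with `j = log2 w`: (1) `1 < |∑ J(w | u)/u|` over the odd primes `u ∈ [Z, 2^(j/8))`, `u < Y`; or (2) the same with the factor `J(-1 | u)`; or (3) `1 < |∑ J(u | w)/u|` over the primes `u`, `2^(8j) ≤ u < Y`.

`T3_weight`: the weight of the bad odd primes (or odd squarefree) `w ∈ [Z^2, x]`: as `bad_weight` / `block_weight` (Q38Weight) with `T2_one` (`U = 2^(j/8)`, twice: `ε = 1`, `ε = J(-1 | ·)`) and `T2_three` (once instead of 8 times).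

`T3_small`: if `w` is an odd prime, not bad, `Z ≤ 2^(8j)`: `SS Y w ≤ msum 1 0 Z + 9 + (msum 1 0 (2^(8j)) - msum 1 0 (2^(j/8)))`: split the primes `u < Y` into `u < Z` (and `u = 2`), `Z ≤ u < 2^(j/8)`, `max ≤ u < 2^(8j)`, `2^(8j) ≤ u`
as in `split_W`, `zones_le` (Q38Zones); in the second range `J(u | w) = J(w | u)` or `J(-1 | u) J(w | u)` by quadratic reciprocity (`w ≡ 1` or `3 mod 4`; `jacobiSym.quadratic_reciprocity_if`).
-/

set_option autoImplicit false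

namespace Pool.Agent.Lib.MP_79499b_co.PL

open Finset Q38
open scoped Classical NumberTheorySymbols

/-- a bad modulus -/
def Bd (Y Z w : ℕ) : Prop :=
  (1 < |∑ u ∈ (range Y).filter (fun u => u.Prime ∧ u ≠ 2 ∧ Z ≤ u ∧ u < 2 ^ (Nat.log 2 w / 8)),
    (1 : ℝ) / u * ((J((w : ℤ) | u) : ℤ) : ℝ)|) ∨
  (1 < |∑ u ∈ (range Y).filter (fun u => u.Prime ∧ u ≠ 2 ∧ Z ≤ u ∧ u < 2 ^ (Nat.log 2 w / 8)),
    ((J((-1 : ℤ) | u) : ℤ) : ℝ) / u * ((J((w : ℤ) | u) : ℤ) : ℝ)|) ∨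
  (1 < |∑ u ∈ (range Y).filter (fun u => u.Prime ∧ 2 ^ (8 * Nat.log 2 w) ≤ u),
    1 / (u : ℝ) * ((J((u : ℤ) | w) : ℤ) : ℝ)|)

private theorem t3_block {Y Z j : ℕ} (hZ : 1 ≤ Z) (hj : Z ^ 2 < 2 ^ (j + 1))
    (B : Finset ℕ) (hB : ∀ b ∈ B, b ∈ Ico (2 ^ j) (2 ^ (j + 1)) ∧ (Odd b ∧ Squarefree b) ∧
      Bd Y Z b) :
    ∑ b ∈ B, 1 / (b : ℝ) ≤
      (12 + 8 * Real.sqrt (6 * (msum 1 0 Y * ((Nat.log 2 Y : ℝ) + 1)))) / Z := by
  have hZ0 : (0 : ℝ) < Z := by exact_mod_cast hZ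
  set W1 := (range Y).filter (fun u => u.Prime ∧ u ≠ 2 ∧ Z ≤ u ∧ u < 2 ^ (j / 8)) with hW1
  set W3 := (range Y).filter (fun u => u.Prime ∧ 2 ^ (8 * j) ≤ u) with hW3
  set B1 := (Ico (2 ^ j) (2 ^ (j + 1))).filter
      (fun b : ℕ => 1 < |∑ w ∈ W1, (fun _ : ℕ => (1 : ℝ)) w / w * ((J((b : ℤ) | w) : ℤ) : ℝ)|)
    with hB1
  set B2 := (Ico (2 ^ j) (2 ^ (j + 1))).filter
      (fun b : ℕ => 1 < |∑ w ∈ W1, (fun w : ℕ => ((J((-1 : ℤ) | w) : ℤ) : ℝ)) w / w *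
        ((J((b : ℤ) | w) : ℤ) : ℝ)|) with hB2
  set B3 := (Ico (2 ^ j) (2 ^ (j + 1))).filter
      (fun b : ℕ => (Odd b ∧ Squarefree b) ∧ 1 < |∑ w ∈ W3,
        1 / (w : ℝ) * ((J((w : ℤ) | b) : ℤ) : ℝ)|) with hB3
  have hsub : B ⊆ B1 ∪ (B2 ∪ B3) := by
    intro b hb
    obtain ⟨h1, h2, h3⟩ := hB b hb
    have hlog : Nat.log 2 b = j := by
      rw [Finset.mem_Ico] at h1
      exact (Nat.log_eq_iff (Or.inr ⟨by norm_num, by
        have : 0 < 2 ^ j := by positivity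
        omega⟩)).mpr h1
    unfold Bd at h3
    rw [hlog] at h3
    rw [Finset.mem_union, Finset.mem_union]
    rcases h3 with h3 | h3 | h3
    · left; rw [hB1, Finset.mem_filter]; exact ⟨h1, h3⟩
    · right; left; rw [hB2, Finset.mem_filter]; exact ⟨h1, h3⟩
    · right; right; rw [hB3, Finset.mem_filter]; exact ⟨h1, h2, h3⟩
  have hW : ∀ w ∈ W1, w.Prime ∧ w ≠ 2 ∧ Z ≤ w ∧ w < 2 ^ (j / 8) := fun w hw => (Finset.mem_filter.1 hw).2
  have e1 : ∑ b ∈ B1, 1 / (b : ℝ) ≤ 6 / Z := by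
    have := T2_one (U := 2 ^ (j / 8)) (j := j) hZ W1 hW (fun _ => 1) (by simp)
    refine this.trans ?_
    have h2 := U_bound hZ hj
    calc 2 / (Z : ℝ) + 2 * (((2 ^ (j / 8) : ℕ) : ℝ)) ^ 2 / 2 ^ j ≤ 2 / (Z : ℝ) + 4 / (Z : ℝ) := by linarith
      _ = 6 / Z := by ring
  have e2 : ∑ b ∈ B2, 1 / (b : ℝ) ≤ 6 / Z := by
    have := T2_one (U := 2 ^ (j / 8)) (j := j) hZ W1 hW
      (fun w => ((J((-1 : ℤ) | w) : ℤ) : ℝ)) (fun w => abs_jac_le _ _)
    refine this.trans ?_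
    have h2 := U_bound hZ hj
    calc 2 / (Z : ℝ) + 2 * (((2 ^ (j / 8) : ℕ) : ℝ)) ^ 2 / 2 ^ j ≤ 2 / (Z : ℝ) + 4 / (Z : ℝ) := by linarith
      _ = 6 / Z := by ring
  have hm0 : 0 ≤ msum 1 0 Y := Finset.sum_nonneg fun w _ => by positivity
  have e3 : ∑ b ∈ B3, 1 / (b : ℝ) ≤
      Real.sqrt (6 * (msum 1 0 Y * ((Nat.log 2 Y : ℝ) + 1))) / Z := by
    have h3 := T2_three (Y := Y) (j := j) W3 (fun w hw => by
      have h := Finset.mem_filter.1 hw
      exact ⟨h.2.1, h.2.2, Finset.mem_range.1 h.1⟩)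
    have h4 : (3 : ℝ) / 2 ^ j ≤ 6 / (Z : ℝ) ^ 2 := by
      rw [div_le_div_iff₀ (by positivity) (by positivity)]
      have : ((Z ^ 2 : ℕ) : ℝ) < ((2 ^ (j + 1) : ℕ) : ℝ) := by exact_mod_cast hj
      push_cast at this
      rw [pow_succ (2 : ℝ) j] at this
      linarith
    have h5 : (∑ b ∈ B3, 1 / (b : ℝ)) ^ 2 ≤
        6 * (msum 1 0 Y * ((Nat.log 2 Y : ℝ) + 1)) / (Z : ℝ) ^ 2 := by
      calc (∑ b ∈ B3, 1 / (b : ℝ)) ^ 2 ≤ msum 1 0 Y * (((Nat.log 2 Y : ℝ) + 1) * (3 / 2 ^ j)) := h3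
        _ ≤ msum 1 0 Y * (((Nat.log 2 Y : ℝ) + 1) * (6 / (Z : ℝ) ^ 2)) := by gcongr
        _ = 6 * (msum 1 0 Y * ((Nat.log 2 Y : ℝ) + 1)) / (Z : ℝ) ^ 2 := by ring
    have h6 : ∑ b ∈ B3, 1 / (b : ℝ) ≤
        Real.sqrt (6 * (msum 1 0 Y * ((Nat.log 2 Y : ℝ) + 1)) / (Z : ℝ) ^ 2) := Real.le_sqrt_of_sq_le h5
    rw [Real.sqrt_div (by positivity), Real.sqrt_sq hZ0.le] at h6
    exact h6
  have hs0 : 0 ≤ Real.sqrt (6 * (msum 1 0 Y * ((Nat.log 2 Y : ℝ) + 1))) / Z := by positivity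
  calc ∑ b ∈ B, 1 / (b : ℝ) ≤ ∑ b ∈ B1 ∪ (B2 ∪ B3), 1 / (b : ℝ) :=
        Finset.sum_le_sum_of_subset_of_nonneg hsub fun _ _ _ => by positivity
    _ ≤ ∑ b ∈ B1, 1 / (b : ℝ) + ∑ b ∈ B2 ∪ B3, 1 / (b : ℝ) :=
        sum_union_le' _ _ _ (fun _ => by positivity)
    _ ≤ ∑ b ∈ B1, 1 / (b : ℝ) + (∑ b ∈ B2, 1 / (b : ℝ) + ∑ b ∈ B3, 1 / (b : ℝ)) := by
        gcongr
        exact sum_union_le' _ _ _ (fun _ => by positivity)
    _ ≤ 6 / Z + (6 / Z + Real.sqrt (6 * (msum 1 0 Y * ((Nat.log 2 Y : ℝ) + 1))) / Z) := by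
        gcongr
    _ ≤ 6 / Z + (6 / Z + 8 * (Real.sqrt (6 * (msum 1 0 Y * ((Nat.log 2 Y : ℝ) + 1))) / Z)) := by
        linarith
    _ = _ := by ring

theorem T3_weight {Y Z x : ℕ} (hZ : 1 ≤ Z) :
    ∑ b ∈ (range (x + 1)).filter (fun b => (Odd b ∧ Squarefree b) ∧ Z ^ 2 ≤ b ∧ Bd Y Z b),
      1 / (b : ℝ) ≤ ((Nat.log 2 x : ℝ) + 1) *
      ((12 + 8 * Real.sqrt (6 * (msum 1 0 Y * ((Nat.log 2 Y : ℝ) + 1)))) / Z) := by
  set S := (range (x + 1)).filter (fun b => (Odd b ∧ Squarefree b) ∧ Z ^ 2 ≤ b ∧ Bd Y Z b) with hS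
  have memS : ∀ b ∈ S, b ≤ x ∧ (Odd b ∧ Squarefree b) ∧ Z ^ 2 ≤ b ∧ Bd Y Z b := fun b hb => by
    rw [hS, Finset.mem_filter, Finset.mem_range, Nat.lt_succ_iff] at hb
    exact hb
  set B : ℕ → Finset ℕ := fun j => S.filter (fun b => Nat.log 2 b = j) with hB
  have h1 : S = (range (Nat.log 2 x + 1)).biUnion B := by
    ext b
    rw [Finset.mem_biUnion]
    constructor
    · intro hb
      refine ⟨Nat.log 2 b, ?_, ?_⟩
      · exact Finset.mem_range.mpr (Nat.lt_succ_of_le (Nat.log_mono_right (memS b hb).1))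
      · rw [hB, Finset.mem_filter]; exact ⟨hb, rfl⟩
    · rintro ⟨j, _, hb⟩
      rw [hB, Finset.mem_filter] at hb
      exact hb.1
  have hpos : ∀ b ∈ S, b ≠ 0 := fun b hb => (memS b hb).2.1.1.pos.ne'
  calc ∑ b ∈ S, 1 / (b : ℝ) = ∑ b ∈ (range (Nat.log 2 x + 1)).biUnion B, 1 / (b : ℝ) := by
        rw [← h1]
    _ ≤ ∑ j ∈ range (Nat.log 2 x + 1), ∑ b ∈ B j, 1 / (b : ℝ) :=
        sum_biUnion_le' _ _ _ (fun _ => by positivity)
    _ ≤ ∑ j ∈ range (Nat.log 2 x + 1),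
        ((12 + 8 * Real.sqrt (6 * (msum 1 0 Y * ((Nat.log 2 Y : ℝ) + 1)))) / Z) := by
        refine Finset.sum_le_sum fun j _ => ?_
        by_cases hj : Z ^ 2 < 2 ^ (j + 1)
        · refine t3_block hZ hj (B j) (fun b hb => ?_)
          rw [hB, Finset.mem_filter] at hb
          obtain ⟨hb, hlog⟩ := hb
          have h2 := memS b hb
          refine ⟨?_, h2.2.1, h2.2.2.2⟩
          rw [Finset.mem_Ico, ← hlog]
          exact ⟨Nat.pow_log_le_self 2 (hpos b hb), Nat.lt_pow_succ_log_self (by norm_num) b⟩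
        · have hempty : B j = ∅ := by
            rw [Finset.eq_empty_iff_forall_notMem]
            intro b hb
            rw [hB, Finset.mem_filter] at hb
            obtain ⟨hb, hlog⟩ := hb
            have h2 := (memS b hb).2.2.1
            have h3 := Nat.lt_pow_succ_log_self (b := 2) (by norm_num) b
            rw [hlog] at h3
            omega
          rw [hempty, Finset.sum_empty]
          positivity
    _ = _ := by
        rw [Finset.sum_const, Finset.card_range, nsmul_eq_mul]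
        push_cast
        ring

private theorem t3_split {Y Z U V : ℕ} (hZV : Z ≤ V) (hUV : U ≤ V) (f : ℕ → ℝ) :
    ∑ u ∈ (range Y).filter Nat.Prime, f u =
      ∑ u ∈ (range Y).filter (fun u => u.Prime ∧ u < Z), f u +
        (∑ u ∈ (range Y).filter (fun u => u.Prime ∧ Z ≤ u ∧ u < U), f u +
      (∑ u ∈ (range Y).filter (fun u => u.Prime ∧ max Z U ≤ u ∧ u < V), f u +
        ∑ u ∈ (range Y).filter (fun u => u.Prime ∧ V ≤ u), f u)) := by
  rw [← Finset.sum_filter_add_sum_filter_not ((range Y).filter Nat.Prime) (fun w => w < Z)]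
  congr 1
  · refine Finset.sum_congr ?_ fun _ _ => rfl
    rw [Finset.filter_filter]
  rw [← Finset.sum_filter_add_sum_filter_not (((range Y).filter Nat.Prime).filter (fun w => ¬ w < Z)) (fun w => w < U)]
  congr 1
  · refine Finset.sum_congr ?_ fun _ _ => rfl
    ext w
    simp only [Finset.mem_filter, Finset.mem_range]
    constructor
    · rintro ⟨⟨⟨a, b⟩, c⟩, d⟩
      exact ⟨a, b, by omega, d⟩
    · rintro ⟨a, b, c, d⟩
      exact ⟨⟨⟨a, b⟩, by omega⟩, d⟩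
  · rw [← Finset.sum_filter_add_sum_filter_not ((((range Y).filter Nat.Prime).filter (fun w => ¬ w < Z)).filter
      (fun w => ¬ w < U)) (fun w => w < V)]
    congr 1
    · refine Finset.sum_congr ?_ fun _ _ => rfl
      ext w
      simp only [Finset.mem_filter, Finset.mem_range]
      constructor
      · rintro ⟨⟨⟨⟨a, b⟩, c⟩, d⟩, e⟩
        exact ⟨a, b, by omega, e⟩
      · rintro ⟨a, b, c, d⟩
        exact ⟨⟨⟨⟨a, b⟩, by omega⟩, by omega⟩, d⟩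
    · refine Finset.sum_congr ?_ fun _ _ => rfl
      ext w
      simp only [Finset.mem_filter, Finset.mem_range]
      constructor
      · rintro ⟨⟨⟨⟨a, b⟩, c⟩, d⟩, e⟩
        exact ⟨a, b, by omega⟩
      · rintro ⟨a, b, c⟩
        exact ⟨⟨⟨⟨a, b⟩, by omega⟩, by omega⟩, by omega⟩

private theorem t3_abs (w : ℕ) (A S : Finset ℕ) (hA : A ⊆ S) :
    |∑ u ∈ A, ((J((u : ℤ) | w) : ℤ) : ℝ) / u| ≤ ∑ u ∈ S, ((u : ℝ))⁻¹ := by
  calc _ ≤ ∑ u ∈ A, |((J((u : ℤ) | w) : ℤ) : ℝ) / u| := Finset.abs_sum_le_sum_abs _ _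
    _ ≤ ∑ u ∈ A, ((u : ℝ))⁻¹ := by
        refine Finset.sum_le_sum fun u _ => ?_
        rw [abs_div, Nat.abs_cast, div_eq_mul_inv]
        exact mul_le_of_le_one_left (by positivity) (abs_jac_le _ _)
    _ ≤ _ := Finset.sum_le_sum_of_subset_of_nonneg hA fun w _ _ => by positivity

theorem T3_small {Y Z w : ℕ} (hw : w.Prime) (hw2 : w ≠ 2) (hZ : 3 ≤ Z)
    (hZV : Z ≤ 2 ^ (8 * Nat.log 2 w)) (hbad : ¬ Bd Y Z w) :
    SS Y w ≤ msum 1 0 Z + 9 +
      (msum 1 0 (2 ^ (8 * Nat.log 2 w)) - msum 1 0 (2 ^ (Nat.log 2 w / 8))) := by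
  unfold Bd at hbad
  push Not at hbad
  obtain ⟨h1, h2, h3⟩ := hbad
  set U := 2 ^ (Nat.log 2 w / 8) with hU
  set V := 2 ^ (8 * Nat.log 2 w) with hV
  have hUV : U ≤ V := Nat.pow_le_pow_right (by norm_num) (by omega)
  have hwo : Odd w := hw.odd_of_ne_two hw2
  unfold SS
  rw [t3_split hZV hUV]
  have k1 : ∑ u ∈ (range Y).filter (fun u => u.Prime ∧ u < Z), ((J((u : ℤ) | w) : ℤ) : ℝ) / u ≤ msum 1 0 Z := by
    refine (le_abs_self _).trans (t3_abs w _ _ ?_)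
    intro u hu
    rw [Finset.mem_filter] at hu ⊢
    exact ⟨Finset.mem_range.2 hu.2.2, hu.2.1, Nat.mod_one u⟩
  have k4 : ∑ u ∈ (range Y).filter (fun u => u.Prime ∧ V ≤ u), ((J((u : ℤ) | w) : ℤ) : ℝ) / u ≤ 1 := by
    refine (le_abs_self _).trans (le_trans (le_of_eq ?_) h3)
    congr 1
    refine Finset.sum_congr rfl fun u _ => ?_
    ring
  have k3 : ∑ u ∈ (range Y).filter (fun u => u.Prime ∧ max Z U ≤ u ∧ u < V), ((J((u : ℤ) | w) : ℤ) : ℝ) / u ≤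
      msum 1 0 V - msum 1 0 U := by
    have h4 : msum 1 0 V - msum 1 0 U =
        ∑ w ∈ ((range V).filter (fun p => p.Prime ∧ p % 1 = 0)) \
          ((range U).filter (fun p => p.Prime ∧ p % 1 = 0)), ((w : ℝ))⁻¹ := by
      unfold msum
      rw [Finset.sum_sdiff_eq_sub]
      exact Finset.filter_subset_filter _ (Finset.range_mono hUV)
    rw [h4]
    refine (le_abs_self _).trans (t3_abs w _ _ ?_)
    intro u hu
    rw [Finset.mem_filter] at hu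
    rw [Finset.mem_sdiff, Finset.mem_filter, Finset.mem_filter, Finset.mem_range, Finset.mem_range]
    refine ⟨⟨hu.2.2.2, hu.2.1, Nat.mod_one u⟩, fun h5 => ?_⟩
    have := hu.2.2.1
    omega
  have k2 : ∑ u ∈ (range Y).filter (fun u => u.Prime ∧ Z ≤ u ∧ u < U), ((J((u : ℤ) | w) : ℤ) : ℝ) / u ≤ 1 := by
    have hset : (range Y).filter (fun u => u.Prime ∧ Z ≤ u ∧ u < U) =
        (range Y).filter (fun u => u.Prime ∧ u ≠ 2 ∧ Z ≤ u ∧ u < U) := by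
      refine Finset.filter_congr fun u _ => ?_
      constructor
      · rintro ⟨a, b, c⟩
        exact ⟨a, by omega, b, c⟩
      · rintro ⟨a, _, b, c⟩
        exact ⟨a, b, c⟩
    rw [hset]
    have hodd : w % 4 = 1 ∨ w % 4 = 3 := by
      have := Nat.odd_iff.1 hwo
      omega
    rcases hodd with h4 | h4
    · refine (le_abs_self _).trans (le_trans (le_of_eq ?_) h1)
      congr 1
      refine Finset.sum_congr rfl fun u hu => ?_
      have hu' := (Finset.mem_filter.1 hu).2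
      have huo : Odd u := hu'.1.odd_of_ne_two hu'.2.1
      have h5 := jacobiSym.quadratic_reciprocity_if (Nat.odd_iff.mp huo) (Nat.odd_iff.mp hwo)
      rw [if_neg (by omega)] at h5
      rw [← h5]
      ring
    · refine (le_abs_self _).trans (le_trans (le_of_eq ?_) h2)
      congr 1
      refine Finset.sum_congr rfl fun u hu => ?_
      have hu' := (Finset.mem_filter.1 hu).2
      have huo : Odd u := hu'.1.odd_of_ne_two hu'.2.1
      have h5 := jacobiSym.quadratic_reciprocity_if (Nat.odd_iff.mp huo) (Nat.odd_iff.mp hwo)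
      have hm : u % 4 = 1 ∨ u % 4 = 3 := by
        have := Nat.odd_iff.1 huo
        omega
      rcases hm with hm | hm
      · rw [if_neg (by omega)] at h5
        rw [← h5, jacobiSym.at_neg_one huo, ZMod.χ₄_nat_one_mod_four hm]
        push_cast
        ring
      · rw [if_pos ⟨hm, h4⟩] at h5
        rw [← h5, jacobiSym.at_neg_one huo, ZMod.χ₄_nat_three_mod_four hm]
        push_cast
        ring
  linarith

end Pool.Agent.Lib.MP_79499b_co.PL
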