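import Pool.Agent.Lib.MP_79499b_co.PL.T1
import Pool.Agent.Lib.MP_79499b_co.PL.T3

/-!
# T4: all but few moduli are good

Proof: as `good_T` (Q38GoodT): `Z = ⌈(log x)^6⌉`, `B` the set of `T3_weight`; its weight is `≤ 1/(log x)^2` by the same computation. For an odd prime `w ≤ x`, `w ∉ B`: if `w ≥ Z^2`, `w` is not bad (a prime is odd and squarefree), `T3_small`:
`msum 1 0 Z ≤ log log Z + C`, the difference is `≤ log 128 + C`, so `SS ≤ log log Z + C'' ≤ δ LL x` for large `x`; if `w < Z^2`: `T1_main`: `log (log (Z^2) + 4) + C ≤ δ LL x`.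
-/

set_option autoImplicit false

namespace Pool.Agent.Lib.MP_79499b_co.PL

open Finset Q38
open scoped Classical NumberTheorySymbols

theorem T4_main {δ : ℝ} (hδ : 0 < δ) : ∃ x₀ : ℕ, ∀ x : ℕ, x₀ ≤ x → ∀ Y : ℕ, 3 ≤ Y → Y ≤ x →
    ∃ B : Finset ℕ, (∀ b ∈ B, 0 < b) ∧ ∑ b ∈ B, 1 / (b : ℝ) ≤ 1 / (Real.log x) ^ 2 ∧
      ∀ w : ℕ, w.Prime → w ≠ 2 → w ≤ x → w ∉ B → SS Y w ≤ δ * LL x := by
  obtain ⟨C1, hC10, hC1⟩ := T1_main
  obtain ⟨C2, hC20, hC2⟩ := msum_one_le
  obtain ⟨C3, hC3⟩ := mertens_all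
  -- conditions on x
  have hev1 : ∀ᶠ x : ℕ in Filter.atTop, Real.log (12 * Real.log (Real.log x) + (Real.log 4 + 4)) + C1 ≤
      δ * Real.log (Real.log x) :=
    tendsto_loglog.eventually (eventually_log_le 12 _ C1 δ (by norm_num) hδ)
  have hev2 : ∀ᶠ x : ℕ in Filter.atTop, Real.log (6 * Real.log (Real.log x) + Real.log 2) +
      (C2 + 9 + (Real.log 128 + C2 + C3)) ≤ δ * Real.log (Real.log x) :=
    tendsto_loglog.eventually (eventually_log_le 6 _ _ δ (by norm_num) hδ)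
  have hev3 : ∀ᶠ x : ℕ in Filter.atTop, Real.log (1 * Real.log x + 0) + C2 ≤ 1 * Real.log x :=
    tendsto_log_nat.eventually (eventually_log_le 1 0 C2 1 one_pos one_pos)
  obtain ⟨x₀, hx₀⟩ := Filter.eventually_atTop.mp (hev1.and (hev2.and (hev3.and
    (tendsto_log_nat.eventually_ge_atTop 400))))
  refine ⟨max x₀ 3, fun x hx Y hY3 hYx => ?_⟩
  obtain ⟨h1, h2, h3, h4⟩ := hx₀ x (le_trans (le_max_left _ _) hx)
  have hx3 : 3 ≤ x := le_trans (le_max_right _ _) hx
  unfold LL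
  set Lx := Real.log x with hLx
  set Z : ℕ := ⌈Lx ^ 6⌉₊ with hZ
  have hLx1 : 1 ≤ Lx := by linarith
  have hLx0 : 0 < Lx := by linarith
  have hZlow : Lx ^ 6 ≤ Z := Nat.le_ceil _
  have hZup : (Z : ℝ) ≤ 2 * Lx ^ 6 := by
    have : (Z : ℝ) < Lx ^ 6 + 1 := Nat.ceil_lt_add_one (by positivity)
    have h5 : 1 ≤ Lx ^ 6 := one_le_pow₀ hLx1
    linarith
  have hZ400 : (400 : ℝ) ≤ Z := by
    have : Lx ≤ Lx ^ 6 := le_self_pow₀ hLx1 (by norm_num)
    linarith
  have hZ400' : 400 ≤ Z := by exact_mod_cast hZ400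
  have hZ1 : 1 ≤ Z := by omega
  refine ⟨(range (x + 1)).filter (fun b => (Odd b ∧ Squarefree b) ∧ Z ^ 2 ≤ b ∧ Bd Y Z b),
    fun b hb => ((mem_filter.mp hb).2.1.1).pos, ?_, ?_⟩
  · -- weight
    refine (T3_weight hZ1).trans ?_
    have hY1 : 1 ≤ Y := by omega
    have hlogY : Real.log Y ≤ Lx := Real.log_le_log (by positivity) (by exact_mod_cast hYx)
    have hlogY1 : 1 < Real.log Y := one_lt_log hY3
    have hm : msum 1 0 Y ≤ Lx := by
      have h5 := hC2 Y hY3
      have h6 : Real.log (Real.log Y) ≤ Real.log Lx := Real.log_le_log (by linarith) hlogY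
      have h7 : Real.log (1 * Lx + 0) = Real.log Lx := by ring_nf
      rw [h7, one_mul] at h3
      linarith
    have hm0 : 0 ≤ msum 1 0 Y := Finset.sum_nonneg fun w _ => by positivity
    have hn1 : (Nat.log 2 x : ℝ) + 1 ≤ 3 * Lx := by
      have := natlog_le x (by omega)
      linarith
    have hn2 : (Nat.log 2 Y : ℝ) + 1 ≤ 3 * Lx := by
      have := natlog_le Y hY1
      linarith
    have hs : Real.sqrt (6 * (msum 1 0 Y * ((Nat.log 2 Y : ℝ) + 1))) ≤ 5 * Lx := by
      apply Real.sqrt_le_iff.mpr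
      refine ⟨by positivity, ?_⟩
      have h5 : msum 1 0 Y * ((Nat.log 2 Y : ℝ) + 1) ≤ Lx * (3 * Lx) :=
        mul_le_mul hm hn2 (by positivity) hLx0.le
      nlinarith
    calc ((Nat.log 2 x : ℝ) + 1) *
          ((12 + 8 * Real.sqrt (6 * (msum 1 0 Y * ((Nat.log 2 Y : ℝ) + 1)))) / Z)
        ≤ (3 * Lx) * ((12 + 8 * (5 * Lx)) / Lx ^ 6) := by
          gcongr
      _ ≤ (3 * Lx) * ((52 * Lx) / Lx ^ 6) := by
          gcongr
          linarith
      _ = 156 / Lx ^ 4 := by field_simp; norm_num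
      _ ≤ 1 / Lx ^ 2 := by
          rw [div_le_div_iff₀ (by positivity) (by positivity)]
          have : Lx ^ 4 = Lx ^ 2 * Lx ^ 2 := by ring
          rw [this]
          have h5 : 156 ≤ Lx ^ 2 := by nlinarith
          have h6 : 0 < Lx ^ 2 := by positivity
          nlinarith
  · intro w hw hw2 hwx hwB
    by_cases hbZ : Z ^ 2 ≤ w
    · -- large, not bad
      have hnb : ¬ Bd Y Z w := fun h => hwB (mem_filter.mpr ⟨mem_range.mpr (by omega),
        ⟨hw.odd_of_ne_two hw2, hw.prime.squarefree⟩, hbZ, h⟩)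
      set j := Nat.log 2 w with hj
      have hbj : w < 2 ^ (j + 1) := Nat.lt_pow_succ_log_self (by norm_num) w
      have hj16 : 16 ≤ j := by
        by_contra hcon
        push Not at hcon
        have h5 : 2 ^ (j + 1) ≤ 2 ^ 16 := Nat.pow_le_pow_right (by norm_num) (by omega)
        have h6 : 400 ^ 2 ≤ Z ^ 2 := Nat.pow_le_pow_left hZ400' 2
        omega
      have hZV : Z ≤ 2 ^ (8 * j) := by
        calc Z ≤ Z ^ 2 := Nat.le_self_pow (by norm_num) Z
          _ ≤ w := hbZ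
          _ ≤ 2 ^ (j + 1) := hbj.le
          _ ≤ 2 ^ (8 * j) := Nat.pow_le_pow_right (by norm_num) (by omega)
      have h6 : SS Y w ≤ msum 1 0 Z + 9 + (msum 1 0 (2 ^ (8 * j)) - msum 1 0 (2 ^ (j / 8))) :=
        T3_small hw hw2 (by omega) hZV hnb
      have hU3 : 3 ≤ 2 ^ (j / 8) := by
        calc 3 ≤ 2 ^ 2 := by norm_num
          _ ≤ 2 ^ (j / 8) := Nat.pow_le_pow_right (by norm_num) (by omega)
      have hV3 : 3 ≤ 2 ^ (8 * j) := by
        calc 3 ≤ 2 ^ 2 := by norm_num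
          _ ≤ 2 ^ (8 * j) := Nat.pow_le_pow_right (by norm_num) (by omega)
      have h7 := hC2 _ hV3
      have h8 := hC3 _ hU3
      have h9 := hC2 Z (by omega)
      have hlog2 : 0 < Real.log 2 := Real.log_pos (by norm_num)
      have h10 : Real.log (Real.log ((2 ^ (8 * j) : ℕ) : ℝ)) ≤
          Real.log (Real.log ((2 ^ (j / 8) : ℕ) : ℝ)) + Real.log 128 := by
        have hj8 : (0 : ℝ) < ((j / 8 : ℕ) : ℝ) := by
          have : 0 < j / 8 := by omega
          exact_mod_cast this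
        have hj0 : (0 : ℝ) < ((8 * j : ℕ) : ℝ) := by
          have : 0 < 8 * j := by omega
          exact_mod_cast this
        rw [Nat.cast_pow, Nat.cast_pow, Nat.cast_ofNat, Real.log_pow, Real.log_pow,
          ← Real.log_mul (mul_pos hj8 hlog2).ne' (by norm_num)]
        apply Real.log_le_log (mul_pos hj0 hlog2)
        have h11 : 8 * j ≤ (j / 8) * 128 := by omega
        have h12 : ((8 * j : ℕ) : ℝ) ≤ ((j / 8 : ℕ) : ℝ) * 128 := by exact_mod_cast h11
        calc ((8 * j : ℕ) : ℝ) * Real.log 2 ≤ (((j / 8 : ℕ) : ℝ) * 128) * Real.log 2 :=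
              mul_le_mul_of_nonneg_right h12 hlog2.le
          _ = _ := by ring
      have h11 : Real.log (Real.log Z) ≤ Real.log (6 * Real.log Lx + Real.log 2) := by
        apply Real.log_le_log
        · apply Real.log_pos; linarith
        · have h12 : Real.log Z ≤ Real.log (2 * Lx ^ 6) := Real.log_le_log (by linarith) hZup
          rw [Real.log_mul (by norm_num) (by positivity), Real.log_pow] at h12
          push_cast at h12
          linarith
      linarith
    · -- small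
      push Not at hbZ
      have h5 := hC1 Y w hY3 hw hw2
      refine h5.trans (le_trans ?_ h1)
      have hw0 : (0 : ℝ) < w := by exact_mod_cast hw.pos
      have hw1 : (1 : ℝ) ≤ w := by exact_mod_cast hw.one_le
      refine add_le_add (Real.log_le_log ?_ ?_) le_rfl
      · have : 0 ≤ Real.log (w : ℝ) := Real.log_nonneg hw1
        linarith
      · have h6 : (w : ℝ) ≤ 4 * (Lx ^ 6) ^ 2 := by
          have h7 : (w : ℝ) ≤ (Z : ℝ) ^ 2 := by exact_mod_cast hbZ.le
          have h8 : (Z : ℝ) ^ 2 ≤ (2 * Lx ^ 6) ^ 2 := pow_le_pow_left₀ (by positivity) hZup 2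
          nlinarith
        have h8 := Real.log_le_log hw0 h6
        rw [Real.log_mul (by norm_num) (by positivity), ← pow_mul, Real.log_pow] at h8
        push_cast at h8 ⊢
        linarith

end Pool.Agent.Lib.MP_79499b_co.PL
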