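import Pool.Agent.Lib.MP_79499b_co.PL.Defs

/-!
# W0: residues and `ZMod p`

Proof. `t ↦ (t.1, t.2.1, t.2.2)` from `range p` to `ZMod p` is a bijection (`ZMod.natCast_zmod_val`, `ZMod.val_lt`, `ZMod.val_natCast_of_lt`);
`Finset.card_bij` / `card_nbij'`. The filters use classical decidability: prove the equality of cards by a bijection, not by
rewriting instances.
-/

set_option autoImplicit false

namespace Pool.Agent.Lib.MP_79499b_co.PL

open Finset Q38
open scoped Classical NumberTheorySymbols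

theorem W0_main {p : ℕ} [Fact p.Prime] (P : ZMod p → ZMod p → ZMod p → Prop) :
    ((range p ×ˢ range p ×ˢ range p).filter (fun t : ℕ × ℕ × ℕ =>
      P (t.1 : ZMod p) (t.2.1 : ZMod p) (t.2.2 : ZMod p))).card =
    ((univ : Finset (ZMod p × ZMod p × ZMod p)).filter (fun t => P t.1 t.2.1 t.2.2)).card := by
  have hv : ∀ a : ℕ, a < p → ((a : ZMod p)).val = a := fun a ha => ZMod.val_natCast_of_lt ha
  have hc : ∀ a : ZMod p, ((a.val : ℕ) : ZMod p) = a := fun a => ZMod.natCast_zmod_val a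
  apply Finset.card_nbij' (fun t : ℕ × ℕ × ℕ => ((t.1 : ZMod p), (t.2.1 : ZMod p), (t.2.2 : ZMod p)))
    (fun t : ZMod p × ZMod p × ZMod p => (t.1.val, t.2.1.val, t.2.2.val))
  · rintro ⟨a, b, e⟩ ht
    rw [Finset.mem_coe, Finset.mem_filter] at ht
    rw [Finset.mem_coe, Finset.mem_filter]
    exact ⟨Finset.mem_univ _, ht.2⟩
  · rintro ⟨a, b, e⟩ ht
    rw [Finset.mem_coe, Finset.mem_filter] at ht
    rw [Finset.mem_coe, Finset.mem_filter, Finset.mem_product, Finset.mem_product, Finset.mem_range,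
      Finset.mem_range, Finset.mem_range]
    refine ⟨⟨ZMod.val_lt a, ZMod.val_lt b, ZMod.val_lt e⟩, ?_⟩
    simp only [hc]
    exact ht.2
  · rintro ⟨a, b, e⟩ ht
    rw [Finset.mem_coe, Finset.mem_filter, Finset.mem_product, Finset.mem_product, Finset.mem_range,
      Finset.mem_range, Finset.mem_range] at ht
    simp only [hv a ht.1.1, hv b ht.1.2.1, hv e ht.1.2.2]
  · rintro ⟨a, b, e⟩ _
    simp only [hc]

end Pool.Agent.Lib.MP_79499b_co.PL
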