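import Pool.Agent.Lib.MP_79499b_co.PL.Defs

/-!
# W1: character sums of quadratic polynomials, conics

`χ = quadraticChar (ZMod p)`, `S(α, β) = ∑_x χ(α x^2 + β)`.

`W1_sum`: `S(α, β) = -χ(α)` for `α, β ≠ 0`. Proof. (1) `S(α, β) = χ(β) S(α/β, 1)`. (2) For `α ≠ 0` replace `x ≠ 0` by `1/x`: `χ(α/x^2 + 1) = χ(α + x^2)`
(`χ(x^2) = 1`), so `S(α, 1) - χ(1) = S(1, α) - χ(α)`, and by (1) `S(1, α) = χ(α) S(1/α, 1) = χ(α) S(α, 1)` (`1/α = α (1/α)^2`, and `S(α γ^2, 1) = S(α, 1)` for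
`γ ≠ 0` by `x ↦ γ x`). So `S(α,1)(1 - χ(α)) = 1 - χ(α)`: for a nonsquare `g`: `S(g, 1) = 1`. (3) `∑_α S(α, 1) = ∑_x ∑_α χ(α x^2 + 1) = p` (`x = 0` gives `p`, each `x ≠ 0` gives
`∑_y χ(y) = 0`), and `S(0,1) = p`, so `∑_{α ≠ 0} S(α,1) = 0`; the `(p-1)/2` nonsquares give `1` each, so for the squares, on which `S(α, 1) = S(1, 1)` is constant,
`S(1,1) = -1`. So `S(α, 1) = -χ(α)`, and `S(α, β) = -χ(β) χ(α/β) = -χ(α)`.

`W1_conic`: `#{(x,y) : x^2 - d y^2 = c} = ∑_y (1 + χ(d y^2 + c)) = p + S(d, c) = p - χ(d) ≥ p - 1` (the number of `x` with `x^2 = z` is `1 + χ(z)`: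
`quadraticChar_card_sqrts`).

`W1_sq`: let `z ≤ 2` be the number of `m` with `1 + m^2 = 0`. The number of `m` with `1 + m^2` a nonzero square is `(p - z + S(1,1))/2 ≥ (p-3)/2`, that of the `m`
with `1 + m^2` a nonsquare is `(p - z - S(1,1))/2 ≥ (p - 1)/2`. The first is the case `Q`, the second `¬ Q`.
-/

set_option autoImplicit false

namespace Pool.Agent.Lib.MP_79499b_co.PL

open Finset Q38
open scoped Classical NumberTheorySymbols

private theorem W1_char {p : ℕ} [Fact p.Prime] (hp : p ≠ 2) : ringChar (ZMod p) ≠ 2 := by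
  rwa [ZMod.ringChar_zmod_n]

private theorem W1_cnt {p : ℕ} [Fact p.Prime] (hp : p ≠ 2) (z : ZMod p) :
    (((univ : Finset (ZMod p)).filter (fun x : ZMod p => x ^ 2 = z)).card : ℤ) =
      quadraticChar (ZMod p) z + 1 := by
  rw [← quadraticChar_card_sqrts (W1_char hp) z]
  congr 1
  congr 1
  ext x
  simp

private theorem W1_fib {p : ℕ} [Fact p.Prime] (hp : p ≠ 2) (f : ZMod p → ℤ) :
    ∑ x : ZMod p, f (x ^ 2) = ∑ z : ZMod p, (quadraticChar (ZMod p) z + 1) * f z := by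
  rw [← Finset.sum_fiberwise (s := (univ : Finset (ZMod p))) (g := fun x : ZMod p => x ^ 2)
    (f := fun x => f (x ^ 2))]
  refine Finset.sum_congr rfl fun z _ => ?_
  rw [← W1_cnt hp z, Finset.sum_congr rfl (g := fun _ => f z)
    (fun x hx => by rw [(mem_filter.mp hx).2]), Finset.sum_const, nsmul_eq_mul]

private theorem W1_lin {p : ℕ} [Fact p.Prime] (hp : p ≠ 2) {α : ZMod p} (hα : α ≠ 0)
    (β : ZMod p) : ∑ z : ZMod p, quadraticChar (ZMod p) (α * z + β) = 0 := by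
  rw [← quadraticChar_sum_zero (W1_char hp)]
  refine Function.Bijective.sum_comp (e := fun z : ZMod p => α * z + β) ?_
    (fun y => quadraticChar (ZMod p) y)
  constructor
  · intro x y h
    have h1 : α * x + β = α * y + β := h
    exact mul_left_cancel₀ hα (add_right_cancel h1)
  · intro y
    refine ⟨α⁻¹ * (y - β), ?_⟩
    show α * (α⁻¹ * (y - β)) + β = y
    rw [mul_inv_cancel_left₀ hα, sub_add_cancel]

theorem W1_sum {p : ℕ} [Fact p.Prime] (hp : p ≠ 2) {α β : ZMod p} (hα : α ≠ 0) (hβ : β ≠ 0) :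
    ∑ x : ZMod p, quadraticChar (ZMod p) (α * x ^ 2 + β) = -quadraticChar (ZMod p) α := by
  rw [W1_fib hp (fun y => quadraticChar (ZMod p) (α * y + β))]
  simp only [add_mul, one_mul]
  rw [Finset.sum_add_distrib, W1_lin hp hα β, add_zero]
  have h1 : ∀ z : ZMod p, quadraticChar (ZMod p) z * quadraticChar (ZMod p) (α * z + β) =
      quadraticChar (ZMod p) (β * z⁻¹ + α) -
        if z = 0 then quadraticChar (ZMod p) α else 0 := by
    intro z
    by_cases hz : z = 0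
    · rw [if_pos hz, hz, inv_zero, mul_zero, mul_zero, zero_add, zero_add, MulChar.map_zero]
      ring
    · rw [if_neg hz, sub_zero, ← map_mul]
      have h2 : z * (α * z + β) = z ^ 2 * (β * z⁻¹ + α) := by
        field_simp
        ring
      rw [h2, map_mul, quadraticChar_sq_one' hz, one_mul]
  rw [Finset.sum_congr rfl fun z _ => h1 z, Finset.sum_sub_distrib, Finset.sum_ite_eq' univ (0 : ZMod p)]
  rw [if_pos (mem_univ _)]
  have h3 : ∑ z : ZMod p, quadraticChar (ZMod p) (β * z⁻¹ + α) = 0 := by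
    rw [← W1_lin hp hβ α]
    exact Function.Bijective.sum_comp (e := fun z : ZMod p => z⁻¹) inv_involutive.bijective
      (fun y => quadraticChar (ZMod p) (β * y + α))
  rw [h3, zero_sub]

theorem W1_conic {p : ℕ} [Fact p.Prime] (hp : p ≠ 2) {d c : ZMod p} (hd : d ≠ 0) (hc : c ≠ 0) :
    p - 1 ≤ ((univ : Finset (ZMod p × ZMod p)).filter
      (fun t : ZMod p × ZMod p => t.1 ^ 2 - d * t.2 ^ 2 = c)).card := by
  have h1 : (((univ : Finset (ZMod p × ZMod p)).filter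
      (fun t : ZMod p × ZMod p => t.1 ^ 2 - d * t.2 ^ 2 = c)).card : ℤ) =
      ∑ y : ZMod p, (quadraticChar (ZMod p) (d * y ^ 2 + c) + 1) := by
    rw [Finset.card_filter]
    push_cast
    rw [Fintype.sum_prod_type_right]
    refine Finset.sum_congr rfl fun y _ => ?_
    rw [← W1_cnt hp, Finset.card_filter]
    push_cast
    refine Finset.sum_congr rfl fun x _ => ?_
    have h2 : x ^ 2 - d * y ^ 2 = c ↔ x ^ 2 = d * y ^ 2 + c := by
      rw [sub_eq_iff_eq_add, add_comm]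
    simp only [h2]
  rw [Finset.sum_add_distrib, W1_sum hp hd hc] at h1
  simp only [Finset.sum_const, Finset.card_univ, ZMod.card, nsmul_eq_mul, mul_one] at h1
  have h3 : quadraticChar (ZMod p) d ≤ 1 := by
    rcases quadraticChar_dichotomy hd with h | h
    · rw [h]
    · rw [h]
      norm_num
  omega

theorem W1_sq {p : ℕ} [Fact p.Prime] (hp : p ≠ 2) (Q : Prop) :
    p ≤ 2 * ((univ : Finset (ZMod p)).filter
      (fun m : ZMod p => 1 + m ^ 2 ≠ 0 ∧ (IsSquare (1 + m ^ 2) ↔ Q))).card + 3 := by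
  obtain ⟨A, hA⟩ : ∃ A, A = (univ : Finset (ZMod p)).filter
    (fun m : ZMod p => 1 + m ^ 2 ≠ 0 ∧ IsSquare (1 + m ^ 2)) := ⟨_, rfl⟩
  obtain ⟨B, hB⟩ : ∃ B, B = (univ : Finset (ZMod p)).filter
    (fun m : ZMod p => 1 + m ^ 2 ≠ 0 ∧ ¬ IsSquare (1 + m ^ 2)) := ⟨_, rfl⟩
  obtain ⟨Z, hZ⟩ : ∃ Z, Z = (univ : Finset (ZMod p)).filter
    (fun m : ZMod p => m ^ 2 = -1) := ⟨_, rfl⟩
  have h1 : (A.card : ℤ) + B.card + Z.card = p := by
    have h2 : ∀ m : ZMod p, (1 : ℤ) = (if 1 + m ^ 2 ≠ 0 ∧ IsSquare (1 + m ^ 2) then 1 else 0) +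
        (if 1 + m ^ 2 ≠ 0 ∧ ¬ IsSquare (1 + m ^ 2) then 1 else 0) +
        (if m ^ 2 = -1 then 1 else 0) := by
      intro m
      have e : m ^ 2 = -1 ↔ 1 + m ^ 2 = 0 := by
        rw [eq_neg_iff_add_eq_zero, add_comm]
      by_cases h3 : 1 + m ^ 2 = 0
      · simp [h3, e]
      · by_cases h4 : IsSquare (1 + m ^ 2) <;> simp [h3, h4, e]
    have h5 : (p : ℤ) = ∑ _m : ZMod p, (1 : ℤ) := by
      simp [ZMod.card]
    rw [h5, Finset.sum_congr rfl fun m _ => h2 m, Finset.sum_add_distrib,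
      Finset.sum_add_distrib, hA, hB, hZ, Finset.card_filter, Finset.card_filter,
      Finset.card_filter]
    push_cast
    rfl
  have h2 : (A.card : ℤ) - B.card = -1 := by
    have h3 := W1_sum hp (α := (1 : ZMod p)) (β := 1) one_ne_zero one_ne_zero
    rw [map_one] at h3
    rw [← h3, hA, hB, Finset.card_filter, Finset.card_filter]
    push_cast
    rw [← Finset.sum_sub_distrib]
    refine Finset.sum_congr rfl fun m _ => ?_
    rw [one_mul, add_comm (m ^ 2) 1]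
    by_cases h4 : 1 + m ^ 2 = 0
    · simp [h4]
    · by_cases h5 : IsSquare (1 + m ^ 2)
      · have h6 := (quadraticChar_one_iff_isSquare h4).mpr h5
        rw [h6]
        simp [h4, h5]
      · have h6 := quadraticChar_neg_one_iff_not_isSquare.mpr h5
        rw [h6]
        simp [h4, h5]
  have h3 : (Z.card : ℤ) ≤ 2 := by
    rw [hZ, W1_cnt hp]
    have hne : (-1 : ZMod p) ≠ 0 := neg_ne_zero.mpr one_ne_zero
    rcases quadraticChar_dichotomy hne with h | h
    · rw [h]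
      norm_num
    · rw [h]
      norm_num
  by_cases hQ : Q
  · have e : (univ : Finset (ZMod p)).filter
      (fun m : ZMod p => 1 + m ^ 2 ≠ 0 ∧ (IsSquare (1 + m ^ 2) ↔ Q)) = A := by
      rw [hA]
      ext m
      simp [hQ]
    rw [e]
    omega
  · have e : (univ : Finset (ZMod p)).filter
      (fun m : ZMod p => 1 + m ^ 2 ≠ 0 ∧ (IsSquare (1 + m ^ 2) ↔ Q)) = B := by
      rw [hB]
      ext m
      simp [hQ]
    rw [e]
    omega

end Pool.Agent.Lib.MP_79499b_co.PL
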