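import Pool.Agent.Lib.MP_79499b_co.PL.W1

/-!
# W2: matrices with prescribed first form and polar form

`W2_gauss`. For `P ≠ 0` the number of `(a, b)` with `gP a b = P` is at least `p - 1`: `gP a b = (a + 2b)^2 - 3 b^2`, `(a, b) ↦ (a + 2b, b)` is a bijection,
`W1_conic` with `d = 3`, `c = P`. Given such `(a, b)` and `B` there is `(e, f)` with `(a + 2b) e + (2a + b) f = B`, `-b e + a f = σ`: the determinant is
`(a+2b) a + b (2a + b) = gP a b = P ≠ 0`: `e = (a B - (2a+b) σ)/P`, `f = (b B + (a + 2b) σ)/P`. So `(P, B) ∈ Z`, `(a, b)` give different quadruples: an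
injective map from `{((P,B),(a,b)) : (P,B) ∈ Z, gP a b = P}` (a set of at least `(p-1) |Z|` elements) into the right hand set (`B` is recovered as `gB`).

`W2_crit`. The same with `4 cF a b = (2a+b)^2 + 3 b^2`, `W1_conic` with `d = -3`, `c = 4 z.1`, and `(2a + b) e + (a + 2b) f = N`, `-b e + a f = σ`, of determinant
`(2a+b) a + b (a + 2b) = 2 cF a b ≠ 0` (`p ≠ 2`).
-/

set_option autoImplicit false

namespace Pool.Agent.Lib.MP_79499b_co.PL

open Finset Q38
open scoped Classical NumberTheorySymbols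

private lemma W2_ne {p : ℕ} [Fact p.Prime] (hp : 13 ≤ p) {m : ℕ} (h0 : 0 < m) (h1 : m < p) :
    (m : ZMod p) ≠ 0 := by
  intro h
  rw [ZMod.natCast_eq_zero_iff] at h
  have := Nat.le_of_dvd h0 h
  omega

private lemma W2_card {p : ℕ} [Fact p.Prime] (Z : Finset (ZMod p × ZMod p))
    (T : Finset (ZMod p × ZMod p × ZMod p × ZMod p)) (F : ZMod p × ZMod p × ZMod p × ZMod p → ZMod p × ZMod p)
    (hF : ∀ t ∈ T, F t ∈ Z)
    (h : ∀ z ∈ Z, p - 1 ≤ (T.filter (fun t => F t = z)).card) : (p - 1) * Z.card ≤ T.card := by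
  rw [Finset.card_eq_sum_card_fiberwise (f := F) (t := Z) (fun t ht => hF t ht), mul_comm, ← smul_eq_mul,
    ← Finset.sum_const]
  exact Finset.sum_le_sum fun z hz => h z hz

theorem W2_gauss {p : ℕ} [Fact p.Prime] (hp : 13 ≤ p) (σ : ZMod p)
    (Z : Finset (ZMod p × ZMod p)) (hZ : ∀ z ∈ Z, z.1 ≠ 0) :
    (p - 1) * Z.card ≤ ((univ : Finset (ZMod p × ZMod p × ZMod p × ZMod p)).filter
      (fun t : ZMod p × ZMod p × ZMod p × ZMod p => t.1 * t.2.2.2 = t.2.1 * t.2.2.1 + σ ∧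
        (gP t.1 t.2.1, gB t.1 t.2.1 t.2.2.1 t.2.2.2) ∈ Z)).card := by
  have hp2 : p ≠ 2 := by omega
  have h3 : (3 : ZMod p) ≠ 0 := by
    have := W2_ne hp (m := 3) (by norm_num) (by omega)
    exact_mod_cast this
  refine W2_card Z _ (fun t => (gP t.1 t.2.1, gB t.1 t.2.1 t.2.2.1 t.2.2.2)) (fun t ht => (Finset.mem_filter.mp ht).2.2) ?_
  rintro ⟨P, B⟩ hz
  have hP : P ≠ 0 := hZ _ hz
  refine (W1_conic hp2 h3 hP).trans ?_
  apply Finset.card_le_card_of_injOn (fun t : ZMod p × ZMod p => (t.1 - 2 * t.2, t.2,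
    ((t.1 - 2 * t.2) * B - (2 * (t.1 - 2 * t.2) + t.2) * σ) / P, (t.2 * B + t.1 * σ) / P))
  · rintro ⟨x, y⟩ ht
    rw [Finset.mem_coe, Finset.mem_filter] at ht
    have hxy : x ^ 2 - 3 * y ^ 2 = P := ht.2
    have hg : gP (x - 2 * y) y = P := by
      rw [gP, ← hxy]
      ring
    have e1 : (x - 2 * y) * ((y * B + x * σ) / P) = y * (((x - 2 * y) * B - (2 * (x - 2 * y) + y) * σ) / P) + σ := by
      field_simp
      rw [← hxy]
      ring
    have e2 : gB (x - 2 * y) y (((x - 2 * y) * B - (2 * (x - 2 * y) + y) * σ) / P) ((y * B + x * σ) / P) = B := by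
      rw [gB]
      field_simp
      rw [← hxy]
      ring
    rw [Finset.mem_coe, Finset.mem_filter, Finset.mem_filter]
    refine ⟨⟨Finset.mem_univ _, e1, ?_⟩, ?_⟩
    · simp only [hg, e2]
      exact hz
    · simp only [hg, e2]
  · rintro ⟨x, y⟩ _ ⟨x', y'⟩ _ h
    simp only [Prod.mk.injEq] at h
    obtain ⟨h1, h2, -⟩ := h
    subst h2
    rw [sub_left_inj] at h1
    rw [h1]

theorem W2_crit {p : ℕ} [Fact p.Prime] (hp : 13 ≤ p) (σ : ZMod p)
    (Z : Finset (ZMod p × ZMod p)) (hZ : ∀ z ∈ Z, z.1 ≠ 0) :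
    (p - 1) * Z.card ≤ ((univ : Finset (ZMod p × ZMod p × ZMod p × ZMod p)).filter
      (fun t : ZMod p × ZMod p × ZMod p × ZMod p => t.1 * t.2.2.2 = t.2.1 * t.2.2.1 + σ ∧
        (cF t.1 t.2.1, cN t.1 t.2.1 t.2.2.1 t.2.2.2) ∈ Z)).card := by
  have hp2 : p ≠ 2 := by omega
  have h2 : (2 : ZMod p) ≠ 0 := by
    have := W2_ne hp (m := 2) (by norm_num) (by omega)
    exact_mod_cast this
  have h3 : (-3 : ZMod p) ≠ 0 := by
    have := W2_ne hp (m := 3) (by norm_num) (by omega)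
    rw [neg_ne_zero]
    exact_mod_cast this
  refine W2_card Z _ (fun t => (cF t.1 t.2.1, cN t.1 t.2.1 t.2.2.1 t.2.2.2)) (fun t ht => (Finset.mem_filter.mp ht).2.2) ?_
  rintro ⟨P, N⟩ hz
  have hP : P ≠ 0 := hZ _ hz
  have hP4 : 4 * P ≠ 0 := by
    have h4 : (4 : ZMod p) = 2 * 2 := by norm_num
    rw [h4]
    exact mul_ne_zero (mul_ne_zero h2 h2) hP
  refine (W1_conic hp2 h3 hP4).trans ?_
  apply Finset.card_le_card_of_injOn (fun t : ZMod p × ZMod p => ((t.1 - t.2) / 2, t.2,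
    ((t.1 - t.2) / 2 * N - ((t.1 - t.2) / 2 + 2 * t.2) * σ) / (2 * P), (t.2 * N + t.1 * σ) / (2 * P)))
  · rintro ⟨x, y⟩ ht
    rw [Finset.mem_coe, Finset.mem_filter] at ht
    have hxy : x ^ 2 - -3 * y ^ 2 = 4 * P := ht.2
    obtain ⟨a, ha⟩ : ∃ a, a = (x - y) / 2 := ⟨_, rfl⟩
    have hx : x = 2 * a + y := by
      rw [ha]
      field_simp
      ring
    have hP' : P = a ^ 2 + a * y + y ^ 2 := by
      have h4 : (4 : ZMod p) ≠ 0 := by
        have h4 : (4 : ZMod p) = 2 * 2 := by norm_num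
        rw [h4]
        exact mul_ne_zero h2 h2
      apply mul_left_cancel₀ h4
      rw [← hxy, hx]
      ring
    have hg : cF a y = P := by
      rw [cF, hP']
    have h2P : 2 * P ≠ 0 := mul_ne_zero h2 hP
    have hE : (a * N - (a + 2 * y) * σ) / (2 * P) * (2 * P) = a * N - (a + 2 * y) * σ := div_mul_cancel₀ _ h2P
    have hF : (y * N + x * σ) / (2 * P) * (2 * P) = y * N + x * σ := div_mul_cancel₀ _ h2P
    have e1 : a * ((y * N + x * σ) / (2 * P)) = y * ((a * N - (a + 2 * y) * σ) / (2 * P)) + σ := by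
      apply mul_right_cancel₀ h2P
      linear_combination a * hF - y * hE + (a * σ) * hx - (2 * σ) * hP'
    have e2 : cN a y ((a * N - (a + 2 * y) * σ) / (2 * P)) ((y * N + x * σ) / (2 * P)) = N := by
      rw [cN]
      apply mul_right_cancel₀ h2P
      linear_combination (2 * a + y) * hE + (a + 2 * y) * hF + ((a + 2 * y) * σ) * hx - (2 * N) * hP'
    rw [Finset.mem_coe, Finset.mem_filter, Finset.mem_filter]
    simp only [← ha]
    refine ⟨⟨Finset.mem_univ _, e1, ?_⟩, ?_⟩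
    · simp only [hg, e2]
      exact hz
    · simp only [hg, e2]
  · rintro ⟨x, y⟩ _ ⟨x', y'⟩ _ h
    simp only [Prod.mk.injEq] at h
    obtain ⟨h1, h1', -⟩ := h
    subst h1'
    rw [div_left_inj' h2, sub_left_inj] at h1
    rw [h1]

end Pool.Agent.Lib.MP_79499b_co.PL
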