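import Pool.Agent.Lib.MP_79499b_co.PL.W1

/-!
# W3: the two sets of pairs in the Gauss case

`W3_conic`: map `m` (with `1 + m^2 ≠ 0`) to `s = (1 - m^2)/(1 + m^2)`, `t = 2m/(1+m^2)`, `z = (1 + 2s, 2t)`: `(z.1 - 1)^2 + z.2^2 = 4 (s^2 + t^2) = 4`,
`z.1 + 1 = 2 + 2s = 4/(1+m^2) ≠ 0`, and it is a square iff `1 + m^2` is (`4/(1+m^2) = (2/(1+m^2))^2 (1 + m^2)`). The map is injective (`m = z.2/(z.1 + 1)`).
`z.1 = 0` iff `2 (1 - m^2) = -(1 + m^2)`, `m^2 = 3`: at most 2 values of `m`. So by `W1_sq` (with `Q`) `2 # ≥ p - 3 - 4`.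

`W3_four`: `p ≡ 1 mod 12`: there are `ω, i` with `ω^2 = -3`, `i^2 = -1` (`ZMod.exists_sq_eq_neg_one_iff`; `-3` is a square mod `p ≡ 1 mod 3`: e.g. an element
`ρ` of order 3, `ω = 2ρ + 1`; or reciprocity). For `B ≠ 0`, `B^2 ≠ 3` (at least `p - 3` values of `B`) and signs `ε, δ ∈ {1,-1}` put `P = ε ω + δ i B`. Then
`P^2 + B^2 - 3 = -6 + 2 εδ ω i B = 2 ε ω P` (as `-6 = 2 ω^2`), whose square is `-12 P^2`. `P ≠ 0`: otherwise `ω^2 = i^2 B^2`, `B^2 = 3`. The four values are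
different: two of them differ by `2ω`, `2 i B` or `2(ω ± i B)` up to sign, all `≠ 0`. So there are at least `4 (p - 3)` pairs `(P, B)`.
-/

set_option autoImplicit false

namespace Pool.Agent.Lib.MP_79499b_co.PL

open Finset Q38
open scoped Classical NumberTheorySymbols

private lemma W3_ne {p : ℕ} [Fact p.Prime] {m : ℕ} (h0 : 0 < m) (h1 : m < p) :
    (m : ZMod p) ≠ 0 := by
  intro h
  rw [ZMod.natCast_eq_zero_iff] at h
  have := Nat.le_of_dvd h0 h
  omega

private lemma W3_sqrt {p : ℕ} [Fact p.Prime] (c : ZMod p) :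
    ((univ : Finset (ZMod p)).filter (fun m : ZMod p => m ^ 2 = c)).card ≤ 2 := by
  by_cases h : ∃ m0 : ZMod p, m0 ^ 2 = c
  · obtain ⟨m0, h0⟩ := h
    refine (Finset.card_le_card (t := {m0, -m0}) ?_).trans Finset.card_le_two
    intro m hm
    rw [Finset.mem_filter] at hm
    rw [Finset.mem_insert, Finset.mem_singleton]
    have h1 : (m - m0) * (m + m0) = 0 := by linear_combination hm.2 - h0
    rcases mul_eq_zero.mp h1 with h2 | h2
    · exact Or.inl (sub_eq_zero.mp h2)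
    · exact Or.inr (eq_neg_of_add_eq_zero_left h2)
  · rw [Finset.filter_false_of_mem, Finset.card_empty]
    · exact Nat.zero_le _
    · exact fun m _ hm => h ⟨m, hm⟩

private lemma W3_card {p : ℕ} [Fact p.Prime] (S : Finset (ZMod p)) (c : ZMod p) :
    S.card ≤ (S.filter (fun m : ZMod p => m ^ 2 ≠ c)).card + 2 := by
  have h1 := Finset.card_filter_add_card_filter_not (s := S) (fun m : ZMod p => m ^ 2 = c)
  have h2 : (S.filter (fun m : ZMod p => m ^ 2 = c)).card ≤ 2 :=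
    (Finset.card_le_card (Finset.filter_subset_filter _ (Finset.subset_univ _))).trans (W3_sqrt c)
  have h3 : (S.filter (fun m : ZMod p => ¬ m ^ 2 = c)).card = (S.filter (fun m : ZMod p => m ^ 2 ≠ c)).card := rfl
  omega

theorem W3_conic {p : ℕ} [Fact p.Prime] (hp : 13 ≤ p) (Q : Prop) :
    p ≤ 2 * ((univ : Finset (ZMod p × ZMod p)).filter (fun z : ZMod p × ZMod p =>
      z.1 ≠ 0 ∧ z.1 + 1 ≠ 0 ∧ (z.1 - 1) ^ 2 + z.2 ^ 2 = 4 ∧ (IsSquare (z.1 + 1) ↔ Q))).card + 7 := by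
  have hp2 : p ≠ 2 := by omega
  have h2 : (2 : ZMod p) ≠ 0 := by
    have := W3_ne (p := p) (m := 2) (by norm_num) (by omega)
    exact_mod_cast this
  have h4 : (4 : ZMod p) ≠ 0 := by
    have := W3_ne (p := p) (m := 4) (by norm_num) (by omega)
    exact_mod_cast this
  have h1 := W1_sq hp2 Q
  have h5 := W3_card ((univ : Finset (ZMod p)).filter
      (fun m : ZMod p => 1 + m ^ 2 ≠ 0 ∧ (IsSquare (1 + m ^ 2) ↔ Q))) 3
  have h6 : (((univ : Finset (ZMod p)).filter
      (fun m : ZMod p => 1 + m ^ 2 ≠ 0 ∧ (IsSquare (1 + m ^ 2) ↔ Q))).filter (fun m : ZMod p => m ^ 2 ≠ 3)).card ≤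
      ((univ : Finset (ZMod p × ZMod p)).filter (fun z : ZMod p × ZMod p =>
      z.1 ≠ 0 ∧ z.1 + 1 ≠ 0 ∧ (z.1 - 1) ^ 2 + z.2 ^ 2 = 4 ∧ (IsSquare (z.1 + 1) ↔ Q))).card := by
    apply Finset.card_le_card_of_injOn (fun m : ZMod p => ((3 - m ^ 2) / (1 + m ^ 2), 4 * m / (1 + m ^ 2)))
    · intro m hm
      rw [Finset.mem_coe, Finset.mem_filter, Finset.mem_filter] at hm
      obtain ⟨⟨-, a1, a2⟩, a3⟩ := hm
      have e1 : (3 - m ^ 2) / (1 + m ^ 2) + 1 = 4 / (1 + m ^ 2) := by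
        field_simp
        ring
      rw [Finset.mem_coe, Finset.mem_filter]
      refine ⟨Finset.mem_univ _, ?_, ?_, ?_, ?_⟩
      · exact div_ne_zero (sub_ne_zero.mpr a3.symm) a1
      · show (3 - m ^ 2) / (1 + m ^ 2) + 1 ≠ 0
        rw [e1]
        exact div_ne_zero h4 a1
      · show ((3 - m ^ 2) / (1 + m ^ 2) - 1) ^ 2 + (4 * m / (1 + m ^ 2)) ^ 2 = 4
        field_simp
        ring
      · show IsSquare ((3 - m ^ 2) / (1 + m ^ 2) + 1) ↔ Q
        rw [e1, ← a2]
        constructor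
        · rintro ⟨r, hr⟩
          refine ⟨r * (1 + m ^ 2) / 2, ?_⟩
          have e2 : 4 = r * r * (1 + m ^ 2) := by
            rw [← hr, div_mul_cancel₀ _ a1]
          have e3 : r * (1 + m ^ 2) / 2 * (r * (1 + m ^ 2) / 2) = (r * r * (1 + m ^ 2)) * (1 + m ^ 2) / 4 := by
            have e4 : (4 : ZMod p) = 2 * 2 := by norm_num
            rw [e4]
            field_simp
          rw [e3, ← e2, mul_div_assoc, mul_comm, div_mul_cancel₀ _ h4]
        · rintro ⟨r, hr⟩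
          have hr0 : r ≠ 0 := by
            rintro rfl
            rw [mul_zero] at hr
            exact a1 hr
          refine ⟨2 / r, ?_⟩
          rw [hr]
          field_simp
          norm_num
    · intro m hm m' hm' h
      rw [Finset.mem_coe, Finset.mem_filter, Finset.mem_filter] at hm hm'
      have a1 := hm.1.2.1
      have a1' := hm'.1.2.1
      simp only [Prod.mk.injEq] at h
      obtain ⟨b1, b2⟩ := h
      have key : ∀ m : ZMod p, 1 + m ^ 2 ≠ 0 → 4 * m / (1 + m ^ 2) = ((3 - m ^ 2) / (1 + m ^ 2) + 1) * m := by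
        intro m hm
        field_simp
        ring
      have key2 : ∀ m : ZMod p, 1 + m ^ 2 ≠ 0 → (3 - m ^ 2) / (1 + m ^ 2) + 1 ≠ 0 := by
        intro m hm
        have e1 : (3 - m ^ 2) / (1 + m ^ 2) + 1 = 4 / (1 + m ^ 2) := by
          field_simp
          ring
        rw [e1]
        exact div_ne_zero h4 hm
      rw [key m a1, key m' a1', b1] at b2
      exact mul_left_cancel₀ (key2 m' a1') b2
  omega

private lemma W3_i {p : ℕ} [Fact p.Prime] (h12 : p % 12 = 1) : ∃ i : ZMod p, i ^ 2 = -1 := by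
  have h1 : IsSquare (-1 : ZMod p) := ZMod.exists_sq_eq_neg_one_iff.mpr (by omega)
  obtain ⟨i, hi⟩ := h1
  exact ⟨i, by rw [sq]; exact hi.symm⟩

private lemma W3_w {p : ℕ} [Fact p.Prime] (h12 : p % 12 = 1) : ∃ w : ZMod p, w ^ 2 = -3 := by
  have hpp : p.Prime := Fact.out
  have : Fact (Nat.Prime 3) := ⟨Nat.prime_three⟩
  have hcard : 3 ∣ Nat.card (ZMod p)ˣ := by
    rw [Nat.card_eq_fintype_card, ZMod.card_units]
    omega
  obtain ⟨x, hx⟩ := exists_prime_orderOf_dvd_card' (p := 3) hcard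
  have h1 : x ^ 3 = 1 := by rw [← hx]; exact pow_orderOf_eq_one x
  have h2 : x ≠ 1 := by
    rintro rfl
    rw [orderOf_one] at hx
    omega
  obtain ⟨r, hr⟩ : ∃ r : ZMod p, r = x := ⟨_, rfl⟩
  have h3 : r ^ 3 = 1 := by
    rw [hr, ← Units.val_pow_eq_pow_val, h1, Units.val_one]
  have h4 : r - 1 ≠ 0 := by
    intro h
    apply h2
    apply Units.ext
    rw [← hr, Units.val_one]
    exact sub_eq_zero.mp h
  have h5 : r ^ 2 + r + 1 = 0 := by
    apply mul_left_cancel₀ h4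
    rw [mul_zero]
    linear_combination h3
  exact ⟨2 * r + 1, by linear_combination 4 * h5⟩

theorem W3_four {p : ℕ} [Fact p.Prime] (hp : 13 ≤ p) (h12 : p % 12 = 1) :
    4 * p ≤ ((univ : Finset (ZMod p × ZMod p)).filter (fun z : ZMod p × ZMod p =>
      z.1 ≠ 0 ∧ (z.1 ^ 2 + z.2 ^ 2 - 3) ^ 2 + 12 * z.1 ^ 2 = 0)).card + 12 := by
  obtain ⟨i, hi⟩ := W3_i h12
  obtain ⟨w, hw⟩ := W3_w h12
  have h2 : (2 : ZMod p) ≠ 0 := by
    have := W3_ne (p := p) (m := 2) (by norm_num) (by omega)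
    exact_mod_cast this
  have h3 : (3 : ZMod p) ≠ 0 := by
    have := W3_ne (p := p) (m := 3) (by norm_num) (by omega)
    exact_mod_cast this
  have hi0 : i ≠ 0 := by
    rintro rfl
    rw [zero_pow two_ne_zero] at hi
    exact one_ne_zero (neg_eq_zero.mp hi.symm)
  have hw0 : w ≠ 0 := by
    rintro rfl
    rw [zero_pow two_ne_zero] at hw
    exact h3 (neg_eq_zero.mp hw.symm)
  -- the values of `B`
  have hG1 := W3_card ((univ : Finset (ZMod p)).erase 0) 3
  rw [Finset.card_erase_of_mem (Finset.mem_univ _), Finset.card_univ, ZMod.card] at hG1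
  rw [Finset.card_eq_sum_card_fiberwise (f := Prod.snd) (t := univ) (fun _ _ => Finset.mem_coe.mpr (Finset.mem_univ _))]
  have hfib : ∀ B ∈ ((univ : Finset (ZMod p)).erase 0).filter (fun m : ZMod p => m ^ 2 ≠ 3),
      4 ≤ (((univ : Finset (ZMod p × ZMod p)).filter (fun z : ZMod p × ZMod p =>
      z.1 ≠ 0 ∧ (z.1 ^ 2 + z.2 ^ 2 - 3) ^ 2 + 12 * z.1 ^ 2 = 0)).filter (fun z => z.2 = B)).card := by
    intro B hB
    rw [Finset.mem_filter, Finset.mem_erase] at hB
    obtain ⟨⟨hB0, -⟩, hB3⟩ := hB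
    have hiB : 2 * (i * B) ≠ 0 := mul_ne_zero h2 (mul_ne_zero hi0 hB0)
    have h2w : 2 * w ≠ 0 := mul_ne_zero h2 hw0
    have hne : ∀ e : ZMod p, e ^ 2 = 1 → w + e * (i * B) ≠ 0 := by
      intro e he h
      apply hB3
      have h5 : w = -(e * (i * B)) := eq_neg_of_add_eq_zero_left h
      have h6 : w ^ 2 = -(B ^ 2) := by
        rw [h5]
        linear_combination (i ^ 2 * B ^ 2) * he + B ^ 2 * hi
      rw [hw] at h6
      exact (neg_injective h6).symm
    have hmem : ∀ d e : ZMod p, d ^ 2 = 1 → e ^ 2 = 1 → (d * (w + e * (i * B)), B) ∈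
        (((univ : Finset (ZMod p × ZMod p)).filter (fun z : ZMod p × ZMod p =>
      z.1 ≠ 0 ∧ (z.1 ^ 2 + z.2 ^ 2 - 3) ^ 2 + 12 * z.1 ^ 2 = 0)).filter (fun z => z.2 = B)) := by
      intro d e hd he
      have hd0 : d ≠ 0 := by
        rintro rfl
        rw [zero_pow two_ne_zero] at hd
        exact zero_ne_one hd
      rw [Finset.mem_filter, Finset.mem_filter]
      refine ⟨⟨Finset.mem_univ _, mul_ne_zero hd0 (hne e he), ?_⟩, rfl⟩
      show ((d * (w + e * (i * B))) ^ 2 + B ^ 2 - 3) ^ 2 + 12 * (d * (w + e * (i * B))) ^ 2 = 0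
      have e1 : (d * (w + e * (i * B))) ^ 2 = (w + e * (i * B)) ^ 2 := by
        rw [mul_pow, hd, one_mul]
      have e2 : (w + e * (i * B)) ^ 2 + B ^ 2 - 3 = 2 * w * (w + e * (i * B)) := by
        linear_combination (i ^ 2 * B ^ 2) * he + B ^ 2 * hi - hw
      rw [e1, e2]
      linear_combination (4 * (w + e * (i * B)) ^ 2) * hw
    have hsub : ({(1 * (w + 1 * (i * B)), B), (1 * (w + -1 * (i * B)), B), (-1 * (w + 1 * (i * B)), B),
        (-1 * (w + -1 * (i * B)), B)} : Finset (ZMod p × ZMod p)) ⊆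
        (((univ : Finset (ZMod p × ZMod p)).filter (fun z : ZMod p × ZMod p =>
      z.1 ≠ 0 ∧ (z.1 ^ 2 + z.2 ^ 2 - 3) ^ 2 + 12 * z.1 ^ 2 = 0)).filter (fun z => z.2 = B)) := by
      intro z hz
      rw [Finset.mem_insert, Finset.mem_insert, Finset.mem_insert, Finset.mem_singleton] at hz
      rcases hz with rfl | rfl | rfl | rfl
      · exact hmem 1 1 (one_pow 2) (one_pow 2)
      · exact hmem 1 (-1) (one_pow 2) (by norm_num)
      · exact hmem (-1) 1 (by norm_num) (one_pow 2)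
      · exact hmem (-1) (-1) (by norm_num) (by norm_num)
    refine le_trans (le_of_eq ?_) (Finset.card_le_card hsub)
    have n1 := hne 1 (one_pow 2)
    have n2 := hne (-1) (by norm_num)
    have d12 : 1 * (w + 1 * (i * B)) ≠ 1 * (w + -1 * (i * B)) := fun h => hiB (by linear_combination h)
    have d13 : 1 * (w + 1 * (i * B)) ≠ -1 * (w + 1 * (i * B)) := fun h =>
      (mul_ne_zero h2 n1) (by linear_combination h)
    have d14 : 1 * (w + 1 * (i * B)) ≠ -1 * (w + -1 * (i * B)) := fun h => h2w (by linear_combination h)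
    have d23 : 1 * (w + -1 * (i * B)) ≠ -1 * (w + 1 * (i * B)) := fun h => h2w (by linear_combination h)
    have d24 : 1 * (w + -1 * (i * B)) ≠ -1 * (w + -1 * (i * B)) := fun h =>
      (mul_ne_zero h2 n2) (by linear_combination h)
    have d34 : -1 * (w + 1 * (i * B)) ≠ -1 * (w + -1 * (i * B)) := fun h => hiB (by linear_combination -h)
    rw [Finset.card_insert_of_notMem, Finset.card_insert_of_notMem, Finset.card_insert_of_notMem,
      Finset.card_singleton]
    · rw [Finset.mem_singleton, Prod.mk.injEq]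
      exact fun h => d34 h.1
    · rw [Finset.mem_insert, Finset.mem_singleton, Prod.mk.injEq, Prod.mk.injEq]
      rintro (h | h)
      · exact d23 h.1
      · exact d24 h.1
    · rw [Finset.mem_insert, Finset.mem_insert, Finset.mem_singleton, Prod.mk.injEq, Prod.mk.injEq, Prod.mk.injEq]
      rintro (h | h | h)
      · exact d12 h.1
      · exact d13 h.1
      · exact d14 h.1
  have h5 : 4 * (((univ : Finset (ZMod p)).erase 0).filter (fun m : ZMod p => m ^ 2 ≠ 3)).card ≤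
      ∑ B ∈ ((univ : Finset (ZMod p)).erase 0).filter (fun m : ZMod p => m ^ 2 ≠ 3),
      (((univ : Finset (ZMod p × ZMod p)).filter (fun z : ZMod p × ZMod p =>
      z.1 ≠ 0 ∧ (z.1 ^ 2 + z.2 ^ 2 - 3) ^ 2 + 12 * z.1 ^ 2 = 0)).filter (fun z => z.2 = B)).card := by
    rw [mul_comm, ← smul_eq_mul, ← Finset.sum_const]
    exact Finset.sum_le_sum hfib
  have h6 : ∑ B ∈ ((univ : Finset (ZMod p)).erase 0).filter (fun m : ZMod p => m ^ 2 ≠ 3),
      (((univ : Finset (ZMod p × ZMod p)).filter (fun z : ZMod p × ZMod p =>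
      z.1 ≠ 0 ∧ (z.1 ^ 2 + z.2 ^ 2 - 3) ^ 2 + 12 * z.1 ^ 2 = 0)).filter (fun z => z.2 = B)).card ≤
      ∑ B ∈ (univ : Finset (ZMod p)),
      (((univ : Finset (ZMod p × ZMod p)).filter (fun z : ZMod p × ZMod p =>
      z.1 ≠ 0 ∧ (z.1 ^ 2 + z.2 ^ 2 - 3) ^ 2 + 12 * z.1 ^ 2 = 0)).filter (fun z => z.2 = B)).card :=
    Finset.sum_le_sum_of_subset (Finset.subset_univ _)
  have h7 := h5.trans h6
  omega

end Pool.Agent.Lib.MP_79499b_co.PL
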