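import Pool.Agent.Lib.MP_79499b_co.PL.W2
import Pool.Agent.Lib.MP_79499b_co.PL.W3
import Pool.Agent.Lib.MP_79499b_co.EO.R2

/-!
# W4: lower bound for the number of forbidden classes, Gauss case

Proof. `Q := ¬ sg r p = 1`, `Z0` the set of `W3_conic`, `Z1` that of `W3_four` if `p % 12 = 1` and empty otherwise. `Z0 ∩ Z1 = ∅`: on `Z0`
`P^2 + B^2 - 3 = 2P` (`z = (P, B)`), `4 P^2 + 12 P^2 = 16 P^2 ≠ 0`. `W2_gauss` with `Z = Z0 ∪ Z1`: a set `T` of at least `(p-1)(|Z0| + |Z1|)` quadruples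
`(a, b, e, f)`, `a f = b e + σ`, `(P, B) = (gP a b, gB a b e f) ∈ Z`. Identity: `gP a b * gP e f = gB^2 - 3 (a f - b e)^2 = B^2 - 3` (`σ^2 = 1`), `R := gP e f`. On `Z0`:
`P (P + R - 2) = P^2 + B^2 - 3 - 2P = 0`, so `P + R = 2`. On `Z1`: `(P (P+R))^2 = (P^2 + B^2 - 3)^2 = -12 P^2`, `(P+R)^2 = -12`, i.e. with `X = P + R - 2`:
`X^2 + 4X + 16 = (X+2)^2 + 12 = 0`.
If `a ≠ 0` then `f = a⁻¹ (b e + σ)` and `OmG r σ p a b e` holds; so `T ∩ {a ≠ 0}` injects into the set of the claim by `(a,b,e)`. If `a = 0`, then `b e = -σ`, `b ≠ 0`,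
`e = -σ/b`, and `b^2 + e^2 + 4 e f + f^2 = P + R` is one of at most 3 values (`2`, and the roots of `y^2 = -12`): at most `2` values of `f` each (`R2_quad` in
EO/R2.lean): at most `6 (p-1)` quadruples. So the number is at least `(p-1)(|Z0| + |Z1| - 6)`, `2|Z0| ≥ p - 7`, `|Z1| ≥ 4p - 12`: at least `(p-1)(p-19)/2 ≥ p^2/2 - 40 p`, resp.
`(p-1)(9p - 43)/2 ≥ 9p^2/2 - 40 p`.
-/

set_option autoImplicit false

namespace Pool.Agent.Lib.MP_79499b_co.PL

open Finset Q38
open scoped Classical NumberTheorySymbols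

/-- the part `a = 0` of a set of quadruples of determinant `σ` -/
lemma W4_zero {p : ℕ} [Fact p.Prime] {σ : ZMod p} (hσ : σ ≠ 0)
    (T : Finset (ZMod p × ZMod p × ZMod p × ZMod p))
    (h1 : ∀ t ∈ T, t.1 * t.2.2.2 = t.2.1 * t.2.2.1 + σ) (k : ℕ) (S : ZMod p → Finset (ZMod p))
    (hS : ∀ b, (S b).card ≤ k) (h : ∀ t ∈ T, t.1 = 0 → t.2.2.2 ∈ S t.2.1) :
    (T.filter (fun t => t.1 = 0)).card ≤ p * k := by
  have h2 : (T.filter (fun t => t.1 = 0)).card ≤
      ((univ : Finset (ZMod p)).biUnion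
        (fun b => (S b).image (fun f => ((b, f) : ZMod p × ZMod p)))).card := by
    refine card_le_card_of_injOn (fun t => (t.2.1, t.2.2.2)) ?_ ?_
    · intro t ht
      rw [mem_coe, mem_filter] at ht
      rw [mem_coe, mem_biUnion]
      refine ⟨t.2.1, mem_univ _, ?_⟩
      rw [mem_image]
      exact ⟨t.2.2.2, h t ht.1 ht.2, rfl⟩
    · intro t ht u hu htu
      rw [mem_coe, mem_filter] at ht hu
      have e1 : t.2.1 = u.2.1 := (Prod.mk.inj htu).1
      have e2 : t.2.2.2 = u.2.2.2 := (Prod.mk.inj htu).2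
      have h3 := h1 t ht.1
      have h4 := h1 u hu.1
      rw [ht.2, zero_mul] at h3
      rw [hu.2, zero_mul] at h4
      have hb : u.2.1 ≠ 0 := by
        intro h0
        rw [h0, zero_mul, zero_add] at h4
        exact hσ h4.symm
      have e3 : t.2.2.1 = u.2.2.1 := by
        apply mul_left_cancel₀ hb
        rw [e1] at h3
        linear_combination h4 - h3
      have e0 : t.1 = u.1 := by rw [ht.2, hu.2]
      exact Prod.ext e0 (Prod.ext e1 (Prod.ext e3 e2))
  refine h2.trans (card_biUnion_le.trans ?_)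
  refine (sum_le_sum (fun b _ => (card_image_le.trans (hS b)))).trans ?_
  rw [sum_const, card_univ, ZMod.card, smul_eq_mul]

/-- a set of quadruples of determinant `σ` and the triples `(a, b, e)` -/
lemma W4_inj {p : ℕ} [Fact p.Prime] {σ : ZMod p}
    (T : Finset (ZMod p × ZMod p × ZMod p × ZMod p))
    (h1 : ∀ t ∈ T, t.1 * t.2.2.2 = t.2.1 * t.2.2.1 + σ) (K : ℕ)
    (Om : Finset (ZMod p × ZMod p × ZMod p))
    (h2 : ∀ t ∈ T, t.1 ≠ 0 → (t.1, t.2.1, t.2.2.1) ∈ Om)
    (h3 : (T.filter (fun t => t.1 = 0)).card ≤ K) :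
    T.card ≤ Om.card + K := by
  have h4 : T.card ≤ (T.filter (fun t => t.1 = 0)).card + (T.filter (fun t => t.1 ≠ 0)).card := by
    rw [← card_union_of_disjoint]
    · refine card_le_card ?_
      intro t ht
      rw [mem_union, mem_filter, mem_filter]
      by_cases h0 : t.1 = 0
      · exact Or.inl ⟨ht, h0⟩
      · exact Or.inr ⟨ht, h0⟩
    · rw [disjoint_left]
      intro t ht ht2
      rw [mem_filter] at ht ht2
      exact ht2.2 ht.2
  have h5 : (T.filter (fun t => t.1 ≠ 0)).card ≤ Om.card := by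
    refine card_le_card_of_injOn (fun t => (t.1, t.2.1, t.2.2.1)) ?_ ?_
    · intro t ht
      rw [mem_coe, mem_filter] at ht
      exact h2 t ht.1 ht.2
    · intro t ht u hu htu
      rw [mem_coe, mem_filter] at ht hu
      have e0 : t.1 = u.1 := (Prod.mk.inj htu).1
      have e1 : t.2.1 = u.2.1 := (Prod.mk.inj (Prod.mk.inj htu).2).1
      have e2 : t.2.2.1 = u.2.2.1 := (Prod.mk.inj (Prod.mk.inj htu).2).2
      have e3 : t.2.2.2 = u.2.2.2 := by
        apply mul_left_cancel₀ hu.2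
        rw [← e0, h1 t ht.1, e0, h1 u hu.1, e1, e2]
      exact Prod.ext e0 (Prod.ext e1 (Prod.ext e2 e3))
  omega

/-- integers `≤ 16` are units modulo `p ≥ 13`, special cases -/
private lemma W4_ne {p : ℕ} [Fact p.Prime] (hp : 13 ≤ p) : (2 : ZMod p) ≠ 0 := by
  intro h
  have h1 : ((2 : ℕ) : ZMod p) = 0 := by exact_mod_cast h
  rw [ZMod.natCast_eq_zero_iff] at h1
  have := Nat.le_of_dvd (by norm_num) h1
  omega

theorem W4_main {p : ℕ} [Fact p.Prime] (hp : 13 ≤ p) (r : ℕ) {σ : ℤ} (hσ : σ = 1 ∨ σ = -1) :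
    (if p % 12 = 1 then (9 / 2 : ℝ) else 1 / 2) * (p : ℝ) ^ 2 - 40 * p ≤
      (((univ : Finset (ZMod p × ZMod p × ZMod p)).filter
        (fun t : ZMod p × ZMod p × ZMod p => OmG r σ p t.1 t.2.1 t.2.2)).card : ℝ) := by
  set Z0 : Finset (ZMod p × ZMod p) := (univ : Finset (ZMod p × ZMod p)).filter
    (fun z : ZMod p × ZMod p => z.1 ≠ 0 ∧ z.1 + 1 ≠ 0 ∧ (z.1 - 1) ^ 2 + z.2 ^ 2 = 4 ∧
      (IsSquare (z.1 + 1) ↔ ¬ sg r p = 1)) with hZ0
  set Z1 : Finset (ZMod p × ZMod p) := if p % 12 = 1 then (univ : Finset (ZMod p × ZMod p)).filter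
    (fun z : ZMod p × ZMod p => z.1 ≠ 0 ∧ (z.1 ^ 2 + z.2 ^ 2 - 3) ^ 2 + 12 * z.1 ^ 2 = 0)
    else ∅ with hZ1
  have h2 : (2 : ZMod p) ≠ 0 := W4_ne hp
  have hs2 : ((σ : ℤ) : ZMod p) ^ 2 = 1 := by
    rcases hσ with h | h <;> rw [h] <;> norm_num
  have hs0 : ((σ : ℤ) : ZMod p) ≠ 0 := by
    intro h
    rw [h] at hs2
    norm_num at hs2
  have m0 : ∀ z ∈ Z0, z.1 ≠ 0 ∧ z.1 + 1 ≠ 0 ∧ (z.1 - 1) ^ 2 + z.2 ^ 2 = 4 ∧
      (IsSquare (z.1 + 1) ↔ ¬ sg r p = 1) := by
    intro z hz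
    rw [hZ0, mem_filter] at hz
    exact hz.2
  have m1 : ∀ z ∈ Z1, p % 12 = 1 ∧ z.1 ≠ 0 ∧
      (z.1 ^ 2 + z.2 ^ 2 - 3) ^ 2 + 12 * z.1 ^ 2 = 0 := by
    intro z hz
    rw [hZ1] at hz
    split_ifs at hz with h12
    · rw [mem_filter] at hz
      exact ⟨h12, hz.2⟩
    · simp at hz
  have hdis : Disjoint Z0 Z1 := by
    rw [disjoint_left]
    intro z hz hz'
    obtain ⟨a1, a2, a3, a4⟩ := m0 z hz
    obtain ⟨b0, b1, b2⟩ := m1 z hz'
    have h3 : (2 : ZMod p) ^ 4 * z.1 ^ 2 = 0 := by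
      have h4 : z.1 ^ 2 + z.2 ^ 2 - 3 = 2 * z.1 := by linear_combination a3
      rw [h4] at b2
      linear_combination b2
    rcases mul_eq_zero.1 h3 with h4 | h4
    · exact h2 (eq_zero_of_pow_eq_zero h4)
    · exact b1 (eq_zero_of_pow_eq_zero h4)
  have hc := W2_gauss hp ((σ : ℤ) : ZMod p) (Z0 ∪ Z1) (by
    intro z hz
    rcases mem_union.1 hz with h | h
    · exact (m0 z h).1
    · exact (m1 z h).2.1)
  rw [card_union_of_disjoint hdis] at hc
  set T : Finset (ZMod p × ZMod p × ZMod p × ZMod p) :=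
    (univ : Finset (ZMod p × ZMod p × ZMod p × ZMod p)).filter
      (fun t : ZMod p × ZMod p × ZMod p × ZMod p => t.1 * t.2.2.2 = t.2.1 * t.2.2.1 + (σ : ZMod p) ∧
        (gP t.1 t.2.1, gB t.1 t.2.1 t.2.2.1 t.2.2.2) ∈ Z0 ∪ Z1) with hT
  have t1 : ∀ t ∈ T, t.1 * t.2.2.2 = t.2.1 * t.2.2.1 + (σ : ZMod p) := by
    intro t ht
    rw [hT, mem_filter] at ht
    exact ht.2.1
  -- the sum `P + R`
  have t2 : ∀ t ∈ T, (gP t.1 t.2.1 + gP t.2.2.1 t.2.2.2 = 2 ∧ gP t.1 t.2.1 + 1 ≠ 0 ∧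
      (IsSquare (gP t.1 t.2.1 + 1) ↔ ¬ sg r p = 1)) ∨
      (p % 12 = 1 ∧ (gP t.1 t.2.1 + gP t.2.2.1 t.2.2.2) ^ 2 = -12) := by
    rintro ⟨a, b, e, f⟩ ht
    rw [hT, mem_filter] at ht
    obtain ⟨-, ht1, ht2⟩ := ht
    simp only at ht1 ht2 ⊢
    have hid : gP a b * gP e f = (gB a b e f) ^ 2 - 3 := by
      have h4 : gP a b * gP e f = (gB a b e f) ^ 2 - 3 * (a * f - b * e) ^ 2 := by
        unfold gP gB
        ring
      rw [h4]
      have h5 : a * f - b * e = (σ : ZMod p) := by linear_combination ht1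
      rw [h5, hs2]
      ring
    rcases mem_union.1 ht2 with h | h
    · left
      obtain ⟨a1, a2, a3, a4⟩ := m0 _ h
      simp only at a1 a2 a3 a4
      refine ⟨?_, a2, a4⟩
      have h6 : gP a b * (gP a b + gP e f - 2) = 0 := by linear_combination hid + a3
      rcases mul_eq_zero.1 h6 with h7 | h7
      · exact absurd h7 a1
      · linear_combination h7
    · right
      obtain ⟨b0, b1, b2⟩ := m1 _ h
      simp only at b1 b2
      refine ⟨b0, ?_⟩
      have h6 : gP a b ^ 2 * ((gP a b + gP e f) ^ 2 + 12) = 0 := by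
        have h7 : gP a b * (gP a b + gP e f) = (gP a b) ^ 2 + (gB a b e f) ^ 2 - 3 := by
          linear_combination hid
        rw [← h7] at b2
        linear_combination b2
      rcases mul_eq_zero.1 h6 with h7 | h7
      · exact absurd (eq_zero_of_pow_eq_zero h7) b1
      · linear_combination h7
  -- the set of `f` for `a = 0`
  have hz := W4_zero hs0 T t1 6 (fun b => (univ : Finset (ZMod p)).filter (fun f =>
      gP 0 b + gP (-(σ : ZMod p) * b⁻¹) f = 2 ∨ (gP 0 b + gP (-(σ : ZMod p) * b⁻¹) f) ^ 2 = -12))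
    (by
      intro b
      set e : ZMod p := -(σ : ZMod p) * b⁻¹ with he
      have q1 : ((univ : Finset (ZMod p)).filter (fun f => gP 0 b + gP e f = 2)).card ≤ 2 := by
        refine le_trans (card_le_card ?_) (EO.R2_quad (4 * e) (b ^ 2 + e ^ 2 - 2))
        intro f hf
        rw [mem_filter] at hf ⊢
        refine ⟨mem_univ _, ?_⟩
        have := hf.2
        unfold gP at this
        linear_combination this
      have q2 : ((univ : Finset (ZMod p)).filter
          (fun f => (gP 0 b + gP e f) ^ 2 = -12)).card ≤ 4 := by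
        by_cases hy : ∃ y : ZMod p, y ^ 2 = -12
        · obtain ⟨y, hy⟩ := hy
          have r1 := EO.R2_quad (4 * e) (b ^ 2 + e ^ 2 - y)
          have r2 := EO.R2_quad (4 * e) (b ^ 2 + e ^ 2 + y)
          have r3 : ((univ : Finset (ZMod p)).filter
              (fun f => (gP 0 b + gP e f) ^ 2 = -12)) ⊆
              ((univ : Finset (ZMod p)).filter
                (fun f => f ^ 2 + 4 * e * f + (b ^ 2 + e ^ 2 - y) = 0)) ∪
              ((univ : Finset (ZMod p)).filter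
                (fun f => f ^ 2 + 4 * e * f + (b ^ 2 + e ^ 2 + y) = 0)) := by
            intro f hf
            rw [mem_filter] at hf
            rw [mem_union, mem_filter, mem_filter]
            have h5 : (gP 0 b + gP e f - y) * (gP 0 b + gP e f + y) = 0 := by
              linear_combination hf.2 - hy
            rcases mul_eq_zero.1 h5 with h6 | h6
            · left
              refine ⟨mem_univ _, ?_⟩
              unfold gP at h6
              linear_combination h6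
            · right
              refine ⟨mem_univ _, ?_⟩
              unfold gP at h6
              linear_combination h6
          have r4 := (card_le_card r3).trans (card_union_le _ _)
          omega
        · rw [filter_eq_empty_iff.2 (fun f _ hf => hy ⟨_, hf⟩)]
          simp
      rw [filter_or]
      exact (card_union_le _ _).trans (by omega))
    (by
      rintro ⟨a, b, e, f⟩ ht ha
      simp only at ha ⊢
      have h3 := t1 _ ht
      simp only at h3
      rw [ha, zero_mul] at h3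
      have hb : b ≠ 0 := by
        intro h0
        rw [h0, zero_mul, zero_add] at h3
        exact hs0 h3.symm
      have he : e = -(σ : ZMod p) * b⁻¹ := by
        rw [eq_mul_inv_iff_mul_eq₀ hb]
        linear_combination -h3
      rw [mem_filter]
      refine ⟨mem_univ _, ?_⟩
      rw [← he]
      have h4 := t2 _ ht
      simp only at h4
      rw [ha] at h4
      rcases h4 with h4 | h4
      · exact Or.inl h4.1
      · exact Or.inr h4.2)
  have hfin := W4_inj T t1 (p * 6) ((univ : Finset (ZMod p × ZMod p × ZMod p)).filter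
        (fun t : ZMod p × ZMod p × ZMod p => OmG r σ p t.1 t.2.1 t.2.2)) (by
      rintro ⟨a, b, e, f⟩ ht ha
      simp only at ha ⊢
      rw [mem_filter]
      refine ⟨mem_univ _, ?_⟩
      have h3 := t1 _ ht
      simp only at h3
      have hf : a⁻¹ * (b * e + (σ : ZMod p)) = f := by
        rw [← h3, inv_mul_cancel_left₀ ha]
      have h4 := t2 _ ht
      simp only at h4
      unfold OmG
      rw [hf]
      refine ⟨ha, ?_⟩
      rcases h4 with h4 | h4
      · exact Or.inr h4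
      · left
        refine ⟨h4.1, ?_⟩
        linear_combination h4.2) hz
  have hk : (p - 1) * (Z0.card + Z1.card) ≤ ((univ : Finset (ZMod p × ZMod p × ZMod p)).filter
        (fun t : ZMod p × ZMod p × ZMod p => OmG r σ p t.1 t.2.1 t.2.2)).card + p * 6 :=
    hc.trans hfin
  have c0 := W3_conic hp (¬ sg r p = 1)
  have hk' : ((p : ℝ) - 1) * ((Z0.card : ℝ) + (Z1.card : ℝ)) ≤
      (((univ : Finset (ZMod p × ZMod p × ZMod p)).filter
        (fun t : ZMod p × ZMod p × ZMod p => OmG r σ p t.1 t.2.1 t.2.2)).card : ℝ) + p * 6 := by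
    have h8 : (((p - 1 : ℕ) : ℝ)) = (p : ℝ) - 1 := by
      rw [Nat.cast_sub (by omega)]
      norm_num
    rw [← h8]
    exact_mod_cast hk
  have c0' : (p : ℝ) ≤ 2 * (Z0.card : ℝ) + 7 := by exact_mod_cast c0
  have hp' : (13 : ℝ) ≤ p := by exact_mod_cast hp
  by_cases h12 : p % 12 = 1
  · rw [if_pos h12]
    have c1 := W3_four hp h12
    have hZ1' : Z1 = (univ : Finset (ZMod p × ZMod p)).filter
      (fun z : ZMod p × ZMod p => z.1 ≠ 0 ∧ (z.1 ^ 2 + z.2 ^ 2 - 3) ^ 2 + 12 * z.1 ^ 2 = 0) := by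
      rw [hZ1, if_pos h12]
    rw [← hZ1'] at c1
    have c1' : 4 * (p : ℝ) ≤ (Z1.card : ℝ) + 12 := by exact_mod_cast c1
    nlinarith
  · rw [if_neg h12]
    have c1' : (0 : ℝ) ≤ (Z1.card : ℝ) := Nat.cast_nonneg _
    nlinarith

end Pool.Agent.Lib.MP_79499b_co.PL
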