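import Pool.Agent.Lib.MP_79499b_co.PL.W2
import Pool.Agent.Lib.MP_79499b_co.EO.R2

/-!
# W5: lower bound for the number of forbidden classes, critical case

Identity: `4 cF a b * cF e f = cN a b e f ^ 2 + 3 (a f - b e)^2 = N^2 + 3`, `σ^2 = 1`.

Proof. (1) `Z0 = {(c, 1) : -c nonsquare}`, `(p-1)/2` elements, all `c ≠ 0`. `W2_crit` gives a set `T0` of at least `(p-1)^2/2` quadruples with `N = 1`, `-cF a b` not a square.
(2) If `p ≡ 1 mod 3`: `-3` is a square, `N^2 = -3` has 2 roots. `Z1 = {(c, N) : c ≠ 0, N^2 = -3}`, `2(p-1)` elements; `W2_crit`: a set `T1` of at least `2 (p-1)^2` quadruples with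
`cF a b ≠ 0`, `N^2 = -3`, so `cF e f = 0` by the identity. By the exchange `(a, b, e, f) ↦ (e, f, a, b)` (which changes `σ` to `-σ` and fixes `cN`) applied to `W2_crit`
for `-σ`: a set `T2` of at least `2 (p-1)^2` quadruples (for `σ`) with `cF e f ≠ 0`, `cF a b = 0`, `N^2 = -3`. `T0, T1, T2` are disjoint (`1 ≠ -3`; `c ≠ 0` or `c = 0`).
(3) All quadruples with `a ≠ 0` in `T0 ∪ T1 ∪ T2` give different triples `(a,b,e)` with `OmC σ p a b e` (`f = a⁻¹ (b e + σ)`). Those with `a = 0`: `b e = -σ`, `b ≠ 0`, `e = -σ/b`,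
`cF 0 b = b^2 ≠ 0`; in `T0`: `b e + 2 b f = 1` determines `f`: at most `p - 1`; in `T1`: `cF e f = 0`: at most 2 values of `f`: at most `2 (p-1)`; in `T2` none. So the number
is at least `(p-1)^2/2 - (p-1) ≥ p^2/2 - 40 p`, resp. `9 (p-1)^2/2 - 3 (p-1) ≥ 9p^2/2 - 40 p`.
-/

set_option autoImplicit false

namespace Pool.Agent.Lib.MP_79499b_co.PL

open Finset Q38
open scoped Classical NumberTheorySymbols

/-- the part `a = 0` of a set of quadruples of determinant `σ` -/
lemma W5_zero {p : ℕ} [Fact p.Prime] {σ : ZMod p} (hσ : σ ≠ 0)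
    (T : Finset (ZMod p × ZMod p × ZMod p × ZMod p))
    (h1 : ∀ t ∈ T, t.1 * t.2.2.2 = t.2.1 * t.2.2.1 + σ) (k : ℕ) (S : ZMod p → Finset (ZMod p))
    (hS : ∀ b, (S b).card ≤ k) (h : ∀ t ∈ T, t.1 = 0 → t.2.2.2 ∈ S t.2.1) :
    (T.filter (fun t => t.1 = 0)).card ≤ p * k := by
  have h2 : (T.filter (fun t => t.1 = 0)).card ≤
      ((univ : Finset (ZMod p)).biUnion
        (fun b => (S b).image (fun f => ((b, f) : ZMod p × ZMod p)))).card := by
    refine card_le_card_of_injOn (fun t => (t.2.1, t.2.2.2)) ?_ ?_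
    · intro t ht
      rw [mem_coe, mem_filter] at ht
      rw [mem_coe, mem_biUnion]
      refine ⟨t.2.1, mem_univ _, ?_⟩
      rw [mem_image]
      exact ⟨t.2.2.2, h t ht.1 ht.2, rfl⟩
    · intro t ht u hu htu
      rw [mem_coe, mem_filter] at ht hu
      have e1 : t.2.1 = u.2.1 := (Prod.mk.inj htu).1
      have e2 : t.2.2.2 = u.2.2.2 := (Prod.mk.inj htu).2
      have h3 := h1 t ht.1
      have h4 := h1 u hu.1
      rw [ht.2, zero_mul] at h3
      rw [hu.2, zero_mul] at h4
      have hb : u.2.1 ≠ 0 := by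
        intro h0
        rw [h0, zero_mul, zero_add] at h4
        exact hσ h4.symm
      have e3 : t.2.2.1 = u.2.2.1 := by
        apply mul_left_cancel₀ hb
        rw [e1] at h3
        linear_combination h4 - h3
      have e0 : t.1 = u.1 := by rw [ht.2, hu.2]
      exact Prod.ext e0 (Prod.ext e1 (Prod.ext e3 e2))
  refine h2.trans (card_biUnion_le.trans ?_)
  refine (sum_le_sum (fun b _ => (card_image_le.trans (hS b)))).trans ?_
  rw [sum_const, card_univ, ZMod.card, smul_eq_mul]

/-- a set of quadruples of determinant `σ` and the triples `(a, b, e)` -/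
lemma W5_inj {p : ℕ} [Fact p.Prime] {σ : ZMod p}
    (T : Finset (ZMod p × ZMod p × ZMod p × ZMod p))
    (h1 : ∀ t ∈ T, t.1 * t.2.2.2 = t.2.1 * t.2.2.1 + σ) (K : ℕ)
    (Om : Finset (ZMod p × ZMod p × ZMod p))
    (h2 : ∀ t ∈ T, t.1 ≠ 0 → (t.1, t.2.1, t.2.2.1) ∈ Om)
    (h3 : (T.filter (fun t => t.1 = 0)).card ≤ K) :
    T.card ≤ Om.card + K := by
  have h4 : T.card ≤ (T.filter (fun t => t.1 = 0)).card + (T.filter (fun t => t.1 ≠ 0)).card := by
    rw [← card_union_of_disjoint]
    · refine card_le_card ?_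
      intro t ht
      rw [mem_union, mem_filter, mem_filter]
      by_cases h0 : t.1 = 0
      · exact Or.inl ⟨ht, h0⟩
      · exact Or.inr ⟨ht, h0⟩
    · rw [disjoint_left]
      intro t ht ht2
      rw [mem_filter] at ht ht2
      exact ht2.2 ht.2
  have h5 : (T.filter (fun t => t.1 ≠ 0)).card ≤ Om.card := by
    refine card_le_card_of_injOn (fun t => (t.1, t.2.1, t.2.2.1)) ?_ ?_
    · intro t ht
      rw [mem_coe, mem_filter] at ht
      exact h2 t ht.1 ht.2
    · intro t ht u hu htu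
      rw [mem_coe, mem_filter] at ht hu
      have e0 : t.1 = u.1 := (Prod.mk.inj htu).1
      have e1 : t.2.1 = u.2.1 := (Prod.mk.inj (Prod.mk.inj htu).2).1
      have e2 : t.2.2.1 = u.2.2.1 := (Prod.mk.inj (Prod.mk.inj htu).2).2
      have e3 : t.2.2.2 = u.2.2.2 := by
        apply mul_left_cancel₀ hu.2
        rw [← e0, h1 t ht.1, e0, h1 u hu.1, e1, e2]
      exact Prod.ext e0 (Prod.ext e1 (Prod.ext e2 e3))
  omega

private lemma W5_ne {p : ℕ} [Fact p.Prime] (hp : 13 ≤ p) : (2 : ZMod p) ≠ 0 := by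
  intro h
  have h1 : ((2 : ℕ) : ZMod p) = 0 := by exact_mod_cast h
  rw [ZMod.natCast_eq_zero_iff] at h1
  have := Nat.le_of_dvd (by norm_num) h1
  omega

private lemma W5_ne3 {p : ℕ} [Fact p.Prime] (hp : 13 ≤ p) : (3 : ZMod p) ≠ 0 := by
  intro h
  have h1 : ((3 : ℕ) : ZMod p) = 0 := by exact_mod_cast h
  rw [ZMod.natCast_eq_zero_iff] at h1
  have := Nat.le_of_dvd (by norm_num) h1
  omega

/-- `-3` is a square modulo `p ≡ 1 mod 3` -/
private lemma W5_root {p : ℕ} [Fact p.Prime] (h3 : p % 3 = 1) : ∃ y : ZMod p, y ^ 2 = -3 := by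
  have h1 : 3 ∣ Nat.card (ZMod p)ˣ := by
    rw [Nat.card_eq_fintype_card, ZMod.card_units]
    omega
  have : Fact (Nat.Prime 3) := ⟨by norm_num⟩
  obtain ⟨u, hu⟩ := exists_prime_orderOf_dvd_card' (G := (ZMod p)ˣ) 3 h1
  have h2 : u ^ 3 = 1 := by rw [← hu]; exact pow_orderOf_eq_one u
  have h4 : (u : ZMod p) ^ 3 = 1 := by
    rw [← Units.val_pow_eq_pow_val, h2, Units.val_one]
  have h5 : (u : ZMod p) ≠ 1 := by
    intro h
    have : u = 1 := Units.ext h
    rw [this, orderOf_one] at hu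
    omega
  have h6 : ((u : ZMod p) - 1) * ((u : ZMod p) ^ 2 + u + 1) = 0 := by linear_combination h4
  rcases mul_eq_zero.1 h6 with h7 | h7
  · exact absurd (sub_eq_zero.1 h7) h5
  · exact ⟨2 * u + 1, by linear_combination 4 * h7⟩

/-- the number of nonsquares is at least `(p - 1)/2` -/
private lemma W5_nonsq {p : ℕ} [Fact p.Prime] (hodd : p % 2 = 1) :
    p ≤ 2 * ((univ : Finset (ZMod p)).filter (fun c : ZMod p => ¬ IsSquare (-c))).card + 1 := by
  have h1 : ((univ : Finset (ZMod p)).filter (fun c : ZMod p => IsSquare (-c))).card ≤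
      p / 2 + 1 := by
    have h2 : ((univ : Finset (ZMod p)).filter (fun c : ZMod p => IsSquare (-c))) ⊆
        (range (p / 2 + 1)).image (fun k : ℕ => -((k : ZMod p) ^ 2)) := by
      intro c hc
      rw [mem_filter] at hc
      obtain ⟨y, hy⟩ := hc.2
      rw [mem_image]
      refine ⟨y.valMinAbs.natAbs, ?_, ?_⟩
      · rw [mem_range]
        have := ZMod.natAbs_valMinAbs_le y
        omega
      · have h3 : ((y.valMinAbs.natAbs : ℕ) : ZMod p) ^ 2 = y ^ 2 := by
          have h4 : (((y.valMinAbs.natAbs : ℕ) : ℤ)) ^ 2 = y.valMinAbs ^ 2 := Int.natAbs_sq _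
          have h5 := congrArg (fun z : ℤ => (z : ZMod p)) h4
          simp only [Int.cast_pow, Int.cast_natCast, ZMod.coe_valMinAbs] at h5
          exact h5
        rw [h3]
        linear_combination hy
    exact (card_le_card h2).trans (card_image_le.trans (by rw [card_range]))
  have h2 : ((univ : Finset (ZMod p)).filter (fun c : ZMod p => IsSquare (-c))).card +
      ((univ : Finset (ZMod p)).filter (fun c : ZMod p => ¬ IsSquare (-c))).card = p := by
    rw [← card_union_of_disjoint]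
    · have h3 : ((univ : Finset (ZMod p)).filter (fun c : ZMod p => IsSquare (-c))) ∪
        ((univ : Finset (ZMod p)).filter (fun c : ZMod p => ¬ IsSquare (-c))) = univ := by
        ext c
        rw [mem_union, mem_filter, mem_filter]
        by_cases h0 : IsSquare (-c)
        · exact ⟨fun _ => mem_univ _, fun _ => Or.inl ⟨mem_univ _, h0⟩⟩
        · exact ⟨fun _ => mem_univ _, fun _ => Or.inr ⟨mem_univ _, h0⟩⟩
      rw [h3, card_univ, ZMod.card]
    · rw [disjoint_left]
      intro t ht ht2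
      rw [mem_filter] at ht ht2
      exact ht2.2 ht.2
  omega

theorem W5_main {p : ℕ} [Fact p.Prime] (hp : 13 ≤ p) {σ : ℤ} (hσ : σ = 1 ∨ σ = -1) :
    (if p % 3 = 1 then (9 / 2 : ℝ) else 1 / 2) * (p : ℝ) ^ 2 - 40 * p ≤
      (((univ : Finset (ZMod p × ZMod p × ZMod p)).filter
        (fun t : ZMod p × ZMod p × ZMod p => OmC σ p t.1 t.2.1 t.2.2)).card : ℝ) := by
  have h2 : (2 : ZMod p) ≠ 0 := W5_ne hp
  have h3 : (3 : ZMod p) ≠ 0 := W5_ne3 hp
  have hs2 : ((σ : ℤ) : ZMod p) ^ 2 = 1 := by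
    rcases hσ with h | h <;> rw [h] <;> norm_num
  have hs0 : ((σ : ℤ) : ZMod p) ≠ 0 := by
    intro h
    rw [h] at hs2
    norm_num at hs2
  set Z0 : Finset (ZMod p × ZMod p) :=
    ((univ : Finset (ZMod p)).filter (fun c : ZMod p => ¬ IsSquare (-c))).image
      (fun c => ((c, 1) : ZMod p × ZMod p)) with hZ0
  have hZ0c : Z0.card = ((univ : Finset (ZMod p)).filter
      (fun c : ZMod p => ¬ IsSquare (-c))).card := by
    rw [hZ0]
    exact card_image_of_injective _ (fun c d h => (Prod.mk.inj h).1)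
  have hodd : p % 2 = 1 := by
    rcases (Fact.out : p.Prime).eq_two_or_odd with h | h
    · omega
    · exact h
  have c0 := W5_nonsq (p := p) hodd
  rw [← hZ0c] at c0
  have m0 : ∀ z ∈ Z0, z.2 = 1 ∧ ¬ IsSquare (-z.1) := by
    intro z hz
    rw [hZ0, mem_image] at hz
    obtain ⟨c, hc, hcz⟩ := hz
    rw [mem_filter] at hc
    rw [← hcz]
    exact ⟨rfl, hc.2⟩
  have m0' : ∀ z ∈ Z0, z.1 ≠ 0 := by
    intro z hz h0
    apply (m0 z hz).2
    rw [h0, neg_zero]
    exact ⟨0, by ring⟩
  -- the identity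
  have hid : ∀ a b e f : ZMod p, a * f = b * e + (σ : ZMod p) →
      4 * (cF a b * cF e f) = (cN a b e f) ^ 2 + 3 := by
    intro a b e f h
    have h4 : 4 * (cF a b * cF e f) = (cN a b e f) ^ 2 + 3 * (a * f - b * e) ^ 2 := by
      unfold cF cN
      ring
    rw [h4]
    have h5 : a * f - b * e = (σ : ZMod p) := by linear_combination h
    rw [h5, hs2]
    ring
  have hbe : ∀ b e f : ZMod p, 0 * f = b * e + (σ : ZMod p) →
      b ≠ 0 ∧ e = -(σ : ZMod p) * b⁻¹ := by
    intro b e f h
    rw [zero_mul] at h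
    have hb : b ≠ 0 := by
      intro h0
      rw [h0, zero_mul, zero_add] at h
      exact hs0 h.symm
    refine ⟨hb, ?_⟩
    rw [eq_mul_inv_iff_mul_eq₀ hb]
    linear_combination -h
  have hp' : (13 : ℝ) ≤ p := by exact_mod_cast hp
  have h8 : (((p - 1 : ℕ) : ℝ)) = (p : ℝ) - 1 := by
    rw [Nat.cast_sub (by omega)]
    norm_num
  have c0' : (p : ℝ) ≤ 2 * (Z0.card : ℝ) + 1 := by exact_mod_cast c0
  by_cases hp3 : p % 3 = 1
  · -- `p ≡ 1 mod 3`
    rw [if_pos hp3]
    obtain ⟨y, hy⟩ := W5_root hp3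
    have hy0 : y ≠ 0 := by
      intro h
      rw [h] at hy
      apply h3
      linear_combination hy
    set Z1 : Finset (ZMod p × ZMod p) := ((univ : Finset (ZMod p)).erase 0) ×ˢ {y, -y} with hZ1
    have hZ1c : Z1.card = (p - 1) * 2 := by
      rw [hZ1, card_product, card_erase_of_mem (mem_univ _), card_univ, ZMod.card, card_pair]
      intro h
      have h5 : 2 * y = 0 := by linear_combination h
      rcases mul_eq_zero.1 h5 with h6 | h6
      · exact h2 h6
      · exact hy0 h6
    have m1 : ∀ z ∈ Z1, z.1 ≠ 0 ∧ z.2 ^ 2 = -3 := by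
      intro z hz
      rw [hZ1, mem_product] at hz
      refine ⟨(mem_erase.1 hz.1).1, ?_⟩
      have h5 := hz.2
      rw [mem_insert, mem_singleton] at h5
      rcases h5 with h6 | h6
      · rw [h6, hy]
      · rw [h6, neg_sq, hy]
    have hdis : Disjoint Z0 Z1 := by
      rw [disjoint_left]
      intro z hz hz'
      have h5 := (m0 z hz).1
      have h6 := (m1 z hz').2
      rw [h5] at h6
      have h7 : (2 : ZMod p) ^ 2 = 0 := by linear_combination h6
      exact h2 (eq_zero_of_pow_eq_zero h7)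
    have hc := W2_crit hp ((σ : ℤ) : ZMod p) (Z0 ∪ Z1) (by
      intro z hz
      rcases mem_union.1 hz with h | h
      · exact m0' z h
      · exact (m1 z h).1)
    rw [card_union_of_disjoint hdis] at hc
    have hc2 := W2_crit hp (-((σ : ℤ) : ZMod p)) Z1 (fun z hz => (m1 z hz).1)
    set T0 : Finset (ZMod p × ZMod p × ZMod p × ZMod p) :=
      (univ : Finset (ZMod p × ZMod p × ZMod p × ZMod p)).filter
        (fun t : ZMod p × ZMod p × ZMod p × ZMod p =>
          t.1 * t.2.2.2 = t.2.1 * t.2.2.1 + (σ : ZMod p) ∧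
          (cF t.1 t.2.1, cN t.1 t.2.1 t.2.2.1 t.2.2.2) ∈ Z0 ∪ Z1) with hT0
    set T3 : Finset (ZMod p × ZMod p × ZMod p × ZMod p) :=
      (univ : Finset (ZMod p × ZMod p × ZMod p × ZMod p)).filter
        (fun t : ZMod p × ZMod p × ZMod p × ZMod p =>
          t.1 * t.2.2.2 = t.2.1 * t.2.2.1 + -(σ : ZMod p) ∧
          (cF t.1 t.2.1, cN t.1 t.2.1 t.2.2.1 t.2.2.2) ∈ Z1) with hT3
    set T2 : Finset (ZMod p × ZMod p × ZMod p × ZMod p) :=
      T3.image (fun t => (t.2.2.1, t.2.2.2, t.1, t.2.1)) with hT2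
    have hT2c : T2.card = T3.card := by
      rw [hT2]
      refine card_image_of_injective _ ?_
      rintro ⟨a, b, e, f⟩ ⟨a', b', e', f'⟩ h
      simp only [Prod.mk.injEq] at h
      obtain ⟨q1, q2, q3, q4⟩ := h
      rw [q1, q2, q3, q4]
    have n0 : ∀ t ∈ T0, t.1 * t.2.2.2 = t.2.1 * t.2.2.1 + (σ : ZMod p) ∧ cF t.1 t.2.1 ≠ 0 ∧
        ((cN t.1 t.2.1 t.2.2.1 t.2.2.2 = 1 ∧ ¬ IsSquare (-(cF t.1 t.2.1))) ∨
          cF t.2.2.1 t.2.2.2 = 0) := by
      rintro ⟨a, b, e, f⟩ ht
      rw [hT0, mem_filter] at ht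
      obtain ⟨-, ht1, ht2⟩ := ht
      simp only at ht1 ht2 ⊢
      refine ⟨ht1, ?_, ?_⟩
      · rcases mem_union.1 ht2 with h | h
        · exact m0' _ h
        · exact (m1 _ h).1
      · rcases mem_union.1 ht2 with h | h
        · left
          have := m0 _ h
          exact this
        · right
          have h5 := m1 _ h
          simp only at h5
          have h6 := hid a b e f ht1
          rw [h5.2] at h6
          have h7 : (2 : ZMod p) ^ 2 * (cF a b * cF e f) = 0 := by linear_combination h6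
          rcases mul_eq_zero.1 h7 with h8 | h8
          · exact absurd (eq_zero_of_pow_eq_zero h8) h2
          · rcases mul_eq_zero.1 h8 with h9 | h9
            · exact absurd h9 h5.1
            · exact h9
    have n2 : ∀ t ∈ T2, t.1 * t.2.2.2 = t.2.1 * t.2.2.1 + (σ : ZMod p) ∧ cF t.1 t.2.1 = 0 := by
      rintro ⟨a, b, e, f⟩ ht
      rw [hT2, mem_image] at ht
      obtain ⟨⟨a', b', e', f'⟩, ht1, ht2⟩ := ht
      rw [hT3, mem_filter] at ht1
      obtain ⟨-, ht3, ht4⟩ := ht1
      simp only [Prod.mk.injEq] at ht2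
      obtain ⟨q1, q2, q3, q4⟩ := ht2
      simp only at ht3 ht4 ⊢
      rw [q1, q2, q3, q4] at ht3
      rw [q1, q2, q3, q4] at ht4
      have h5 := m1 _ ht4
      simp only at h5
      have h10 : a * f = b * e + (σ : ZMod p) := by linear_combination -ht3
      refine ⟨h10, ?_⟩
      have h6 := hid a b e f h10
      have h11 : cN a b e f = cN e f a b := by
        unfold cN
        ring
      rw [h11, h5.2] at h6
      have h7 : (2 : ZMod p) ^ 2 * (cF a b * cF e f) = 0 := by linear_combination h6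
      rcases mul_eq_zero.1 h7 with h8 | h8
      · exact absurd (eq_zero_of_pow_eq_zero h8) h2
      · rcases mul_eq_zero.1 h8 with h9 | h9
        · exact h9
        · exact absurd h9 h5.1
    have hdis2 : Disjoint T0 T2 := by
      rw [disjoint_left]
      intro t ht ht2
      exact (n0 t ht).2.1 (n2 t ht2).2
    have t1 : ∀ t ∈ T0 ∪ T2, t.1 * t.2.2.2 = t.2.1 * t.2.2.1 + (σ : ZMod p) := by
      intro t ht
      rcases mem_union.1 ht with h | h
      · exact (n0 t h).1
      · exact (n2 t h).1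
    have hz := W5_zero hs0 (T0 ∪ T2) t1 3 (fun b => (univ : Finset (ZMod p)).filter (fun f =>
        f ^ 2 + (-(σ : ZMod p) * b⁻¹) * f + (-(σ : ZMod p) * b⁻¹) ^ 2 = 0) ∪
        {(1 + (σ : ZMod p)) * (2 * b)⁻¹})
      (by
        intro b
        refine (card_union_le _ _).trans ?_
        have := EO.R2_quad (-(σ : ZMod p) * b⁻¹) ((-(σ : ZMod p) * b⁻¹) ^ 2)
        rw [card_singleton]
        omega)
      (by
        rintro ⟨a, b, e, f⟩ ht ha
        simp only at ha ⊢
        have h5 := t1 _ ht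
        simp only at h5
        rw [ha] at h5
        obtain ⟨hb, he⟩ := hbe b e f h5
        rw [mem_union, mem_filter, mem_singleton]
        rcases mem_union.1 ht with h | h
        · have h6 := (n0 _ h).2.2
          simp only at h6
          rw [ha] at h6
          rcases h6 with h6 | h6
          · right
            have h7 := h6.1
            unfold cN at h7
            rw [eq_mul_inv_iff_mul_eq₀ (mul_ne_zero h2 hb)]
            linear_combination h7 + h5
          · left
            refine ⟨mem_univ _, ?_⟩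
            rw [← he]
            unfold cF at h6
            linear_combination h6
        · exfalso
          have h6 := (n2 _ h).2
          simp only at h6
          rw [ha] at h6
          unfold cF at h6
          apply hb
          have h7 : b ^ 2 = 0 := by linear_combination h6
          exact eq_zero_of_pow_eq_zero h7)
    have hfin := W5_inj (T0 ∪ T2) t1 (p * 3) ((univ : Finset (ZMod p × ZMod p × ZMod p)).filter
          (fun t : ZMod p × ZMod p × ZMod p => OmC σ p t.1 t.2.1 t.2.2)) (by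
        rintro ⟨a, b, e, f⟩ ht ha
        simp only at ha ⊢
        rw [mem_filter]
        refine ⟨mem_univ _, ?_⟩
        have h5 := t1 _ ht
        simp only at h5
        have hf : a⁻¹ * (b * e + (σ : ZMod p)) = f := by
          rw [← h5, inv_mul_cancel_left₀ ha]
        unfold OmC
        rw [hf]
        refine ⟨ha, ?_⟩
        rcases mem_union.1 ht with h | h
        · have h6 := (n0 _ h).2.2
          simp only at h6
          rcases h6 with h6 | h6
          · exact Or.inr h6
          · exact Or.inl ⟨hp3, Or.inr h6⟩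
        · exact Or.inl ⟨hp3, Or.inl (n2 _ h).2⟩) hz
    rw [card_union_of_disjoint hdis2, hT2c] at hfin
    have hk : (p - 1) * (Z0.card + Z1.card) + (p - 1) * Z1.card ≤
        ((univ : Finset (ZMod p × ZMod p × ZMod p)).filter
          (fun t : ZMod p × ZMod p × ZMod p => OmC σ p t.1 t.2.1 t.2.2)).card + p * 3 :=
      (Nat.add_le_add hc hc2).trans hfin
    rw [hZ1c] at hk
    have hk' : ((p : ℝ) - 1) * ((Z0.card : ℝ) + ((p : ℝ) - 1) * 2) + ((p : ℝ) - 1) * (((p : ℝ) - 1) * 2) ≤
        (((univ : Finset (ZMod p × ZMod p × ZMod p)).filter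
          (fun t : ZMod p × ZMod p × ZMod p => OmC σ p t.1 t.2.1 t.2.2)).card : ℝ) + p * 3 := by
      rw [← h8]
      exact_mod_cast hk
    nlinarith
  · rw [if_neg hp3]
    have hc := W2_crit hp ((σ : ℤ) : ZMod p) Z0 m0'
    set T0 : Finset (ZMod p × ZMod p × ZMod p × ZMod p) :=
      (univ : Finset (ZMod p × ZMod p × ZMod p × ZMod p)).filter
        (fun t : ZMod p × ZMod p × ZMod p × ZMod p =>
          t.1 * t.2.2.2 = t.2.1 * t.2.2.1 + (σ : ZMod p) ∧
          (cF t.1 t.2.1, cN t.1 t.2.1 t.2.2.1 t.2.2.2) ∈ Z0) with hT0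
    have n0 : ∀ t ∈ T0, t.1 * t.2.2.2 = t.2.1 * t.2.2.1 + (σ : ZMod p) ∧
        cN t.1 t.2.1 t.2.2.1 t.2.2.2 = 1 ∧ ¬ IsSquare (-(cF t.1 t.2.1)) := by
      rintro ⟨a, b, e, f⟩ ht
      rw [hT0, mem_filter] at ht
      obtain ⟨-, ht1, ht2⟩ := ht
      simp only at ht1 ht2 ⊢
      exact ⟨ht1, m0 _ ht2⟩
    have t1 : ∀ t ∈ T0, t.1 * t.2.2.2 = t.2.1 * t.2.2.1 + (σ : ZMod p) := fun t ht => (n0 t ht).1
    have hz := W5_zero hs0 T0 t1 1 (fun b => {(1 + (σ : ZMod p)) * (2 * b)⁻¹})
      (by
        intro b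
        rw [card_singleton])
      (by
        rintro ⟨a, b, e, f⟩ ht ha
        simp only at ha ⊢
        have h5 := t1 _ ht
        simp only at h5
        rw [ha] at h5
        obtain ⟨hb, he⟩ := hbe b e f h5
        rw [mem_singleton]
        have h7 := (n0 _ ht).2.1
        simp only at h7
        rw [ha] at h7
        unfold cN at h7
        rw [eq_mul_inv_iff_mul_eq₀ (mul_ne_zero h2 hb)]
        linear_combination h7 + h5)
    have hfin := W5_inj T0 t1 (p * 1) ((univ : Finset (ZMod p × ZMod p × ZMod p)).filter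
          (fun t : ZMod p × ZMod p × ZMod p => OmC σ p t.1 t.2.1 t.2.2)) (by
        rintro ⟨a, b, e, f⟩ ht ha
        simp only at ha ⊢
        rw [mem_filter]
        refine ⟨mem_univ _, ?_⟩
        have h5 := t1 _ ht
        simp only at h5
        have hf : a⁻¹ * (b * e + (σ : ZMod p)) = f := by
          rw [← h5, inv_mul_cancel_left₀ ha]
        unfold OmC
        rw [hf]
        exact ⟨ha, Or.inr (n0 _ ht).2⟩) hz
    have hk : (p - 1) * Z0.card ≤ ((univ : Finset (ZMod p × ZMod p × ZMod p)).filter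
          (fun t : ZMod p × ZMod p × ZMod p => OmC σ p t.1 t.2.1 t.2.2)).card + p * 1 :=
      hc.trans hfin
    have hk' : ((p : ℝ) - 1) * (Z0.card : ℝ) ≤
        (((univ : Finset (ZMod p × ZMod p × ZMod p)).filter
          (fun t : ZMod p × ZMod p × ZMod p => OmC σ p t.1 t.2.1 t.2.2)).card : ℝ) + p * 1 := by
      rw [← h8]
      exact_mod_cast hk
    nlinarith

end Pool.Agent.Lib.MP_79499b_co.PL
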