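import Pool.Agent.Lib.MP_79499b_co.PL.Defs

/-!
# W6: Mertens sums of the densities; periodicity

`W6_gauss`, `W6_crit`: `∑_{p<Y} h(p)/p = (1/2) ∑ 1/p + 4 ∑_{p ≡ 1 (q)} 1/p`, `q = 12` (`φ = 4`) and `q = 3` (`φ = 2`): `mertens_all` and `mertens_one_mod` (Q38MertensAP) give
`≥ (1/2 + 4/φ(q)) log log Y - C`.

`W6_perG`, `W6_perC`: `Per` for the two families: the casts of `a % p` and `a` to `ZMod p` agree (`ZMod.natCast_mod`), and `OmG`, `OmC` contain `a ≠ 0`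
(`ZMod.natCast_eq_zero_iff`).
-/

set_option autoImplicit false

namespace Pool.Agent.Lib.MP_79499b_co.PL

open Finset Q38
open scoped Classical NumberTheorySymbols

private lemma W6_sum (q Y : ℕ) :
    ∑ p ∈ (range Y).filter Nat.Prime, (if p % q = 1 then (9 / 2 : ℝ) else 1 / 2) / (p : ℝ) =
      1 / 2 * msum 1 0 Y + 4 * msum q 1 Y := by
  have h1 : msum 1 0 Y = ∑ p ∈ (range Y).filter Nat.Prime, ((p : ℝ))⁻¹ := by
    rw [msum]
    apply Finset.sum_congr _ fun _ _ => rfl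
    ext p
    simp only [Finset.mem_filter, Nat.mod_one, and_true]
  have h2 : msum q 1 Y = ∑ p ∈ (range Y).filter Nat.Prime, (if p % q = 1 then ((p : ℝ))⁻¹ else 0) := by
    rw [msum, ← Finset.filter_filter, Finset.sum_filter]
  rw [h1, h2, Finset.mul_sum, Finset.mul_sum, ← Finset.sum_add_distrib]
  apply Finset.sum_congr rfl
  intro p _
  split_ifs
  · rw [div_eq_mul_inv]
    ring
  · rw [div_eq_mul_inv]
    ring

private lemma W6_mert (q : ℕ) (hq : 2 ≤ q) : ∃ C : ℝ, ∀ Y : ℕ, 3 ≤ Y →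
    (1 / 2 + 4 * ((q.totient : ℝ))⁻¹) * Real.log (Real.log Y) - C ≤
    ∑ p ∈ (range Y).filter Nat.Prime, (if p % q = 1 then (9 / 2 : ℝ) else 1 / 2) / (p : ℝ) := by
  obtain ⟨C1, h1⟩ := mertens_all
  obtain ⟨C2, h2⟩ := mertens_one_mod hq
  refine ⟨1 / 2 * C1 + 4 * C2, fun Y hY => ?_⟩
  rw [W6_sum]
  have h3 := h1 Y hY
  have h4 := h2 Y hY
  linarith

theorem W6_gauss : ∃ C : ℝ, ∀ Y : ℕ, 3 ≤ Y → 3 / 2 * Real.log (Real.log Y) - C ≤
    ∑ p ∈ (range Y).filter Nat.Prime, (if p % 12 = 1 then (9 / 2 : ℝ) else 1 / 2) / (p : ℝ) := by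
  obtain ⟨C, hC⟩ := W6_mert 12 (by norm_num)
  refine ⟨C, fun Y hY => le_trans (le_of_eq ?_) (hC Y hY)⟩
  have h : Nat.totient 12 = 4 := by decide
  rw [h]
  norm_num

theorem W6_crit : ∃ C : ℝ, ∀ Y : ℕ, 3 ≤ Y → 5 / 2 * Real.log (Real.log Y) - C ≤
    ∑ p ∈ (range Y).filter Nat.Prime, (if p % 3 = 1 then (9 / 2 : ℝ) else 1 / 2) / (p : ℝ) := by
  obtain ⟨C, hC⟩ := W6_mert 3 (by norm_num)
  refine ⟨C, fun Y hY => le_trans (le_of_eq ?_) (hC Y hY)⟩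
  have h : Nat.totient 3 = 2 := by decide
  rw [h]
  norm_num

theorem W6_perG (r : ℕ) (σ : ℤ) :
    Per (fun p a b e => OmG r σ p (a : ZMod p) (b : ZMod p) (e : ZMod p)) := by
  intro p _
  refine ⟨fun a b e => ?_, fun a b e h hd => ?_⟩
  · beta_reduce
    rw [ZMod.natCast_mod, ZMod.natCast_mod, ZMod.natCast_mod]
  · exact h.1 ((ZMod.natCast_eq_zero_iff a p).mpr hd)

theorem W6_perC (σ : ℤ) :
    Per (fun p a b e => OmC σ p (a : ZMod p) (b : ZMod p) (e : ZMod p)) := by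
  intro p _
  refine ⟨fun a b e => ?_, fun a b e h hd => ?_⟩
  · beta_reduce
    rw [ZMod.natCast_mod, ZMod.natCast_mod, ZMod.natCast_mod]
  · exact h.1 ((ZMod.natCast_eq_zero_iff a p).mpr hd)

end Pool.Agent.Lib.MP_79499b_co.PL
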