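import Pool.Agent.Lib.MP_79499b_co.PL.Q6
import Pool.Agent.Lib.MP_79499b_co.PL.R2

/-!
# ZA1: from `n` to a point of the sieve, Gauss case

Proof. `Q6_main`: `s, t` (`s^2 + t^2 = n^2+n+1`); `R2_main`: `a, b, e, f, σ, δ`; `a^2 ≤ 4n+2 ≤ 4x + 2`. Let `p ∈ UZ x` (prime, `P0 x ≤ p < zz x`, so `p ≥ 13` and odd), and suppose `OmG (n%8) σ p a b e`; so `a ≠ 0` in `ZMod p`, and `f = a⁻¹ (b e + σ)` in `ZMod p` because
`a f = b e + σ`. So `gP a b + gP e f = 4n + 2` in `ZMod p`.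
First alternative: `(4n)^2 + 4 (4n) + 16 = 16 (n^2 + n + 1) = 0` in `ZMod p`, so `p ∣ Phi 3 n` (`Phi_three`), contradicting `Rough (zz x) n` (`p < zz x`).
Second: `4n + 2 = 2`, `p ∣ n`; `p^2 ∤ n` (`NoSq`, `P0 x ≤ p`), so the exponent of `p` in `n` is 1, odd (`exact_factorization`, Q38NT). For a prime `w ∣ Phi 3 n`: `w ∤ p^j + 1` for all `j` (`Exc2`), so the order `o` of `p` mod `w` is odd (if it is even,
`p^(o/2) = -1`; `w ≠ 2`, `Phi` odd; `p ≠ 0` mod `w` as `w ∤ n`); `o ∣ w - 1`, `4 ∣ w - 1`, so `o ∣ (w-1)/4` and `w ∣ p^((w-1)/4) - 1`. `gP a b + 1 = 2n + 2 + 2δs ≡ 2 + 2δs mod p`, `≠ 0`, so `Q6_main` gives `J(2 + 2δs | p) = sg n p`, and `sg n p = sg (n%8) p`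
(`sg` depends on `n mod 8` only: `n % 2`, `(n^2+n+1) % 8`). `IsSquare (gP a b + 1)` iff this symbol is 1 (`ZMod.euler_criterion`/`legendreSym.eq_one_iff`), so `IsSquare (gP a b + 1) ↔ sg (n%8) p = 1`, contradicting `OmG`.
-/

set_option autoImplicit false

namespace Pool.Agent.Lib.MP_79499b_co.PL

open Finset Q38
open scoped Classical NumberTheorySymbols

/-- the order of `p` modulo `w` is odd, so it divides `(w - 1) / 4` -/
private lemma ZA1_order {p n w : ℕ} (hp : p.Prime) (hn1 : 1 ≤ n) (hexc : PC.Exc2 3 n)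
    (hw : w.Prime) (hwn : w ∣ Phi 3 n) (hw4 : w % 4 = 1) (hpn : p ∣ n) (hpn2 : ¬ p ^ 2 ∣ n) :
    w ∣ p ^ ((w - 1) / 4) - 1 := by
  have : Fact w.Prime := ⟨hw⟩
  have h1 := hexc p hp (by rw [exact_factorization hp (by omega) ⟨hpn, hpn2⟩]; exact odd_one) w hw hwn
  have hne : p ≠ w := by
    rintro rfl
    exact not_dvd_Phi_of_dvd (by norm_num) hp hpn hwn
  have h2 : (p : ZMod w) ≠ 0 := by
    intro h3
    rw [ZMod.natCast_eq_zero_iff] at h3
    exact hne ((Nat.prime_dvd_prime_iff_eq hw hp).mp h3).symm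
  have h3 : orderOf (p : ZMod w) ∣ w - 1 := ZMod.orderOf_dvd_card_sub_one h2
  have hw1 : 1 < w := hw.one_lt
  have hopos : 0 < orderOf (p : ZMod w) := Nat.pos_of_dvd_of_pos h3 (by omega)
  have hodd : ¬ 2 ∣ orderOf (p : ZMod w) := by
    rintro ⟨k, hk⟩
    have h4 : ((p : ZMod w) ^ k) * ((p : ZMod w) ^ k) = 1 := by
      rw [← pow_add, ← two_mul, ← hk]
      exact pow_orderOf_eq_one _
    rcases mul_self_eq_one_iff.mp h4 with h5 | h5
    · have h6 := orderOf_dvd_of_pow_eq_one h5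
      have h7 := Nat.le_of_dvd (by omega) h6
      omega
    · apply h1 k
      rw [← ZMod.natCast_eq_zero_iff]
      push_cast
      rw [h5]
      ring
  obtain ⟨m, hm⟩ : 4 ∣ w - 1 := by omega
  have hdm : (w - 1) / 4 = m := by omega
  have h8 : orderOf (p : ZMod w) ∣ m := by
    rw [hm] at h3
    have hc : Nat.Coprime (orderOf (p : ZMod w)) 4 := by
      have h9 : Nat.Coprime (orderOf (p : ZMod w)) (2 ^ 2) := by
        apply Nat.Coprime.pow_right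
        rw [Nat.coprime_comm]
        exact (Nat.Prime.coprime_iff_not_dvd Nat.prime_two).mpr hodd
      exact h9
    exact Nat.Coprime.dvd_of_dvd_mul_left hc h3
  have h10 : (p : ZMod w) ^ m = 1 := orderOf_dvd_iff_pow_eq_one.mp h8
  have h11 : 1 ≤ p ^ m := Nat.one_le_pow _ _ hp.pos
  rw [hdm, ← ZMod.natCast_eq_zero_iff, Nat.cast_sub h11]
  push_cast
  rw [h10, sub_self]

private lemma ZA1_sg (n p : ℕ) : sg n p = sg (n % 8) p := by
  unfold sg
  have h1 : n % 8 % 2 = n % 2 := by omega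
  have h2 : ((n % 8) ^ 2 + n % 8 + 1) % 8 = (n ^ 2 + n + 1) % 8 := by
    conv_rhs => rw [Nat.add_mod, Nat.add_mod (n ^ 2) n, Nat.pow_mod]
    conv_lhs => rw [Nat.add_mod, Nat.add_mod ((n % 8) ^ 2) (n % 8)]
    simp
  rw [h1, h2]

theorem ZA1_main {x n : ℕ} (hn : n < x) (hn1 : 1 ≤ n) (hP0 : 13 ≤ P0 x)
    (h4 : n % 4 = 0 ∨ n % 4 = 3) (hexc : PC.Exc2 3 n) (hr : Rough (zz x) n)
    (hw : ∀ w : ℕ, w.Prime → w ∣ Phi 3 n → w % 4 = 1) (hsq : NoSq (P0 x) n) :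
    ∃ (σ : ℤ) (a b e f : ℕ), (σ = 1 ∨ σ = -1) ∧ 1 ≤ a ∧ b ≤ a ∧ e ≤ a ∧ a ^ 2 ≤ 4 * x + 2 ∧
      (a : ℤ) * f = b * e + σ ∧ gP (a : ℤ) b + gP (e : ℤ) f = 4 * n + 2 ∧
      ∀ p ∈ UZ x, ¬ OmG (n % 8) σ p (a : ZMod p) (b : ZMod p) (e : ZMod p) := by
  obtain ⟨s, t, hst, hs, hQ⟩ := Q6_main h4 hw
  obtain ⟨a, b, e, f, σ, δ, hσ, hδ, ha1, hba, hea, hdet, hsum, hgP, ha2⟩ := R2_main hst hs
  refine ⟨σ, a, b, e, f, hσ, ha1, hba, hea, by omega, hdet, hsum, ?_⟩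
  intro p hp hom
  obtain ⟨hpz, hpp, hpP⟩ : p < zz x ∧ p.Prime ∧ P0 x ≤ p := by
    unfold UZ at hp
    rw [mem_filter, mem_range] at hp
    exact ⟨hp.1, hp.2.1, hp.2.2⟩
  have : Fact p.Prime := ⟨hpp⟩
  obtain ⟨ha0, hom⟩ := hom
  have hf : (a : ZMod p)⁻¹ * ((b : ZMod p) * e + (σ : ZMod p)) = (f : ZMod p) := by
    have h1 : ((a : ZMod p)) * f = b * e + (σ : ZMod p) := by
      have h2 := congrArg (Int.cast : ℤ → ZMod p) hdet
      push_cast at h2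
      exact h2
    rw [← h1, ← mul_assoc, inv_mul_cancel₀ ha0, one_mul]
  rw [hf] at hom
  have hsumP : gP (a : ZMod p) b + gP (e : ZMod p) f = 4 * n + 2 := by
    have h2 := congrArg (Int.cast : ℤ → ZMod p) hsum
    unfold gP at h2 ⊢
    push_cast at h2
    linear_combination h2
  rw [hsumP] at hom
  have hp2 : ¬ p ∣ 2 := by
    intro h
    have := Nat.le_of_dvd (by norm_num) h
    omega
  rcases hom with ⟨-, h⟩ | ⟨h, hne, hiff⟩
  · have h3 : (16 : ZMod p) * ((n : ZMod p) ^ 2 + n + 1) = 0 := by linear_combination h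
    have h5 : p ∣ 2 ^ 4 * (n ^ 2 + n + 1) := by
      rw [← ZMod.natCast_eq_zero_iff]
      push_cast
      linear_combination h3
    rcases (Nat.Prime.dvd_mul hpp).mp h5 with h6 | h6
    · exact hp2 (hpp.dvd_of_dvd_pow h6)
    · rw [← Phi_three] at h6
      have := hr p hpp h6
      omega
  · have h5 : p ∣ 2 ^ 2 * n := by
      rw [← ZMod.natCast_eq_zero_iff]
      push_cast
      linear_combination h
    have hpn : p ∣ n := by
      rcases (Nat.Prime.dvd_mul hpp).mp h5 with h6 | h6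
      · exact absurd (hpp.dvd_of_dvd_pow h6) hp2
      · exact h6
    have hn0 : (n : ZMod p) = 0 := (ZMod.natCast_eq_zero_iff _ _).mpr hpn
    have horder : ∀ w : ℕ, w.Prime → w ∣ Phi 3 n → w ∣ p ^ ((w - 1) / 4) - 1 :=
      fun w hw1 hw2 => ZA1_order hpp hn1 hexc hw1 hw2 (hw w hw1 hw2) hpn (hsq p hpp hpP)
    have hg : gP (a : ZMod p) b + 1 = ((2 + 2 * (δ * s) : ℤ) : ZMod p) := by
      have h6 := congrArg (Int.cast : ℤ → ZMod p) hgP
      unfold gP at h6 ⊢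
      push_cast at h6 ⊢
      linear_combination h6 + 2 * hn0
    rw [hg] at hne hiff
    have hnd : ¬ (p : ℤ) ∣ 2 + 2 * (δ * s) := by
      intro h7
      exact hne ((ZMod.intCast_zmod_eq_zero_iff_dvd _ _).mpr h7)
    have hJ := hQ p hpp (by rintro rfl; exact hp2 (dvd_refl 2)) hpn horder δ hδ hnd
    rw [ZA1_sg, ← jacobiSym.legendreSym.to_jacobiSym] at hJ
    rw [← legendreSym.eq_one_iff p hne, hJ] at hiff
    exact iff_not_self hiff

end Pool.Agent.Lib.MP_79499b_co.PL
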