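import Pool.Agent.Lib.MP_79499b_co.PL.Defs

/-!
# ZX: two inequalities for large `x`
-/

set_option autoImplicit false

namespace Pool.Agent.Lib.MP_79499b_co.PL

open Finset Q38

lemma ZX_pow (c K : ℝ) : ∃ x₁ : ℕ, ∀ x : ℕ, x₁ ≤ x →
    K * (Real.log x * (x : ℝ) ^ (99 / 100 : ℝ)) ≤ x * Real.exp (-(c * LL x)) := by
  have h1 : ∀ᶠ x : ℝ in Filter.atTop, (Real.log x) ^ (1 + c) ≤ (1 / (|K| + 1)) * x ^ (1 / 100 : ℝ) := by
    have h := (isLittleO_log_rpow_rpow_atTop (1 + c) (by norm_num : (0 : ℝ) < 1 / 100)).def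
      (show (0 : ℝ) < 1 / (|K| + 1) by positivity)
    filter_upwards [h, Filter.eventually_ge_atTop 3] with x hx hx3
    have h0 : (0 : ℝ) ≤ Real.log x := Real.log_nonneg (by linarith)
    rw [Real.norm_of_nonneg (Real.rpow_nonneg h0 _),
      Real.norm_of_nonneg (Real.rpow_nonneg (by linarith) _)] at hx
    exact hx
  have h2 := tendsto_natCast_atTop_atTop.eventually h1
  rw [Filter.eventually_atTop] at h2
  obtain ⟨x₁, h3⟩ := h2
  refine ⟨max x₁ 3, fun x hx => ?_⟩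
  have hx3 : 3 ≤ x := (le_max_right _ _).trans hx
  have h4 := h3 x ((le_max_left _ _).trans hx)
  have h5 : (3 : ℝ) ≤ x := by exact_mod_cast hx3
  have hx0 : (0 : ℝ) < x := by linarith
  have hlog : (1 : ℝ) < Real.log x := by
    rw [Real.lt_log_iff_exp_lt (by positivity)]
    have := Real.exp_one_lt_d9
    linarith
  have hl0 : (0 : ℝ) < Real.log x := by linarith
  have hpos : (0 : ℝ) < (Real.log x) ^ c := Real.rpow_pos_of_pos hl0 c
  rw [exp_neg_LL hx3, mul_one_div, le_div_iff₀ hpos]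
  have hK : (0 : ℝ) < |K| + 1 := by positivity
  have h6 : (|K| + 1) * (Real.log x) ^ (1 + c) ≤ (x : ℝ) ^ (1 / 100 : ℝ) := by
    calc (|K| + 1) * (Real.log x) ^ (1 + c) ≤ (|K| + 1) * ((1 / (|K| + 1)) * (x : ℝ) ^ (1 / 100 : ℝ)) :=
          mul_le_mul_of_nonneg_left h4 hK.le
      _ = (x : ℝ) ^ (1 / 100 : ℝ) := by field_simp
  have h7 : K * (Real.log x) ^ (1 + c) ≤ (x : ℝ) ^ (1 / 100 : ℝ) := by
    refine le_trans (mul_le_mul_of_nonneg_right ?_ (Real.rpow_nonneg hl0.le _)) h6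
    linarith [le_abs_self K]
  have h8 : (x : ℝ) ^ (1 / 100 : ℝ) * (x : ℝ) ^ (99 / 100 : ℝ) = x := by
    rw [← Real.rpow_add hx0]
    norm_num
  have h9 : (Real.log x) ^ (1 + c) = Real.log x * (Real.log x) ^ c := by
    rw [Real.rpow_add hl0, Real.rpow_one]
  calc K * (Real.log x * (x : ℝ) ^ (99 / 100 : ℝ)) * (Real.log x) ^ c =
      K * (Real.log x) ^ (1 + c) * (x : ℝ) ^ (99 / 100 : ℝ) := by rw [h9]; ring
    _ ≤ (x : ℝ) ^ (1 / 100 : ℝ) * (x : ℝ) ^ (99 / 100 : ℝ) :=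
        mul_le_mul_of_nonneg_right h7 (Real.rpow_nonneg hx0.le _)
    _ = x := h8

lemma ZX_lt {c c' : ℝ} (hcc : c' < c) (K : ℝ) : ∃ x₁ : ℕ, ∀ x : ℕ, x₁ ≤ x →
    K * Real.exp (-(c * LL x)) ≤ Real.exp (-(c' * LL x)) := by
  obtain ⟨x₁, h1⟩ := Filter.eventually_atTop.mp
    (tendsto_LL.eventually_ge_atTop (Real.log (|K| + 1) / (c - c')))
  refine ⟨x₁, fun x hx => ?_⟩
  have h2 := h1 x hx
  have hcc' : 0 < c - c' := by linarith
  rw [div_le_iff₀ hcc'] at h2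
  have hK : (0 : ℝ) < |K| + 1 := by positivity
  calc K * Real.exp (-(c * LL x)) ≤ (|K| + 1) * Real.exp (-(c * LL x)) :=
        mul_le_mul_of_nonneg_right (by linarith [le_abs_self K]) (Real.exp_pos _).le
    _ = Real.exp (Real.log (|K| + 1)) * Real.exp (-(c * LL x)) := by rw [Real.exp_log hK]
    _ = Real.exp (Real.log (|K| + 1) + -(c * LL x)) := (Real.exp_add _ _).symm
    _ ≤ Real.exp (-(c' * LL x)) := by
        apply Real.exp_le_exp.mpr
        nlinarith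

/-- the dyadic place of `a ≥ 2` -/
lemma ZX_dy {a : ℕ} (ha : 2 ≤ a) : ∃ j : ℕ, 2 ^ j < a ∧ a ≤ 2 * 2 ^ j := by
  refine ⟨Nat.log 2 (a - 1), ?_, ?_⟩
  · have h1 := Nat.pow_log_le_self 2 (show a - 1 ≠ 0 by omega)
    omega
  · have h1 := Nat.lt_pow_succ_log_self (show 1 < 2 by norm_num) (a - 1)
    rw [pow_succ] at h1
    omega

/-- the number of dyadic places -/
lemma ZX_num : ∃ x₁ : ℕ, ∀ x : ℕ, x₁ ≤ x → ((Nat.log 4 (16 * x) + 1 : ℕ) : ℝ) ≤ 2 * Real.log x := by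
  refine ⟨27, fun x hx => ?_⟩
  have h5 : (27 : ℝ) ≤ x := by exact_mod_cast hx
  have hx0 : (0 : ℝ) < x := by linarith
  have h0 : Real.exp 3 ≤ 27 := by
    have h1 := Real.exp_one_lt_d9
    have h2 : Real.exp 3 = Real.exp 1 ^ 3 := by rw [← Real.exp_nat_mul]; norm_num
    rw [h2]
    have h3 : Real.exp 1 ^ 3 ≤ 3 ^ 3 := by
      apply pow_le_pow_left₀ (Real.exp_pos 1).le
      linarith
    linarith
  have hlog : (3 : ℝ) ≤ Real.log x := by
    rw [Real.le_log_iff_exp_le hx0]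
    linarith
  have h1 : (4 : ℝ) ^ (Nat.log 4 (16 * x)) ≤ 16 * x := by
    exact_mod_cast Nat.pow_log_le_self 4 (show 16 * x ≠ 0 by omega)
  have h2 := Real.log_le_log (by positivity) h1
  rw [Real.log_pow, Real.log_mul (by norm_num) hx0.ne'] at h2
  have h16 : Real.log 16 = 2 * Real.log 4 := by
    rw [show (16 : ℝ) = 4 ^ 2 by norm_num, Real.log_pow]
    norm_num
  have h4 : (1 : ℝ) ≤ Real.log 4 := by
    rw [Real.le_log_iff_exp_le (by norm_num)]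
    have := Real.exp_one_lt_d9
    linarith
  push_cast
  rw [h16] at h2
  have h6 : ((Nat.log 4 (16 * x) : ℕ) : ℝ) - 2 ≤ Real.log x := by
    by_contra hlt
    push Not at hlt
    nlinarith
  linarith

/-- geometric sum -/
lemma ZX_geo {x : ℕ} (hx : 1 ≤ x) :
    ∑ j ∈ range (Nat.log 4 (16 * x) + 1), (4 : ℝ) ^ j ≤ 22 * x := by
  have h0 : ∀ m : ℕ, ∑ j ∈ range (m + 1), (4 : ℝ) ^ j ≤ 4 / 3 * 4 ^ m := by
    intro m
    induction m with
    | zero => simp; norm_num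
    | succ m ih =>
      rw [Finset.sum_range_succ]
      calc ∑ j ∈ range (m + 1), (4 : ℝ) ^ j + 4 ^ (m + 1) ≤ 4 / 3 * 4 ^ m + 4 ^ (m + 1) := by linarith
        _ = 4 / 3 * 4 ^ (m + 1) := by rw [pow_succ]; ring
  have h1 : (4 : ℝ) ^ (Nat.log 4 (16 * x)) ≤ 16 * x := by
    exact_mod_cast Nat.pow_log_le_self 4 (show 16 * x ≠ 0 by omega)
  have h2 := h0 (Nat.log 4 (16 * x))
  have h3 : (0 : ℝ) ≤ x := Nat.cast_nonneg x
  linarith

open scoped Classical in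
lemma ZX_count {β : Type*} {x : ℕ} {P : ℕ → ℕ → Prop} (T : Finset β) (R : ℕ → β → Prop)
    (h : ∀ n : ℕ, n < x → P x n → ∃ t ∈ T, R n t)
    (hR : ∀ n n' t, R n t → R n' t → n = n') : ((range x).filter (P x)).card ≤ T.card := by
  refine Finset.card_le_card_of_forall_subsingleton R ?_ ?_
  · intro n hn
    rw [Finset.mem_filter, Finset.mem_range] at hn
    exact h n hn.1 hn.2
  · intro t _ n hn n' hn'
    exact hR n n' t hn.2 hn'.2

/-- a bound for `Fw` from an injective assignment of points -/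
lemma ZX_fw {β : Type*} {c : ℝ} {P : ℕ → ℕ → Prop} (R : ℕ → β → Prop)
    (hR : ∀ n n' t, R n t → R n' t → n = n')
    (h : ∃ x₀ : ℕ, ∀ x : ℕ, x₀ ≤ x → ∃ T : Finset β, (∀ n : ℕ, n < x → P x n → ∃ t ∈ T, R n t) ∧
      (T.card : ℝ) ≤ x * Real.exp (-(c * LL x))) : Fw c P := by
  obtain ⟨x₀, h⟩ := h
  refine ⟨x₀, fun x hx => ?_⟩
  obtain ⟨T, h1, h2⟩ := h x hx
  exact (Nat.cast_le.mpr (ZX_count T R h1 hR)).trans h2

end Pool.Agent.Lib.MP_79499b_co.PL
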