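import Pool.Agent.Lib.MP_79499b_co.PL.ZA1
import Pool.Agent.Lib.MP_79499b_co.PL.K12
import Pool.Agent.Lib.MP_79499b_co.PL.W0
import Pool.Agent.Lib.MP_79499b_co.PL.W4
import Pool.Agent.Lib.MP_79499b_co.PL.W6
import Pool.Agent.Lib.MP_79499b_co.PL.ZX

/-!
# ZA2: the Gauss case

Proof. For `σ ∈ {1,-1}`, `r < 8`, `Om = fun p a b e => OmG r σ p a b e` satisfies the hypotheses of `sl2_sieve` with `h p = 9/2` or `1/2`, `κ = 3/2` (`W0_main` + `W4_main`, `W6_gauss`, `W6_perG`); take `ε/2`. For large `x` each `n` of the set gives (`ZA1_main`; `P0 x ≥ 13`) a point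
`(σ, a, b, e)` and `r = n % 8`; the map is injective, because `f = (b e + σ)/a` and `4n + 2 = gP a b + gP e f` determine `n`. Let `2^j < a ≤ 2^(j+1)` (`j = log2 (a-1)`; `a ≥ 2`), `A = 2^j`, `B = E = 2^(j+1) + 1`; `η = σ`: `a ∣ b e + σ`. The points with
`A ≥ x^(1/4)` lie in `sft Om (UZ x) A B E σ`, with `A < a ≤ sqrt(4x+2)`, so `A^2 ≤ 4x + 2 ≤ 16 x`, `B ≤ 3A ≤ 4A`, `A E ≤ 3 A^2 ≤ 64 x`. The others have `a ≤ 2 x^(1/4) + 1`, `b, e ≤ a`: at most `(2x^(1/4) + 2)^3 ≤ 64 x^(3/4)` (for each `σ`, `r`).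
Number of points: `≤ 16 (64 x^(3/4) + ∑_j (9 · 4^j exp(-(3/2 - ε/2) LL) + x^(99/100)))`, over the `j` with `4^j ≤ 4x+2`: `∑ 4^j ≤ (4/3)(4x+2) ≤ 8x`, at most `2 log x + 3` values of `j`. For large `x` this is `≤ x exp(-(3/2 - ε) LL)` (`x^(99/100) (2 log x + 3)` is smaller than `x exp(-2 LL)`).
-/

set_option autoImplicit false

namespace Pool.Agent.Lib.MP_79499b_co.PL

open Finset Q38
open scoped Classical NumberTheorySymbols

/-- the sieved set, Gauss case -/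
private noncomputable def ZA2S (x r : ℕ) (σ : ℤ) (j : ℕ) : Finset (ℕ × ℕ × ℕ) :=
  sft (fun p a b e => OmG r σ p (a : ZMod p) (b : ZMod p) (e : ZMod p)) (UZ x)
    (2 ^ j) (2 * 2 ^ j + 1) (2 * 2 ^ j + 1) σ

private lemma ZA2_sieve {ε : ℝ} (hε : 0 < ε) : ∃ x₀ : ℕ, ∀ x : ℕ, x₀ ≤ x →
    ∀ (r : ℕ) (σ : ℤ) (j : ℕ), r < 8 → (σ = 1 ∨ σ = -1) →
      (x : ℝ) ^ (1 / 4 : ℝ) ≤ 2 ^ j → 4 ^ j ≤ 16 * x →
      ((ZA2S x r σ j).card : ℝ) ≤
        9 * 4 ^ j * Real.exp (-((3 / 2 - ε / 2) * LL x)) + (x : ℝ) ^ (99 / 100 : ℝ) := by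
  obtain ⟨C, hC⟩ := W6_gauss
  have key : ∀ (r : ℕ) (σ : ℤ), (σ = 1 ∨ σ = -1) → ∃ x₀ : ℕ, ∀ x : ℕ, x₀ ≤ x →
      ∀ (A B E : ℕ) (η : ℤ), (η = 1 ∨ η = -1) →
      (x : ℝ) ^ (1 / 4 : ℝ) ≤ A → A ^ 2 ≤ 16 * x → B ≤ 4 * A → A * E ≤ 64 * x →
      ((sft (fun p a b e => OmG r σ p (a : ZMod p) (b : ZMod p) (e : ZMod p))
        (UZ x) A B E η).card : ℝ) ≤
        (B : ℝ) * E * Real.exp (-((3 / 2 - ε / 2) * LL x)) + (x : ℝ) ^ (99 / 100 : ℝ) := by
    intro r σ hσ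
    refine sl2_sieve (W6_perG r σ) (fun p => if p % 12 = 1 then (9 / 2 : ℝ) else 1 / 2) ?_ ?_
      (by norm_num) hC (half_pos hε)
    · intro p
      split_ifs <;> constructor <;> norm_num
    · intro p hp hp13
      have : Fact p.Prime := ⟨hp⟩
      have h1 := W4_main (p := p) hp13 r hσ
      have h2 := W0_main (p := p) (fun a b e => OmG r σ p a b e)
      unfold omc
      rw [h2]
      exact h1
  choose! X hX using key
  refine ⟨(range 8).sup (fun r => max (X r 1) (X r (-1))), ?_⟩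
  intro x hx r σ j hr hσ hj hj4
  have h1 : max (X r 1) (X r (-1)) ≤ x :=
    le_trans (Finset.le_sup (f := fun r => max (X r 1) (X r (-1))) (mem_range.mpr hr)) hx
  have h2 : X r σ ≤ x := by
    rcases hσ with rfl | rfl
    · exact (le_max_left _ _).trans h1
    · exact (le_max_right _ _).trans h1
  have h44 : (2 ^ j) ^ 2 = 4 ^ j := by
    rw [← pow_mul, mul_comm, pow_mul]
    norm_num
  have h1j : 1 ≤ 2 ^ j := Nat.one_le_two_pow
  have h3 := hX r σ hσ x h2 (2 ^ j) (2 * 2 ^ j + 1) (2 * 2 ^ j + 1) σ hσ (by exact_mod_cast hj)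
    (by rw [h44]; exact hj4) (by omega) (by nlinarith)
  unfold ZA2S
  refine h3.trans ?_
  have h5 : ((2 * 2 ^ j + 1 : ℕ) : ℝ) * ((2 * 2 ^ j + 1 : ℕ) : ℝ) ≤ 9 * 4 ^ j := by
    have h6 : (2 * 2 ^ j + 1) * (2 * 2 ^ j + 1) ≤ 9 * 4 ^ j := by
      rw [← h44]
      nlinarith
    exact_mod_cast h6
  have h7 := mul_le_mul_of_nonneg_right h5 (Real.exp_pos (-((3 / 2 - ε / 2) * LL x))).le
  linarith

/-- the relation between `n` and its point -/
private def ZA2R (n : ℕ) (t : ℤ × ℕ × ℕ × ℕ) : Prop :=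
  1 ≤ t.2.1 ∧ ∃ f : ℕ, (t.2.1 : ℤ) * f = (t.2.2.1 : ℤ) * t.2.2.2 + t.1 ∧
    gP (t.2.1 : ℤ) t.2.2.1 + gP (t.2.2.2 : ℤ) f = 4 * n + 2

private lemma ZA2_inj {n n' : ℕ} {t : ℤ × ℕ × ℕ × ℕ} (h : ZA2R n t) (h' : ZA2R n' t) : n = n' := by
  obtain ⟨h1, f, h2, h3⟩ := h
  obtain ⟨-, f', h2', h3'⟩ := h'
  have h4 : (t.2.1 : ℤ) ≠ 0 := by
    have : (1 : ℤ) ≤ t.2.1 := by exact_mod_cast h1
    omega
  have h5 : (f : ℤ) = f' := mul_left_cancel₀ h4 (h2.trans h2'.symm)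
  rw [h5] at h3
  have h6 := h3.symm.trans h3'
  have h7 : (n : ℤ) = n' := by linarith
  exact_mod_cast h7

theorem ZA_main {ε : ℝ} (hε : 0 < ε) : Fw (3 / 2 - ε) (fun x n => 1 ≤ n ∧
    (n % 4 = 0 ∨ n % 4 = 3) ∧ PC.Exc2 3 n ∧ Rough (zz x) n ∧
    (∀ w : ℕ, w.Prime → w ∣ Phi 3 n → w % 4 = 1) ∧ NoSq (P0 x) n) := by
  obtain ⟨x1, h1⟩ := ZA2_sieve hε
  obtain ⟨x2, h2⟩ := ZX_pow (3 / 2 - ε) 400
  obtain ⟨x3, h3⟩ := ZX_lt (show 3 / 2 - ε < 3 / 2 - ε / 2 by linarith) 6400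
  obtain ⟨x4, h4⟩ := ZX_num
  obtain ⟨x5, h5⟩ : ∃ x5 : ℕ, ∀ x : ℕ, x5 ≤ x → 13 ≤ P0 x := by
    obtain ⟨x5, h5⟩ := Filter.eventually_atTop.mp (tendsto_log_nat.eventually_ge_atTop 3)
    refine ⟨x5, fun x hx => ?_⟩
    have h6 := h5 x hx
    unfold P0
    have h7 : ((12 : ℕ) : ℝ) < Real.log x ^ 3 := by
      have : (3 : ℝ) ^ 3 ≤ Real.log x ^ 3 := pow_le_pow_left₀ (by norm_num) h6 3
      norm_num at this ⊢
      linarith
    exact Nat.lt_ceil.mpr h7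
  refine ZX_fw ZA2R (fun n n' t h h' => ZA2_inj h h')
    ⟨max (max x1 x2) (max (max x3 x4) (max x5 100)), fun x hx => ?_⟩
  simp only [max_le_iff] at hx
  obtain ⟨⟨hx1, hx2⟩, ⟨hx3, hx4⟩, hx5, hx100⟩ := hx
  have hx0 : (0 : ℝ) < x := by
    have : 0 < x := by omega
    exact_mod_cast this
  have hx1' : (1 : ℝ) ≤ x := by
    have : 1 ≤ x := by omega
    exact_mod_cast this
  set y : ℝ := (x : ℝ) ^ (1 / 4 : ℝ) with hy
  have hy1 : 1 ≤ y := Real.one_le_rpow hx1' (by norm_num)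
  set M : ℕ := ⌊2 * y⌋₊ + 1 with hM
  set J : Finset ℕ := (range (Nat.log 4 (16 * x) + 1)).filter (fun j => y ≤ 2 ^ j) with hJ
  set Sg : Finset ℤ := {1, -1} with hSg
  set T1 : Finset (ℤ × ℕ × ℕ × ℕ) := (Sg ×ˢ range 8 ×ˢ J).biUnion
    (fun q => (ZA2S x q.2.1 q.1 q.2.2).image (fun t => (q.1, t))) with hT1
  set T2 : Finset (ℤ × ℕ × ℕ × ℕ) := Sg ×ˢ range M ×ˢ range M ×ˢ range M with hT2
  have hcov : ∀ n : ℕ, n < x → (1 ≤ n ∧
      (n % 4 = 0 ∨ n % 4 = 3) ∧ PC.Exc2 3 n ∧ Rough (zz x) n ∧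
      (∀ w : ℕ, w.Prime → w ∣ Phi 3 n → w % 4 = 1) ∧ NoSq (P0 x) n) →
      ∃ t ∈ T1 ∪ T2, ZA2R n t := by
    intro n hnx hn
    obtain ⟨hn1, hn4, hexc, hR, hw, hsq⟩ := hn
    obtain ⟨σ, a, b, e, f, hσ, ha1, hba, hea, ha2, haf, hgP, hU⟩ :=
      ZA1_main hnx hn1 (h5 x hx5) hn4 hexc hR hw hsq
    refine ⟨(σ, a, b, e), ?_, ha1, f, haf, hgP⟩
    have hσ' : σ ∈ Sg := by
      rw [hSg, mem_insert, mem_singleton]
      exact hσ
    rw [mem_union]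
    by_cases haM : a < M
    · right
      rw [hT2, mem_product, mem_product, mem_product, mem_range, mem_range, mem_range]
      exact ⟨hσ', haM, lt_of_le_of_lt hba haM, lt_of_le_of_lt hea haM⟩
    · left
      push Not at haM
      have ha2' : 2 ≤ a := by
        have h7 : 2 ≤ ⌊2 * y⌋₊ := by
          apply Nat.le_floor
          push_cast
          linarith
        omega
      obtain ⟨j, hj1, hj2⟩ := ZX_dy ha2'
      have h44 : (2 ^ j) ^ 2 = 4 ^ j := by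
        rw [← pow_mul, mul_comm, pow_mul]
        norm_num
      have hj4 : 4 ^ j ≤ 16 * x := by
        rw [← h44]
        have : (2 ^ j) ^ 2 ≤ a ^ 2 := Nat.pow_le_pow_left hj1.le 2
        omega
      have hyj : y ≤ 2 ^ j := by
        have h7 : 2 * y < ((a : ℕ) : ℝ) := by
          have h8 : 2 * y < ((⌊2 * y⌋₊ + 1 : ℕ) : ℝ) := by
            push_cast
            exact Nat.lt_floor_add_one _
          have h9 : ((⌊2 * y⌋₊ + 1 : ℕ) : ℝ) ≤ (a : ℝ) := by exact_mod_cast haM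
          linarith
        have h8 : ((a : ℕ) : ℝ) ≤ 2 * 2 ^ j := by exact_mod_cast hj2
        linarith
      rw [hT1, mem_biUnion]
      refine ⟨(σ, n % 8, j), ?_, ?_⟩
      · rw [mem_product, mem_product]
        refine ⟨hσ', mem_range.mpr (Nat.mod_lt _ (by norm_num)), ?_⟩
        rw [hJ, mem_filter, mem_range]
        exact ⟨Nat.lt_succ_of_le (Nat.le_log_of_pow_le (by norm_num) hj4), hyj⟩
      · rw [mem_image]
        refine ⟨(a, b, e), ?_, rfl⟩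
        unfold ZA2S sft
        rw [mem_filter, mem_product, mem_product, mem_Ioc, mem_range, mem_range]
        refine ⟨⟨⟨hj1, hj2⟩, by dsimp only; omega, by dsimp only; omega⟩, ⟨f, haf.symm⟩, ?_⟩
        intro p hp
        exact hU p hp
  have hT1c : (T1.card : ℝ) ≤ ∑ q ∈ Sg ×ˢ range 8 ×ˢ J,
      (9 * 4 ^ q.2.2 * Real.exp (-((3 / 2 - ε / 2) * LL x)) + (x : ℝ) ^ (99 / 100 : ℝ)) := by
    have h7 : (T1.card : ℝ) ≤ ∑ q ∈ Sg ×ˢ range 8 ×ˢ J,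
        (((ZA2S x q.2.1 q.1 q.2.2).image (fun t => (q.1, t))).card : ℝ) := by
      exact_mod_cast Finset.card_biUnion_le
    refine h7.trans (Finset.sum_le_sum fun q hq => ?_)
    rw [mem_product, mem_product, hSg, mem_insert, mem_singleton, mem_range, hJ, mem_filter,
      mem_range] at hq
    obtain ⟨hq1, hq2, hq3, hq4⟩ := hq
    have h8 : (((ZA2S x q.2.1 q.1 q.2.2).image (fun t => (q.1, t))).card : ℝ) ≤
        ((ZA2S x q.2.1 q.1 q.2.2).card : ℝ) := by exact_mod_cast Finset.card_image_le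
    refine h8.trans (h1 x hx1 _ _ _ hq2 hq1 hq4 ?_)
    calc 4 ^ q.2.2 ≤ 4 ^ (Nat.log 4 (16 * x)) := Nat.pow_le_pow_right (by norm_num) (by omega)
      _ ≤ 16 * x := Nat.pow_log_le_self 4 (by omega)
  have hSc : Sg.card = 2 := by
    rw [hSg]
    rfl
  have hJc : ((J.card : ℕ) : ℝ) ≤ 2 * Real.log x := by
    refine le_trans ?_ (h4 x hx4)
    have : J.card ≤ Nat.log 4 (16 * x) + 1 := by
      rw [hJ]
      refine (Finset.card_filter_le _ _).trans ?_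
      rw [card_range]
    exact_mod_cast this
  have hJs : ∑ j ∈ J, (4 : ℝ) ^ j ≤ 22 * x := by
    refine le_trans ?_ (ZX_geo (show 1 ≤ x by omega))
    rw [hJ]
    exact Finset.sum_le_sum_of_subset_of_nonneg (filter_subset _ _) (fun _ _ _ => by positivity)
  have hsum : ∑ q ∈ Sg ×ˢ range 8 ×ˢ J,
      (9 * (4 : ℝ) ^ q.2.2 * Real.exp (-((3 / 2 - ε / 2) * LL x)) + (x : ℝ) ^ (99 / 100 : ℝ)) =
      16 * (9 * (∑ j ∈ J, (4 : ℝ) ^ j) * Real.exp (-((3 / 2 - ε / 2) * LL x)) +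
        J.card * (x : ℝ) ^ (99 / 100 : ℝ)) := by
    rw [Finset.sum_product]
    simp_rw [Finset.sum_product]
    rw [Finset.sum_const, Finset.sum_const, hSc, card_range, Finset.sum_add_distrib,
      Finset.sum_const, ← Finset.sum_mul, ← Finset.mul_sum]
    simp only [nsmul_eq_mul]
    push_cast
    ring
  have hT2c : (T2.card : ℝ) ≤ 54 * (x : ℝ) ^ (99 / 100 : ℝ) := by
    have h7 : T2.card = 2 * (M * (M * M)) := by
      rw [hT2, card_product, card_product, card_product, hSc, card_range]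
    have h8 : (M : ℝ) ≤ 3 * y := by
      rw [hM]
      push_cast
      have := Nat.floor_le (show 0 ≤ 2 * y by linarith)
      linarith
    have h9 : (M : ℝ) * (M * M) ≤ (3 * y) * ((3 * y) * (3 * y)) := by
      have h10 : (0 : ℝ) ≤ M := Nat.cast_nonneg M
      have h11 : (M : ℝ) * M ≤ (3 * y) * (3 * y) := mul_le_mul h8 h8 h10 (by linarith)
      exact mul_le_mul h8 h11 (by positivity) (by linarith)
    have h12 : y * (y * y) ≤ (x : ℝ) ^ (99 / 100 : ℝ) := by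
      rw [hy, ← Real.rpow_add hx0, ← Real.rpow_add hx0]
      exact Real.rpow_le_rpow_of_exponent_le hx1' (by norm_num)
    rw [h7]
    push_cast
    nlinarith
  have hlog1 : 1 ≤ Real.log x := by
    rw [Real.le_log_iff_exp_le hx0]
    have := Real.exp_one_lt_d9
    have h7 : (100 : ℝ) ≤ x := by exact_mod_cast hx100
    linarith
  have h99 : (0 : ℝ) ≤ (x : ℝ) ^ (99 / 100 : ℝ) := by positivity
  have hfin : ((T1 ∪ T2).card : ℝ) ≤ x * Real.exp (-((3 / 2 - ε) * LL x)) := by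
    have h7 : ((T1 ∪ T2).card : ℝ) ≤ T1.card + T2.card := by exact_mod_cast Finset.card_union_le T1 T2
    have h8 := h2 x hx2
    have h9 := h3 x hx3
    set X1 := Real.exp (-((3 / 2 - ε / 2) * LL x)) with hX1
    have hX1p : 0 < X1 := Real.exp_pos _
    set X2 := Real.exp (-((3 / 2 - ε) * LL x)) with hX2
    set z := (x : ℝ) ^ (99 / 100 : ℝ) with hz
    rw [hsum] at hT1c
    have k1 : 9 * (∑ j ∈ J, (4 : ℝ) ^ j) * X1 ≤ 9 * (22 * x) * X1 :=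
      mul_le_mul_of_nonneg_right (by linarith) hX1p.le
    have k2 : (J.card : ℝ) * z ≤ 2 * Real.log x * z := mul_le_mul_of_nonneg_right hJc h99
    have k3 : z ≤ Real.log x * z := le_mul_of_one_le_left h99 hlog1
    have k4 : x * (6400 * X1) ≤ x * X2 := mul_le_mul_of_nonneg_left h9 hx0.le
    have k5 : 0 ≤ (x : ℝ) * X1 := by positivity
    nlinarith
  exact ⟨T1 ∪ T2, hcov, hfin⟩

end Pool.Agent.Lib.MP_79499b_co.PL
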