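import Pool.Agent.Lib.MP_79499b_co.PL.Defs

/-!
# ZB1: from `n` to a point of the sieve, critical case

Proof. `v = Phi 3 n = qp 1 n = n^2 + n + 1` (EO/Defs), `w c' = v`, `w ≤ c'` since `w^2 ≤ v`. `rep_sorted` (EO/R1.lean, `s = 1`): `a, b, e, f` with `b ≤ a`, `1 ≤ a`, `a f = b e + 1` or `b e = a f + 1` (`σ = 1`, `-1`), `w = qf 1 a b = cF a b`, `c' = cF e f`,
`2n + 1 = cN a b e f`, `a e ≤ n`, `a^2 ≤ w ≤ 3 a^2`, `w ≤ n + 1`. Let `p ∈ UZ x` and `OmC σ p a b e`; `f = a⁻¹ (b e + σ)` in `ZMod p`.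
First alternative: `p ≡ 1 mod 3` and `p ∣ w` or `p ∣ c'`, so `p ∣ v`, `p < zz x`: contradiction to `Rough`. Second: `cN a b e f = 1` in `ZMod p`: `2n + 1 ≡ 1`, `p ∣ n` (`p` odd), `p^2 ∤ n`, so `Exc 3 n` gives `J(p | w) ≠ -1` (`exact_factorization`), hence `J(p | w) = 1`
(`p ≠ w` as `p ∣ n`, `w ∣ Phi 3 n`; `not_dvd_Phi_of_dvd`). `w ≡ 3 mod 4`: quadratic reciprocity: `J(-w | p) = J(-1 | p) J(w | p) = 1` (`J(w|p) J(p|w) = (-1)^((p-1)/2)`, and `J(-1|p) = (-1)^((p-1)/2)`; `jacobiSym.quadratic_reciprocity_if`, `jacobiSym.at_neg_one`, `ZMod.χ₄`).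
So `-w = -(cF a b)` is a square in `ZMod p`: contradiction.
-/

set_option autoImplicit false

namespace Pool.Agent.Lib.MP_79499b_co.PL

open Finset Q38
open scoped Classical NumberTheorySymbols

/-- reciprocity -/
private lemma ZB1_sq {p w : ℕ} (hp : p.Prime) (hp2 : p ≠ 2) (hw4 : w % 4 = 3)
    (hJ : J((p : ℤ) | w) = 1) : IsSquare (-(w : ZMod p)) := by
  haveI : Fact p.Prime := ⟨hp⟩
  have hpo : Odd p := hp.odd_of_ne_two hp2
  have hwo : Odd w := by rw [Nat.odd_iff]; omega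
  by_contra hns
  have h1 : J(-(w : ℤ) | p) = -1 := by
    rw [ZMod.nonsquare_iff_jacobiSym_eq_neg_one]
    intro h
    apply hns
    have e : ((-(w : ℤ) : ℤ) : ZMod p) = -(w : ZMod p) := by push_cast; ring
    rwa [e] at h
  rw [jacobiSym.neg _ hpo] at h1
  have e2 := jacobiSym.quadratic_reciprocity_if (a := w) (b := p) (by omega)
    (Nat.odd_iff.mp hpo)
  have h5 : p % 4 = 1 ∨ p % 4 = 3 := by
    have := Nat.odd_iff.mp hpo
    omega
  rcases h5 with h5 | h5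
  · rw [if_neg (by omega), hJ] at e2
    rw [ZMod.χ₄_nat_one_mod_four h5, ← e2] at h1
    norm_num at h1
  · rw [if_pos ⟨hw4, h5⟩, hJ] at e2
    rw [ZMod.χ₄_nat_three_mod_four h5, ← e2] at h1
    norm_num at h1

/-- `p ∣ n` exactly and `Exc 3 n`, so `J(p | w) = 1` -/
private lemma ZB1_J {p n w : ℕ} (hp : p.Prime) (hn1 : 1 ≤ n) (hexc : Exc 3 n) (hw : w.Prime)
    (hwn : w ∣ Phi 3 n) (hpn : p ∣ n) (hpn2 : ¬ p ^ 2 ∣ n) : J((p : ℤ) | w) = 1 := by
  haveI : Fact w.Prime := ⟨hw⟩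
  have h1 := hexc p hp (by rw [exact_factorization hp (by omega) ⟨hpn, hpn2⟩]; exact odd_one) w hw hwn
  have hne : p ≠ w := by
    rintro rfl
    exact not_dvd_Phi_of_dvd (by norm_num) hp hpn hwn
  have h2 : ((p : ℤ) : ZMod w) ≠ 0 := by
    intro h
    have h3 : (p : ZMod w) = 0 := by exact_mod_cast h
    rw [ZMod.natCast_eq_zero_iff] at h3
    exact hne ((Nat.prime_dvd_prime_iff_eq hw hp).mp h3).symm
  rw [← jacobiSym.legendreSym.to_jacobiSym] at h1 ⊢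
  rcases legendreSym.eq_one_or_neg_one w h2 with h | h
  · exact h
  · exact absurd h h1

theorem ZB1_main {x n w : ℕ} (hn : n < x) (hn1 : 1 ≤ n) (hP0 : 13 ≤ P0 x) (hexc : Exc 3 n)
    (hr : Rough (zz x) n) (hsq : NoSq (P0 x) n) (hw : w.Prime) (hw4 : w % 4 = 3)
    (hwn : w ∣ Phi 3 n) (hw2 : w ^ 2 ≤ Phi 3 n) :
    ∃ (σ : ℤ) (a b e f : ℕ), (σ = 1 ∨ σ = -1) ∧ 1 ≤ a ∧ b ≤ a ∧ a * e ≤ x ∧ a ^ 2 ≤ x + 1 ∧
      w ≤ 3 * a ^ 2 ∧ (a : ℤ) * f = b * e + σ ∧ cN (a : ℤ) b e f = 2 * n + 1 ∧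
      ∀ p ∈ UZ x, ¬ OmC σ p (a : ZMod p) (b : ZMod p) (e : ZMod p) := by
  obtain ⟨c', hc'⟩ := hwn
  have hPhi := Phi_three n
  have hqp : w * c' = EO.qp 1 n := by
    rw [← hc', hPhi]; unfold EO.qp; ring
  have hcc : w ≤ c' := by
    rw [hc', pow_two] at hw2
    exact Nat.le_of_mul_le_mul_left hw2 hw.pos
  obtain ⟨a, b, e, f, hba, ha1, hdet, hcw, hcc', h2n, hae, haw, hw3, hwn1⟩ :=
    EO.rep_sorted (le_refl 1) hqp hcc
  have hdvd1 : w ∣ Phi 3 n := ⟨c', hc'⟩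
  have hdvd2 : c' ∣ Phi 3 n := ⟨w, by rw [hc']; ring⟩
  have hkey : ∀ σ : ℤ, (a : ℤ) * f = b * e + σ → ∀ p ∈ UZ x,
      ¬ OmC σ p (a : ZMod p) (b : ZMod p) (e : ZMod p) := by
    intro σ hσ p hp hom
    obtain ⟨hpz, hpp, hpP⟩ : p < zz x ∧ p.Prime ∧ P0 x ≤ p := by
      unfold UZ at hp
      rw [mem_filter, mem_range] at hp
      exact ⟨hp.1, hp.2.1, hp.2.2⟩
    haveI : Fact p.Prime := ⟨hpp⟩
    obtain ⟨ha0, hom⟩ := hom
    have hf : (a : ZMod p)⁻¹ * ((b : ZMod p) * e + (σ : ZMod p)) = (f : ZMod p) := by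
      have h1 : ((a : ZMod p)) * f = b * e + (σ : ZMod p) := by
        have h2 := congrArg (Int.cast : ℤ → ZMod p) hσ
        push_cast at h2
        exact h2
      rw [← h1, ← mul_assoc, inv_mul_cancel₀ ha0, one_mul]
    rw [hf] at hom
    have hwF : (w : ZMod p) = cF (a : ZMod p) b := by
      rw [hcw]; unfold EO.qf cF; push_cast; ring
    have hcF : (c' : ZMod p) = cF (e : ZMod p) f := by
      rw [hcc']; unfold EO.qf cF; push_cast; ring
    rcases hom with ⟨-, h | h⟩ | ⟨h, hns⟩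
    · rw [← hwF, ZMod.natCast_eq_zero_iff] at h
      have := hr p hpp (h.trans hdvd1)
      omega
    · rw [← hcF, ZMod.natCast_eq_zero_iff] at h
      have := hr p hpp (h.trans hdvd2)
      omega
    · have h3 : cN (a : ZMod p) b e f = 2 * (n : ZMod p) + 1 := by
        have h4 := congrArg (Nat.cast : ℕ → ZMod p) h2n
        unfold cN
        push_cast at h4
        linear_combination -h4
      rw [h3] at h
      have h5 : (2 : ZMod p) * n = 0 := by linear_combination h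
      have h6 : p ∣ 2 * n := by
        rw [← ZMod.natCast_eq_zero_iff]; push_cast; exact h5
      have hpn : p ∣ n := by
        rcases (Nat.Prime.dvd_mul hpp).mp h6 with h7 | h7
        · have := Nat.le_of_dvd (by norm_num) h7
          omega
        · exact h7
      apply hns
      rw [← hwF]
      exact ZB1_sq hpp (by omega) hw4 (ZB1_J hpp hn1 hexc hw hdvd1 hpn (hsq p hpp hpP))
  have hcN : cN (a : ℤ) b e f = 2 * n + 1 := by
    have h4 := congrArg (Nat.cast : ℕ → ℤ) h2n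
    unfold cN
    push_cast at h4
    linear_combination -h4
  rcases hdet with hdet | hdet
  · have hσ : (a : ℤ) * f = b * e + 1 := by exact_mod_cast hdet
    exact ⟨1, a, b, e, f, Or.inl rfl, ha1, hba, by omega, by omega, hw3, hσ, hcN, hkey 1 hσ⟩
  · have hσ : (a : ℤ) * f = b * e + -1 := by
      have : (b : ℤ) * e = a * f + 1 := by exact_mod_cast hdet
      linarith
    exact ⟨-1, a, b, e, f, Or.inr rfl, ha1, hba, by omega, by omega, hw3, hσ, hcN, hkey (-1) hσ⟩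

end Pool.Agent.Lib.MP_79499b_co.PL
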