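import Pool.Agent.Lib.MP_79499b_co.PL.ZB1
import Pool.Agent.Lib.MP_79499b_co.PL.K12
import Pool.Agent.Lib.MP_79499b_co.PL.W0
import Pool.Agent.Lib.MP_79499b_co.PL.W5
import Pool.Agent.Lib.MP_79499b_co.PL.W6
import Pool.Agent.Lib.MP_79499b_co.PL.ZX

/-!
# ZB2: the critical case

Proof. `sl2_sieve` for `Om = fun p a b e => OmC σ p a b e`, `σ ∈ {1,-1}`, with `h p = 9/2` or `1/2` (`p ≡ 1 mod 3` or not), `κ = 5/2`, `ε/2` (`W0_main`, `W5_main`, `W6_crit`, `W6_perC`). For large `x` each `n` gives (`ZB1_main`) a point `(σ, a, b, e)`, injectively (`a, b, e, σ` determine `f` and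
`2n + 1 = cN a b e f`). `3 a^2 ≥ w > x^(29/30)`, so `a > 2 x^(1/4) + 2` for large `x`. `2^j < a ≤ 2^(j+1)`, `A = 2^j ≥ x^(1/4)`, `A^2 < a^2 ≤ x + 1 ≤ 16x`, `B = 2A + 1 ≤ 4A` (`b ≤ a ≤ 2A`), `E = x/A + 1` (`e ≤ x/a ≤ x/A`), `A E ≤ x + A ≤ 64 x`: the point is in
`sft Om (UZ x) A B E σ`. `B E ≤ 3A (x/A + 1) ≤ 6x` (`A ≤ x`). The number of `j` is at most `2 log x + 3`. Total: `≤ 2 (2 log x + 3) (6 x exp(-(5/2 - ε/2) LL) + x^(99/100)) ≤ x exp(-(3/2 - ε) LL)` for large `x` (`log x = exp(LL)`).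
-/

set_option autoImplicit false

namespace Pool.Agent.Lib.MP_79499b_co.PL

open Finset Q38
open scoped Classical NumberTheorySymbols

/-- the sieved set, critical case -/
private noncomputable def ZB2S (x : ℕ) (σ : ℤ) (j : ℕ) : Finset (ℕ × ℕ × ℕ) :=
  sft (fun p a b e => OmC σ p (a : ZMod p) (b : ZMod p) (e : ZMod p)) (UZ x)
    (2 ^ j) (2 * 2 ^ j + 1) (x / 2 ^ j + 1) σ

private lemma ZB2_sieve {ε : ℝ} (hε : 0 < ε) : ∃ x₀ : ℕ, ∀ x : ℕ, x₀ ≤ x →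
    ∀ (σ : ℤ) (j : ℕ), (σ = 1 ∨ σ = -1) →
      (x : ℝ) ^ (1 / 4 : ℝ) ≤ 2 ^ j → 4 ^ j ≤ 16 * x →
      ((ZB2S x σ j).card : ℝ) ≤
        6 * x * Real.exp (-((5 / 2 - ε / 2) * LL x)) + (x : ℝ) ^ (99 / 100 : ℝ) := by
  obtain ⟨C, hC⟩ := W6_crit
  have key : ∀ (σ : ℤ), (σ = 1 ∨ σ = -1) → ∃ x₀ : ℕ, ∀ x : ℕ, x₀ ≤ x →
      ∀ (A B E : ℕ) (η : ℤ), (η = 1 ∨ η = -1) →
      (x : ℝ) ^ (1 / 4 : ℝ) ≤ A → A ^ 2 ≤ 16 * x → B ≤ 4 * A → A * E ≤ 64 * x →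
      ((sft (fun p a b e => OmC σ p (a : ZMod p) (b : ZMod p) (e : ZMod p))
        (UZ x) A B E η).card : ℝ) ≤
        (B : ℝ) * E * Real.exp (-((5 / 2 - ε / 2) * LL x)) + (x : ℝ) ^ (99 / 100 : ℝ) := by
    intro σ hσ
    refine sl2_sieve (W6_perC σ) (fun p => if p % 3 = 1 then (9 / 2 : ℝ) else 1 / 2) ?_ ?_
      (by norm_num) hC (half_pos hε)
    · intro p
      split_ifs <;> constructor <;> norm_num
    · intro p hp hp13
      have : Fact p.Prime := ⟨hp⟩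
      have h1 := W5_main (p := p) hp13 hσ
      have h2 := W0_main (p := p) (fun a b e => OmC σ p a b e)
      unfold omc
      rw [h2]
      exact h1
  choose! X hX using key
  refine ⟨max 16 (max (X 1) (X (-1))), ?_⟩
  intro x hx σ j hσ hj hj4
  have hx16 : 16 ≤ x := (le_max_left _ _).trans hx
  have h1 : max (X 1) (X (-1)) ≤ x := (le_max_right _ _).trans hx
  have h2 : X σ ≤ x := by
    rcases hσ with rfl | rfl
    · exact (le_max_left _ _).trans h1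
    · exact (le_max_right _ _).trans h1
  have h44 : (2 ^ j) ^ 2 = 4 ^ j := by
    rw [← pow_mul, mul_comm, pow_mul]
    norm_num
  have h1j : 1 ≤ 2 ^ j := Nat.one_le_two_pow
  have hAx : 2 ^ j ≤ x := by
    by_contra hlt
    push Not at hlt
    rw [← h44] at hj4
    nlinarith
  have hdiv : 2 ^ j * (x / 2 ^ j) ≤ x := Nat.mul_div_le x (2 ^ j)
  have h3 := hX σ hσ x h2 (2 ^ j) (2 * 2 ^ j + 1) (x / 2 ^ j + 1) σ hσ (by exact_mod_cast hj)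
    (by rw [h44]; exact hj4) (by omega) (by rw [mul_add, mul_one]; omega)
  unfold ZB2S
  refine h3.trans ?_
  have h5 : ((2 * 2 ^ j + 1 : ℕ) : ℝ) * ((x / 2 ^ j + 1 : ℕ) : ℝ) ≤ 6 * x := by
    have h6 : (2 * 2 ^ j + 1) * (x / 2 ^ j + 1) ≤ 6 * x := by
      calc (2 * 2 ^ j + 1) * (x / 2 ^ j + 1) ≤ (3 * 2 ^ j) * (x / 2 ^ j + 1) :=
            Nat.mul_le_mul_right _ (by omega)
        _ = 3 * (2 ^ j * (x / 2 ^ j)) + 3 * 2 ^ j := by ring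
        _ ≤ 6 * x := by omega
    exact_mod_cast h6
  have h7 := mul_le_mul_of_nonneg_right h5 (Real.exp_pos (-((5 / 2 - ε / 2) * LL x))).le
  linarith

/-- the relation between `n` and its point -/
private def ZB2R (n : ℕ) (t : ℤ × ℕ × ℕ × ℕ) : Prop :=
  1 ≤ t.2.1 ∧ ∃ f : ℕ, (t.2.1 : ℤ) * f = (t.2.2.1 : ℤ) * t.2.2.2 + t.1 ∧
    cN (t.2.1 : ℤ) t.2.2.1 (t.2.2.2 : ℤ) f = 2 * n + 1

private lemma ZB2_inj {n n' : ℕ} {t : ℤ × ℕ × ℕ × ℕ} (h : ZB2R n t) (h' : ZB2R n' t) : n = n' := by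
  obtain ⟨h1, f, h2, h3⟩ := h
  obtain ⟨-, f', h2', h3'⟩ := h'
  have h4 : (t.2.1 : ℤ) ≠ 0 := by
    have : (1 : ℤ) ≤ t.2.1 := by exact_mod_cast h1
    omega
  have h5 : (f : ℤ) = f' := mul_left_cancel₀ h4 (h2.trans h2'.symm)
  rw [h5] at h3
  have h6 := h3.symm.trans h3'
  have h7 : (n : ℤ) = n' := by linarith
  exact_mod_cast h7

theorem ZB_main {ε : ℝ} (hε : 0 < ε) : Fw (3 / 2 - ε) (fun x n => 1 ≤ n ∧ Exc 3 n ∧
    Rough (zz x) n ∧ NoSq (P0 x) n ∧ ∃ w : ℕ, w.Prime ∧ w % 4 = 3 ∧ w ∣ Phi 3 n ∧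
      w ^ 2 ≤ Phi 3 n ∧ (x : ℝ) ^ (29 / 30 : ℝ) < w) := by
  obtain ⟨x1, h1⟩ := ZB2_sieve hε
  obtain ⟨x2, h2⟩ := ZX_pow (3 / 2 - ε) 8
  obtain ⟨x3, h3⟩ := ZX_lt (show 3 / 2 - ε < 3 / 2 - ε / 2 by linarith) 48
  obtain ⟨x4, h4⟩ := ZX_num
  obtain ⟨x5, h5⟩ : ∃ x5 : ℕ, ∀ x : ℕ, x5 ≤ x → 13 ≤ P0 x := by
    obtain ⟨x5, h5⟩ := Filter.eventually_atTop.mp (tendsto_log_nat.eventually_ge_atTop 3)
    refine ⟨x5, fun x hx => ?_⟩
    have h6 := h5 x hx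
    unfold P0
    have h7 : ((12 : ℕ) : ℝ) < Real.log x ^ 3 := by
      have : (3 : ℝ) ^ 3 ≤ Real.log x ^ 3 := pow_le_pow_left₀ (by norm_num) h6 3
      norm_num at this ⊢
      linarith
    exact Nat.lt_ceil.mpr h7
  refine ZX_fw ZB2R (fun n n' t h h' => ZB2_inj h h')
    ⟨max (max x1 x2) (max (max x3 x4) (max x5 20736)), fun x hx => ?_⟩
  simp only [max_le_iff] at hx
  obtain ⟨⟨hx1, hx2⟩, ⟨hx3, hx4⟩, hx5, hx100⟩ := hx
  have hxr : (20736 : ℝ) ≤ x := by exact_mod_cast hx100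
  have hx0 : (0 : ℝ) < x := by linarith
  have hx1' : (1 : ℝ) ≤ x := by linarith
  set y : ℝ := (x : ℝ) ^ (1 / 4 : ℝ) with hy
  have hy12 : 12 ≤ y := by
    have h7 : ((20736 : ℝ)) ^ (1 / 4 : ℝ) ≤ y := Real.rpow_le_rpow (by norm_num) hxr (by norm_num)
    have h8 : ((20736 : ℝ)) ^ (1 / 4 : ℝ) = 12 := by
      rw [show (20736 : ℝ) = 12 ^ (4 : ℝ) by norm_num, ← Real.rpow_mul (by norm_num)]
      norm_num
    linarith
  have hy3 : y * (y * y) ≤ (x : ℝ) ^ (29 / 30 : ℝ) := by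
    rw [hy, ← Real.rpow_add hx0, ← Real.rpow_add hx0]
    exact Real.rpow_le_rpow_of_exponent_le hx1' (by norm_num)
  set J : Finset ℕ := (range (Nat.log 4 (16 * x) + 1)).filter (fun j => y ≤ 2 ^ j) with hJ
  set Sg : Finset ℤ := {1, -1} with hSg
  set T1 : Finset (ℤ × ℕ × ℕ × ℕ) := (Sg ×ˢ J).biUnion
    (fun q => (ZB2S x q.1 q.2).image (fun t => (q.1, t))) with hT1
  have hcov : ∀ n : ℕ, n < x → (1 ≤ n ∧ Exc 3 n ∧
      Rough (zz x) n ∧ NoSq (P0 x) n ∧ ∃ w : ℕ, w.Prime ∧ w % 4 = 3 ∧ w ∣ Phi 3 n ∧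
      w ^ 2 ≤ Phi 3 n ∧ (x : ℝ) ^ (29 / 30 : ℝ) < w) → ∃ t ∈ T1, ZB2R n t := by
    intro n hnx hn
    obtain ⟨hn1, hexc, hR, hsq, w, hw, hw4, hwn, hw2, hwx⟩ := hn
    obtain ⟨σ, a, b, e, f, hσ, ha1, hba, hea, ha2, hwa, haf, hcN, hU⟩ :=
      ZB1_main hnx hn1 (h5 x hx5) hexc hR hsq hw hw4 hwn hw2
    refine ⟨(σ, a, b, e), ?_, ha1, f, haf, hcN⟩
    have hσ' : σ ∈ Sg := by
      rw [hSg, mem_insert, mem_singleton]
      exact hσ
    have hay : 2 * y < (a : ℝ) := by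
      by_contra hlt
      push Not at hlt
      have h7 : ((w : ℕ) : ℝ) ≤ 3 * (a : ℝ) ^ 2 := by exact_mod_cast hwa
      have h8 : (0 : ℝ) ≤ a := Nat.cast_nonneg a
      have h9 : (a : ℝ) ^ 2 ≤ (2 * y) ^ 2 := pow_le_pow_left₀ h8 hlt 2
      have h10 : 12 * (y * y) ≤ y * (y * y) := mul_le_mul_of_nonneg_right hy12 (by positivity)
      nlinarith
    have ha2' : 2 ≤ a := by
      have : ((2 : ℕ) : ℝ) < (a : ℝ) := by push_cast; linarith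
      exact (Nat.cast_lt.mp this).le
    obtain ⟨j, hj1, hj2⟩ := ZX_dy ha2'
    have h44 : (2 ^ j) ^ 2 = 4 ^ j := by
      rw [← pow_mul, mul_comm, pow_mul]
      norm_num
    have hj4 : 4 ^ j ≤ 16 * x := by
      rw [← h44]
      have : (2 ^ j) ^ 2 ≤ a ^ 2 := Nat.pow_le_pow_left hj1.le 2
      omega
    have hyj : y ≤ 2 ^ j := by
      have h8 : ((a : ℕ) : ℝ) ≤ 2 * 2 ^ j := by exact_mod_cast hj2
      linarith
    have he : e < x / 2 ^ j + 1 := by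
      apply Nat.lt_succ_of_le
      rw [Nat.le_div_iff_mul_le (by positivity)]
      calc e * 2 ^ j ≤ e * a := Nat.mul_le_mul_left e hj1.le
        _ = a * e := mul_comm _ _
        _ ≤ x := hea
    rw [hT1, mem_biUnion]
    refine ⟨(σ, j), ?_, ?_⟩
    · rw [mem_product]
      refine ⟨hσ', ?_⟩
      rw [hJ, mem_filter, mem_range]
      exact ⟨Nat.lt_succ_of_le (Nat.le_log_of_pow_le (by norm_num) hj4), hyj⟩
    · rw [mem_image]
      refine ⟨(a, b, e), ?_, rfl⟩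
      unfold ZB2S sft
      rw [mem_filter, mem_product, mem_product, mem_Ioc, mem_range, mem_range]
      refine ⟨⟨⟨hj1, hj2⟩, by dsimp only; omega, he⟩, ⟨f, haf.symm⟩, ?_⟩
      intro p hp
      exact hU p hp
  have hT1c : (T1.card : ℝ) ≤ ∑ q ∈ Sg ×ˢ J,
      (6 * x * Real.exp (-((5 / 2 - ε / 2) * LL x)) + (x : ℝ) ^ (99 / 100 : ℝ)) := by
    have h7 : (T1.card : ℝ) ≤ ∑ q ∈ Sg ×ˢ J,
        (((ZB2S x q.1 q.2).image (fun t => (q.1, t))).card : ℝ) := by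
      exact_mod_cast Finset.card_biUnion_le
    refine h7.trans (Finset.sum_le_sum fun q hq => ?_)
    rw [mem_product, hSg, mem_insert, mem_singleton, hJ, mem_filter,
      mem_range] at hq
    obtain ⟨hq1, hq3, hq4⟩ := hq
    have h8 : (((ZB2S x q.1 q.2).image (fun t => (q.1, t))).card : ℝ) ≤
        ((ZB2S x q.1 q.2).card : ℝ) := by exact_mod_cast Finset.card_image_le
    refine h8.trans (h1 x hx1 _ _ hq1 hq4 ?_)
    calc 4 ^ q.2 ≤ 4 ^ (Nat.log 4 (16 * x)) := Nat.pow_le_pow_right (by norm_num) (by omega)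
      _ ≤ 16 * x := Nat.pow_log_le_self 4 (by omega)
  have hSc : Sg.card = 2 := by
    rw [hSg]
    rfl
  have hJc : ((J.card : ℕ) : ℝ) ≤ 2 * Real.log x := by
    refine le_trans ?_ (h4 x hx4)
    have : J.card ≤ Nat.log 4 (16 * x) + 1 := by
      rw [hJ]
      refine (Finset.card_filter_le _ _).trans ?_
      rw [card_range]
    exact_mod_cast this
  have h99 : (0 : ℝ) ≤ (x : ℝ) ^ (99 / 100 : ℝ) := by positivity
  refine ⟨T1, hcov, ?_⟩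
  rw [Finset.sum_const, card_product, hSc, nsmul_eq_mul] at hT1c
  push_cast at hT1c
  have h8 := h2 x hx2
  have h9 := h3 x hx3
  have hexp : Real.log x * Real.exp (-((5 / 2 - ε / 2) * LL x)) =
      Real.exp (-((3 / 2 - ε / 2) * LL x)) := by
    have h10 : Real.log x = Real.exp (LL x) := (exp_LL (by omega)).symm
    rw [h10, ← Real.exp_add]
    congr 1
    ring
  have hJ0 : (0 : ℝ) ≤ (J.card : ℝ) := Nat.cast_nonneg _
  have hE0 : (0 : ℝ) < Real.exp (-((5 / 2 - ε / 2) * LL x)) := Real.exp_pos _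
  have k1 : 2 * (J.card : ℝ) * (6 * x * Real.exp (-((5 / 2 - ε / 2) * LL x)) +
      (x : ℝ) ^ (99 / 100 : ℝ)) ≤ 2 * (2 * Real.log x) *
      (6 * x * Real.exp (-((5 / 2 - ε / 2) * LL x)) + (x : ℝ) ^ (99 / 100 : ℝ)) := by
    apply mul_le_mul_of_nonneg_right (by linarith)
    positivity
  have k2 : 2 * (2 * Real.log x) *
      (6 * x * Real.exp (-((5 / 2 - ε / 2) * LL x)) + (x : ℝ) ^ (99 / 100 : ℝ)) =
      x * (24 * (Real.log x * Real.exp (-((5 / 2 - ε / 2) * LL x)))) +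
      4 * (Real.log x * (x : ℝ) ^ (99 / 100 : ℝ)) := by ring
  rw [hexp] at k2
  have k3 : x * (48 * Real.exp (-((3 / 2 - ε / 2) * LL x))) ≤
      x * Real.exp (-((3 / 2 - ε) * LL x)) := mul_le_mul_of_nonneg_left h9 hx0.le
  linarith

end Pool.Agent.Lib.MP_79499b_co.PL
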