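import Pool.Agent.Lib.MP_79499b_co.PL.S3
import Pool.Agent.Lib.MP_79499b_co.PL.T4
import Pool.Agent.Lib.MP_79499b_co.EO.R2

/-!
# ZC: a prime `w ≡ 3 mod 4` of medium size

Proof. `δ = ε/12`. For large `x` let `B` be the set of `T4_main` for `Y = zz x` (`3 ≤ zz x ≤ x`). Let `n` be counted, `w` its prime; `w ≥ zz x` (`Rough`), `w ≤ x^(29/30) ≤ x`, odd. `n % w = c` with `w ∣ c^2 + c + 1`: at most 2 values `c < w` (`nroots 3 w`; `two_roots` in EO/R2 with `s = 1`).
If `w ∈ B`: at most `2 (x/w + 1) ≤ 4x/w` numbers for each `w`; in all at most `4x/(log x)^2`. If `w ∉ B`: `SS (zz x) w ≤ δ LL`, and `n` is in the set of `S3_main`: for `u ∈ UU (zz x) {w}`: `Rem 3 E F u n` is false: `J(u|w) = -1` and `Exact u n` contradict `Exc 3 n` (`exact_factorization`; `n ≥ 1`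
is not needed if `n = 0` is counted separately: `Phi 3 0 = 1` has no prime divisor), `u ∣ Phi 3 n` contradicts `Rough` (`u < zz x`). So at most `2 (x/w) exp(-(3/2 - 3δ) LL)` for each `w`; `∑_{w ≤ x} 1/w ≤ LL + C ≤ 2 LL` (`msum_one_le`). Total
`≤ 4x exp(-2 LL) + 4 x LL exp(-(3/2 - ε/4) LL) ≤ x exp(-(3/2 - ε) LL)`.
-/

set_option autoImplicit false

namespace Pool.Agent.Lib.MP_79499b_co.PL

open Finset Q38 Filter
open scoped Classical NumberTheorySymbols

private lemma zc_Phi (n : ℕ) : Phi 3 n = EO.qp 1 n := by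
  unfold Phi EO.qp
  simp [Finset.sum_range_succ]
  ring

private lemma zc_roots {w : ℕ} (hw : w.Prime) :
    ((range w).filter (fun c => w ∣ Phi 3 c)).card ≤ 2 := by
  refine le_trans (card_le_card ?_) (EO.two_roots (s := 1) hw 0)
  intro n hn
  rw [mem_filter] at hn ⊢
  refine ⟨hn.1, ?_⟩
  rw [Nat.zero_mod, ← zc_Phi]
  exact Nat.mod_eq_zero_of_dvd hn.2

private lemma zc_class {w : ℕ} (hw : w.Prime) {n : ℕ} (hn : w ∣ Phi 3 n) :
    n % w ∈ (range w).filter (fun c => w ∣ Phi 3 c) := by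
  rw [mem_filter, mem_range]
  refine ⟨Nat.mod_lt _ hw.pos, ?_⟩
  have h : Phi 3 (n % w) ≡ Phi 3 n [MOD w] := Phi_modEq (Nat.mod_modEq n w)
  exact (Nat.ModEq.dvd_iff h (dvd_refl w)).mpr hn

/-- numbers in one residue class -/
private lemma zc_cnt (w x c : ℕ) :
    (((range x).filter (fun n => n % w = c)).card : ℝ) ≤ x / w + 1 := by
  have h1 : ((range x).filter (fun n => n % w = c)).card ≤ (range (x / w + 1)).card := by
    refine card_le_card_of_injOn (fun n => n / w) ?_ ?_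
    · intro n hn
      rw [mem_coe, mem_filter, mem_range] at hn
      rw [mem_coe, mem_range]
      exact Nat.lt_succ_of_le (Nat.div_le_div_right hn.1.le)
    · intro a ha b hb hab
      rw [mem_coe, mem_filter, mem_range] at ha hb
      have hab' : a / w = b / w := hab
      rw [← Nat.div_add_mod a w, ← Nat.div_add_mod b w, hab', ha.2, hb.2]
  rw [card_range] at h1
  have h2 : (((range x).filter (fun n => n % w = c)).card : ℝ) ≤ ((x / w + 1 : ℕ) : ℝ) := by
    exact_mod_cast h1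
  refine h2.trans ?_
  rw [Nat.cast_add, Nat.cast_one]
  have : ((x / w : ℕ) : ℝ) ≤ (x : ℝ) / w := Nat.cast_div_le
  linarith

private lemma zc_zz : ∀ᶠ x : ℕ in atTop, 3 ≤ zz x ∧ zz x ≤ x := by
  have e1 : ∀ᶠ x : ℕ in atTop, Real.log (1 * Real.log x + 0) + 0 ≤ (1 / 40000) * Real.log x :=
    tendsto_log_nat.eventually (eventually_log_le 1 0 0 (1 / 40000) one_pos (by norm_num))
  filter_upwards [e1, tendsto_LL.eventually_ge_atTop 1, eventually_ge_atTop 3] with x h1 h2 h3
  have hl : Real.log (1 * Real.log x + 0) = LL x := by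
    rw [one_mul, add_zero]
    rfl
  rw [hl, add_zero] at h1
  have ht1 : 1 < Real.log x := one_lt_log h3
  have hx0 : (0 : ℝ) < x := by
    have : (3 : ℝ) ≤ x := by exact_mod_cast h3
    linarith
  have hd : (0 : ℝ) < 20000 * LL x := by linarith
  constructor
  · unfold zz
    rw [Nat.le_floor_iff (Real.exp_pos _).le]
    have h4 : (2 : ℝ) ≤ Real.log x / (20000 * LL x) := by
      rw [le_div_iff₀ hd]
      linarith
    have h5 := Real.add_one_le_exp (Real.log x / (20000 * LL x))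
    push_cast
    linarith
  · unfold zz
    have h4 : Real.log x / (20000 * LL x) ≤ Real.log x := by
      rw [div_le_iff₀ hd]
      nlinarith
    have h5 : Real.exp (Real.log x / (20000 * LL x)) ≤ x := by
      rw [← Real.le_log_iff_exp_le hx0]
      exact h4
    have h6 := Nat.floor_le (Real.exp_pos (Real.log x / (20000 * LL x))).le
    have h7 : ((⌊Real.exp (Real.log x / (20000 * LL x))⌋₊ : ℕ) : ℝ) ≤ (x : ℝ) := h6.trans h5
    exact_mod_cast h7

private lemma zc_dec {P : ℕ → Prop} (i j : DecidablePred P) (x : ℕ) :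
    (@Finset.filter ℕ P i (range x)).card = (@Finset.filter ℕ P j (range x)).card := by
  have h : i = j := Subsingleton.elim _ _
  rw [h]

theorem ZC_main {ε : ℝ} (hε : 0 < ε) : Fw (3 / 2 - ε) (fun x n => Exc 3 n ∧ Rough (zz x) n ∧
    ∃ w : ℕ, w.Prime ∧ w % 4 = 3 ∧ w ∣ Phi 3 n ∧ (w : ℝ) ≤ (x : ℝ) ^ (29 / 30 : ℝ)) := by
  have hδ : 0 < ε / 12 := by positivity
  obtain ⟨x1, hx1⟩ := T4_main hδ
  obtain ⟨x2, hx2⟩ := S3_main hδ
  obtain ⟨C, hC0, hC⟩ := msum_one_le
  obtain ⟨x3, hx3⟩ := eventually_atTop.mp (zc_zz.and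
    ((eventually_pow_le 4 1 (show 0 < ε / 2 by positivity)).and
      ((tendsto_LL.eventually_ge_atTop (C + 1)).and (eventually_ge_atTop 3))))
  refine ⟨max x1 (max x2 x3), fun x hx => ?_⟩
  have hxx1 : x1 ≤ x := le_trans (le_max_left _ _) hx
  have hxx2 : x2 ≤ x := le_trans (le_trans (le_max_left _ _) (le_max_right _ _)) hx
  have hxx3 : x3 ≤ x := le_trans (le_trans (le_max_right _ _) (le_max_right _ _)) hx
  obtain ⟨⟨hz3, hzx⟩, hpow, hLC, hx3'⟩ := hx3 x hxx3
  obtain ⟨B, hB0, hBsum, hBgood⟩ := hx1 x hxx1 (zz x) hz3 hzx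
  set L := LL x with hL
  have hL1 : 1 ≤ L := by linarith
  have hx0 : (0 : ℝ) < x := by
    have : (3 : ℝ) ≤ x := by exact_mod_cast hx3'
    linarith
  have hx1' : (1 : ℝ) < x := by
    have : (3 : ℝ) ≤ x := by exact_mod_cast hx3'
    linarith
  have hxpow : (x : ℝ) ^ (29 / 30 : ℝ) < x := by
    have := Real.rpow_lt_rpow_of_exponent_lt hx1' (show (29 / 30 : ℝ) < 1 by norm_num)
    rwa [Real.rpow_one] at this
  set W := (range x).filter (fun w : ℕ => w.Prime ∧ w % 4 = 3 ∧ (w : ℝ) ≤ (x : ℝ) ^ (29 / 30 : ℝ)) with hW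
  set A1 := (W.filter (fun w : ℕ => w ∈ B)).biUnion (fun w : ℕ => ((range w).filter (fun c => w ∣ Phi 3 c)).biUnion
    (fun c => (range x).filter (fun n => n % w = c))) with hA1
  set A2 := (W.filter (fun w : ℕ => w ∉ B)).biUnion (fun w : ℕ => ((range w).filter (fun c => w ∣ Phi 3 c)).biUnion
    (fun c => (range x).filter (fun n => n % w = c ∧ ∀ u ∈ UU (zz x) {w},
      ¬ Rem 3 (fun u => J((u : ℤ) | w) = -1) (fun u => u % 3 = 1) u n))) with hA2
  have hWmem : ∀ w ∈ W, w < x ∧ w.Prime ∧ w ≠ 2 ∧ (w : ℝ) ≤ (x : ℝ) ^ (29 / 30 : ℝ) := by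
    intro w hw
    rw [hW, mem_filter, mem_range] at hw
    refine ⟨hw.1, hw.2.1, ?_, hw.2.2.2⟩
    rintro rfl
    have := hw.2.2.1
    norm_num at this
  -- the cover
  have hcover : (range x).filter ((fun x n => Exc 3 n ∧ Rough (zz x) n ∧
      ∃ w : ℕ, w.Prime ∧ w % 4 = 3 ∧ w ∣ Phi 3 n ∧ (w : ℝ) ≤ (x : ℝ) ^ (29 / 30 : ℝ)) x) ⊆ A1 ∪ A2 := by
    intro n hn
    rw [mem_filter, mem_range] at hn
    obtain ⟨hnx, hexc, hrough, w, hw, hw4, hwn, hwx⟩ := hn
    have hn0 : n ≠ 0 := by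
      rintro rfl
      have h1 : Phi 3 0 = 1 := by
        rw [zc_Phi]
        rfl
      rw [h1] at hwn
      exact hw.one_lt.ne' (Nat.dvd_one.mp hwn)
    have hwW : w ∈ W := by
      rw [hW, mem_filter, mem_range]
      refine ⟨?_, hw, hw4, hwx⟩
      have : (w : ℝ) < x := lt_of_le_of_lt hwx hxpow
      exact_mod_cast this
    have hcl := zc_class hw hwn
    rw [mem_union]
    by_cases hwB : w ∈ B
    · left
      rw [hA1, mem_biUnion]
      refine ⟨w, mem_filter.mpr ⟨hwW, hwB⟩, ?_⟩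
      rw [mem_biUnion]
      exact ⟨n % w, hcl, mem_filter.mpr ⟨mem_range.mpr hnx, rfl⟩⟩
    · right
      rw [hA2, mem_biUnion]
      refine ⟨w, mem_filter.mpr ⟨hwW, hwB⟩, ?_⟩
      rw [mem_biUnion]
      refine ⟨n % w, hcl, mem_filter.mpr ⟨mem_range.mpr hnx, rfl, ?_⟩⟩
      intro u hu hrem
      unfold UU at hu
      rw [mem_filter, mem_range] at hu
      rcases hrem with ⟨hJ, hex⟩ | ⟨-, hd⟩
      · refine hexc u hu.2.1 ?_ w hw hwn hJ
        rw [exact_factorization hu.2.1 hn0 hex]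
        exact odd_one
      · exact absurd (hrough u hu.2.1 hd) (by omega)
  -- bounds
  set W0 : ℝ := Real.exp (-((3 / 2 - ε / 4) * L)) with hW0
  have hW0pos : 0 < W0 := Real.exp_pos _
  have hsum : ∑ w ∈ W, ((w : ℝ))⁻¹ ≤ 2 * L := by
    have h1 : ∑ w ∈ W, ((w : ℝ))⁻¹ ≤ msum 1 0 x := by
      unfold msum
      apply Finset.sum_le_sum_of_subset_of_nonneg
      · intro p hp
        rw [hW, Finset.mem_filter] at hp
        rw [Finset.mem_filter]
        exact ⟨hp.1, hp.2.1, Nat.mod_one p⟩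
      · intro p _ _
        positivity
    have h2 := hC x hx3'
    have h3 : Real.log (Real.log x) = L := rfl
    linarith
  have b1 : (A1.card : ℝ) ≤ 4 * x * Real.exp (-(2 * L)) := by
    have h1 : (A1.card : ℝ) ≤ ∑ w ∈ W.filter (fun w => w ∈ B), 4 * x * (1 / (w : ℝ)) := by
      apply card_biUnion_real
      intro w hw
      rw [mem_filter] at hw
      obtain ⟨h1, h2, -, -⟩ := hWmem w hw.1
      have hw0 : (0 : ℝ) < w := by exact_mod_cast h2.pos
      have h3 : ((((range w).filter (fun c => w ∣ Phi 3 c)).biUnion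
          (fun c => (range x).filter (fun n => n % w = c))).card : ℝ) ≤
          ∑ c ∈ (range w).filter (fun c => w ∣ Phi 3 c), ((x : ℝ) / w + 1) :=
        card_biUnion_real _ _ _ fun c _ => zc_cnt w x c
      refine h3.trans ?_
      rw [sum_const, nsmul_eq_mul]
      have h4 : (((range w).filter (fun c => w ∣ Phi 3 c)).card : ℝ) ≤ 2 := by
        exact_mod_cast zc_roots h2
      have h5 : (1 : ℝ) ≤ (x : ℝ) / w := by
        rw [le_div_iff₀ hw0, one_mul]
        exact_mod_cast h1.le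
      calc (((range w).filter (fun c => w ∣ Phi 3 c)).card : ℝ) * ((x : ℝ) / w + 1) ≤
          2 * ((x : ℝ) / w + 1) := mul_le_mul_of_nonneg_right h4 (by positivity)
        _ ≤ 2 * (2 * ((x : ℝ) / w)) := by linarith
        _ = 4 * x * (1 / (w : ℝ)) := by ring
    refine h1.trans ?_
    rw [← mul_sum]
    refine mul_le_mul_of_nonneg_left ?_ (by positivity)
    rw [← one_div_log_sq hx3']
    refine le_trans ?_ hBsum
    refine sum_le_sum_of_subset_of_nonneg ?_ fun b _ _ => by positivity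
    intro w hw
    exact (mem_filter.mp hw).2
  have b2 : (A2.card : ℝ) ≤ 4 * x * L * W0 := by
    have h1 : (A2.card : ℝ) ≤ ∑ w ∈ W.filter (fun w => w ∉ B), 2 * x * W0 * ((w : ℝ))⁻¹ := by
      apply card_biUnion_real
      intro w hw
      rw [mem_filter] at hw
      obtain ⟨h1, h2, h2', h2''⟩ := hWmem w hw.1
      have hw0 : (0 : ℝ) < w := by exact_mod_cast h2.pos
      have hSS := hBgood w h2 h2' h1.le hw.2
      have h3 : ((((range w).filter (fun c => w ∣ Phi 3 c)).biUnion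
          (fun c => (range x).filter (fun n => n % w = c ∧ ∀ u ∈ UU (zz x) {w},
      ¬ Rem 3 (fun u => J((u : ℤ) | w) = -1) (fun u => u % 3 = 1) u n))).card : ℝ) ≤
          ∑ c ∈ (range w).filter (fun c => w ∣ Phi 3 c), (x / (w : ℝ)) * Real.exp (-((3 / 2 - 3 * (ε / 12)) * LL x)) :=
        card_biUnion_real _ _ _ fun c _ => hx2 x hxx2 w h2 h2' h2'' hSS c
      refine h3.trans ?_
      rw [sum_const, nsmul_eq_mul]
      have h4 : (((range w).filter (fun c => w ∣ Phi 3 c)).card : ℝ) ≤ 2 := by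
        exact_mod_cast zc_roots h2
      have h5 : Real.exp (-((3 / 2 - 3 * (ε / 12)) * LL x)) = W0 := by
        rw [hW0]
        congr 2
        ring
      rw [h5]
      calc (((range w).filter (fun c => w ∣ Phi 3 c)).card : ℝ) * (x / (w : ℝ) * W0) ≤
          2 * (x / (w : ℝ) * W0) := mul_le_mul_of_nonneg_right h4 (by positivity)
        _ = 2 * x * W0 * ((w : ℝ))⁻¹ := by ring
    refine h1.trans ?_
    rw [← mul_sum]
    have h6 : ∑ w ∈ W.filter (fun w => w ∉ B), ((w : ℝ))⁻¹ ≤ 2 * L := by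
      refine le_trans ?_ hsum
      exact sum_le_sum_of_subset_of_nonneg (filter_subset _ _) fun b _ _ => by positivity
    calc 2 * x * W0 * ∑ w ∈ W.filter (fun w => w ∉ B), ((w : ℝ))⁻¹ ≤ 2 * x * W0 * (2 * L) :=
          mul_le_mul_of_nonneg_left h6 (by positivity)
      _ = 4 * x * L * W0 := by ring
  have h2W : Real.exp (-(2 * L)) ≤ W0 := by
    apply Real.exp_le_exp.mpr
    apply neg_le_neg
    nlinarith
  have hcard : (((range x).filter ((fun x n => Exc 3 n ∧ Rough (zz x) n ∧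
      ∃ w : ℕ, w.Prime ∧ w % 4 = 3 ∧ w ∣ Phi 3 n ∧ (w : ℝ) ≤ (x : ℝ) ^ (29 / 30 : ℝ)) x)).card : ℝ) ≤
      (A1.card : ℝ) + (A2.card : ℝ) := by
    have h1 := (card_le_card hcover).trans (card_union_le A1 A2)
    exact_mod_cast h1
  rw [pow_one] at hpow
  refine (le_trans (Nat.cast_le.mpr (le_of_eq (zc_dec _ _ x))) hcard).trans ?_
  calc (A1.card : ℝ) + (A2.card : ℝ) ≤ 4 * x * Real.exp (-(2 * L)) + 4 * x * L * W0 := add_le_add b1 b2
    _ ≤ 4 * x * W0 + 4 * x * L * W0 := by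
        have := mul_le_mul_of_nonneg_left h2W (show (0 : ℝ) ≤ 4 * x by positivity)
        linarith
    _ ≤ 4 * x * L * W0 + 4 * x * L * W0 := by
        have h8 : 0 ≤ x * W0 := by positivity
        nlinarith
    _ = x * (4 * (2 * L)) * W0 := by ring
    _ ≤ x * Real.exp (ε / 2 * L) * W0 := by
        apply mul_le_mul_of_nonneg_right _ hW0pos.le
        exact mul_le_mul_of_nonneg_left hpow hx0.le
    _ = x * Real.exp (ε / 2 * L - (3 / 2 - ε / 4) * L) := by
        rw [hW0, mul_assoc, ← Real.exp_add]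
        congr 2
    _ ≤ x * Real.exp (-((3 / 2 - ε) * L)) := by
        refine mul_le_mul_of_nonneg_left (Real.exp_le_exp.mpr ?_) hx0.le
        nlinarith

end Pool.Agent.Lib.MP_79499b_co.PL
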