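import Pool.Agent.Lib.MP_79499b_co.PL.S2
import Pool.Agent.Lib.MP_79499b_co.PL.T4

/-!
# ZD: `n^2 + n + 1` has a small prime factor, `n` has `k` small primes

Proof (as case A1 of `nt2`, Q38Final2). `δ` small (`δ = ε/20`), `Y = YY 3 x`. `B` the set of `good_T` (Q38GoodT, `l = 3`, `δ/24`): the `n < x` divisible by some `b ∈ B` are at most `x/(log x)^2` in number (`card_disc_le`); `B'` the set of `T4_main` for `Y`, `δ`. Let `n` be counted and not discarded. `S` = a set of `k`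
primes `p < Y` with `Exact p n`; `w < Y` a prime dividing `Phi 3 n`; `w` is odd (`Phi_odd`), `w ∉ S` (`not_dvd_Phi_of_dvd`). `T 3 Y (∏ V) ≤ (δ/24) LL` for nonempty `V ⊆ S` (`T_of_dvd`, Q38NT, with `Or.inr rfl` for `3 % 4 = 3`).
If `w ∈ B'`: at most `2 (x/w + 1) ≤ 4x/w` such `n` for each `w`, total `4x/(log x)^2`. Otherwise `n` is in the set of `S2_main` for `c = n % w`, `c` one of the at most 2 roots of `Phi 3` mod `w`: `∏ S ∣ n`; for `u ∈ UU Y (insert w S)`: `J(u|w) = -1`, `Exact u n` contradicts `Exc 3 n`; `NR 3 S u` and `u ∣ Phi 3 n`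
contradicts `Exc 3 n` for `p ∈ S`. Number: `≤ ∑_S ∑_w 2 (x/(∏S w)) exp(-(3/2 - 1/2^k - 3δ) LL) ≤ 2 x (3 (2 LL)^k)(2 LL) exp(..)` (`sum_prod_inv_le`, Q38NT; `msum 1 0 Y ≤ 2 LL`), and `(2LL)^(k+1) ≤ exp(δ LL)` for large `x` (`eventually_pow_le`).
-/

set_option autoImplicit false

namespace Pool.Agent.Lib.MP_79499b_co.PL

open Finset Q38
open scoped Classical NumberTheorySymbols

private lemma ZD_mem (P : ℕ → Prop) (i : DecidablePred P) (x n : ℕ)
    (h : n ∈ @Finset.filter ℕ P i (range x)) : n < x ∧ P n := by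
  rw [mem_filter, mem_range] at h
  exact h

private lemma ZD_class (x w c : ℕ) (hw : 0 < w) :
    (((range x).filter (fun n => n % w = c)).card : ℝ) ≤ x / w + 1 := by
  have h1 : ((range x).filter (fun n => n % w = c)).card ≤ (range (x / w + 1)).card := by
    refine card_le_card_of_injOn (fun n => n / w) ?_ ?_
    · intro n hn
      have hn' := mem_filter.mp (mem_coe.mp hn)
      have := mem_range.mp hn'.1
      refine mem_coe.mpr (mem_range.mpr ?_)
      exact Nat.lt_succ_of_le (Nat.div_le_div_right this.le)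
    · intro n hn m hm h
      have hn' := (mem_filter.mp (mem_coe.mp hn)).2
      have hm' := (mem_filter.mp (mem_coe.mp hm)).2
      have h2 : n / w = m / w := h
      rw [← Nat.div_add_mod n w, ← Nat.div_add_mod m w, hn', hm', h2]
  rw [card_range] at h1
  have h2 : (((range x).filter (fun n => n % w = c)).card : ℝ) ≤ ((x / w + 1 : ℕ) : ℝ) := by
    exact_mod_cast h1
  refine h2.trans ?_
  push_cast
  have : ((x / w : ℕ) : ℝ) ≤ (x : ℝ) / w := Nat.cast_div_le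
  linarith

private lemma ZD_phi (x w : ℕ) (hw : w.Prime) (hwx : w ≤ x) :
    (((range x).filter (fun n => w ∣ Phi 3 n)).card : ℝ) ≤ 6 * (x / w) := by
  have hw0 : (0 : ℝ) < w := by exact_mod_cast hw.pos
  have h1 : (range x).filter (fun n => w ∣ Phi 3 n) ⊆
      ((range w).filter (fun n => w ∣ Phi 3 n)).biUnion
        (fun c => (range x).filter (fun n => n % w = c)) := by
    intro n hn
    rw [mem_filter] at hn
    rw [mem_biUnion]
    refine ⟨n % w, mem_filter.mpr ⟨mem_range.mpr (Nat.mod_lt _ hw.pos), dvd_Phi_mod.mpr hn.2⟩, ?_⟩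
    exact mem_filter.mpr ⟨hn.1, rfl⟩
  have h2 : (((range x).filter (fun n => w ∣ Phi 3 n)).card : ℝ) ≤
      ∑ c ∈ (range w).filter (fun n => w ∣ Phi 3 n), ((x : ℝ) / w + 1) :=
    (Nat.cast_le.mpr (card_le_card h1)).trans
      (card_biUnion_real _ _ _ fun c _ => ZD_class x w c hw.pos)
  rw [sum_const, nsmul_eq_mul] at h2
  have h3 : (((range w).filter (fun n => w ∣ Phi 3 n)).card : ℝ) ≤ 3 := by
    have h4 := nroots_le (l := 3) (by norm_num) hw
    unfold nroots at h4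
    exact_mod_cast h4
  have h5 : (1 : ℝ) ≤ x / w := by
    rw [le_div_iff₀ hw0, one_mul]
    exact_mod_cast hwx
  nlinarith

theorem ZD_main {k : ℕ} (hk : 1 ≤ k) {ε : ℝ} (hε : 0 < ε) :
    Fw (3 / 2 - 1 / 2 ^ k - ε) (fun x n => 1 ≤ n ∧ Exc 3 n ∧
      k ≤ ((range (YY 3 x)).filter (fun p => p.Prime ∧ Exact p n)).card ∧
      ∃ w : ℕ, w.Prime ∧ w < YY 3 x ∧ w ∣ Phi 3 n) := by
  obtain ⟨δ, hδ⟩ : ∃ δ : ℝ, δ = ε / 8 := ⟨_, rfl⟩
  have hδ0 : 0 < δ := by
    rw [hδ]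
    positivity
  obtain ⟨x1, hx1⟩ := good_T (l := 3) Nat.prime_three le_rfl (show 0 < δ / 24 by positivity)
  obtain ⟨x2, hx2⟩ := T4_main hδ0
  obtain ⟨x3, hx3⟩ := S2_main k hδ0
  obtain ⟨C, hC0, hC⟩ := msum_one_le
  obtain ⟨x4, hx4⟩ := Filter.eventually_atTop.mp ((YY_facts 3 k one_pos).and
    ((eventually_pow_le 16 (k + 1) (show 0 < ε / 2 by positivity)).and
      ((tendsto_LL.eventually_ge_atTop (C + 1)).and (Filter.eventually_ge_atTop 3))))
  refine ⟨max (max x1 x2) (max x3 x4), fun x hx => ?_⟩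
  have hxx1 : x1 ≤ x := le_trans (le_trans (le_max_left _ _) (le_max_left _ _)) hx
  have hxx2 : x2 ≤ x := le_trans (le_trans (le_max_right _ _) (le_max_left _ _)) hx
  have hxx3 : x3 ≤ x := le_trans (le_trans (le_max_left _ _) (le_max_right _ _)) hx
  have hxx4 : x4 ≤ x := le_trans (le_trans (le_max_right _ _) (le_max_right _ _)) hx
  obtain ⟨⟨hY3, _, hYup, hYx, _, _⟩, hpow, hLC, hx3'⟩ := hx4 x hxx4
  have hS2 := hx3 x hxx3
  obtain ⟨Y, hY⟩ : ∃ Y, Y = YY 3 x := ⟨_, rfl⟩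
  obtain ⟨L, hL⟩ : ∃ L, L = LL x := ⟨_, rfl⟩
  rw [← hY] at hS2 hY3 hYup hYx
  rw [← hL] at hS2 hYup hpow hLC
  have hYx' : Y ≤ x := by exact_mod_cast hYx
  obtain ⟨B, hB0, hBsum, hBgood⟩ := hx1 x hxx1 Y hY3 hYx'
  obtain ⟨B', hB'0, hB'sum, hB'good⟩ := hx2 x hxx2 Y hY3 hYx'
  have hL1 : 1 ≤ L := by linarith
  have hxN : 0 < x := by omega
  have hx0 : (0 : ℝ) < x := by exact_mod_cast hxN
  obtain ⟨c, hc⟩ : ∃ c : ℝ, c = (δ / 24) * L := ⟨_, rfl⟩
  have hcx : c = δ / 24 * Real.log (Real.log x) := by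
    rw [hc, hL]
    rfl
  obtain ⟨S1, hS1⟩ : ∃ S1 : Finset (Finset ℕ), S1 = (((range Y).filter Nat.Prime).powersetCard k).filter
    (fun S => ∀ V ⊆ S, V.Nonempty → T 3 Y (∏ p ∈ V, p) ≤ c) := ⟨_, rfl⟩
  obtain ⟨W, hW⟩ : ∃ W : Finset ℕ, W = (range Y).filter (fun w => w.Prime ∧ w ≠ 2 ∧ SS Y w ≤ δ * L) :=
    ⟨_, rfl⟩
  obtain ⟨A0, hA0⟩ : ∃ A : Finset ℕ, A = (range x).filter (fun n => 1 ≤ n ∧ ∃ b ∈ B, b ∣ n) := ⟨_, rfl⟩
  obtain ⟨A1, hA1⟩ : ∃ A : Finset ℕ, A = (B'.filter (fun w => w.Prime ∧ w ≤ x)).biUnion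
    (fun w => (range x).filter (fun n => w ∣ Phi 3 n)) := ⟨_, rfl⟩
  obtain ⟨A2, hA2⟩ : ∃ A : Finset ℕ, A = ((S1 ×ˢ W).filter (fun t => t.2 ∉ t.1)).biUnion
    (fun t => ((range t.2).filter (fun n => t.2 ∣ Phi 3 n)).biUnion (fun c =>
      (range x).filter (fun n => (∏ p ∈ t.1, p) ∣ n ∧ n % t.2 = c ∧ ∀ u ∈ UU Y (insert t.2 t.1),
        ¬ Rem 3 (fun u => J((u : ℤ) | t.2) = -1) (NR 3 t.1) u n))) := ⟨_, rfl⟩
  have hS1mem : ∀ S ∈ S1, (∀ p ∈ S, p.Prime ∧ p < Y) ∧ S.card = k ∧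
      ∀ V ⊆ S, V.Nonempty → T 3 Y (∏ p ∈ V, p) ≤ c := by
    intro S hS
    rw [hS1, mem_filter, mem_powersetCard] at hS
    refine ⟨fun p hp => ?_, hS.1.2, hS.2⟩
    have := hS.1.1 hp
    rw [mem_filter, mem_range] at this
    exact ⟨this.2, this.1⟩
  refine (Nat.cast_le.mpr (card_le_card (t := A0 ∪ (A1 ∪ A2)) ?_)).trans ?_
  · intro n hn
    obtain ⟨hnx, hn1, hexc, hcard, w, hw, hwY, hwn⟩ := ZD_mem _ _ x n hn
    rw [← hY] at hcard hwY
    have hn0 : n ≠ 0 := by omega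
    rw [mem_union]
    by_cases hdisc : ∃ b ∈ B, b ∣ n
    · left
      rw [hA0, mem_filter, mem_range]
      exact ⟨hnx, hn1, hdisc⟩
    right
    rw [mem_union]
    have hw2 : w ≠ 2 := by
      intro h
      rw [h] at hwn
      have := Phi_odd (l := 3) (n := n) (by decide)
      obtain ⟨m, hm⟩ := this
      omega
    have hwx : w ≤ x := hwY.le.trans hYx'
    by_cases hwB : w ∈ B'
    · left
      rw [hA1, mem_biUnion]
      exact ⟨w, mem_filter.mpr ⟨hwB, hw, hwx⟩, mem_filter.mpr ⟨mem_range.mpr hnx, hwn⟩⟩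
    right
    have hSSw : SS Y w ≤ δ * L := by
      rw [hL]
      exact hB'good w hw hw2 hwx hwB
    obtain ⟨S, hSD, hSk⟩ := exists_subset_card_eq hcard
    have hDmem : ∀ p ∈ S, p < Y ∧ p.Prime ∧ Exact p n := by
      intro p hp
      have := hSD hp
      rw [mem_filter, mem_range] at this
      exact this
    have hwS : w ∉ S := by
      intro h
      exact not_dvd_Phi_of_dvd (by norm_num) hw (hDmem w h).2.2.1 hwn
    have hexc' : ∀ p : ℕ, p.Prime → Exact p n → ∀ w, w.Prime → w ∣ Phi 3 n → J((p : ℤ) | w) ≠ -1 := by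
      intro p hp hex w hw hwn
      exact hexc p hp (by rw [exact_factorization hp hn0 hex]; exact odd_one) w hw hwn
    rw [hA2, mem_biUnion]
    refine ⟨(S, w), ?_, ?_⟩
    · rw [mem_filter, mem_product]
      refine ⟨⟨?_, ?_⟩, hwS⟩
      · rw [hS1, mem_filter, mem_powersetCard]
        refine ⟨⟨fun p hp => ?_, hSk⟩, fun V hV hne => ?_⟩
        · rw [mem_filter, mem_range]
          exact ⟨(hDmem p hp).1, (hDmem p hp).2.1⟩
        · rw [hcx]
          exact T_of_dvd hn1 hnx hBgood hdisc Nat.prime_three hne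
            (fun p hp => ⟨(hDmem p (hV hp)).2.1, (hDmem p (hV hp)).2.2.1⟩) (Or.inr rfl)
      · rw [hW, mem_filter, mem_range]
        exact ⟨hwY, hw, hw2, hSSw⟩
    · rw [mem_biUnion]
      refine ⟨n % w, mem_filter.mpr ⟨mem_range.mpr (Nat.mod_lt _ hw.pos), dvd_Phi_mod.mpr hwn⟩, ?_⟩
      rw [mem_filter, mem_range]
      refine ⟨hnx, ?_, rfl, ?_⟩
      · apply Finset.prod_primes_dvd
        · intro p hp; exact (hDmem p hp).2.1.prime
        · intro p hp; exact (hDmem p hp).2.2.1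
      · intro u hu hrem
        unfold UU at hu
        rw [mem_filter, mem_range] at hu
        obtain ⟨_, hup, _⟩ := hu
        rcases hrem with ⟨h1, h2⟩ | ⟨⟨_, p, hp, h3⟩, h4⟩
        · exact hexc' u hup h2 w hw hwn h1
        · exact hexc' p (hDmem p hp).2.1 (hDmem p hp).2.2 u hup h4 h3
  -- bounds
  obtain ⟨W0, hW0⟩ : ∃ W0 : ℝ, W0 = Real.exp (-((3 / 2 - 1 / 2 ^ k - 3 * δ) * L)) := ⟨_, rfl⟩
  have hW0pos : 0 < W0 := by
    rw [hW0]
    exact Real.exp_pos _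
  have hlt : (1 : ℝ) / (Real.log x) ^ 2 ≤ W0 := by
    rw [one_div_log_sq hx3', hW0, ← hL]
    apply Real.exp_le_exp.mpr
    apply neg_le_neg
    have h1 : (0 : ℝ) ≤ 1 / 2 ^ k := by positivity
    exact mul_le_mul_of_nonneg_right (by linarith) (by linarith)
  have b0 : (A0.card : ℝ) ≤ x * W0 := by
    rw [hA0]
    exact (card_disc_le B x).trans (mul_le_mul_of_nonneg_left (hBsum.trans hlt) hx0.le)
  have b1 : (A1.card : ℝ) ≤ 6 * (x * W0) := by
    rw [hA1]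
    refine (card_biUnion_real _ _ (fun w : ℕ => 6 * ((x : ℝ) / w)) fun w hw => ?_).trans ?_
    · rw [mem_filter] at hw
      exact ZD_phi x w hw.2.1 hw.2.2
    · have h1 : ∑ w ∈ B'.filter (fun w => w.Prime ∧ w ≤ x), 6 * ((x : ℝ) / w) ≤
          ∑ w ∈ B', 6 * ((x : ℝ) / w) :=
        sum_le_sum_of_subset_of_nonneg (filter_subset _ _) fun w _ _ => by positivity
      have h2 : ∑ w ∈ B', 6 * ((x : ℝ) / w) = 6 * (x * ∑ w ∈ B', 1 / (w : ℝ)) := by
        rw [mul_sum, mul_sum]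
        refine sum_congr rfl fun w _ => ?_
        ring
      rw [h2] at h1
      refine h1.trans ?_
      exact mul_le_mul_of_nonneg_left (mul_le_mul_of_nonneg_left (hB'sum.trans hlt) hx0.le) (by norm_num)
  have hD1 : (1 : ℝ) ≤ 2 * L := by linarith
  have hD2 : msum 1 0 Y ≤ 2 * L := by
    have := hC Y hY3
    linarith
  have b2 : (A2.card : ℝ) ≤ 9 * (x * ((2 * L) ^ (k + 1) * W0)) := by
    rw [hA2]
    refine (card_biUnion_real _ _ (fun t => 3 * ((x : ℝ) / (((∏ p ∈ t.1, p : ℕ) : ℝ) * t.2) * W0))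
      fun t ht => ?_).trans ?_
    · rw [mem_filter, mem_product] at ht
      obtain ⟨⟨h1, h2⟩, h3⟩ := ht
      obtain ⟨h4, h5, h6⟩ := hS1mem t.1 h1
      rw [hW, mem_filter, mem_range] at h2
      obtain ⟨h7, h8, h9, h10⟩ := h2
      refine (card_biUnion_real _ _ (fun _ => (x : ℝ) / (((∏ p ∈ t.1, p : ℕ) : ℝ) * t.2) * W0)
        fun c _ => ?_).trans ?_
      · have h11 := hS2 t.1 h5.le h4 (fun V hV hne => by
          rw [← hc]
          exact h6 V hV hne) t.2 h8 h9 h7 h3 h10 c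
        rw [h5, ← hW0] at h11
        exact h11
      · rw [sum_const, nsmul_eq_mul]
        have h12 : (((range t.2).filter (fun n => t.2 ∣ Phi 3 n)).card : ℝ) ≤ 3 := by
          have h4 := nroots_le (l := 3) (by norm_num) h8
          unfold nroots at h4
          exact_mod_cast h4
        exact mul_le_mul_of_nonneg_right h12 (by positivity)
    · have h1 : ∑ t ∈ (S1 ×ˢ W).filter (fun t => t.2 ∉ t.1),
          3 * ((x : ℝ) / (((∏ p ∈ t.1, p : ℕ) : ℝ) * t.2) * W0) ≤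
          ∑ t ∈ S1 ×ˢ W, 3 * ((x : ℝ) / (((∏ p ∈ t.1, p : ℕ) : ℝ) * t.2) * W0) :=
        sum_le_sum_of_subset_of_nonneg (filter_subset _ _) fun t _ _ => by positivity
      have h2 : ∑ t ∈ S1 ×ˢ W, 3 * ((x : ℝ) / (((∏ p ∈ t.1, p : ℕ) : ℝ) * t.2) * W0) =
          3 * (x * W0) * ((∑ S ∈ S1, 1 / ((∏ p ∈ S, p : ℕ) : ℝ)) * ∑ w ∈ W, 1 / (w : ℝ)) := by
        rw [sum_product, sum_mul_sum, mul_sum]
        refine sum_congr rfl fun S _ => ?_
        rw [mul_sum]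
        refine sum_congr rfl fun w _ => ?_
        rw [← div_div]
        ring
      rw [h2] at h1
      refine h1.trans ?_
      have h3 := sum_prod_inv_le hD1 hD2 S1 (fun S hS => ⟨(hS1mem S hS).1, (hS1mem S hS).2.1.le⟩)
      have h4 : ∑ w ∈ W, 1 / (w : ℝ) ≤ 2 * L := by
        refine le_trans ?_ hD2
        unfold msum
        rw [hW]
        have h5 : (range Y).filter (fun w => w.Prime ∧ w ≠ 2 ∧ SS Y w ≤ δ * L) ⊆
            (range Y).filter (fun p => p.Prime ∧ p % 1 = 0) := by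
          intro w hw
          rw [mem_filter] at hw ⊢
          exact ⟨hw.1, hw.2.1, Nat.mod_one w⟩
        refine le_trans (sum_le_sum_of_subset_of_nonneg h5 fun w _ _ => by positivity) ?_
        refine (sum_congr rfl fun w _ => ?_).le
        exact one_div _
      have h5 : (0 : ℝ) ≤ ∑ w ∈ W, 1 / (w : ℝ) := sum_nonneg fun w _ => by positivity
      have h6 : (∑ S ∈ S1, 1 / ((∏ p ∈ S, p : ℕ) : ℝ)) * ∑ w ∈ W, 1 / (w : ℝ) ≤
          (3 * (2 * L) ^ k) * (2 * L) :=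
        mul_le_mul h3 h4 h5 (by positivity)
      calc 3 * (x * W0) * ((∑ S ∈ S1, 1 / ((∏ p ∈ S, p : ℕ) : ℝ)) * ∑ w ∈ W, 1 / (w : ℝ))
          ≤ 3 * (x * W0) * ((3 * (2 * L) ^ k) * (2 * L)) :=
            mul_le_mul_of_nonneg_left h6 (by positivity)
        _ = 9 * (x * ((2 * L) ^ (k + 1) * W0)) := by ring
  have hcu1 : ((A0 ∪ (A1 ∪ A2)).card : ℝ) ≤ A0.card + (A1.card + A2.card) := by
    have h1 := card_union_le A0 (A1 ∪ A2)
    have h2 := card_union_le A1 A2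
    have h3 : (A0 ∪ (A1 ∪ A2)).card ≤ A0.card + (A1.card + A2.card) := by omega
    exact_mod_cast h3
  refine hcu1.trans ?_
  have hpk : (1 : ℝ) ≤ (2 * L) ^ (k + 1) := one_le_pow₀ hD1
  have h1 : x * W0 ≤ x * ((2 * L) ^ (k + 1) * W0) := by
    refine mul_le_mul_of_nonneg_left ?_ hx0.le
    exact le_mul_of_one_le_left hW0pos.le hpk
  have h2 : (A0.card : ℝ) + (A1.card + A2.card) ≤ x * ((16 * (2 * L) ^ (k + 1)) * W0) := by
    have h3 : x * ((16 * (2 * L) ^ (k + 1)) * W0) = 16 * (x * ((2 * L) ^ (k + 1) * W0)) := by ring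
    rw [h3]
    linarith
  refine h2.trans ?_
  refine mul_le_mul_of_nonneg_left ?_ hx0.le
  refine (mul_le_mul_of_nonneg_right hpow hW0pos.le).trans ?_
  rw [hW0, ← Real.exp_add, ← hL]
  apply Real.exp_le_exp.mpr
  rw [hδ]
  nlinarith [mul_pos hε (by linarith : (0 : ℝ) < L)]

end Pool.Agent.Lib.MP_79499b_co.PL
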