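import Pool.Agent.Lib.MP_79499b_co.PL.ZX

/-!
# ZF: squares of large primes

Proof. `n` counted: `p^2 ∣ n` for a prime `p ≥ P0 x`, `1 ≤ n < x`. The number is at most `∑_{P0 ≤ p < x} x/p^2 ≤ 2x/P0 ≤ 2x/(log x)^3 ≤ x/(log x)^2` for `log x ≥ 2` (`sum_inv_sq_le` in Q38Bad, `card_mult_le` in Q38Final2), and `1/(log x)^2 = exp(-2 LL)` (`one_div_log_sq`, Q38Final).
-/

set_option autoImplicit false

namespace Pool.Agent.Lib.MP_79499b_co.PL

open Finset Q38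
open scoped Classical NumberTheorySymbols

theorem ZF_main : Fw 2 (fun x n => 1 ≤ n ∧ ¬ NoSq (P0 x) n) := by
  obtain ⟨x1, h1⟩ := Filter.eventually_atTop.mp (tendsto_log_nat.eventually_ge_atTop 2)
  refine ZX_fw (β := ℕ) (fun n t => n = t) (fun n n' t h h' => h.trans h'.symm)
    ⟨max x1 3, fun x hx => ?_⟩
  have hlog := h1 x (le_trans (le_max_left _ _) hx)
  have hx3 : 3 ≤ x := le_trans (le_max_right _ _) hx
  have hx0 : (0 : ℝ) < x := by
    have : 0 < x := by omega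
    exact_mod_cast this
  have hl0 : (0 : ℝ) < Real.log x := by linarith
  have hP1 : Real.log x ^ 3 ≤ (P0 x : ℝ) := Nat.le_ceil _
  have hPpos : 1 ≤ P0 x := by
    have : (0 : ℝ) < (P0 x : ℝ) := lt_of_lt_of_le (by positivity) hP1
    have h2 : 0 < P0 x := by exact_mod_cast this
    omega
  set Q : Finset ℕ := (range x).filter (fun p => P0 x ≤ p) with hQ
  set T : Finset ℕ := Q.biUnion (fun p => (range x).filter (fun n => 1 ≤ n ∧ p ^ 2 ∣ n)) with hT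
  have hsub : ∀ n : ℕ, n < x → (1 ≤ n ∧ ¬ NoSq (P0 x) n) → ∃ t ∈ T, n = t := by
    intro n hnx hn
    obtain ⟨hn1, hnsq⟩ := hn
    unfold NoSq at hnsq
    push Not at hnsq
    obtain ⟨p, hp, hpP, hpn⟩ := hnsq
    have h2 : p < x := by
      have h3 : p ^ 2 ≤ n := Nat.le_of_dvd (by omega) hpn
      have h4 : p ≤ p ^ 2 := Nat.le_self_pow (by norm_num) p
      omega
    refine ⟨n, ?_, rfl⟩
    rw [hT, mem_biUnion]
    refine ⟨p, ?_, ?_⟩
    · rw [hQ, Finset.mem_filter, mem_range]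
      exact ⟨h2, hpP⟩
    · rw [Finset.mem_filter, mem_range]
      exact ⟨hnx, hn1, hpn⟩
  have hc1 : (T.card : ℝ) ≤ ∑ p ∈ Q, (x : ℝ) / ((p ^ 2 : ℕ) : ℝ) := by
    have h3 : (T.card : ℝ) ≤
        ∑ p ∈ Q, (((range x).filter (fun n => 1 ≤ n ∧ p ^ 2 ∣ n)).card : ℝ) := by
      exact_mod_cast Finset.card_biUnion_le
    exact h3.trans (Finset.sum_le_sum fun p _ => card_mult_le (p ^ 2) x)
  have hc2 : ∑ p ∈ Q, (x : ℝ) / ((p ^ 2 : ℕ) : ℝ) = x * ∑ p ∈ Q, 1 / (p : ℝ) ^ 2 := by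
    rw [Finset.mul_sum]
    refine Finset.sum_congr rfl fun p _ => ?_
    push_cast
    ring
  have hc3 : ∑ p ∈ Q, 1 / (p : ℝ) ^ 2 ≤ 2 / (P0 x : ℝ) :=
    sum_inv_sq_le Q hPpos (fun a ha => by rw [hQ, Finset.mem_filter] at ha; exact ha.2)
  have hc4 : 2 / (P0 x : ℝ) ≤ 1 / Real.log x ^ 2 := by
    rw [div_le_div_iff₀ (lt_of_lt_of_le (by positivity) hP1) (by positivity)]
    have : 2 * Real.log x ^ 2 ≤ Real.log x ^ 3 := by
      have h5 : Real.log x ^ 3 = Real.log x * Real.log x ^ 2 := by ring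
      rw [h5]
      exact mul_le_mul_of_nonneg_right hlog (by positivity)
    linarith
  rw [one_div_log_sq hx3] at hc4
  refine ⟨T, hsub, hc1.trans ?_⟩
  rw [hc2]
  exact mul_le_mul_of_nonneg_left (hc3.trans hc4) hx0.le

end Pool.Agent.Lib.MP_79499b_co.PL
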