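import Pool.Agent.Lib.MP_79499b_co.PL.ZA2
import Pool.Agent.Lib.MP_79499b_co.PL.ZB2
import Pool.Agent.Lib.MP_79499b_co.PL.ZC
import Pool.Agent.Lib.MP_79499b_co.PL.ZD
import Pool.Agent.Lib.MP_79499b_co.PL.ZE
import Pool.Agent.Lib.MP_79499b_co.PL.ZF

/-!
# ZG: all cases together

Proof of `ZG_main`. Choose `k ≥ 1` with `1/2^k < ε/8`. Let `x` be large and `1 ≤ n < x`, `n ≡ 0, 3 mod 4`, `Exc2 3 n`, `HH 3 n`; `Exc 3 n` by `PC.exc_of_exc2`. Cases: (1) `¬ NoSq (P0 x) n`: `ZF_main`. (2) fewer than `k` primes `p < YY 3 x` with `Exact p n`: `ZE_main`. (3) at least `k` of them and a prime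
`w < YY 3 x` divides `Phi 3 n`: `ZD_main`. (4) No prime `w < YY 3 x` divides `Phi 3 n`: `Rough (zz x) n`, since `zz x ≤ YY 3 x` (`20000 ≥ 480 · 4`, `Nat.floor_mono`). (4a) all primes `w ∣ Phi 3 n` are `≡ 1 mod 4`: `ZA_main`. (4b) otherwise let `w` be the smallest prime `≡ 3 mod 4` dividing `v = Phi 3 n` (`v` is odd:
every prime factor is `≡ 1` or `3 mod 4`). `v ≡ 1 mod 4` (`n ≡ 0, 3 mod 4`), so `v/w ≡ 3 mod 4` has a prime factor `w2 ≡ 3 mod 4` (a product of primes `≡ 1 mod 4` is `≡ 1`; lemma `exists_prime_three`), `w2 ≥ w`, `w w2 ∣ v`, so `w^2 ≤ v`. If `w ≤ x^(29/30)`: `ZC_main`; else `ZB_main`.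
So the set is contained in the union of six sets with exponents `≥ 3/2 - ε/2`-ish (`2`, `3/2 - ε/4`, `3/2 - 1/2^k - ε/8`, ...; use `Fw.of_lt`, `Fw.or` with decreasing exponents `3/2 - ε/2 > ... > 3/2 - ε`, and `Fw.mono'`).

Proof of `ZG_few`. `Few` is defined with `cnt`; as `nt2'` (Q38Deduce) converts `nt2`: `conv`. For `n ≡ 1, 2 mod 4`: `nt2'` (`l = 3`, `l % 4 = 3`), `Exc 3 n` from `Exc2`; for `n ≡ 0, 3 mod 4`: `ZG_main`; `Few.or`.
-/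

set_option autoImplicit false

namespace Pool.Agent.Lib.MP_79499b_co.PL

open Finset Q38
open scoped Classical NumberTheorySymbols

private lemma mod_of_factors : ∀ n : ℕ, n ≠ 0 → (∀ p : ℕ, p.Prime → p ∣ n → p % 4 = 1) →
    n % 4 = 1 := by
  intro n
  induction n using Nat.recOnMul with
  | zero => intro h; exact absurd rfl h
  | one => intro _ _; rfl
  | prime p hp => intro _ h; exact h p hp dvd_rfl
  | mul a b iha ihb =>
    intro h0 h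
    have ha0 : a ≠ 0 := fun h1 => h0 (by rw [h1, zero_mul])
    have hb0 : b ≠ 0 := fun h1 => h0 (by rw [h1, mul_zero])
    have h1 := iha ha0 (fun p hp hpa => h p hp (hpa.mul_right b))
    have h2 := ihb hb0 (fun p hp hpb => h p hp (hpb.mul_left a))
    rw [Nat.mul_mod, h1, h2]

private lemma exists_three {n : ℕ} (hn : n % 4 = 3) : ∃ p : ℕ, p.Prime ∧ p % 4 = 3 ∧ p ∣ n := by
  by_contra hcon
  push Not at hcon
  have h1 : n % 4 = 1 := by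
    apply mod_of_factors n (by omega)
    intro p hp hpn
    have h2 : p % 4 ≠ 3 := fun h3 => hcon p hp h3 hpn
    have h3 : p ≠ 2 := by
      rintro rfl
      omega
    have h4 := hp.eq_two_or_odd
    omega
  omega

private lemma zz_le : ∃ x₁ : ℕ, ∀ x : ℕ, x₁ ≤ x → zz x ≤ YY 3 x := by
  obtain ⟨x₁, h1⟩ := Filter.eventually_atTop.mp (tendsto_LL.eventually_ge_atTop 1)
  refine ⟨max x₁ 3, fun x hx => ?_⟩
  have hLL := h1 x (le_trans (le_max_left _ _) hx)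
  have hx3 : 3 ≤ x := le_trans (le_max_right _ _) hx
  have h3 : (3 : ℝ) ≤ x := by exact_mod_cast hx3
  have hlog : 0 ≤ Real.log x := Real.log_nonneg (by linarith)
  unfold zz YY
  apply Nat.floor_mono
  apply Real.exp_le_exp.mpr
  apply div_le_div_of_nonneg_left hlog (by positivity)
  push_cast
  nlinarith

theorem ZG_main {ε : ℝ} (hε : 0 < ε) : Fw (3 / 2 - ε) (fun _ n => 1 ≤ n ∧
    (n % 4 = 0 ∨ n % 4 = 3) ∧ PC.Exc2 3 n ∧ HH 3 n) := by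
  have h8 : 0 < ε / 8 := by positivity
  obtain ⟨k0, hk0⟩ := exists_pow_lt_of_lt_one h8 (show (1 / 2 : ℝ) < 1 by norm_num)
  obtain ⟨k, hk1, hk⟩ : ∃ k : ℕ, 1 ≤ k ∧ (1 : ℝ) / 2 ^ k < ε / 8 := by
    refine ⟨k0 + 1, by omega, ?_⟩
    refine lt_of_le_of_lt ?_ hk0
    rw [one_div, one_div, inv_pow, pow_succ]
    apply inv_anti₀ (by positivity)
    have : (0 : ℝ) < 2 ^ k0 := by positivity
    linarith
  have e0 : 3 / 2 - ε / 4 ≤ 3 / 2 - ε / 8 := by linarith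
  have H1 := Fw.of_lt (c' := 3 / 2 - ε / 4) (by linarith) ZF_main
  have H2 := Fw.of_lt (c' := 3 / 2 - ε / 4) e0 (ZE_main k h8)
  have H3 := Fw.of_lt (c' := 3 / 2 - ε / 4) (by linarith) (ZD_main hk1 h8)
  have H4 := Fw.of_lt (c' := 3 / 2 - ε / 4) e0 (ZA_main h8)
  have H5 := Fw.of_lt (c' := 3 / 2 - ε / 4) e0 (ZC_main h8)
  have H6 := Fw.of_lt (c' := 3 / 2 - ε / 4) e0 (ZB_main h8)
  have K1 := Fw.or (c' := 3 / 2 - ε * (3 / 8)) (by linarith) H1 H2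
  have K2 := Fw.or (c' := 3 / 2 - ε * (3 / 8)) (by linarith) H3 H4
  have K3 := Fw.or (c' := 3 / 2 - ε * (3 / 8)) (by linarith) H5 H6
  have K4 := Fw.or (c' := 3 / 2 - ε * (4 / 8)) (by linarith) K1 K2
  have K5 := Fw.of_lt (c' := 3 / 2 - ε * (4 / 8)) (by linarith) K3
  have K6 := Fw.or (c' := 3 / 2 - ε) (by linarith) K4 K5
  refine K6.mono' ?_
  obtain ⟨x₁, hx₁⟩ := zz_le
  refine ⟨x₁, fun x n hx hnx hn => ?_⟩
  obtain ⟨hn1, hn4, hexc2, hHH⟩ := hn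
  have hexc : Exc 3 n := PC.exc_of_exc2 (by decide) hexc2
  by_cases c1 : NoSq (P0 x) n
  swap
  · exact Or.inl (Or.inl (Or.inl ⟨hn1, c1⟩))
  by_cases c2 : ((range (YY 3 x)).filter (fun p => p.Prime ∧ Exact p n)).card < k
  · exact Or.inl (Or.inl (Or.inr ⟨hn1, hexc, hHH, c2⟩))
  push Not at c2
  by_cases c3 : ∃ w : ℕ, w.Prime ∧ w < YY 3 x ∧ w ∣ Phi 3 n
  · exact Or.inl (Or.inr (Or.inl ⟨hn1, hexc, c2, c3⟩))
  have hR : Rough (zz x) n := by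
    intro w hw hwn
    by_contra hlt
    push Not at hlt
    exact c3 ⟨w, hw, lt_of_lt_of_le hlt (hx₁ x hx), hwn⟩
  by_cases c4 : ∀ w : ℕ, w.Prime → w ∣ Phi 3 n → w % 4 = 1
  · exact Or.inl (Or.inr (Or.inr ⟨hn1, hn4, hexc2, hR, c4, c1⟩))
  push Not at c4
  have hPhi := Phi_three n
  have hmod : Phi 3 n % 4 = 1 := by
    rw [hPhi, pow_two]
    rcases hn4 with h | h <;> simp [Nat.add_mod, Nat.mul_mod, h]
  have hex : ∃ w : ℕ, w.Prime ∧ w % 4 = 3 ∧ w ∣ Phi 3 n := by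
    obtain ⟨w, hw, hwn, hw1⟩ := c4
    refine ⟨w, hw, ?_, hwn⟩
    have h3 : w ≠ 2 := by
      rintro rfl
      omega
    have h4 := hw.eq_two_or_odd
    omega
  obtain ⟨hw, hw4, hwn⟩ := Nat.find_spec hex
  set w := Nat.find hex with hwdef
  have hmin : ∀ u : ℕ, u.Prime → u % 4 = 3 → u ∣ Phi 3 n → w ≤ u := fun u h1 h2 h3 =>
    Nat.find_min' hex ⟨h1, h2, h3⟩
  have hsq : w ^ 2 ≤ Phi 3 n := by
    obtain ⟨v, hv⟩ := hwn
    have hv4 : v % 4 = 3 := by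
      have h1 : (w * v) % 4 = 1 := by rw [← hv]; exact hmod
      rw [Nat.mul_mod, hw4] at h1
      omega
    obtain ⟨u, hu, hu4, huv⟩ := exists_three hv4
    have h1 : w ≤ u := hmin u hu hu4 (by rw [hv]; exact huv.mul_left w)
    have h2 : u ≤ v := Nat.le_of_dvd (by omega) huv
    rw [hv, pow_two]
    exact Nat.mul_le_mul_left w (h1.trans h2)
  by_cases c5 : (w : ℝ) ≤ (x : ℝ) ^ (29 / 30 : ℝ)
  · exact Or.inr (Or.inl ⟨hexc, hR, w, hw, hw4, hwn, c5⟩)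
  · exact Or.inr (Or.inr ⟨hn1, hexc, hR, c1, w, hw, hw4, hwn, hsq, not_le.mp c5⟩)

theorem ZG_few {ε : ℝ} (hε : 0 < ε) :
    Few (fun n => 1 ≤ n ∧ PC.Exc2 3 n ∧ HH 3 n) (3 / 2 - ε) := by
  have h1 : Few (fun n => 1 ≤ n ∧ (n % 4 = 1 ∨ n % 4 = 2) ∧ Exc 3 n ∧ HH 3 n) (3 / 2 - ε) :=
    nt2' Nat.prime_three le_rfl (by norm_num) hε
  have h2 : Few (fun n => 1 ≤ n ∧ (n % 4 = 0 ∨ n % 4 = 3) ∧ PC.Exc2 3 n ∧ HH 3 n)
      (3 / 2 - ε) := by
    refine conv _ (fun x => cnt_le _ x) _ ?_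
    obtain ⟨x₀, h⟩ := ZG_main hε
    refine ⟨x₀, fun x hx => ?_⟩
    refine le_trans (le_of_eq ?_) (h x hx)
    exact @cnt_eq _ (fun n => Classical.propDecidable _) x
  refine (h1.or h2).mono ?_
  rintro n ⟨hn, he, hH⟩
  have h3 : n % 4 < 4 := Nat.mod_lt _ (by norm_num)
  by_cases h4 : n % 4 = 1 ∨ n % 4 = 2
  · exact Or.inl ⟨hn, h4, PC.exc_of_exc2 (by decide) he, hH⟩
  · exact Or.inr ⟨hn, by omega, he, hH⟩

end Pool.Agent.Lib.MP_79499b_co.PL
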