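import Pool.Agent.Lib.MP_79499b_co.PL.ZG

/-!
# ZH: planar orders: the non-primes are negligible

Proof: as `PC.main_prime` (PCMain.lean) with `ZG_few` instead of `nt2'` and without the condition on `n % 4`.
-/

set_option autoImplicit false

namespace Pool.Agent.Lib.MP_79499b_co.PL

open Finset Q38
open scoped Classical NumberTheorySymbols

theorem ZH_main : PC.Small (fun n => 2 ≤ n ∧ ¬ n.Prime ∧ PC.Exc2 3 n) := by
  have hlo : Odd 3 := by decide
  have h1 : PC.Small (fun n => 1 ≤ n ∧ PC.Exc2 3 n ∧ HH 3 n) := fun η hη =>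
    PC.few_small (c := 3 / 2 - 1 / 4) (by norm_num) (ZG_few (by norm_num)) hη
  refine (h1.or (PC.small_shape (l := 3) le_rfl hlo)).mono ?_
  rintro n ⟨hn, hnp, hexc2⟩
  have hexc := PC.exc_of_exc2 hlo hexc2
  by_cases hH : HH 3 n
  · exact Or.inl ⟨by omega, hexc2, hH⟩
  · right
    refine ⟨hn, hnp, hexc2, ?_⟩
    by_cases hsq : IsSq n
    · obtain ⟨b, hb⟩ := hsq
      exact ⟨1, b, 1, one_dvd 3, Or.inl rfl, by rw [one_mul, mul_one, hb]⟩
    · by_contra hshape
      apply hH
      refine HH_of_exc hn hexc hsq ?_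
      intro s q hq hnq
      exact hshape ⟨1, s, q, one_dvd 3, Or.inr hq, by rw [one_mul, hnq]⟩

end Pool.Agent.Lib.MP_79499b_co.PL
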